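import Pool.Agent.Work.MP_8491f2_lc.PathSeq

/-!
Decompositions of the blow-up and weighted decompositions.
-/

set_option autoImplicit false

namespace Pool.Agent.Work.MP_8491f2_lc

namespace Inst

variable {I : Inst} {n : ℕ} {G : SimpleGraph (Fin n)} {π : Fin n → Vx × ℕ}

private theorem dep_le (I : Inst) (τ : ℕ) : I.dep τ ≤ I.B := by
  unfold dep ht
  have := Nat.div_le_self (I.B - 3 * τ) I.κ
  omega

private theorem finite_valid (I : Inst) : {v : Vx | I.Valid v}.Finite := by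
  have h1 : ((Set.Iic I.T ×ˢ (Set.univ : Set Bool)) ×ˢ
      (insert none (some '' {w : Word | w.length ≤ I.B}) : Set (Option Word))).Finite := by
    refine ((Set.finite_Iic _).prod Set.finite_univ).prod ?_
    exact ((List.finite_length_le (Fin 3) I.B).image _).insert _
  refine h1.subset ?_
  rintro ⟨⟨τ, s⟩, o⟩ hv
  rcases o with _ | w
  · have hv' : τ < I.T := hv
    exact ⟨⟨hv'.le, Set.mem_univ _⟩, Set.mem_insert _ _⟩
  · have hv' : (τ < I.T ∨ (τ = I.T ∧ s = false)) ∧ w.length ≤ I.dep τ := hv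
    refine ⟨⟨?_, Set.mem_univ _⟩, Set.mem_insert_of_mem _ ⟨w, hv'.2.trans (dep_le I τ), rfl⟩⟩
    show τ ≤ I.T
    rcases hv'.1 with h | h
    · exact h.le
    · exact h.1.le

/-- Pairwise intersecting intervals have a common point. -/
private theorem helly {V : Type} (bag : ℕ → Finset V)
    (hi : ∀ v i j l, i ≤ j → j ≤ l → v ∈ bag i → v ∈ bag l → v ∈ bag j)
    (Q : Finset V) (hQ : ∀ u ∈ Q, ∀ v ∈ Q, ∃ t, u ∈ bag t ∧ v ∈ bag t) :
    ∃ t, ∀ v ∈ Q, v ∈ bag t := by
  classical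
  rcases Q.eq_empty_or_nonempty with rfl | hne
  · exact ⟨0, fun v hv => absurd hv (Finset.notMem_empty _)⟩
  · let a : V → ℕ := fun v => if h : ∃ t, v ∈ bag t then Nat.find h else 0
    have ha : ∀ v, ∀ h : ∃ t, v ∈ bag t, a v = Nat.find h := fun v h => dif_pos h
    obtain ⟨u, huQ, hu⟩ := Q.exists_max_image a hne
    refine ⟨a u, fun v hv => ?_⟩
    obtain ⟨s, h1, h2⟩ := hQ u huQ v hv
    have h3 : a v ≤ a u := hu v hv
    have h4 : a u ≤ s := by
      rw [ha u ⟨s, h1⟩]; exact Nat.find_le h1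
    have h5 : v ∈ bag (a v) := by
      rw [ha v ⟨s, h2⟩]; exact Nat.find_spec (⟨s, h2⟩ : ∃ t, v ∈ bag t)
    exact hi v (a v) (a u) s h3 h4 h5 h2

private theorem card_blow (h : I.IsBlow G π) (F : Finset Vx) :
    (Finset.univ.filter fun i => (π i).1 ∈ F).card ≤ ∑ v ∈ F, I.wt v := by
  classical
  have h1 : ∑ v ∈ F, I.wt v = (F.sigma fun v => Finset.range (I.wt v)).card := by
    rw [Finset.card_sigma]; simp
  rw [h1]
  refine Finset.card_le_card_of_injOn (fun i => (⟨(π i).1, (π i).2⟩ : Σ _ : Vx, ℕ)) ?_ ?_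
  · intro i hi
    have hi' : (π i).1 ∈ F := by simpa using hi
    simp only [Finset.coe_sigma, Set.mem_sigma_iff, Finset.mem_coe, Finset.mem_range]
    exact ⟨hi', (h.valid i).2⟩
  · intro i _ j _ hij
    apply h.inj
    have h2 : (⟨(π i).1, (π i).2⟩ : Σ _ : Vx, ℕ) = ⟨(π j).1, (π j).2⟩ := hij
    rw [Sigma.mk.injEq] at h2
    exact Prod.ext h2.1 (eq_of_heq h2.2)

/-- A path decomposition of the blow-up gives a weighted path decomposition: keep in a bag those
vertices whose whole clique is contained in the bag (Helly property of intervals). -/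
theorem IsBlow.exists_wpd (h : I.IsBlow G π) {k : ℕ} (hk : PwLe G k) :
    ∃ bag, I.IsWPD (k + 1) bag := by
  classical
  obtain ⟨L, bag, -, hv, he, hi, hc⟩ := (pwLe_iff_seq G k).1 hk
  have key : ∀ P : Vx → Prop, (∀ x y, P x → P y → x ≠ y → (I.E x y ∨ I.E y x)) →
      ∃ t, ∀ i, P (π i).1 → i ∈ bag t := by
    intro P hP
    obtain ⟨t, ht⟩ := helly bag hi (Finset.univ.filter fun i => P (π i).1) (by
      intro u hu v hv'
      have hu' : P (π u).1 := by simpa using hu
      have hv'' : P (π v).1 := by simpa using hv'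
      by_cases huv : u = v
      · subst huv
        obtain ⟨t, ht⟩ := hv u
        exact ⟨t, ht, ht⟩
      · apply he
        rw [h.adj]
        by_cases h1 : (π u).1 = (π v).1
        · left
          refine ⟨h1, fun h2 => huv (h.inj (Prod.ext h1 h2))⟩
        · right
          exact ⟨h1, hP _ _ hu' hv'' h1⟩)
    exact ⟨t, fun i hi' => ht i (by simpa using hi')⟩
  let S : Finset Vx := (finite_valid I).toFinset
  have hS : ∀ v, v ∈ S ↔ I.Valid v := fun v => by simp [S]
  let bag' : ℕ → Finset Vx := fun t => S.filter fun v => ∀ j < I.wt v, ∃ i ∈ bag t, π i = (v, j)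
  have hb : ∀ t v, v ∈ bag' t ↔ I.Valid v ∧ ∀ j < I.wt v, ∃ i ∈ bag t, π i = (v, j) := by
    intro t v
    simp only [bag', Finset.mem_filter, hS]
  have key2 : ∀ P : Vx → Prop, (∀ x y, P x → P y → x ≠ y → (I.E x y ∨ I.E y x)) →
      ∃ t, ∀ v, I.Valid v → P v → v ∈ bag' t := by
    intro P hP
    obtain ⟨t, ht⟩ := key P hP
    refine ⟨t, fun v hv' hPv => (hb t v).2 ⟨hv', fun j hj => ?_⟩⟩
    obtain ⟨i, hi'⟩ := h.surj (v, j) ⟨hv', hj⟩
    refine ⟨i, ht i ?_, hi'⟩
    rw [hi']; exact hPv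
  refine ⟨bag', ?_⟩
  constructor
  · intro t v hv'
    exact ((hb t v).1 hv').1
  · intro v hv'
    obtain ⟨t, ht⟩ := key2 (fun x => x = v) (fun x y hx hy hxy => absurd (hx.trans hy.symm) hxy)
    exact ⟨t, ht v hv' rfl⟩
  · intro u v hu hv' huv
    obtain ⟨t, ht⟩ := key2 (fun x => x = u ∨ x = v) (by
      rintro x y (rfl | rfl) (rfl | rfl) hxy
      · exact absurd rfl hxy
      · exact Or.inl huv
      · exact Or.inr huv
      · exact absurd rfl hxy)
    exact ⟨t, ht u hu (Or.inl rfl), ht v hv' (Or.inr rfl)⟩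
  · intro v i j l hij hjl h1 h2
    rw [hb] at h1 h2 ⊢
    refine ⟨h1.1, fun m hm => ?_⟩
    obtain ⟨a, ha, ha'⟩ := h1.2 m hm
    obtain ⟨b, hb', hb''⟩ := h2.2 m hm
    have hab : a = b := h.inj (ha'.trans hb''.symm)
    subst hab
    exact ⟨a, hi a i j l hij hjl ha hb', ha'⟩
  · intro t
    refine le_trans ?_ (hc t)
    have h1 : ∑ v ∈ bag' t, I.wt v = ((bag' t).sigma fun v => Finset.range (I.wt v)).card := by
      rw [Finset.card_sigma]; simp
    rw [h1]
    refine Finset.card_le_card_of_surjOn (fun i => (⟨(π i).1, (π i).2⟩ : Σ _ : Vx, ℕ)) ?_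
    rintro ⟨v, j⟩ hx
    simp only [Finset.coe_sigma, Set.mem_sigma_iff, Finset.mem_coe, Finset.mem_range] at hx
    obtain ⟨i, hi1, hi2⟩ := ((hb t v).1 hx.1).2 j hx.2
    refine ⟨i, hi1, ?_⟩
    show (⟨(π i).1, (π i).2⟩ : Σ _ : Vx, ℕ) = ⟨v, j⟩
    rw [hi2]

/-- A weighted path decomposition gives a path decomposition of the blow-up. -/
theorem IsBlow.pwLe (h : I.IsBlow G π) {W : ℕ} {bag : ℕ → Finset Vx} (hb : I.IsWPD (W + 1) bag)
    (hL : ∃ L, ∀ t, L ≤ t → bag t = ∅) : PwLe G W := by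
  classical
  obtain ⟨L, hL⟩ := hL
  rw [pwLe_iff_seq]
  refine ⟨L, fun t => Finset.univ.filter fun i => (π i).1 ∈ bag t, ?_, ?_, ?_, ?_, ?_⟩
  · intro t ht
    simp [hL t ht]
  · intro i
    obtain ⟨t, ht⟩ := hb.vert (π i).1 (h.valid i).1
    exact ⟨t, by simpa using ht⟩
  · intro u v huv
    rw [h.adj] at huv
    rcases huv with ⟨h1, _⟩ | ⟨_, h1 | h1⟩
    · obtain ⟨t, ht⟩ := hb.vert (π u).1 (h.valid u).1
      exact ⟨t, by simpa using ht, by rw [h1] at ht; simpa using ht⟩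
    · obtain ⟨t, h2, h3⟩ := hb.edge _ _ (h.valid u).1 (h.valid v).1 h1
      exact ⟨t, by simpa using h2, by simpa using h3⟩
    · obtain ⟨t, h2, h3⟩ := hb.edge _ _ (h.valid v).1 (h.valid u).1 h1
      exact ⟨t, by simpa using h3, by simpa using h2⟩
  · intro v i j l hij hjl h1 h2
    have h1' : (π v).1 ∈ bag i := by simpa using h1
    have h2' : (π v).1 ∈ bag l := by simpa using h2
    have h3 := hb.ivl _ i j l hij hjl h1' h2'
    simpa using h3
  · intro t
    exact (card_blow h (bag t)).trans (hb.wt_le t)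

/-- A weighted tree decomposition gives a tree decomposition of the blow-up. -/
theorem IsBlow.twLe (h : I.IsBlow G π) {W : ℕ} (hb : I.WTD (W + 1)) : TwLe G W := by
  classical
  obtain ⟨X, hX, T, B, hT, he, hc, hw⟩ := hb
  have hconn : ∀ v, (T.induce {x | v ∈ (Finset.univ.filter fun i => (π i).1 ∈ B x)}).Connected := by
    intro v
    have h1 := hc (π v).1 (h.valid v).1
    have h2 : {x | v ∈ (Finset.univ.filter fun i => (π i).1 ∈ B x)} = {x | (π v).1 ∈ B x} := by
      ext x; simp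
    rw [h2]; exact h1
  refine ⟨X, hX, T, fun x => Finset.univ.filter fun i => (π i).1 ∈ B x, ⟨hT, ?_, hconn⟩, ?_⟩
  · intro u v huv
    rw [h.adj] at huv
    rcases huv with ⟨h1, _⟩ | ⟨_, h1 | h1⟩
    · obtain ⟨⟨x, hx⟩⟩ := (hc (π u).1 (h.valid u).1).nonempty
      have hx' : (π u).1 ∈ B x := hx
      exact ⟨x, by simpa using hx', by rw [h1] at hx'; simpa using hx'⟩
    · obtain ⟨t, h2, h3⟩ := he _ _ (h.valid u).1 (h.valid v).1 h1
      exact ⟨t, by simpa using h2, by simpa using h3⟩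
    · obtain ⟨t, h2, h3⟩ := he _ _ (h.valid v).1 (h.valid u).1 h1
      exact ⟨t, by simpa using h3, by simpa using h2⟩
  · intro x
    exact (card_blow h (B x)).trans (hw x)

end Inst

end Pool.Agent.Work.MP_8491f2_lc
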