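import Pool.Agent.Work.MP_8491f2_lc.BuildDefs

/-!
Correctness of the algorithm that writes down the graph, part 1.
-/

set_option autoImplicit false

namespace Pool.Agent.Work.MP_8491f2_lc

private theorem lev_zero (P : ℕ) : lev P 0 = [[]] := rfl

private theorem lev_succ (P j : ℕ) : lev P (j + 1) =
    ((lev P j).flatMap fun w => [0 :: w, 1 :: w, 2 :: w]).take P := by
  unfold lev
  rw [List.range_succ, List.foldl_append]
  rfl

private theorem length_step (l : List Word) :
    (l.flatMap fun w => [(0 : Fin 3) :: w, 1 :: w, 2 :: w]).length = 3 * l.length := by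
  induction l with
  | nil => rfl
  | cons a l ih =>
    rw [List.flatMap_cons, List.length_append, ih, List.length_cons]
    simp
    omega

theorem length_lev_le (P j : ℕ) : (lev P j).length ≤ 3 ^ j := by
  induction j with
  | zero => simp [lev_zero]
  | succ j ih =>
    rw [lev_succ, List.length_take, length_step, pow_succ]
    omega

theorem length_of_mem_lev (P j : ℕ) : ∀ w : Word, w ∈ lev P j → w.length = j := by
  induction j with
  | zero =>
    intro w hw
    rw [lev_zero, List.mem_singleton] at hw
    rw [hw]; rfl
  | succ j ih =>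
    intro w hw
    rw [lev_succ] at hw
    have hw2 := List.mem_of_mem_take hw
    rw [List.mem_flatMap] at hw2
    obtain ⟨u, hu, hw3⟩ := hw2
    have := ih u hu
    simp only [List.mem_cons, List.not_mem_nil, or_false] at hw3
    rcases hw3 with rfl | rfl | rfl <;> simp [this]

theorem mem_lev {P j : ℕ} (h : 3 ^ j ≤ P) (w : Word) : w ∈ lev P j ↔ w.length = j := by
  refine ⟨length_of_mem_lev P j w, ?_⟩
  revert w
  induction j with
  | zero =>
    intro w hw
    rw [lev_zero, List.mem_singleton]
    exact List.length_eq_zero_iff.mp hw
  | succ j ih =>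
    intro w hw
    have h1 : 3 ^ j ≤ P := le_trans (Nat.pow_le_pow_right (by norm_num) (Nat.le_succ j)) h
    cases w with
    | nil => simp at hw
    | cons a w =>
      have hw' : w.length = j := by simpa using hw
      have hmem := ih h1 w hw'
      rw [lev_succ, List.take_of_length_le]
      · rw [List.mem_flatMap]
        refine ⟨w, hmem, ?_⟩
        fin_cases a <;> simp
      · rw [length_step]
        have := length_lev_le P j
        rw [pow_succ] at h
        omega

theorem nodup_lev (P j : ℕ) : (lev P j).Nodup := by
  induction j with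
  | zero => rw [lev_zero]; exact List.nodup_singleton _
  | succ j ih =>
    rw [lev_succ]
    refine List.Nodup.sublist (List.take_sublist _ _) ?_
    rw [List.nodup_flatMap]
    constructor
    · intro w _
      simp
    · refine List.Pairwise.imp ?_ ih
      intro u w huw x hx hy
      simp only [List.mem_cons, List.not_mem_nil, or_false] at hx hy
      apply huw
      have hx2 : x.tail = u := by rcases hx with rfl | rfl | rfl <;> rfl
      have hy2 : x.tail = w := by rcases hy with rfl | rfl | rfl <;> rfl
      rw [← hx2, hy2]

theorem mem_words {P m : ℕ} (h : 3 ^ m ≤ P) (w : Word) : w ∈ words P m ↔ w.length ≤ m := by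
  unfold words
  rw [List.mem_flatMap]
  constructor
  · rintro ⟨j, hj, hw⟩
    rw [List.mem_range] at hj
    rw [length_of_mem_lev P j w hw]
    omega
  · intro hw
    refine ⟨w.length, List.mem_range.mpr (by omega), ?_⟩
    refine (mem_lev (le_trans (Nat.pow_le_pow_right (by norm_num) hw) h) w).mpr rfl

theorem nodup_words (P m : ℕ) : (words P m).Nodup := by
  unfold words
  rw [List.nodup_flatMap]
  refine ⟨fun j _ => nodup_lev P j, ?_⟩
  refine List.Pairwise.imp ?_ (List.nodup_range (n := m + 1))
  intro i j hij x hx hy
  apply hij
  rw [← length_of_mem_lev P i x hx, length_of_mem_lev P j x hy]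

theorem length_words_le (P m : ℕ) : (words P m).length ≤ 3 ^ (m + 1) := by
  unfold words
  induction m with
  | zero =>
    have := length_lev_le P 0
    simp [List.range_succ] at this ⊢
    omega
  | succ m ih =>
    rw [List.range_succ, List.flatMap_append, List.length_append]
    have h1 := length_lev_le P (m + 1)
    have h2 : ([m + 1].flatMap (lev P)).length = (lev P (m + 1)).length := by simp
    rw [h2, pow_succ 3 (m + 1)]
    omega

theorem divC_eq (a : ℕ) {b : ℕ} (hb : 0 < b) : divC a b = a / b := by
  unfold divC
  have hle : a / b ≤ a := Nat.div_le_self a b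
  obtain ⟨c, hc⟩ := Nat.exists_eq_add_of_le hle
  have hk : ∀ q, decide ((q + 1) * b ≤ a) = decide (q < a / b) := by
    intro q
    congr 1
    rw [← Nat.le_div_iff_mul_le hb]
    rfl
  have hr : List.range a = List.range (a / b) ++ (List.range c).map (a / b + ·) := by
    conv_lhs => rw [hc]
    exact List.range_add
  rw [hr, List.filter_append, List.length_append]
  have h1 : (List.range (a / b)).filter (fun q => decide ((q + 1) * b ≤ a)) =
      List.range (a / b) := by
    rw [List.filter_eq_self]
    intro q hq
    rw [hk]
    simpa using hq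
  have h2 : ((List.range c).map (a / b + ·)).filter (fun q => decide ((q + 1) * b ≤ a)) =
      [] := by
    rw [List.filter_eq_nil_iff]
    intro q hq
    rw [List.mem_map] at hq
    obtain ⟨i, _, rfl⟩ := hq
    rw [hk]
    simp
  rw [h1, h2]
  simp

theorem depC_eq {κ : ℕ} (hκ : 0 < κ) (C : List Quad) (τ : ℕ) :
    depC (κ, C) τ = (instOf κ C).dep τ := by
  unfold depC
  rw [divC_eq _ hκ]
  rfl

theorem lamC_eq {κ : ℕ} (hκ : 0 < κ) (C : List Quad) (τ : ℕ) :
    lamC (κ, C) τ = (instOf κ C).lam τ := by
  unfold lamC
  rw [divC_eq _ hκ]
  show κ + (htC (κ, C) τ - κ * (htC (κ, C) τ / κ)) = κ + htC (κ, C) τ % κ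
  rw [Nat.mod_eq_sub_mul_div]

theorem wtC_eq {κ : ℕ} (hκ : 0 < κ) (C : List Quad) (v : Vx) :
    wtC (κ, C) v = (instOf κ C).wt v := by
  obtain ⟨⟨τ, s⟩, w⟩ := v
  cases w with
  | none =>
    show (bif hvOf C τ && !s then 4 else 3) = if hvOf C τ = true ∧ s = false then 4 else 3
    cases hvOf C τ <;> cases s <;> simp
  | some w =>
    show (bif decide (w.length = depC (κ, C) τ) then lamC (κ, C) τ else κ) =
      if w.length = (instOf κ C).dep τ then (instOf κ C).lam τ else κ
    rw [depC_eq hκ, lamC_eq hκ]
    by_cases h : w.length = (instOf κ C).dep τ <;> simp [h]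

theorem eC_iff {κ : ℕ} {C : List Quad} (u v : Vx) :
    eC (κ, C) u v = true ↔ (instOf κ C).E u v := by
  obtain ⟨⟨τ, s⟩, w⟩ := u
  obtain ⟨⟨τ', s'⟩, w'⟩ := v
  constructor
  · intro h
    cases w with
    | none =>
      cases w' with
      | none =>
        simp only [eC, Option.elim_none, Bool.or_eq_true, Bool.and_eq_true, Bool.not_eq_true',
          decide_eq_true_eq] at h
        rcases h with ⟨h1, h2, h3⟩ | ⟨h1, h2, h3⟩
        · subst h1; subst h2; subst h3
          exact Inst.E.sides τ
        · subst h1; subst h3
          exact Inst.E.next τ s h2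
      | some w' => simp [eC] at h
    | some w =>
      cases w' with
      | none =>
        simp only [eC, Option.elim_none, Option.elim_some, Bool.or_eq_true, Bool.and_eq_true,
          Bool.not_eq_true', decide_eq_true_eq, Prod.mk.injEq] at h
        obtain ⟨rfl, ⟨⟨h1, h2⟩, h3⟩ | ⟨h1, h2, h3⟩ | ⟨h1, h2, h3⟩⟩ := h
        · subst h1; subst h2
          exact Inst.E.root τ s h3
        · subst h1; subst h3
          exact Inst.E.rootNext τ' s h2
        · subst h2; subst h3
          exact Inst.E.center τ' s' h1
      | some w' =>
        simp only [eC, Option.elim_some, Bool.and_eq_true,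
          Bool.not_eq_true', decide_eq_true_eq, decide_eq_false_iff_not, Prod.mk.injEq] at h
        obtain ⟨⟨h1, h2⟩, h3, h4⟩ := h
        subst h1; subst h2; subst h4
        cases w with
        | nil => exact absurd rfl h3
        | cons a w => exact Inst.E.child τ s w a
  · intro h
    cases h with
    | sides => simp [eC]
    | next _ _ h =>
      change nxOf C τ < 9 * C.length at h
      simpa [eC, instOf] using h
    | root _ _ h =>
      change τ < 9 * C.length at h
      simp [eC, h]
    | rootNext _ _ h =>
      change nxOf C τ' < 9 * C.length at h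
      simp [eC, instOf, h]
    | center _ _ h =>
      change nxOf C τ' = 9 * C.length at h
      simp [eC, instOf, h]
    | child _ _ _ _ => simp [eC]

end Pool.Agent.Work.MP_8491f2_lc
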