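import Pool.Agent.Work.MP_8491f2_lc.BuildA

/-!
Correctness of the algorithm that writes down the graph, part 2.
-/

set_option autoImplicit false

namespace Pool.Agent.Work.MP_8491f2_lc

private theorem dep_add_one_le {κ : ℕ} (hκ : 0 < κ) (C : List Quad) (τ : ℕ) :
    (instOf κ C).dep τ + 1 ≤ (27 * C.length + 2 * κ + 10) / κ := by
  show (27 * C.length + 2 * κ + 10 - 3 * τ) / κ - 1 + 1 ≤ (27 * C.length + 2 * κ + 10) / κ
  have h1 : (27 * C.length + 2 * κ + 10 - 3 * τ) / κ ≤ (27 * C.length + 2 * κ + 10) / κ :=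
    Nat.div_le_div_right (Nat.sub_le _ _)
  have h2 : 1 ≤ (27 * C.length + 2 * κ + 10) / κ := by
    rw [Nat.le_div_iff_mul_le hκ]
    omega
  omega

private theorem pow_dep_le {κ : ℕ} (hκ : 0 < κ) {C : List Quad} {P : ℕ}
    (hP : 3 ^ ((27 * C.length + 2 * κ + 10) / κ) ≤ P) (τ : ℕ) :
    3 ^ (instOf κ C).dep τ ≤ P := by
  refine le_trans (Nat.pow_le_pow_right (by norm_num) ?_) hP
  have := dep_add_one_le hκ C τ
  omega

theorem mem_vxC {κ : ℕ} (hκ : 0 < κ) {C : List Quad} {P : ℕ}
    (hP : 3 ^ ((27 * C.length + 2 * κ + 10) / κ) ≤ P) (v : Vx) :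
    v ∈ vxC (κ, C) P ↔ (instOf κ C).Valid v := by
  have hw : ∀ (τ : ℕ) (w : Word), w ∈ words P (depC (κ, C) τ) ↔
      w.length ≤ (instOf κ C).dep τ := by
    intro τ w
    rw [depC_eq hκ]
    exact mem_words (pow_dep_le hκ hP τ) w
  obtain ⟨⟨τ, s⟩, w⟩ := v
  unfold vxC unitC
  simp only [List.mem_append, List.mem_flatMap, List.mem_range, List.mem_cons, List.mem_map,
    Prod.mk.injEq, hw]
  cases w with
  | none =>
    show _ ↔ τ < 9 * C.length
    constructor
    · rintro (⟨a, ha, h⟩ | ⟨w, _, h⟩)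
      · rcases h with ⟨⟨rfl, _⟩, _⟩ | ⟨⟨rfl, _⟩, _⟩ | ⟨w, _, h⟩ | ⟨w, _, h⟩
        · exact ha
        · exact ha
        · simp at h
        · simp at h
      · simp at h
    · intro h
      left
      refine ⟨τ, h, ?_⟩
      cases s
      · left; simp
      · right; left; simp
  | some w =>
    show _ ↔ (τ < 9 * C.length ∨ (τ = 9 * C.length ∧ s = false)) ∧
      w.length ≤ (instOf κ C).dep τ
    constructor
    · rintro (⟨a, ha, h⟩ | ⟨w', hw', ⟨rfl, rfl⟩, h⟩)
      · rcases h with ⟨_, h⟩ | ⟨_, h⟩ | ⟨w', hw', ⟨rfl, rfl⟩, h⟩ | ⟨w', hw', ⟨rfl, rfl⟩, h⟩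
        · simp at h
        · simp at h
        · rw [← Option.some.inj h]
          exact ⟨Or.inl ha, hw'⟩
        · rw [← Option.some.inj h]
          exact ⟨Or.inl ha, hw'⟩
      · rw [← Option.some.inj h]
        exact ⟨Or.inr ⟨rfl, rfl⟩, hw'⟩
    · rintro ⟨h1 | ⟨rfl, rfl⟩, h2⟩
      · left
        refine ⟨τ, h1, ?_⟩
        cases s
        · right; right; left
          exact ⟨w, h2, ⟨rfl, rfl⟩, rfl⟩
        · right; right; right
          exact ⟨w, h2, ⟨rfl, rfl⟩, rfl⟩
      · right
        exact ⟨w, h2, ⟨rfl, rfl⟩, rfl⟩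

private theorem unit_of_mem_unitC {x : ℕ × List Quad} {P τ : ℕ} {v : Vx}
    (h : v ∈ unitC x P τ) : v.1.1 = τ := by
  unfold unitC at h
  simp only [List.mem_append, List.mem_cons, List.mem_map] at h
  rcases h with rfl | rfl | ⟨w, _, rfl⟩ | ⟨w, _, rfl⟩ <;> rfl

private theorem nodup_unitC (x : ℕ × List Quad) (P τ : ℕ) : (unitC x P τ).Nodup := by
  unfold unitC
  rw [List.nodup_cons, List.nodup_cons, List.nodup_append']
  refine ⟨?_, ?_, ?_, ?_, ?_⟩
  · simp
  · simp
  · exact (nodup_words P _).map (fun a b h => by simpa using h)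
  · exact (nodup_words P _).map (fun a b h => by simpa using h)
  · intro v hv hv'
    rw [List.mem_map] at hv hv'
    obtain ⟨w, _, rfl⟩ := hv
    obtain ⟨w', _, h⟩ := hv'
    simp at h

private theorem nodup_vxC (x : ℕ × List Quad) (P : ℕ) : (vxC x P).Nodup := by
  unfold vxC
  rw [List.nodup_append']
  refine ⟨?_, ?_, ?_⟩
  · rw [List.nodup_flatMap]
    refine ⟨fun τ _ => nodup_unitC x P τ, ?_⟩
    refine List.Pairwise.imp ?_ (List.nodup_range (n := 9 * x.2.length))
    intro i j hij v hv hv'
    exact hij ((unit_of_mem_unitC hv).symm.trans (unit_of_mem_unitC hv'))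
  · exact (nodup_words P _).map (fun a b h => by simpa using h)
  · intro v hv hv'
    rw [List.mem_flatMap] at hv
    obtain ⟨τ, hτ, hv⟩ := hv
    rw [List.mem_map] at hv'
    obtain ⟨w, _, rfl⟩ := hv'
    have := unit_of_mem_unitC hv
    rw [List.mem_range] at hτ
    simp only at this
    omega

theorem nodup_bvxC (x : ℕ × List Quad) (P : ℕ) : (bvxC x P).Nodup := by
  unfold bvxC
  rw [List.nodup_flatMap]
  constructor
  · intro v _
    exact List.nodup_range.map (fun a b h => by simpa using h)
  · refine List.Pairwise.imp ?_ (nodup_vxC x P)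
    intro u v huv y hy hy'
    rw [List.mem_map] at hy hy'
    obtain ⟨i, _, rfl⟩ := hy
    obtain ⟨j, _, h⟩ := hy'
    apply huv
    simp only [Prod.mk.injEq] at h
    exact h.1.symm

private theorem mem_bvxC {κ : ℕ} (hκ : 0 < κ) {C : List Quad} {P : ℕ}
    (hP : 3 ^ ((27 * C.length + 2 * κ + 10) / κ) ≤ P) (y : Vx × ℕ) :
    y ∈ bvxC (κ, C) P ↔ (instOf κ C).BValid y := by
  unfold bvxC Inst.BValid
  rw [List.mem_flatMap]
  constructor
  · rintro ⟨v, hv, hy⟩
    rw [List.mem_map] at hy
    obtain ⟨j, hj, rfl⟩ := hy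
    rw [List.mem_range, wtC_eq hκ] at hj
    exact ⟨(mem_vxC hκ hP v).mp hv, hj⟩
  · rintro ⟨h1, h2⟩
    refine ⟨y.1, (mem_vxC hκ hP y.1).mpr h1, ?_⟩
    rw [List.mem_map]
    exact ⟨y.2, by rw [List.mem_range, wtC_eq hκ]; exact h2, rfl⟩

private theorem badjC_iff {κ : ℕ} (C : List Quad) (u v : Vx × ℕ) :
    badjC (κ, C) u v = true ↔ (instOf κ C).BAdj u v := by
  unfold badjC Inst.BAdj
  simp only [Bool.or_eq_true, Bool.and_eq_true, Bool.not_eq_true', decide_eq_true_eq,
    decide_eq_false_iff_not, eC_iff, ne_eq]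

theorem isBlow_graphC {κ : ℕ} (hκ : 0 < κ) {C : List Quad} {P : ℕ}
    (hP : 3 ^ ((27 * C.length + 2 * κ + 10) / κ) ≤ P) :
    (instOf κ C).IsBlow (graphC (κ, C) P) (bvxC (κ, C) P).get := by
  refine ⟨List.nodup_iff_injective_get.mp (nodup_bvxC _ _), ?_, ?_, ?_⟩
  · intro i
    exact (mem_bvxC hκ hP _).mp (List.get_mem _ i)
  · intro y hy
    have := (mem_bvxC hκ hP y).mpr hy
    exact List.mem_iff_get.mp this
  · intro i j
    show (i ≠ j ∧ badjC (κ, C) _ _ = true) ↔ _
    rw [badjC_iff]
    constructor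
    · exact fun h => h.2
    · intro h
      refine ⟨?_, h⟩
      rintro rfl
      rcases h with h | h
      · exact h.2 rfl
      · exact h.1 rfl

private theorem map_get_finRange {α β : Type} (l : List α) (f : α → β) :
    ((List.finRange l.length).map fun i => f (l.get i)) = l.map f := by
  apply List.ext_getElem
  · simp
  · intro i h1 h2
    simp

private theorem matrix_get {α β : Type} (l : List α) (F : α → α → β) :
    ((List.finRange l.length).flatMap fun i => (List.finRange l.length).map fun j =>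
      F (l.get i) (l.get j)) = l.flatMap fun u => l.map fun v => F u v := by
  have h1 : ∀ i : Fin l.length, ((List.finRange l.length).map fun j =>
      F (l.get i) (l.get j)) = l.map fun v => F (l.get i) v :=
    fun i => map_get_finRange l (F (l.get i))
  simp only [h1]
  rw [List.flatMap_def, List.flatMap_def,
    map_get_finRange l (fun u => l.map fun v => F u v)]

theorem encGraph_graphC (x : ℕ × List Quad) (P : ℕ) :
    encGraph (graphC x P) = wordC x P := by
  classical
  unfold encGraph wordC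
  have h1 : List.replicate (bvxC x P).length true = (bvxC x P).map (fun _ => true) := by
    rw [List.map_const']
  have hself : ∀ u : Vx × ℕ, badjC x u u = false := by
    intro u
    simp [badjC]
  have h2 : ∀ i j : Fin (bvxC x P).length, decide ((graphC x P).Adj i j) =
      badjC x ((bvxC x P).get i) ((bvxC x P).get j) := by
    intro i j
    by_cases hij : i = j
    · subst hij
      rw [hself]
      simp
    · by_cases hb : badjC x ((bvxC x P).get i) ((bvxC x P).get j) = true
      · rw [hb, decide_eq_true_iff]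
        exact ⟨hij, hb⟩
      · rw [Bool.not_eq_true] at hb
        rw [hb, decide_eq_false_iff_not]
        intro h
        have h3 : badjC x ((bvxC x P).get i) ((bvxC x P).get j) = true := h.2
        rw [hb] at h3
        exact Bool.false_ne_true h3
  rw [h1, ← matrix_get (bvxC x P) (badjC x)]
  simp only [h2]

private theorem wt_le {κ : ℕ} (hκ : 6 ≤ κ) (C : List Quad) (v : Vx) :
    (instOf κ C).wt v ≤ 2 * κ := by
  obtain ⟨⟨τ, s⟩, w⟩ := v
  cases w with
  | none =>
    show (if hvOf C τ = true ∧ s = false then 4 else 3) ≤ 2 * κ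
    split_ifs <;> omega
  | some w =>
    show (if w.length = (instOf κ C).dep τ then (instOf κ C).lam τ else κ) ≤ 2 * κ
    split_ifs
    · show κ + _ % κ ≤ 2 * κ
      have := Nat.mod_lt ((instOf κ C).ht τ) (show 0 < κ by omega)
      change (instOf κ C).ht τ % (instOf κ C).κ < κ at this
      show κ + (instOf κ C).ht τ % (instOf κ C).κ ≤ 2 * κ
      omega
    · omega

private theorem length_flatMap_le {α β : Type} (l : List α) (f : α → List β) (b : ℕ)
    (h : ∀ a ∈ l, (f a).length ≤ b) : (l.flatMap f).length ≤ l.length * b := by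
  induction l with
  | nil => simp
  | cons a l ih =>
    rw [List.flatMap_cons, List.length_append, List.length_cons, Nat.add_mul, Nat.one_mul]
    have h1 := h a (by simp)
    have h2 := ih (fun c hc => h c (by simp [hc]))
    omega

/-- The number of vertices. -/
theorem length_bvxC_le {κ : ℕ} (hκ : 6 ≤ κ) (C : List Quad) (P : ℕ) :
    (bvxC (κ, C) P).length + 1 ≤
      (18 * C.length + 2) * (6 * κ) * 3 ^ ((27 * C.length + 2 * κ + 10) / κ) := by
  have hκ0 : 0 < κ := by omega
  set Q := 3 ^ ((27 * C.length + 2 * κ + 10) / κ) with hQ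
  have hQ1 : 1 ≤ Q := Nat.one_le_pow _ _ (by norm_num)
  have hwords : ∀ τ, (words P (depC (κ, C) τ)).length ≤ Q := by
    intro τ
    refine le_trans (length_words_le _ _) ?_
    rw [depC_eq hκ0]
    exact Nat.pow_le_pow_right (by norm_num) (dep_add_one_le hκ0 C τ)
  have hunit : ∀ τ, (unitC (κ, C) P τ).length ≤ 4 * Q := by
    intro τ
    unfold unitC
    simp only [List.length_cons, List.length_append, List.length_map]
    have := hwords τ
    omega
  have hvx : (vxC (κ, C) P).length ≤ (36 * C.length + 1) * Q := by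
    unfold vxC
    rw [List.length_append, List.length_map]
    have h1 := length_flatMap_le (List.range (9 * C.length)) (unitC (κ, C) P) (4 * Q)
      (fun τ _ => hunit τ)
    rw [List.length_range] at h1
    have h2 := hwords (9 * C.length)
    have h3 : (36 * C.length + 1) * Q = 9 * C.length * (4 * Q) + Q := by ring
    rw [h3]
    exact Nat.add_le_add h1 h2
  have hb : (bvxC (κ, C) P).length ≤ (36 * C.length + 1) * Q * (2 * κ) := by
    unfold bvxC
    refine le_trans (length_flatMap_le _ _ (2 * κ) ?_) (Nat.mul_le_mul_right _ hvx)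
    intro v _
    rw [List.length_map, List.length_range, wtC_eq hκ0]
    exact wt_le hκ C v
  have h4 : (18 * C.length + 2) * (6 * κ) * Q =
      (36 * C.length + 1) * Q * (2 * κ) + (18 * C.length + 5) * (Q * (2 * κ)) := by ring
  rw [h4]
  have h5 : 1 ≤ (18 * C.length + 5) * (Q * (2 * κ)) := by
    refine Nat.one_le_iff_ne_zero.mpr ?_
    refine Nat.mul_ne_zero (by omega) (Nat.mul_ne_zero (by omega) (by omega))
  omega

end Pool.Agent.Work.MP_8491f2_lc
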