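import Pool.Agent.Work.MP_8491f2_lc.UnitsDefs

/-!
The algorithm that writes down the graph of an exactly-2-in-4 formula.

`P` is a bound for the numbers of words (it is a power of three in the application); all functions
below are polynomial-time computable from `x = (κ, C)` and `P` (and their other arguments).
-/

set_option autoImplicit false

namespace Pool.Agent.Work.MP_8491f2_lc

/-- The words of length `j` (at most `P` of them). -/
def lev (P j : ℕ) : List Word := (List.range j).foldl
  (fun l _ => (l.flatMap fun w => [0 :: w, 1 :: w, 2 :: w]).take P) [[]]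

/-- The words of length at most `m`. -/
def words (P m : ℕ) : List Word := (List.range (m + 1)).flatMap (lev P)

/-- Division by counting. -/
def divC (a b : ℕ) : ℕ := ((List.range a).filter fun q => decide ((q + 1) * b ≤ a)).length

/-- The height of the anchors of the unit `τ`. -/
def htC (x : ℕ × List Quad) (τ : ℕ) : ℕ := 27 * x.2.length + 2 * x.1 + 10 - 3 * τ

/-- The depth of the anchors of the unit `τ`. -/
def depC (x : ℕ × List Quad) (τ : ℕ) : ℕ := divC (htC x τ) x.1 - 1

/-- The weight of the leaves of the anchors of the unit `τ`. -/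
def lamC (x : ℕ × List Quad) (τ : ℕ) : ℕ := x.1 + (htC x τ - x.1 * divC (htC x τ) x.1)

/-- The weight of a vertex. -/
def wtC (x : ℕ × List Quad) (v : Vx) : ℕ :=
  v.2.elim (bif hvOf x.2 v.1.1 && !v.1.2 then 4 else 3)
    (fun w => bif decide (w.length = depC x v.1.1) then lamC x v.1.1 else x.1)

/-- The adjacency test (in one direction) of the weighted graph. -/
def eC (x : ℕ × List Quad) (u v : Vx) : Bool :=
  u.2.elim
    (v.2.elim
      ((decide (u.1.1 = v.1.1) && (!u.1.2 && v.1.2)) ||
        (decide (nxOf x.2 u.1.1 = v.1.1) && (decide (v.1.1 < 9 * x.2.length) &&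
          decide (u.1.2 = v.1.2))))
      (fun _ => false))
    (fun w => v.2.elim
      (decide (w = []) &&
        ((decide (u.1 = v.1) && decide (u.1.1 < 9 * x.2.length)) ||
          ((decide (nxOf x.2 v.1.1 = u.1.1) && (decide (u.1.1 < 9 * x.2.length) &&
            decide (u.1.2 = v.1.2))) ||
          (decide (nxOf x.2 v.1.1 = 9 * x.2.length) && (decide (u.1.1 = 9 * x.2.length) &&
            !u.1.2)))))
      (fun w' => decide (u.1 = v.1) && (!(decide (w = [])) && decide (w.tail = w'))))

/-- The adjacency test of the blow-up. -/
def badjC (x : ℕ × List Quad) (u v : Vx × ℕ) : Bool :=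
  (decide (u.1 = v.1) && !(decide (u.2 = v.2))) ||
    (!(decide (u.1 = v.1)) && (eC x u.1 v.1 || eC x v.1 u.1))

/-- The vertices of the unit `τ < T`. -/
def unitC (x : ℕ × List Quad) (P τ : ℕ) : List Vx :=
  ((τ, false), none) :: ((τ, true), none) ::
    ((words P (depC x τ)).map (fun w => ((τ, false), some w)) ++
      (words P (depC x τ)).map (fun w => ((τ, true), some w)))

/-- The vertices of the weighted graph. -/
def vxC (x : ℕ × List Quad) (P : ℕ) : List Vx :=
  (List.range (9 * x.2.length)).flatMap (unitC x P) ++
    (words P (depC x (9 * x.2.length))).map (fun w => ((9 * x.2.length, false), some w))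

/-- The vertices of the blow-up. -/
def bvxC (x : ℕ × List Quad) (P : ℕ) : List (Vx × ℕ) :=
  (vxC x P).flatMap fun v => (List.range (wtC x v)).map fun j => (v, j)

/-- The graph on the positions of the list of vertices of the blow-up. -/
def graphC (x : ℕ × List Quad) (P : ℕ) : SimpleGraph (Fin (bvxC x P).length) where
  Adj i j := i ≠ j ∧ (badjC x ((bvxC x P).get i) ((bvxC x P).get j) = true)
  symm := by
    constructor
    intro i j h
    refine ⟨h.1.symm, ?_⟩
    have h2 := h.2
    simp only [badjC, Bool.or_eq_true, Bool.and_eq_true, Bool.not_eq_true', decide_eq_true_eq,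
      decide_eq_false_iff_not] at h2 ⊢
    rcases h2 with h2 | h2
    · exact Or.inl ⟨h2.1.symm, fun e => h2.2 e.symm⟩
    · exact Or.inr ⟨fun e => h2.1 e.symm, h2.2.symm⟩
  loopless := ⟨fun i h => h.1 rfl⟩

/-- The word of the graph: the number of vertices in unary, a zero, the adjacency matrix. -/
def wordC (x : ℕ × List Quad) (P : ℕ) : List Bool :=
  (bvxC x P).map (fun _ => true) ++ false ::
    (bvxC x P).flatMap fun u => (bvxC x P).map fun v => badjC x u v

open Classical in
/-- The bit string of a graph on `n` vertices: `n` in unary, a zero, the adjacency matrix. -/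
noncomputable def encGraph {n : ℕ} (G : SimpleGraph (Fin n)) : List Bool :=
  List.replicate n true ++ false ::
    (List.finRange n).flatMap fun i => (List.finRange n).map fun j => decide (G.Adj i j)

end Pool.Agent.Work.MP_8491f2_lc
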