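import Pool.Agent.Work.MP_8491f2_lc.BuildDefs
import Pool.Agent.Work.PolyTime.More
import Pool.Agent.Work.PolyTime.Pairs
import Pool.Agent.Work.PolyTime.EtrTime

/-!
The graph of an exactly-2-in-4 formula is written down in polynomial time (in the size of the
formula, of `κ` and of the bound `P`, all numbers in unary).
-/

set_option autoImplicit false

namespace Pool.Agent.Work.MP_8491f2_lc

open Pool.Agent.Work.PolyTime

instance : Code (Fin 3) := ⟨fun a => code a.val⟩

instance : LawfulCode (Fin 3) := ⟨fun _ _ h => Fin.ext (LawfulCode.inj (α := ℕ) h)⟩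

theorem sz_fin3 (a : Fin 3) : sz a ≤ 5 := by
  have h : sz a = sz a.val := rfl
  rw [h, sz_nat]
  have := a.2
  omega

section

variable {α : Type} [Code α]

theorem ptime_nth {β : Type} [Code β] {l : α → List β} {n : α → ℕ} {d : α → β} (hl : PTime l)
    (hn : PTime n) (hd : PTime d) : PTime (fun x => (l x).getD (n x) (d x)) := by
  have h : PTime (fun x => (((l x).drop (n x)).head?).getD (d x)) :=
    PTime.getD (PTime.headOpt (PTime.drop hl hn)) hd
  refine h.code_congr (fun x => ?_)
  rw [List.head?_drop, List.getD_eq_getElem?_getD]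

theorem ptime_isSome {β : Type} [Code β] {o : α → Option β} (ho : PTime o) :
    PTime (fun x => (o x).isSome) := by
  refine PTime.optionCases ho (g := fun _ => false) (h := fun _ => true)
    (by fun_prop) (by fun_prop) ?_ ?_
  · intro x hx; simp [hx]
  · intro x b hx; simp [hx]

theorem ptime_elim {β γ : Type} [Code β] [Code γ] {o : α → Option β} {g : α → γ}
    {f : α → β → γ} (ho : PTime o) (hg : PTime g) (hf : PTime (fun y : α × β => f y.1 y.2)) :
    PTime (fun x => (o x).elim (g x) (f x)) := by
  refine PTime.optionCases ho (g := g) (h := fun y => f y.1 y.2) hg hf ?_ ?_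
  · intro x hx; simp [hx]
  · intro x b hx; simp [hx]

@[fun_prop]
theorem ptime_tokens {C : α → List Quad} (hC : PTime C) : PTime (fun a => tokens (C a)) := by
  unfold tokens
  exact PTime.flatMap hC (by fun_prop)

@[fun_prop]
theorem ptime_tok {C : α → List Quad} {t : α → ℕ} (hC : PTime C) (ht : PTime t) :
    PTime (fun a => tok (C a) (t a)) := by
  unfold tok
  exact ptime_nth (by fun_prop) ht (PTime.const _)

@[fun_prop]
theorem ptime_nxOf {C : α → List Quad} {t : α → ℕ} (hC : PTime C) (ht : PTime t) :
    PTime (fun a => nxOf (C a) (t a)) := by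
  unfold nxOf
  refine PTime.getD (PTime.headOpt (PTime.filter (by fun_prop) ?_)) (by fun_prop)
  refine PTime.and (PTime.natLt (by fun_prop) (by fun_prop)) (PTime.and ?_ ?_)
  · exact ptime_isSome (by fun_prop)
  · exact PTime.eq (by fun_prop) (by fun_prop)

@[fun_prop]
theorem ptime_hvOf {C : α → List Quad} {t : α → ℕ} (hC : PTime C) (ht : PTime t) :
    PTime (fun a => hvOf (C a) (t a)) := by
  unfold hvOf
  exact ptime_nth (PTime.flatMap hC (by fun_prop)) ht (PTime.const _)

@[fun_prop]
theorem ptime_divC {m n : α → ℕ} (hm : PTime m) (hn : PTime n) :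
    PTime (fun a => divC (m a) (n a)) := by
  unfold divC
  exact PTime.length (PTime.filter (by fun_prop) (PTime.natLe (by fun_prop) (by fun_prop)))

@[fun_prop]
theorem ptime_htC {x : α → ℕ × List Quad} {t : α → ℕ} (hx : PTime x) (ht : PTime t) :
    PTime (fun a => htC (x a) (t a)) := by
  unfold htC
  fun_prop

@[fun_prop]
theorem ptime_depC {x : α → ℕ × List Quad} {t : α → ℕ} (hx : PTime x) (ht : PTime t) :
    PTime (fun a => depC (x a) (t a)) := by
  unfold depC
  fun_prop

@[fun_prop]
theorem ptime_lamC {x : α → ℕ × List Quad} {t : α → ℕ} (hx : PTime x) (ht : PTime t) :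
    PTime (fun a => lamC (x a) (t a)) := by
  unfold lamC
  fun_prop

@[fun_prop]
theorem ptime_wtC {x : α → ℕ × List Quad} {v : α → Vx} (hx : PTime x) (hv : PTime v) :
    PTime (fun a => wtC (x a) (v a)) := by
  unfold wtC
  refine ptime_elim (by fun_prop) (by fun_prop) ?_
  refine PTime.cond (PTime.eq ?_ ?_) ?_ ?_
  · fun_prop
  · fun_prop
  · fun_prop
  · fun_prop

@[fun_prop]
theorem ptime_eC {x : α → ℕ × List Quad} {u v : α → Vx} (hx : PTime x) (hu : PTime u)
    (hv : PTime v) : PTime (fun a => eC (x a) (u a) (v a)) := by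
  unfold eC
  refine ptime_elim (by fun_prop) (ptime_elim (by fun_prop) ?_ (PTime.const _))
    (ptime_elim (by fun_prop) ?_ ?_)
  · fun_prop
  · fun_prop
  · fun_prop

@[fun_prop]
theorem ptime_badjC {x : α → ℕ × List Quad} {u v : α → Vx × ℕ} (hx : PTime x) (hu : PTime u)
    (hv : PTime v) : PTime (fun a => badjC (x a) (u a) (v a)) := by
  unfold badjC
  fun_prop

theorem lev_succ (P j : ℕ) : lev P (j + 1) =
    ((lev P j).flatMap fun w => [0 :: w, 1 :: w, 2 :: w]).take P := by
  unfold lev
  rw [List.range_succ, List.foldl_append]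
  rfl

theorem lev_aux (P : ℕ) (l : List ℕ) (k : ℕ) (hk : l.length ≤ k) :
    sz (l.foldl (fun (l : List Word) _ => (l.flatMap fun w => [0 :: w, 1 :: w, 2 :: w]).take P)
      [[]]) ≤ 1 + (P + 1) * (2 + 6 * k) := by
  have key : ∀ (l : List ℕ) (s : List Word) (c : ℕ), s.length ≤ P + 1 →
      (∀ w ∈ s, w.length ≤ c) →
      (l.foldl (fun (l : List Word) _ => (l.flatMap fun w => [0 :: w, 1 :: w, 2 :: w]).take P)
        s).length ≤ P + 1 ∧
      ∀ w ∈ l.foldl (fun (l : List Word) _ =>
        (l.flatMap fun w => [0 :: w, 1 :: w, 2 :: w]).take P) s, w.length ≤ c + l.length := by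
    intro l
    induction l with
    | nil => intro s c h1 h2; exact ⟨h1, by simpa using h2⟩
    | cons b l ih =>
      intro s c h1 h2
      simp only [List.foldl_cons]
      have h3 := ih ((s.flatMap fun w => [0 :: w, 1 :: w, 2 :: w]).take P) (c + 1)
        ((List.length_take_le _ _).trans (by omega)) ?_
      · refine ⟨h3.1, fun w hw => (h3.2 w hw).trans ?_⟩
        simp only [List.length_cons]
        omega
      · intro w hw
        have hw2 := List.mem_of_mem_take hw
        rw [List.mem_flatMap] at hw2
        obtain ⟨v, hv, hvw⟩ := hw2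
        have := h2 v hv
        simp only [List.mem_cons, List.not_mem_nil, or_false] at hvw
        rcases hvw with rfl | rfl | rfl <;> simp <;> omega
  obtain ⟨h1, h2⟩ := key l [[]] 0 (by simp) (by simp)
  have h3 := sz_list_le (l.foldl (fun (l : List Word) _ =>
    (l.flatMap fun w => [0 :: w, 1 :: w, 2 :: w]).take P) [[]]) (1 + 6 * k) (fun w hw => by
      have h4 := h2 w hw
      have h5 := sz_list_le w 5 (fun a _ => sz_fin3 a)
      have h6 : w.length * (1 + 5) ≤ 6 * k := by
        have : w.length ≤ k := by omega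
        omega
      omega)
  refine h3.trans ?_
  have h4 : 1 + (1 + 6 * k) = 2 + 6 * k := by omega
  rw [h4]
  gcongr

@[fun_prop]
theorem ptime_lev {P j : α → ℕ} (hP : PTime P) (hj : PTime j) :
    PTime (fun a => lev (P a) (j a)) := by
  have hB : PB (fun a => 1 + (P a + 1) * (2 + 6 * j a)) := by
    have h1 : PB (fun a => sz (P a)) := hP.sz_le
    have h2 : PB (fun a => sz (j a)) := hj.sz_le
    have h3 : PB (fun a => 1 + (sz (P a) + 1) * (2 + 6 * sz (j a))) :=
      (PB.const 1).add ((h1.add (PB.const 1)).mul ((PB.const 2).add ((PB.const 6).mul h2)))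
    refine h3.mono (fun a => ?_)
    have e1 : P a ≤ sz (P a) := by rw [sz_nat]; omega
    have e2 : j a ≤ sz (j a) := by rw [sz_nat]; omega
    gcongr
  have h := PTime.foldl (l := fun a => List.range (j a)) (s := fun _ => ([[]] : List Word))
    (f := fun y : α × List Word × ℕ =>
      (y.2.1.flatMap fun w => [0 :: w, 1 :: w, 2 :: w]).take (P y.1))
    (by fun_prop) (PTime.const _) (PTime.take (PTime.flatMap (by fun_prop) (by fun_prop))
      (by fun_prop)) hB (fun x l' hl' => ?_)
  · exact h
  · have := lev_aux (P x) l' (j x) (by simpa using hl'.length_le)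
    exact this

@[fun_prop]
theorem ptime_words {P m : α → ℕ} (hP : PTime P) (hm : PTime m) :
    PTime (fun a => words (P a) (m a)) := by
  unfold words
  exact PTime.flatMap (by fun_prop) (by fun_prop)

@[fun_prop]
theorem ptime_unitC {x : α → ℕ × List Quad} {P t : α → ℕ} (hx : PTime x) (hP : PTime P)
    (ht : PTime t) : PTime (fun a => unitC (x a) (P a) (t a)) := by
  unfold unitC
  refine PTime.cons (by fun_prop) (PTime.cons (by fun_prop) (PTime.append
    (PTime.map (by fun_prop) ?_) (PTime.map (by fun_prop) ?_)))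
  · fun_prop
  · fun_prop

@[fun_prop]
theorem ptime_vxC {x : α → ℕ × List Quad} {P : α → ℕ} (hx : PTime x) (hP : PTime P) :
    PTime (fun a => vxC (x a) (P a)) := by
  unfold vxC
  refine PTime.append (PTime.flatMap (by fun_prop) (by fun_prop))
    (PTime.map (by fun_prop) ?_)
  fun_prop

@[fun_prop]
theorem ptime_bvxC {x : α → ℕ × List Quad} {P : α → ℕ} (hx : PTime x) (hP : PTime P) :
    PTime (fun a => bvxC (x a) (P a)) := by
  unfold bvxC
  refine PTime.flatMap (by fun_prop) (PTime.map (by fun_prop) ?_)
  fun_prop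

theorem ptime_wordC_aux {x : α → ℕ × List Quad} {P : α → ℕ} (hx : PTime x) (hP : PTime P) :
    PTime (fun a => wordC (x a) (P a)) := by
  unfold wordC
  refine PTime.append (PTime.map (by fun_prop) (PTime.const _)) (PTime.cons (PTime.const _)
    (PTime.flatMap (by fun_prop) (PTime.map (by fun_prop) ?_)))
  fun_prop

end

theorem ptime_wordC : PTime (fun y : (ℕ × List Quad) × ℕ => wordC y.1 y.2) :=
  ptime_wordC_aux PTime.fst PTime.snd

end Pool.Agent.Work.MP_8491f2_lc
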