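import Pool.Agent.Work.MP_8491f2_lc.Heavy

/-!
The lower bound: rigidity of the decompositions of small width.
-/

set_option autoImplicit false

namespace Pool.Agent.Work.MP_8491f2_lc

namespace Inst

variable {I : Inst}

theorem Good.three_le_wt (hI : I.Good) (v : Vx) : 3 ≤ I.wt v := by
  obtain ⟨⟨τ, s⟩, o⟩ := v
  cases o with
  | none =>
    change 3 ≤ if I.hv τ = true ∧ s = false then 4 else 3
    split_ifs <;> omega
  | some w =>
    have h2 := hI.kappa
    exact le_trans (by omega) (wt_node_ge (I := I) τ s w)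

/-- symmetric version of the crossing lemma -/
theorem IsWPD.cross' {W : ℕ} {bag : ℕ → Finset Vx} (h : I.IsWPD W bag) {S : Set Vx}
    (hS : I.Linked S) {i j l : ℕ} (hij : min i l ≤ j) (hjl : j ≤ max i l) {u v : Vx} (hu : u ∈ S)
    (hui : u ∈ bag i) (hv : v ∈ S) (hvl : v ∈ bag l) : ∃ x ∈ S, x ∈ bag j := by
  rcases le_total i l with hil | hil
  · rw [min_eq_left hil] at hij
    rw [max_eq_right hil] at hjl
    exact h.cross hS hij hjl hu hui hv hvl
  · rw [min_eq_right hil] at hij
    rw [max_eq_left hil] at hjl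
    exact h.cross hS hij hjl hv hvl hu hui

/-- The structure of a heavy bag: one rail of every outer unit, and nodes of the anchor. -/
def Tight (I : Inst) (bag : ℕ → Finset Vx) (r s : ℕ) (b : Bool) (t : ℕ) : Prop :=
  ∃ p : ℕ → Vx, (∀ s' < s, p s' ∈ bag t ∧ (p s').1.1 = s' ∧ (p s').2 = none) ∧
    (∀ v ∈ bag t, (v.1.1 < s ∧ v = p v.1.1) ∨ v ∈ I.anchor s b) ∧
    (∑ s' ∈ Finset.range s, I.wt (p s')) + I.ht s ≤ I.B + r

open Classical in
theorem Good.tight_of (hI : I.Good) {r : ℕ} (hr : r ≤ 2) {bag : ℕ → Finset Vx}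
    (h : I.IsWPD (I.B + r) bag) {s : ℕ} (hs : s ≤ I.T) {b : Bool} {t : ℕ}
    (hheavy : I.ht s ≤ ∑ v ∈ (bag t).filter (fun v => v ∈ I.anchor s b), I.wt v)
    (hp : ∀ s' < s, ∃ v ∈ bag t, v.1.1 = s') : I.Tight bag r s b t := by
  choose! p hp1 hp2 using hp
  set Q1 : Finset Vx := (Finset.range s).image p with hQ1
  set Q2 : Finset Vx := (bag t).filter (fun v => v ∈ I.anchor s b) with hQ2
  have hinj : Set.InjOn p (Finset.range s) := by
    intro a ha c hc hac
    simp only [Finset.coe_range, Set.mem_Iio] at ha hc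
    rw [← hp2 a ha, ← hp2 c hc, hac]
  have hsum1 : ∑ v ∈ Q1, I.wt v = ∑ s' ∈ Finset.range s, I.wt (p s') := by
    rw [hQ1, Finset.sum_image hinj]
  have hdisj : Disjoint Q1 Q2 := by
    rw [Finset.disjoint_left]
    intro v hv1 hv2
    rw [hQ1, Finset.mem_image] at hv1
    obtain ⟨s', hs', rfl⟩ := hv1
    rw [Finset.mem_range] at hs'
    rw [hQ2, Finset.mem_filter] at hv2
    obtain ⟨_, _, w, hw⟩ := hv2
    have h1 := hp2 s' hs'
    rw [hw] at h1
    simp only at h1
    omega
  have hsub : Q1 ∪ Q2 ⊆ bag t := by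
    intro v hv
    rw [Finset.mem_union] at hv
    rcases hv with hv | hv
    · rw [hQ1, Finset.mem_image] at hv
      obtain ⟨s', hs', rfl⟩ := hv
      exact hp1 s' (Finset.mem_range.1 hs')
    · exact (Finset.mem_filter.1 hv).1
  have hsumQ : ∑ v ∈ Q1 ∪ Q2, I.wt v = ∑ v ∈ Q1, I.wt v + ∑ v ∈ Q2, I.wt v :=
    Finset.sum_union hdisj
  have htot := h.wt_le t
  have hle : ∑ v ∈ Q1 ∪ Q2, I.wt v ≤ ∑ v ∈ bag t, I.wt v := Finset.sum_le_sum_of_subset hsub
  have hbase := hI.base
  have hht : I.ht s = I.B - 3 * s := rfl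
  have h3 : 3 * s ≤ ∑ s' ∈ Finset.range s, I.wt (p s') := by
    have h4 : ∑ _s' ∈ Finset.range s, 3 ≤ ∑ s' ∈ Finset.range s, I.wt (p s') :=
      Finset.sum_le_sum fun s' _ => hI.three_le_wt _
    rw [Finset.sum_const, Finset.card_range, smul_eq_mul] at h4
    omega
  have hfin : (∑ s' ∈ Finset.range s, I.wt (p s')) + I.ht s ≤ I.B + r := by omega
  refine ⟨p, ?_, ?_, hfin⟩
  · intro s' hs'
    refine ⟨hp1 s' hs', hp2 s' hs', ?_⟩
    -- the weight of `p s'` is at most 5
    have h5 : 3 * (s - 1) + I.wt (p s') ≤ ∑ s' ∈ Finset.range s, I.wt (p s') := by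
      rw [← Finset.add_sum_erase _ _ (Finset.mem_range.2 hs')]
      have h6 : ∑ _s' ∈ (Finset.range s).erase s', 3 ≤
          ∑ s' ∈ (Finset.range s).erase s', I.wt (p s') :=
        Finset.sum_le_sum fun s' _ => hI.three_le_wt _
      rw [Finset.sum_const, Finset.card_erase_of_mem (Finset.mem_range.2 hs'), Finset.card_range,
        smul_eq_mul] at h6
      omega
    have h7 : I.wt (p s') ≤ 5 := by omega
    have hk := hI.kappa
    rcases hv : p s' with ⟨⟨τ', b'⟩, o⟩
    cases o with
    | none => rfl
    | some w =>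
      have h8 : I.κ ≤ I.wt ((τ', b'), some w) := wt_node_ge (I := I) τ' b' w
      rw [hv] at h7
      omega
  · intro v hv
    by_contra hcon
    push Not at hcon
    have hnot : v ∉ Q1 ∪ Q2 := by
      rw [Finset.mem_union]
      rintro (h1 | h1)
      · rw [hQ1, Finset.mem_image] at h1
        obtain ⟨s', hs', rfl⟩ := h1
        rw [Finset.mem_range] at hs'
        have h2 := hp2 s' hs'
        exact hcon.1 (by omega) (by rw [h2])
      · exact hcon.2 (Finset.mem_filter.1 h1).2
    have hsub' : insert v (Q1 ∪ Q2) ⊆ bag t := by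
      intro x hx
      rw [Finset.mem_insert] at hx
      rcases hx with rfl | hx
      · exact hv
      · exact hsub hx
    have h1 := Finset.sum_le_sum_of_subset (f := I.wt) hsub'
    rw [Finset.sum_insert hnot] at h1
    have h2 := hI.three_le_wt v
    omega

/-- A unit is nested: the bags of the more inner units are strictly between its heavy bags. -/
def Nest (bag : ℕ → Finset Vx) (X : ℕ → Bool → ℕ) (s : ℕ) : Prop :=
  X s false ≠ X s true ∧ ∀ v t, s < v.1.1 → v ∈ bag t →
    min (X s false) (X s true) < t ∧ t < max (X s false) (X s true)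

open Classical in
theorem heavy_nonempty (hI : I.Good) {bag : ℕ → Finset Vx} {s : ℕ} (hs : s ≤ I.T) {b : Bool}
    {t : ℕ} (hheavy : I.ht s ≤ ∑ v ∈ (bag t).filter (fun v => v ∈ I.anchor s b), I.wt v) :
    ∃ v ∈ bag t, v ∈ I.anchor s b := by
  by_contra hcon
  push Not at hcon
  rw [Finset.filter_false_of_mem (fun v hv => hcon v hv), Finset.sum_empty] at hheavy
  have h1 := hI.kappa_le_ht hs
  have h2 := hI.kappa
  omega

theorem anchor_unit {s : ℕ} {b : Bool} {v : Vx} (hv : v ∈ I.anchor s b) : v.1.1 = s := by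
  obtain ⟨_, w, rfl⟩ := hv
  rfl

theorem anchor_ne_none {s : ℕ} {b : Bool} {v : Vx} (hv : v ∈ I.anchor s b) : v.2 ≠ none := by
  obtain ⟨_, w, rfl⟩ := hv
  simp

/-- **Lower bound.** A weighted path decomposition of width `B + r` with `r ≤ 2` yields an
orientation of the units that is constant on the arms and such that at each level `τ` at most `r`
heavy rails are on each side. -/
theorem Good.lower (hI : I.Good) {r : ℕ} (hr : r ≤ 2) {bag : ℕ → Finset Vx}
    (h : I.IsWPD (I.B + r) bag) :
    ∃ o : ℕ → Bool, (∀ σ < I.T, I.nx σ < I.T → o (I.nx σ) = o σ) ∧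
      ∀ τ < I.T, ∀ b : Bool,
        ((Finset.range τ).filter fun σ => I.hv σ = true ∧ τ < I.nx σ ∧ o σ = b).card ≤ r := by
  classical
  have hex : ∀ (τ : ℕ) (s : Bool), (τ < I.T ∨ (τ = I.T ∧ s = false)) →
      ∃ t, I.ht τ ≤ ∑ v ∈ (bag t).filter (fun v => v ∈ I.anchor τ s), I.wt v :=
    fun τ s hτ => hI.exists_heavy h hτ
  choose! X hX using hex
  -- heavy bags contain anchor vertices
  have hXa : ∀ τ s, (τ < I.T ∨ (τ = I.T ∧ s = false)) → ∃ v ∈ bag (X τ s), v ∈ I.anchor τ s := by
    intro τ s hτ
    exact heavy_nonempty hI (by rcases hτ with h1 | h1 <;> omega) (hX τ s hτ)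
  -- tightness from nestedness of the outer units
  have htight : ∀ s b, (s < I.T ∨ (s = I.T ∧ b = false)) → (∀ s' < s, Nest bag X s') →
      I.Tight bag r s b (X s b) := by
    intro s b hs hN
    have hsT : s ≤ I.T := by rcases hs with h1 | h1 <;> omega
    refine hI.tight_of hr h hsT (hX s b hs) ?_
    intro s' hs'
    obtain ⟨u, hu1, hu2⟩ := hXa s b hs
    have h1 := (hN s' hs').2 u (X s b) (by rw [anchor_unit hu2]; exact hs') hu1
    obtain ⟨v0, hv0, hv0'⟩ := hXa s' false (Or.inl (by omega))
    obtain ⟨v1, hv1, hv1'⟩ := hXa s' true (Or.inl (by omega))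
    obtain ⟨x, hx1, hx2⟩ := h.cross' (linked_unit (I := I) (τ := s') (by omega)) h1.1.le h1.2.le
      (u := v0) (v := v1) ⟨hv0'.1, anchor_unit hv0'⟩ hv0 ⟨hv1'.1, anchor_unit hv1'⟩ hv1
    exact ⟨x, hx2, hx1.2⟩
  -- nestedness
  have hnest : ∀ s < I.T, Nest bag X s := by
    intro s
    induction s using Nat.strong_induction_on with
    | _ s ih =>
      intro hs
      have hN : ∀ s' < s, Nest bag X s' := fun s' hs' => ih s' hs' (by omega)
      -- the inner set avoids the heavy bag
      have havoid : ∀ b v t, I.Valid v → s ≤ v.1.1 → v ∉ I.anchor s b → v ∈ bag t →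
          ¬ (min t (X s (!b)) ≤ X s b ∧ X s b ≤ max t (X s (!b))) := by
        intro b v t hv1 hv2 hv3 hv4 hcon
        obtain ⟨p, _, hp2, _⟩ := htight s b (Or.inl hs) hN
        obtain ⟨u, hu1, hu2⟩ := hXa s (!b) (Or.inl hs)
        have hu3 : u ∉ I.anchor s b := by
          rintro ⟨_, w, rfl⟩
          obtain ⟨_, w', hw'⟩ := hu2
          simp only [Prod.mk.injEq, true_and] at hw'
          cases b <;> simp at hw'
        obtain ⟨x, hx1, hx2⟩ := h.cross' (hI.linked_inner hs b) hcon.1 hcon.2
          (u := v) (v := u) ⟨hv1, hv2, hv3⟩ hv4 ⟨hu2.1, (anchor_unit hu2).ge, hu3⟩ hu1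
        rcases hp2 x hx2 with h1 | h1
        · have := hx1.2.1
          omega
        · exact hx1.2.2 h1
      have hne : X s false ≠ X s true := by
        intro heq
        obtain ⟨u, hu1, hu2⟩ := hXa s true (Or.inl hs)
        refine havoid false u (X s true) hu2.1 (anchor_unit hu2).ge ?_ hu1 ?_
        · rintro ⟨_, w, rfl⟩
          obtain ⟨_, w', hw'⟩ := hu2
          simp at hw'
        · rw [← heq]
          simp [heq]
      refine ⟨hne, ?_⟩
      intro v t hv1 hv2
      have hnot : ∀ b, v ∉ I.anchor s b := by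
        intro b hb
        have := anchor_unit hb
        omega
      have h1 := havoid false v t (h.valid t v hv2) hv1.le (hnot false) hv2
      have h2 := havoid true v t (h.valid t v hv2) hv1.le (hnot true) hv2
      simp only [Bool.not_false, Bool.not_true] at h1 h2
      omega
  -- the orientation is constant on arms
  have hconst : ∀ σ < I.T, I.nx σ < I.T →
      ((X (I.nx σ) false < X (I.nx σ) true) ↔ (X σ false < X σ true)) := by
    intro σ hσ hn
    have hlt := hI.lt_nx σ hσ
    have hcT : (I.T < I.T ∨ (I.T = I.T ∧ false = false)) := Or.inr ⟨rfl, rfl⟩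
    obtain ⟨p, hp1, hp2, _⟩ := htight I.T false hcT (fun s' hs' => hnest s' hs')
    obtain ⟨c, hc1, hc2⟩ := hXa I.T false hcT
    have hc3 := anchor_unit hc2
    have h1 := (hnest σ hσ).2 c _ (by omega) hc1
    have h2 := (hnest _ hn).2 c _ (by omega) hc1
    -- the side `b` meets the heavy bag of the centre
    have hside : ∀ b, min (X σ b) (X (I.nx σ) b) ≤ X I.T false →
        X I.T false ≤ max (X σ b) (X (I.nx σ) b) → p σ = rail σ b := by
      intro b h3 h4
      obtain ⟨u, hu1, hu2⟩ := hXa σ b (Or.inl hσ)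
      obtain ⟨v, hv1, hv2⟩ := hXa (I.nx σ) b (Or.inl hn)
      obtain ⟨x, hx1, hx2⟩ := h.cross' (hI.linked_side hσ hn b) h3 h4
        (u := u) (v := v) (Or.inl (Or.inl hu2)) hu1 (Or.inr hv2) hv1
      have hxT : x.1.1 < I.T := by
        rcases hx1 with (hx | hx) | hx
        · rw [anchor_unit hx]; exact hσ
        · rw [Set.mem_singleton_iff.1 hx]; exact hσ
        · rw [anchor_unit hx]; exact hn
      have hxp : x = p x.1.1 := by
        rcases hp2 x hx2 with h5 | h5
        · exact h5.2
        · have := anchor_unit h5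
          omega
      have hxn : x.2 = none := by
        rw [hxp]
        exact (hp1 _ hxT).2.2
      rcases hx1 with (hx | hx) | hx
      · exact absurd hxn (anchor_ne_none hx)
      · rw [Set.mem_singleton_iff] at hx
        rw [hx] at hxp
        exact hxp.symm
      · exact absurd hxn (anchor_ne_none hx)
    have hrr : rail σ false ≠ rail σ true := by simp
    by_contra hcon
    apply hrr
    rw [← hside false (by omega) (by omega), ← hside true (by omega) (by omega)]
  refine ⟨fun s => decide (X s false < X s true),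
    fun σ hσ hn => decide_eq_decide.2 (hconst σ hσ hn), ?_⟩
  · intro τ hτ b
    -- the heavy bag of `τ` on the side given by `b`
    obtain ⟨c, hc⟩ : ∃ c : Bool, (b = true → X τ c = min (X τ false) (X τ true)) ∧
        (b = false → X τ c = max (X τ false) (X τ true)) := by
      rcases le_total (X τ false) (X τ true) with h1 | h1 <;> cases b
      · exact ⟨true, by simp, by simp [h1]⟩
      · exact ⟨false, by simp [h1], by simp⟩
      · exact ⟨false, by simp, by simp [h1]⟩
      · exact ⟨true, by simp [h1], by simp⟩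
    obtain ⟨p, hp1, hp2, hp3⟩ := htight τ c (Or.inl hτ) (fun s' hs' => hnest s' (by omega))
    have hheavy : ∀ σ, σ < τ → I.hv σ = true → τ < I.nx σ →
        decide (X σ false < X σ true) = b → p σ = rail σ false := by
      intro σ hστ hhv hτn ho
      have hσ : σ < I.T := by omega
      have hn := hI.hv_nx σ hσ hhv
      have h1 := hconst σ hσ hn
      obtain ⟨u, hu1, hu2⟩ := hXa σ false (Or.inl hσ)
      obtain ⟨v, hv1, hv2⟩ := hXa (I.nx σ) false (Or.inl hn)
      obtain ⟨z, hz1, hz2⟩ := hXa τ c (Or.inl hτ)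
      have h2 := (hnest σ hσ).2 z _ (by rw [anchor_unit hz2]; exact hστ) hz1
      have h3 := (hnest τ hτ).2 v _ (by rw [anchor_unit hv2]; exact hτn) hv1
      have h5 : min (X σ false) (X (I.nx σ) false) ≤ X τ c ∧
          X τ c ≤ max (X σ false) (X (I.nx σ) false) := by
        cases b with
        | true =>
          have h6 := hc.1 rfl
          have h7 : X σ false < X σ true := of_decide_eq_true ho
          have h8 := h1.2 h7
          omega
        | false =>
          have h6 := hc.2 rfl
          have h7 : ¬ X σ false < X σ true := of_decide_eq_false ho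
          omega
      obtain ⟨x, hx1, hx2⟩ := h.cross' (hI.linked_side hσ hn false) h5.1 h5.2
        (u := u) (v := v) (Or.inl (Or.inl hu2)) hu1 (Or.inr hv2) hv1
      rcases hx1 with (hx | hx) | hx
      · have hxu := anchor_unit hx
        rcases hp2 x hx2 with h6 | h6
        · exfalso
          apply anchor_ne_none hx
          rw [h6.2]
          exact (hp1 _ h6.1).2.2
        · have := anchor_unit h6
          omega
      · rw [Set.mem_singleton_iff] at hx
        subst hx
        rcases hp2 _ hx2 with h6 | h6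
        · exact h6.2.symm
        · have h7 : σ = τ := anchor_unit h6
          omega
      · have hxu := anchor_unit hx
        rcases hp2 x hx2 with h6 | h6
        · omega
        · have := anchor_unit h6
          omega
    set S := (Finset.range τ).filter fun σ => I.hv σ = true ∧ τ < I.nx σ ∧
      decide (X σ false < X σ true) = b with hS
    have hsum : ∑ σ ∈ Finset.range τ, (3 + if σ ∈ S then 1 else 0) ≤
        ∑ s' ∈ Finset.range τ, I.wt (p s') := by
      apply Finset.sum_le_sum
      intro σ hσ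
      split_ifs with hσS
      · rw [hS, Finset.mem_filter, Finset.mem_range] at hσS
        rw [hheavy σ hσS.1 hσS.2.1 hσS.2.2.1 hσS.2.2.2]
        change 3 + 1 ≤ if I.hv σ = true ∧ false = false then 4 else 3
        rw [if_pos ⟨hσS.2.1, rfl⟩]
      · exact hI.three_le_wt _
    rw [Finset.sum_add_distrib, Finset.sum_const, Finset.card_range, smul_eq_mul,
      ← Finset.sum_filter, Finset.sum_const, smul_eq_mul, mul_one] at hsum
    have hcard : ((Finset.range τ).filter fun σ => σ ∈ S) = S := by
      ext σ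
      rw [Finset.mem_filter, hS, Finset.mem_filter]
      tauto
    rw [hcard] at hsum
    have hht : I.ht τ = I.B - 3 * τ := rfl
    have hbase := hI.base
    omega

end Inst

end Pool.Agent.Work.MP_8491f2_lc
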