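import Pool.Agent.Work.MP_8491f2_lc.Elim

/-!
The weighted graph of a good instance has weighted treewidth at most `3 κ - 1` (weight of bags).
-/

set_option autoImplicit false

namespace Pool.Agent.Work.MP_8491f2_lc

namespace Inst

private theorem dep_le' (I : Inst) (τ : ℕ) : I.dep τ ≤ I.B := by
  unfold dep ht
  have := Nat.div_le_self (I.B - 3 * τ) I.κ
  omega

private theorem finite_valid' (I : Inst) : {v : Vx | I.Valid v}.Finite := by
  have h1 : ((Set.Iic I.T ×ˢ (Set.univ : Set Bool)) ×ˢ
      (insert none (some '' {w : Word | w.length ≤ I.B}) : Set (Option Word))).Finite := by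
    refine ((Set.finite_Iic _).prod Set.finite_univ).prod ?_
    exact ((List.finite_length_le (Fin 3) I.B).image _).insert _
  refine h1.subset ?_
  rintro ⟨⟨τ, s⟩, o⟩ hv
  rcases o with _ | w
  · have hv' : τ < I.T := hv
    exact ⟨⟨hv'.le, Set.mem_univ _⟩, Set.mem_insert _ _⟩
  · have hv' : (τ < I.T ∨ (τ = I.T ∧ s = false)) ∧ w.length ≤ I.dep τ := hv
    refine ⟨⟨?_, Set.mem_univ _⟩, Set.mem_insert_of_mem _ ⟨w, hv'.2.trans (dep_le' I τ), rfl⟩⟩
    show τ ≤ I.T
    rcases hv'.1 with h | h
    · exact h.le
    · exact h.1.le

open Classical in
/-- The previous unit of the same arm. -/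
private noncomputable def pv (I : Inst) (t : ℕ) : Option ℕ :=
  if h : ∃ σ, σ < I.T ∧ I.nx σ = t then some h.choose else none

private theorem pv_some {I : Inst} {t σ : ℕ} (h : pv I t = some σ) : σ < I.T ∧ I.nx σ = t := by
  classical
  unfold pv at h
  split_ifs at h with h1
  have h2 : h1.choose = σ := Option.some.inj h
  rw [← h2]
  exact h1.choose_spec

private theorem pv_nx {I : Inst} (hI : I.Good) {σ : ℕ} (h1 : σ < I.T) (h2 : I.nx σ < I.T) :
    pv I (I.nx σ) = some σ := by
  classical
  have h3 : ∃ σ', σ' < I.T ∧ I.nx σ' = I.nx σ := ⟨σ, h1, rfl⟩
  have h4 : pv I (I.nx σ) = some h3.choose := by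
    unfold pv; rw [dif_pos h3]
  rw [h4]
  congr 1
  exact (hI.nx_inj σ h1 _ h3.choose_spec.1 h2 h3.choose_spec.2.symm).symm

/-- The later neighbours. -/
private noncomputable def NN (I : Inst) (v : Vx) : Finset Vx :=
  match v with
  | ((t, s), some (_ :: w)) => {node t s w}
  | ((t, s), some []) => if t < I.T then
      insert (rail t s) ((pv I t).elim ∅ (fun σ => {rail σ s})) else ∅
  | ((σ, false), none) => if I.nx σ < I.T then {rail σ true, rail (I.nx σ) false}
      else {rail σ true, node I.T false []}
  | ((σ, true), none) => if I.nx σ < I.T then {rail (I.nx σ) false, rail (I.nx σ) true}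
      else {node I.T false []}

private noncomputable def pp (I : Inst) (v : Vx) : Vx :=
  match v with
  | ((t, s), some (_ :: w)) => node t s w
  | ((t, s), some []) => (pv I t).elim (rail t s) (fun σ => rail σ s)
  | ((σ, false), none) => rail σ true
  | ((σ, true), none) => if I.nx σ < I.T then rail (I.nx σ) false else node I.T false []

private def rkk (I : Inst) (v : Vx) : ℕ :=
  match v with
  | ((_, _), some (_ :: w)) => I.B + 1 - (w.length + 1)
  | ((t, _), some []) => if t < I.T then I.B + 1 else I.B + 1 + 2 * I.T + 3
  | ((t, false), none) => I.B + 1 + 1 + 2 * t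
  | ((t, true), none) => I.B + 1 + 2 + 2 * t

private theorem sum_insert_le (f : Vx → ℕ) (a : Vx) (s : Finset Vx) :
    ∑ x ∈ insert a s, f x ≤ f a + ∑ x ∈ s, f x := by
  classical
  by_cases h : a ∈ s
  · rw [Finset.insert_eq_of_mem h]; omega
  · rw [Finset.sum_insert h]

private theorem wt_rail (I : Inst) (t : ℕ) (s : Bool) : I.wt (rail t s) ≤ 4 := by
  show (if I.hv t = true ∧ s = false then 4 else 3) ≤ 4
  split_ifs <;> omega

private theorem wt_node (I : Inst) (hI : I.Good) (t : ℕ) (s : Bool) (w : Word) :
    I.wt (node t s w) ≤ 2 * I.κ - 1 := by
  show (if w.length = I.dep t then I.lam t else I.κ) ≤ 2 * I.κ - 1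
  have := hI.kappa
  have h2 := Nat.mod_lt (I.ht t) (show 0 < I.κ by omega)
  unfold lam
  split_ifs <;> omega

private theorem dep_pos (I : Inst) (hI : I.Good) {t : ℕ} (ht : t ≤ I.T) : 1 ≤ I.dep t := by
  have h1 := hI.kappa
  have h2 := hI.base
  unfold dep Inst.ht
  have h3 : 2 ≤ (I.B - 3 * t) / I.κ := by
    rw [Nat.le_div_iff_mul_le (by omega)]
    omega
  omega

private theorem wt_node_inner (I : Inst) (t : ℕ) (s : Bool) (w : Word) (h : w.length < I.dep t) :
    I.wt (node t s w) = I.κ := by
  show (if w.length = I.dep t then I.lam t else I.κ) = I.κ
  rw [if_neg (by omega)]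

theorem Good.wtd {I : Inst} (hI : I.Good) : I.WTD (3 * I.κ - 1) := by
  classical
  have hκ := hI.kappa
  let S : Finset Vx := (finite_valid' I).toFinset
  have hS : ∀ v, v ∈ S ↔ I.Valid v := fun v => by simp [S]
  have hrail : ∀ t s, I.Valid (rail t s) ↔ t < I.T := fun t s => Iff.rfl
  have hnode : ∀ t s w, I.Valid (node t s w) ↔
      (t < I.T ∨ (t = I.T ∧ s = false)) ∧ w.length ≤ I.dep t := fun t s w => Iff.rfl
  have hroot : node I.T false [] ∈ S := by
    rw [hS, hnode]
    exact ⟨Or.inr ⟨rfl, rfl⟩, Nat.zero_le _⟩
  have hpar : ∀ v ∈ S, v ≠ node I.T false [] → pp I v ∈ S ∧ rkk I v < rkk I (pp I v) := by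
    rintro ⟨⟨t, s⟩, o⟩ hv hne
    rw [hS] at hv
    rw [hS]
    rcases o with _ | w
    · have ht : t < I.T := hv
      cases s with
      | false =>
        refine ⟨ht, ?_⟩
        show I.B + 1 + 1 + 2 * t < I.B + 1 + 2 + 2 * t
        omega
      | true =>
        by_cases h : I.nx t < I.T
        · have h1 : pp I ((t, true), none) = rail (I.nx t) false := if_pos h
          rw [h1]
          refine ⟨h, ?_⟩
          show I.B + 1 + 2 + 2 * t < I.B + 1 + 1 + 2 * I.nx t
          have := hI.lt_nx t ht
          omega
        · have h1 : pp I ((t, true), none) = node I.T false [] := if_neg h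
          rw [h1]
          refine ⟨(hS _).1 hroot, ?_⟩
          show I.B + 1 + 2 + 2 * t < if I.T < I.T then I.B + 1 else I.B + 1 + 2 * I.T + 3
          rw [if_neg (lt_irrefl _)]
          omega
    · have hv' : (t < I.T ∨ (t = I.T ∧ s = false)) ∧ w.length ≤ I.dep t := hv
      rcases w with _ | ⟨a, w⟩
      · have ht : t < I.T := by
          rcases hv'.1 with h | ⟨h1, h2⟩
          · exact h
          · subst h1; subst h2; exact absurd rfl hne
        have h2 : rkk I ((t, s), some []) = I.B + 1 := if_pos ht
        rw [h2]
        rcases hpv : pv I t with _ | σ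
        · have h1 : pp I ((t, s), some []) = rail t s := by
            show (pv I t).elim (rail t s) (fun σ => rail σ s) = _
            rw [hpv]; rfl
          rw [h1]
          refine ⟨ht, ?_⟩
          cases s
          · show I.B + 1 < I.B + 1 + 1 + 2 * t
            omega
          · show I.B + 1 < I.B + 1 + 2 + 2 * t
            omega
        · have h1 : pp I ((t, s), some []) = rail σ s := by
            show (pv I t).elim (rail t s) (fun σ => rail σ s) = _
            rw [hpv]; rfl
          rw [h1]
          refine ⟨(pv_some hpv).1, ?_⟩
          cases s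
          · show I.B + 1 < I.B + 1 + 1 + 2 * σ
            omega
          · show I.B + 1 < I.B + 1 + 2 + 2 * σ
            omega
      · have hl : w.length + 1 ≤ I.dep t := hv'.2
        have h4 := dep_le' I t
        have h5 : w.length ≤ I.dep t := by omega
        refine ⟨⟨hv'.1, h5⟩, ?_⟩
        show I.B + 1 - (w.length + 1) < rkk I (node t s w)
        rcases w with _ | ⟨b, w⟩
        · show I.B + 1 - (0 + 1) < if t < I.T then I.B + 1 else I.B + 1 + 2 * I.T + 3
          split_ifs <;> omega
        · simp only [List.length_cons] at hl ⊢
          show I.B + 1 - (w.length + 1 + 1) < I.B + 1 - (w.length + 1)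
          omega
  have hN : ∀ v ∈ S, ∀ u ∈ NN I v, u ∈ S ∧ rkk I v < rkk I u := by
    rintro ⟨⟨t, s⟩, o⟩ hv u hu
    rw [hS] at hv
    rw [hS]
    rcases o with _ | w
    · have ht : t < I.T := hv
      have hlt := hI.lt_nx t ht
      have hTrk : rkk I (node I.T false []) = I.B + 1 + 2 * I.T + 3 := if_neg (lt_irrefl _)
      cases s with
      | false =>
        by_cases h : I.nx t < I.T
        · have h1 : NN I ((t, false), none) = {rail t true, rail (I.nx t) false} := if_pos h
          rw [h1, Finset.mem_insert, Finset.mem_singleton] at hu
          rcases hu with rfl | rfl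
          · refine ⟨ht, ?_⟩
            show I.B + 1 + 1 + 2 * t < I.B + 1 + 2 + 2 * t
            omega
          · refine ⟨h, ?_⟩
            show I.B + 1 + 1 + 2 * t < I.B + 1 + 1 + 2 * I.nx t
            omega
        · have h1 : NN I ((t, false), none) = {rail t true, node I.T false []} := if_neg h
          rw [h1, Finset.mem_insert, Finset.mem_singleton] at hu
          rcases hu with rfl | rfl
          · refine ⟨ht, ?_⟩
            show I.B + 1 + 1 + 2 * t < I.B + 1 + 2 + 2 * t
            omega
          · refine ⟨(hS _).1 hroot, ?_⟩
            rw [hTrk]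
            show I.B + 1 + 1 + 2 * t < _
            omega
      | true =>
        by_cases h : I.nx t < I.T
        · have h1 : NN I ((t, true), none) = {rail (I.nx t) false, rail (I.nx t) true} := if_pos h
          rw [h1, Finset.mem_insert, Finset.mem_singleton] at hu
          rcases hu with rfl | rfl
          · refine ⟨h, ?_⟩
            show I.B + 1 + 2 + 2 * t < I.B + 1 + 1 + 2 * I.nx t
            omega
          · refine ⟨h, ?_⟩
            show I.B + 1 + 2 + 2 * t < I.B + 1 + 2 + 2 * I.nx t
            omega
        · have h1 : NN I ((t, true), none) = {node I.T false []} := if_neg h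
          rw [h1, Finset.mem_singleton] at hu
          subst hu
          refine ⟨(hS _).1 hroot, ?_⟩
          rw [hTrk]
          show I.B + 1 + 2 + 2 * t < _
          omega
    · have hv' : (t < I.T ∨ (t = I.T ∧ s = false)) ∧ w.length ≤ I.dep t := hv
      rcases w with _ | ⟨a, w⟩
      · by_cases ht : t < I.T
        · have h1 : NN I ((t, s), some []) =
              insert (rail t s) ((pv I t).elim ∅ (fun σ => {rail σ s})) := if_pos ht
          have h2 : rkk I ((t, s), some []) = I.B + 1 := if_pos ht
          rw [h2]
          rw [h1, Finset.mem_insert] at hu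
          have h3 : ∀ σ, I.B + 1 < rkk I (rail σ s) := by
            intro σ
            cases s
            · show I.B + 1 < I.B + 1 + 1 + 2 * σ
              omega
            · show I.B + 1 < I.B + 1 + 2 + 2 * σ
              omega
          rcases hu with rfl | hu
          · exact ⟨ht, h3 t⟩
          · rcases hpv : pv I t with _ | σ
            · rw [hpv] at hu
              exact absurd hu (Finset.notMem_empty _)
            · rw [hpv] at hu
              have hu' : u ∈ ({rail σ s} : Finset Vx) := hu
              rw [Finset.mem_singleton] at hu'
              subst hu'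
              exact ⟨(pv_some hpv).1, h3 σ⟩
        · have h1 : NN I ((t, s), some []) = ∅ := if_neg ht
          rw [h1] at hu
          exact absurd hu (Finset.notMem_empty _)
      · have h1 : NN I ((t, s), some (a :: w)) = {node t s w} := rfl
        rw [h1, Finset.mem_singleton] at hu
        subst hu
        have hne : ((t, s), some (a :: w)) ≠ node I.T false [] := by
          intro he
          have := congrArg Prod.snd he
          simp at this
        have h2 := hpar ((t, s), some (a :: w)) ((hS _).2 hv) hne
        rw [hS] at h2
        exact h2
  have hNroot : NN I (node I.T false []) = ∅ := if_neg (lt_irrefl _)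
  have hstep : ∀ v ∈ S, v ≠ node I.T false [] → ∀ u ∈ NN I v, u = pp I v ∨ u ∈ NN I (pp I v) := by
    rintro ⟨⟨t, s⟩, o⟩ hv hne u hu
    rw [hS] at hv
    rcases o with _ | w
    · have ht : t < I.T := hv
      cases s with
      | false =>
        show u = rail t true ∨ u ∈ NN I (rail t true)
        by_cases h : I.nx t < I.T
        · have h1 : NN I ((t, false), none) = {rail t true, rail (I.nx t) false} := if_pos h
          rw [h1, Finset.mem_insert, Finset.mem_singleton] at hu
          have h2 : NN I (rail t true) = {rail (I.nx t) false, rail (I.nx t) true} := if_pos h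
          rw [h2]
          rcases hu with h3 | h3
          · exact Or.inl h3
          · right; rw [h3]; simp
        · have h1 : NN I ((t, false), none) = {rail t true, node I.T false []} := if_neg h
          rw [h1, Finset.mem_insert, Finset.mem_singleton] at hu
          have h2 : NN I (rail t true) = {node I.T false []} := if_neg h
          rw [h2]
          rcases hu with h3 | h3
          · exact Or.inl h3
          · right; rw [h3]; simp
      | true =>
        by_cases h : I.nx t < I.T
        · have h0 : pp I ((t, true), none) = rail (I.nx t) false := if_pos h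
          rw [h0]
          have h1 : NN I ((t, true), none) = {rail (I.nx t) false, rail (I.nx t) true} := if_pos h
          rw [h1, Finset.mem_insert, Finset.mem_singleton] at hu
          rcases hu with h3 | h3
          · exact Or.inl h3
          · right
            rw [h3]
            show rail (I.nx t) true ∈ (if I.nx (I.nx t) < I.T then
              ({rail (I.nx t) true, rail (I.nx (I.nx t)) false} : Finset Vx)
                else {rail (I.nx t) true, node I.T false []})
            split_ifs <;> simp
        · have h0 : pp I ((t, true), none) = node I.T false [] := if_neg h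
          rw [h0]
          have h1 : NN I ((t, true), none) = {node I.T false []} := if_neg h
          rw [h1, Finset.mem_singleton] at hu
          exact Or.inl hu
    · have hv' : (t < I.T ∨ (t = I.T ∧ s = false)) ∧ w.length ≤ I.dep t := hv
      rcases w with _ | ⟨a, w⟩
      · have ht : t < I.T := by
          rcases hv'.1 with h | ⟨h1, h2⟩
          · exact h
          · subst h1; subst h2; exact absurd rfl hne
        have h1 : NN I ((t, s), some []) =
              insert (rail t s) ((pv I t).elim ∅ (fun σ => {rail σ s})) := if_pos ht
        rw [h1, Finset.mem_insert] at hu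
        rcases hpv : pv I t with _ | σ
        · have h2 : pp I ((t, s), some []) = rail t s := by
            show (pv I t).elim (rail t s) (fun σ => rail σ s) = _
            rw [hpv]; rfl
          rw [h2]
          rcases hu with hu | hu
          · exact Or.inl hu
          · rw [hpv] at hu
            exact absurd hu (Finset.notMem_empty _)
        · have h2 : pp I ((t, s), some []) = rail σ s := by
            show (pv I t).elim (rail t s) (fun σ => rail σ s) = _
            rw [hpv]; rfl
          rw [h2]
          rcases hu with hu | hu
          · right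
            obtain ⟨h3, h4⟩ := pv_some hpv
            rw [hu]
            subst h4
            cases s
            · have h5 : NN I (rail σ false) = {rail σ true, rail (I.nx σ) false} := if_pos ht
              rw [h5]; simp
            · have h5 : NN I (rail σ true) = {rail (I.nx σ) false, rail (I.nx σ) true} := if_pos ht
              rw [h5]; simp
          · rw [hpv] at hu
            left
            have hu' : u ∈ ({rail σ s} : Finset Vx) := hu
            rwa [Finset.mem_singleton] at hu'
      · have h1 : NN I ((t, s), some (a :: w)) = {node t s w} := rfl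
        rw [h1, Finset.mem_singleton] at hu
        exact Or.inl hu
  obtain ⟨X, hX, T, B, hT, hB1, hB2, hB3⟩ :=
    exists_treeDec_of_elim S (node I.T false []) hroot (pp I) (NN I) (rkk I) hpar hN hNroot hstep
  refine ⟨X, hX, T, B, hT, ?_, fun v hv => hB3 v ((hS v).2 hv), ?_⟩
  · have key : ∀ u v, I.Valid u → v ∈ NN I u → ∃ x, u ∈ B x ∧ v ∈ B x := by
      intro u v hu huv
      obtain ⟨x, hx⟩ := hB1 u ((hS u).2 hu)
      refine ⟨x, ?_, ?_⟩
      · rw [hx]; exact Finset.mem_insert_self _ _
      · rw [hx]; exact Finset.mem_insert_of_mem huv
    have key2 : ∀ u v, I.Valid u → v ∈ NN I u → ∃ x, v ∈ B x ∧ u ∈ B x := by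
      intro u v hu huv
      obtain ⟨x, h1, h2⟩ := key u v hu huv
      exact ⟨x, h2, h1⟩
    intro u v hu hv huv
    cases huv with
    | sides τ =>
      apply key _ _ hu
      show rail τ true ∈ (if I.nx τ < I.T then ({rail τ true, rail (I.nx τ) false} : Finset Vx)
                else {rail τ true, node I.T false []})
      split_ifs <;> simp
    | next τ s h =>
      apply key _ _ hu
      cases s
      · have h5 : NN I (rail τ false) = {rail τ true, rail (I.nx τ) false} := if_pos h
        rw [h5]; simp
      · have h5 : NN I (rail τ true) = {rail (I.nx τ) false, rail (I.nx τ) true} := if_pos h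
        rw [h5]; simp
    | root τ s h =>
      apply key _ _ hu
      have h1 : NN I (node τ s []) =
          insert (rail τ s) ((pv I τ).elim ∅ (fun σ => {rail σ s})) := if_pos h
      rw [h1]
      exact Finset.mem_insert_self _ _
    | rootNext σ s h =>
      apply key _ _ hu
      have h1 : NN I (node (I.nx σ) s []) =
          insert (rail (I.nx σ) s) ((pv I (I.nx σ)).elim ∅ (fun σ => {rail σ s})) := if_pos h
      have hv' : σ < I.T := hv
      rw [h1, pv_nx hI hv' h]
      simp
    | center σ s h =>
      apply key2 _ _ hv
      have h0 : ¬ I.nx σ < I.T := by omega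
      cases s
      · have h5 : NN I (rail σ false) = {rail σ true, node I.T false []} := if_neg h0
        rw [h5]; simp
      · have h5 : NN I (rail σ true) = {node I.T false []} := if_neg h0
        rw [h5]; simp
    | child τ s w a =>
      apply key _ _ hu
      show node τ s w ∈ ({node τ s w} : Finset Vx)
      simp
  · intro x
    obtain ⟨v, hv, hx⟩ := hB2 x
    rw [hx]
    refine (sum_insert_le _ _ _).trans ?_
    rw [hS] at hv
    have hroot_wt : I.wt (node I.T false []) = I.κ :=
      wt_node_inner I _ _ _ (dep_pos I hI (le_refl I.T))
    obtain ⟨⟨t, s⟩, o⟩ := v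
    rcases o with _ | w
    · have hr : ∀ σ s', I.wt (rail σ s') ≤ 4 := wt_rail I
      have h0 : I.wt ((t, s), none) ≤ 4 := hr t s
      cases s with
      | false =>
        by_cases h : I.nx t < I.T
        · have h1 : NN I ((t, false), none) = {rail t true, rail (I.nx t) false} := if_pos h
          rw [h1]
          have h2 := sum_insert_le I.wt (rail t true) {rail (I.nx t) false}
          rw [Finset.sum_singleton] at h2
          have h3 := hr t true
          have h4 := hr (I.nx t) false
          have h5 : (∑ x ∈ {rail t true, rail (I.nx t) false}, I.wt x) ≤ 8 := by omega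
          omega
        · have h1 : NN I ((t, false), none) = {rail t true, node I.T false []} := if_neg h
          rw [h1]
          have h2 := sum_insert_le I.wt (rail t true) {node I.T false []}
          rw [Finset.sum_singleton, hroot_wt] at h2
          have h3 := hr t true
          omega
      | true =>
        by_cases h : I.nx t < I.T
        · have h1 : NN I ((t, true), none) = {rail (I.nx t) false, rail (I.nx t) true} := if_pos h
          rw [h1]
          have h2 := sum_insert_le I.wt (rail (I.nx t) false) {rail (I.nx t) true}
          rw [Finset.sum_singleton] at h2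
          have h3 := hr (I.nx t) false
          have h4 := hr (I.nx t) true
          omega
        · have h1 : NN I ((t, true), none) = {node I.T false []} := if_neg h
          rw [h1, Finset.sum_singleton, hroot_wt]
          omega
    · have hv' : (t < I.T ∨ (t = I.T ∧ s = false)) ∧ w.length ≤ I.dep t := hv
      rcases w with _ | ⟨a, w⟩
      · by_cases ht : t < I.T
        · have h1 : NN I ((t, s), some []) =
              insert (rail t s) ((pv I t).elim ∅ (fun σ => {rail σ s})) := if_pos ht
          have h2 : I.wt ((t, s), some []) = I.κ :=
            wt_node_inner I _ _ _ (dep_pos I hI ht.le)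
          rw [h1, h2]
          have h3 := sum_insert_le I.wt (rail t s) ((pv I t).elim ∅ (fun σ => {rail σ s}))
          have h4 := wt_rail I t s
          have h5 : ∑ x ∈ ((pv I t).elim ∅ (fun σ => {rail σ s}) : Finset Vx), I.wt x ≤ 4 := by
            rcases pv I t with _ | σ
            · simp
            · simpa using wt_rail I σ s
          omega
        · have h1 : NN I ((t, s), some []) = ∅ := if_neg ht
          have h2 := wt_node I hI t s []
          have h3 : I.wt ((t, s), some []) ≤ 2 * I.κ - 1 := h2
          rw [h1, Finset.sum_empty]
          omega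
      · have h1 : NN I ((t, s), some (a :: w)) = {node t s w} := rfl
        rw [h1, Finset.sum_singleton]
        have h2 := wt_node I hI t s (a :: w)
        have h3 : I.wt ((t, s), some (a :: w)) ≤ 2 * I.κ - 1 := h2
        have h4 : w.length + 1 ≤ I.dep t := hv'.2
        have h5 := wt_node_inner I t s w (by omega)
        rw [h5]
        omega

end Inst

end Pool.Agent.Work.MP_8491f2_lc
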