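import Pool.Agent.Work.MP_8491f2_lc.UnitsDefs

/-!
Properties of the instance of an exactly-2-in-4 formula.
-/

set_option autoImplicit false

namespace Pool.Agent.Work.MP_8491f2_lc

/-! ### Positions in lists of blocks -/

private theorem getD_flatMap {α β : Type} (f : α → List β) (m : ℕ) (hf : ∀ a, (f a).length = m)
    (d : β) : ∀ (C : List α) (g i : ℕ) (hg : g < C.length), i < m →
    (C.flatMap f).getD (m * g + i) d = (f (C[g]'hg)).getD i d := by
  intro C
  induction C with
  | nil => intro g i hg; simp at hg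
  | cons a C ih =>
    intro g i hg hi
    rw [List.flatMap_cons]
    cases g with
    | zero =>
      rw [Nat.mul_zero, Nat.zero_add, List.getD_append _ _ _ _ (by rw [hf]; exact hi)]
      simp
    | succ g =>
      rw [List.getD_append_right _ _ _ _ (by rw [hf]; nlinarith)]
      have h1 : m * (g + 1) + i - (f a).length = m * g + i := by
        rw [hf, Nat.mul_succ]; omega
      rw [h1, ih g i (by simpa using hg) hi]
      simp

private theorem tokens_length (C : List Quad) : (tokens C).length = 9 * C.length := by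
  unfold tokens
  induction C with
  | nil => simp
  | cons a C ih => rw [List.flatMap_cons, List.length_append, ih]; simp; omega

/-- The `i`-th variable of a 4-clause. -/
private def qv (q : Quad) (i : ℕ) : ℕ := [q.1, q.2.1, q.2.2.1, q.2.2.2].getD i 0

private theorem tok_block (C : List Quad) (g i : ℕ) (hg : g < C.length) (hi : i < 9) :
    tok C (9 * g + i) = [some (C[g]'hg).1, some (C[g]'hg).2.1, some (C[g]'hg).2.2.1,
      some (C[g]'hg).2.2.2, none, some (C[g]'hg).1, some (C[g]'hg).2.1, some (C[g]'hg).2.2.1,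
      some (C[g]'hg).2.2.2].getD i none := by
  unfold tok tokens
  exact getD_flatMap _ 9 (fun a => by simp) none C g i hg hi

private theorem tok_outer (C : List Quad) (g i : ℕ) (hg : g < C.length) (hi : i < 4) :
    tok C (9 * g + i) = some (qv (C[g]'hg) i) := by
  rw [tok_block C g i hg (by omega)]
  interval_cases i <;> rfl

private theorem tok_wall (C : List Quad) (g : ℕ) (hg : g < C.length) :
    tok C (9 * g + 4) = none := by
  rw [tok_block C g 4 hg (by omega)]; rfl

private theorem tok_inner (C : List Quad) (g i : ℕ) (hg : g < C.length) (hi : i < 4) :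
    tok C (9 * g + i + 5) = some (qv (C[g]'hg) i) := by
  rw [Nat.add_assoc, tok_block C g (i + 5) hg (by omega)]
  interval_cases i <;> rfl

private theorem hvOf_block (C : List Quad) (g i : ℕ) (hg : g < C.length) (hi : i < 9) :
    hvOf C (9 * g + i) = decide (i < 4) := by
  unfold hvOf
  rw [getD_flatMap _ 9 (fun a => by simp) false C g i hg hi]
  interval_cases i <;> rfl

private theorem hvOf_large (C : List Quad) (t : ℕ) (ht : 9 * C.length ≤ t) :
    hvOf C t = false := by
  unfold hvOf
  apply List.getD_eq_default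
  have h : (C.flatMap fun _ => [true, true, true, true, false, false, false, false, false]).length
      = 9 * C.length := by
    induction C with
    | nil => simp
    | cons a C ih =>
      rw [List.flatMap_cons, List.length_append, ih (by simp at ht; omega)]; simp; omega
  rw [h]; exact ht

/-- The form of the heavy units. -/
private theorem heavy_form {C : List Quad} {σ : ℕ} (h : hvOf C σ = true) :
    ∃ g i, g < C.length ∧ i < 4 ∧ σ = 9 * g + i := by
  have hlt : σ < 9 * C.length := by
    by_contra hc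
    rw [hvOf_large C σ (by omega)] at h
    exact Bool.false_ne_true h
  refine ⟨σ / 9, σ % 9, by omega, ?_, by omega⟩
  have h1 : σ = 9 * (σ / 9) + σ % 9 := by omega
  rw [h1, hvOf_block C (σ / 9) (σ % 9) (by omega) (by omega)] at h
  simpa using h

/-! ### The next unit -/

/-- `ρ` is a later unit of the arm of `σ`. -/
private def Cand (C : List Quad) (σ ρ : ℕ) : Prop :=
  σ < ρ ∧ (tok C ρ).isSome = true ∧ tok C ρ = tok C σ

private theorem nxOf_spec (C : List Quad) (σ : ℕ) :
    (nxOf C σ < 9 * C.length ∧ Cand C σ (nxOf C σ) ∧ ∀ ρ < nxOf C σ, ¬ Cand C σ ρ) ∨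
    (nxOf C σ = 9 * C.length ∧ ∀ ρ < 9 * C.length, ¬ Cand C σ ρ) := by
  set p : ℕ → Bool := fun τ' =>
    decide (σ < τ') && ((tok C τ').isSome && decide (tok C τ' = tok C σ)) with hp
  have hpc : ∀ ρ, p ρ = true ↔ Cand C σ ρ := by
    intro ρ
    simp [hp, Cand]
  have hn : nxOf C σ = ((List.range (9 * C.length)).find? p).getD (9 * C.length) := by
    unfold nxOf
    rw [List.head?_filter]
  rcases hf : (List.range (9 * C.length)).find? p with _ | i
  · right
    rw [hn, hf]
    refine ⟨rfl, fun ρ hρ hc => ?_⟩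
    rw [List.find?_eq_none] at hf
    exact hf ρ (List.mem_range.mpr hρ) ((hpc ρ).mpr hc)
  · left
    rw [hn, hf]
    rw [List.find?_range_eq_some] at hf
    obtain ⟨h1, h2, h3⟩ := hf
    refine ⟨by simpa using h2, by simpa using (hpc i).mp h1, fun ρ hρ hc => ?_⟩
    have := h3 ρ (by simpa using hρ)
    rw [(hpc ρ).mpr hc] at this
    simp at this

private theorem nxOf_le_cand {C : List Quad} {σ ρ : ℕ} (hρ : ρ < 9 * C.length)
    (h : Cand C σ ρ) : nxOf C σ ≤ ρ := by
  rcases nxOf_spec C σ with ⟨_, _, h3⟩ | ⟨_, h2⟩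
  · by_contra hc
    exact h3 ρ (by omega) h
  · exact absurd h (h2 ρ hρ)

private theorem qv_inj {q : Quad} (hq : q.Dist) {i j : ℕ} (hi : i < 4) (hj : j < 4)
    (h : qv q i = qv q j) : i = j := by
  unfold Quad.Dist at hq
  unfold qv at h
  rw [List.getD_eq_getElem _ _ (by simpa using hi), List.getD_eq_getElem _ _ (by simpa using hj)]
    at h
  exact (List.Nodup.getElem_inj_iff hq).mp h

/-- The next unit of an outer unit is the corresponding inner unit. -/
private theorem nxOf_outer {C : List Quad} (hC : ∀ q ∈ C, q.Dist) {g i : ℕ} (hg : g < C.length)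
    (hi : i < 4) : nxOf C (9 * g + i) = 9 * g + i + 5 := by
  have hcand : Cand C (9 * g + i) (9 * g + i + 5) := by
    refine ⟨by omega, ?_, ?_⟩
    · rw [tok_inner C g i hg hi]; rfl
    · rw [tok_inner C g i hg hi, tok_outer C g i hg hi]
  have hle := nxOf_le_cand (by omega) hcand
  have hq : (C[g]'hg).Dist := hC _ (List.getElem_mem hg)
  rcases nxOf_spec C (9 * g + i) with ⟨h1, h2, _⟩ | ⟨h1, h2⟩
  · obtain ⟨h3, h4, h5⟩ := h2
    set ρ := nxOf C (9 * g + i) with hρ
    by_contra hne
    have hlt : ρ < 9 * g + i + 5 := by omega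
    rw [tok_outer C g i hg hi] at h5
    rcases lt_trichotomy ρ (9 * g + 4) with hc | hc | hc
    · obtain ⟨j, hj⟩ : ∃ j, ρ = 9 * g + j := ⟨ρ - 9 * g, by omega⟩
      rw [hj, tok_outer C g j hg (by omega)] at h5
      have := qv_inj hq (by omega) hi (Option.some.inj h5)
      omega
    · rw [hc, tok_wall C g hg] at h5
      simp at h5
    · obtain ⟨j, hj⟩ : ∃ j, ρ = 9 * g + j + 5 := ⟨ρ - (9 * g + 5), by omega⟩
      rw [hj, tok_inner C g j hg (by omega)] at h5
      have := qv_inj hq (by omega) hi (Option.some.inj h5)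
      omega
  · exact absurd hcand (h2 _ (by omega))

theorem instOf_good {κ : ℕ} (hκ : 6 ≤ κ) {C : List Quad} (hC : ∀ q ∈ C, q.Dist) :
    (instOf κ C).Good := by
  refine ⟨hκ, ?_, ?_, ?_, ?_, ?_⟩
  · show 3 * (9 * C.length) + 2 * κ + 7 ≤ 27 * C.length + 2 * κ + 10
    omega
  · intro σ hσ
    change σ < 9 * C.length at hσ
    show σ < nxOf C σ
    rcases nxOf_spec C σ with ⟨_, h2, _⟩ | ⟨h1, _⟩
    · exact h2.1
    · omega
  · intro σ _
    show nxOf C σ ≤ 9 * C.length
    rcases nxOf_spec C σ with ⟨h1, _, _⟩ | ⟨h1, _⟩ <;> omega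
  · intro σ _ σ' _ hn he
    change nxOf C σ < 9 * C.length at hn
    change nxOf C σ = nxOf C σ' at he
    have hc1 : Cand C σ (nxOf C σ) ∧ ∀ ρ < nxOf C σ, ¬ Cand C σ ρ := by
      rcases nxOf_spec C σ with ⟨_, h2, h3⟩ | ⟨h1, _⟩
      · exact ⟨h2, h3⟩
      · omega
    have hc2 : Cand C σ' (nxOf C σ') ∧ ∀ ρ < nxOf C σ', ¬ Cand C σ' ρ := by
      rcases nxOf_spec C σ' with ⟨_, h2, h3⟩ | ⟨h1, _⟩
      · exact ⟨h2, h3⟩
      · omega
    rw [← he] at hc2
    obtain ⟨⟨a1, a2, a3⟩, a4⟩ := hc1
    obtain ⟨⟨b1, b2, b3⟩, b4⟩ := hc2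
    rcases lt_trichotomy σ σ' with h | h | h
    · exact absurd ⟨h, by rw [← b3]; exact b2, by rw [← b3, a3]⟩ (a4 σ' b1)
    · exact h
    · exact absurd ⟨h, by rw [← a3]; exact a2, by rw [← a3, b3]⟩ (b4 σ a1)
  · intro σ _ hh
    change hvOf C σ = true at hh
    show nxOf C σ < 9 * C.length
    obtain ⟨g, i, hg, hi, rfl⟩ := heavy_form hh
    rw [nxOf_outer hC hg hi]
    omega

/-- The heavy units at a level lie in one block. -/
private theorem heavy_subset {C : List Quad} (hC : ∀ q ∈ C, q.Dist) (τ : ℕ) (o : ℕ → Bool)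
    (b : Bool) :
    ((Finset.range τ).filter fun σ => hvOf C σ = true ∧ τ ≤ nxOf C σ ∧ o σ = b) ⊆
      (((Finset.range 4).filter fun i => τ / 9 < C.length ∧ o (9 * (τ / 9) + i) = b).image
        fun i => 9 * (τ / 9) + i) := by
  intro σ hσ
  rw [Finset.mem_filter, Finset.mem_range] at hσ
  obtain ⟨h1, h2, h3, h4⟩ := hσ
  obtain ⟨g, i, hg, hi, rfl⟩ := heavy_form h2
  rw [nxOf_outer hC hg hi] at h3
  have hgt : τ / 9 = g := by omega
  rw [Finset.mem_image]
  refine ⟨i, ?_, by rw [hgt]⟩
  rw [Finset.mem_filter, Finset.mem_range, hgt]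
  exact ⟨hi, hg, h4⟩

private theorem card_four (f : ℕ → Bool) (b : Bool) :
    ((Finset.range 4).filter fun i => f i = b).card =
      (f 0 == b).toNat + (f 1 == b).toNat + (f 2 == b).toNat + (f 3 == b).toNat := by
  rw [Finset.card_filter, Finset.sum_range_succ, Finset.sum_range_succ, Finset.sum_range_succ,
    Finset.sum_range_succ, Finset.sum_range_zero]
  cases f 0 <;> cases f 1 <;> cases f 2 <;> cases f 3 <;> cases b <;> rfl

/-- A solution gives a balanced orientation with parameter 2. -/
theorem exists_balanced_of_sat24 {κ : ℕ} {C : List Quad} (hC : ∀ q ∈ C, q.Dist) (h : Sat24 C) :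
    ∃ o, (instOf κ C).Balanced 2 o := by
  obtain ⟨z, hz⟩ := h
  refine ⟨fun t => ((tok C t).map z).getD true, ?_, ?_⟩
  · intro σ _ hn
    change nxOf C σ < 9 * C.length at hn
    show ((tok C (nxOf C σ)).map z).getD true = ((tok C σ).map z).getD true
    rcases nxOf_spec C σ with ⟨_, h2, _⟩ | ⟨h1, _⟩
    · rw [h2.2.2]
    · omega
  · intro τ _ b
    refine le_trans (Finset.card_le_card (heavy_subset hC τ _ b)) ?_
    refine le_trans Finset.card_image_le ?_
    by_cases hg : τ / 9 < C.length
    · have hsub : ((Finset.range 4).filter fun i => τ / 9 < C.length ∧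
          ((tok C (9 * (τ / 9) + i)).map z).getD true = b) ⊆
          (Finset.range 4).filter fun i => z (qv (C[τ / 9]'hg) i) = b := by
        intro i hi
        rw [Finset.mem_filter, Finset.mem_range] at hi
        obtain ⟨h1, _, h3⟩ := hi
        rw [tok_outer C (τ / 9) i hg h1] at h3
        rw [Finset.mem_filter, Finset.mem_range]
        exact ⟨h1, by simpa using h3⟩
      refine le_trans (Finset.card_le_card hsub) ?_
      rw [card_four (fun i => z (qv (C[τ / 9]'hg) i)) b]
      have hc := hz _ (List.getElem_mem hg)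
      unfold Quad.count at hc
      change (z (qv (C[τ / 9]'hg) 0)).toNat + (z (qv (C[τ / 9]'hg) 1)).toNat +
        (z (qv (C[τ / 9]'hg) 2)).toNat + (z (qv (C[τ / 9]'hg) 3)).toNat = 2 at hc
      revert hc
      generalize z (qv (C[τ / 9]'hg) 0) = a0
      generalize z (qv (C[τ / 9]'hg) 1) = a1
      generalize z (qv (C[τ / 9]'hg) 2) = a2
      generalize z (qv (C[τ / 9]'hg) 3) = a3
      intro hc
      cases a0 <;> cases a1 <;> cases a2 <;> cases a3 <;> cases b <;> simp at hc ⊢
    · rw [Finset.filter_false_of_mem (fun i _ hi => hg hi.1)]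
      simp

/-- There is always a balanced orientation with parameter 4. -/
theorem exists_balanced_four {κ : ℕ} {C : List Quad} (hC : ∀ q ∈ C, q.Dist) :
    ∃ o, (instOf κ C).Balanced 4 o := by
  refine ⟨fun _ => true, fun _ _ _ => rfl, ?_⟩
  intro τ _ b
  refine le_trans (Finset.card_le_card (heavy_subset hC τ _ b)) ?_
  refine le_trans Finset.card_image_le ?_
  refine le_trans (Finset.card_le_card (Finset.filter_subset _ _)) ?_
  simp

/-- The walls: an orientation that is constant on arms and has at most `r` heavy rails on each side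
at each level gives a solution if `r = 2`, and does not exist if `r < 2` (and there is a
4-clause). -/
theorem sat24_of_orientation {κ : ℕ} {C : List Quad} (hC : ∀ q ∈ C, q.Dist) (hne : C ≠ [])
    {r : ℕ} (hr : r ≤ 2) {o : ℕ → Bool}
    (h1 : ∀ σ < (instOf κ C).T, (instOf κ C).nx σ < (instOf κ C).T →
      o ((instOf κ C).nx σ) = o σ)
    (h2 : ∀ τ < (instOf κ C).T, ∀ b : Bool, ((Finset.range τ).filter fun σ =>
      (instOf κ C).hv σ = true ∧ τ < (instOf κ C).nx σ ∧ o σ = b).card ≤ r) :
    r = 2 ∧ Sat24 C := by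
  -- the number of outer units of a block with given orientation
  have hblock : ∀ (g : ℕ) (hg : g < C.length) (b : Bool),
      ((Finset.range 4).filter fun i => o (9 * g + i) = b).card ≤ r := by
    intro g hg b
    have hT : 9 * g + 4 < 9 * C.length := by omega
    refine le_trans ?_ (h2 (9 * g + 4) hT b)
    rw [← Finset.card_image_of_injective ((Finset.range 4).filter fun i => o (9 * g + i) = b)
      (f := fun i => 9 * g + i) (fun a c hac => by simpa using hac)]
    refine Finset.card_le_card ?_
    intro σ hσ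
    rw [Finset.mem_image] at hσ
    obtain ⟨i, hi, rfl⟩ := hσ
    rw [Finset.mem_filter, Finset.mem_range] at hi
    rw [Finset.mem_filter, Finset.mem_range]
    refine ⟨by omega, ?_, ?_, hi.2⟩
    · show hvOf C (9 * g + i) = true
      rw [hvOf_block C g i hg (by omega)]
      simpa using hi.1
    · show 9 * g + 4 < nxOf C (9 * g + i)
      rw [nxOf_outer hC hg hi.1]
      omega
  have hcount : ∀ (g : ℕ) (hg : g < C.length),
      r = 2 ∧ (o (9 * g + 0)).toNat + (o (9 * g + 1)).toNat + (o (9 * g + 2)).toNat +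
        (o (9 * g + 3)).toNat = 2 := by
    intro g hg
    have ht := hblock g hg true
    have hf := hblock g hg false
    rw [card_four (fun i => o (9 * g + i))] at ht hf
    revert ht hf
    generalize o (9 * g + 0) = a0
    generalize o (9 * g + 1) = a1
    generalize o (9 * g + 2) = a2
    generalize o (9 * g + 3) = a3
    intro ht hf
    cases a0 <;> cases a1 <;> cases a2 <;> cases a3 <;> simp at ht hf ⊢ <;> omega
  -- orientation is constant along an arm
  have hconst : ∀ (n s t : ℕ), t - s ≤ n → s ≤ t → t < 9 * C.length →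
      (tok C t).isSome = true → tok C s = tok C t → o s = o t := by
    intro n
    induction n with
    | zero =>
      intro s t h3 h4 _ _ _
      rw [show s = t by omega]
    | succ n ih =>
      intro s t h3 h4 h5 h6 h7
      rcases Nat.eq_or_lt_of_le h4 with he | hlt
      · rw [he]
      · have hcand : Cand C s t := ⟨hlt, h6, h7.symm⟩
        have hle := nxOf_le_cand h5 hcand
        rcases nxOf_spec C s with ⟨h8, h9, _⟩ | ⟨h8, _⟩
        · have e1 : o (nxOf C s) = o s := h1 s (lt_of_lt_of_le hlt h5.le) h8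
          rw [← e1]
          refine ih (nxOf C s) t ?_ hle h5 h6 ?_
          · have := h9.1; omega
          · rw [h9.2.2, h7]
        · omega
  have hpos : 0 < C.length := List.length_pos_iff.mpr hne
  refine ⟨(hcount 0 hpos).1, ?_⟩
  classical
  let z : ℕ → Bool := fun a =>
    if hx : ∃ s, s < 9 * C.length ∧ tok C s = some a then o (Nat.find hx) else true
  have hz : ∀ (t a : ℕ), t < 9 * C.length → tok C t = some a → z a = o t := by
    intro t a h3 h4
    have hx : ∃ s, s < 9 * C.length ∧ tok C s = some a := ⟨t, h3, h4⟩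
    have hza : z a = o (Nat.find hx) := dif_pos hx
    rw [hza]
    refine hconst _ (Nat.find hx) t le_rfl (Nat.find_min' hx ⟨h3, h4⟩) h3 (by rw [h4]; rfl) ?_
    rw [(Nat.find_spec hx).2, h4]
  refine ⟨z, fun q hq => ?_⟩
  obtain ⟨g, hg, rfl⟩ := List.getElem_of_mem hq
  have hq4 : ∀ i < 4, z (qv (C[g]'hg) i) = o (9 * g + i) := fun i hi =>
    hz (9 * g + i) _ (by omega) (tok_outer C g i hg hi)
  unfold Quad.count
  change (z (qv (C[g]'hg) 0)).toNat + (z (qv (C[g]'hg) 1)).toNat +
    (z (qv (C[g]'hg) 2)).toNat + (z (qv (C[g]'hg) 3)).toNat = 2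
  rw [hq4 0 (by omega), hq4 1 (by omega), hq4 2 (by omega), hq4 3 (by omega)]
  exact (hcount g hg).2

end Pool.Agent.Work.MP_8491f2_lc
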