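import Pool.Agent.Work.MP_8491f2_lc.Tern

/-!
The upper bound: the nested layout of a balanced orientation.
-/

set_option autoImplicit false

namespace Pool.Agent.Work.MP_8491f2_lc

namespace Inst

namespace Lay

variable (I : Inst)

/-- Length of a block. -/
def MM : ℕ := 3 ^ I.dep 0 + I.T + 5

/-- Total length. -/
def LL : ℕ := (2 * I.T + 4) * MM I

/-- Start of the left rail of the unit `s`. -/
def t1 (s : ℕ) : ℕ := s * MM I + MM I - 2

/-- Switch time in the block `s`. -/
def t2 (s : ℕ) : ℕ := s * MM I + MM I - 1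

/-- Start of a node of a left anchor. -/
def pA (s : ℕ) (w : Word) : ℕ := s * MM I + w.lo (I.dep s)

/-- End of a node of a left anchor. -/
def qA (s : ℕ) (w : Word) : ℕ := if w = [] then t1 I s else s * MM I + w.hi (I.dep s)

/-- Start of a rail. -/
def rs (o : ℕ → Bool) (x : ℕ → ℕ) (s : ℕ) (b : Bool) : ℕ := if b = o s then x s else t1 I s

/-- End of a rail. -/
def re (o : ℕ → Bool) (x : ℕ → ℕ) (s : ℕ) (b : Bool) : ℕ :=
  if b = o s then LL I - t1 I s else x s

/-- Start of a node. -/
def ns (o : ℕ → Bool) (s : ℕ) (b : Bool) (w : Word) : ℕ :=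
  if b = o s then LL I - qA I s w else pA I s w

/-- End of a node. -/
def ne (o : ℕ → Bool) (s : ℕ) (b : Bool) (w : Word) : ℕ :=
  if b = o s then LL I - pA I s w else qA I s w

/-- Start of a vertex. -/
def st (o : ℕ → Bool) (x : ℕ → ℕ) (v : Vx) : ℕ :=
  match v.2 with
  | none => rs I o x v.1.1 v.1.2
  | some w => if v.1.1 = I.T then pA I I.T w else ns I o v.1.1 v.1.2 w

/-- End of a vertex. -/
def en (o : ℕ → Bool) (x : ℕ → ℕ) (v : Vx) : ℕ :=
  match v.2 with
  | none => re I o x v.1.1 v.1.2
  | some w => if v.1.1 = I.T then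
      (if w = [] then (I.T + 1) * MM I + I.T else I.T * MM I + w.hi (I.dep I.T))
      else ne I o v.1.1 v.1.2 w

/-- The words of length at most `n`. -/
noncomputable def Wd (n : ℕ) : Finset Word := (List.finite_length_le (Fin 3) n).toFinset

theorem mem_Wd {n : ℕ} {w : Word} : w ∈ Wd n ↔ w.length ≤ n := by
  simp [Wd]

open Classical in
/-- The bags. -/
noncomputable def bag (o : ℕ → Bool) (x : ℕ → ℕ) (z : ℕ) : Finset Vx :=
  ((Finset.range (I.T + 1) ×ˢ Finset.univ) ×ˢ Finset.insertNone (Wd (I.dep 0))).filter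
    fun v => I.Valid v ∧ st I o x v ≤ z ∧ z ≤ en I o x v

variable {I}

theorem dep_le (s : ℕ) : I.dep s ≤ I.dep 0 := by
  have h : I.ht s / I.κ ≤ I.ht 0 / I.κ := Nat.div_le_div_right (by unfold Inst.ht; omega)
  unfold Inst.dep
  omega

theorem mem_bag {o : ℕ → Bool} {x : ℕ → ℕ} {z : ℕ} {v : Vx} :
    v ∈ bag I o x z ↔ I.Valid v ∧ st I o x v ≤ z ∧ z ≤ en I o x v := by
  classical
  unfold bag
  rw [Finset.mem_filter]
  constructor
  · exact fun h => h.2
  · intro h
    refine ⟨?_, h⟩
    obtain ⟨⟨s, b⟩, w⟩ := v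
    cases w with
    | none =>
      have h1 : s < I.T := h.1
      simp only [Finset.mem_product, Finset.mem_range, Finset.mem_univ, and_true,
        Finset.mem_insertNone]
      exact ⟨by omega, by simp⟩
    | some w =>
      have h1 : (s < I.T ∨ (s = I.T ∧ b = false)) ∧ w.length ≤ I.dep s := h.1
      simp only [Finset.mem_product, Finset.mem_range, Finset.mem_univ, and_true,
        Finset.mem_insertNone]
      refine ⟨by omega, ?_⟩
      intro w' hw'
      have : w = w' := by simpa using hw'
      subst this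
      rw [mem_Wd]
      exact h1.2.trans (dep_le s)

theorem pow_le (s : ℕ) : 3 ^ I.dep s ≤ 3 ^ I.dep 0 := Nat.pow_le_pow_right (by norm_num) (dep_le s)

theorem pow_lt_MM (s : ℕ) : 3 ^ I.dep s + I.T + 5 ≤ MM I := by
  have := pow_le (I := I) s
  unfold MM
  omega

theorem MM_ge : I.T + 6 ≤ MM I := by
  have := pow_lt_MM (I := I) 0
  have h : 0 < 3 ^ I.dep 0 := Nat.pow_pos (by norm_num)
  omega

theorem mul_step {s t : ℕ} (h : s < t) : s * MM I + MM I ≤ t * MM I := by
  have : (s + 1) * MM I ≤ t * MM I := Nat.mul_le_mul_right _ h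
  linarith [add_mul s 1 (MM I)]

theorem LL_eq : LL I = I.T * MM I + I.T * MM I + 4 * MM I := by
  unfold LL
  ring

theorem pA_le_qA {s : ℕ} {w : Word} (hw : w.length ≤ I.dep s) : pA I s w ≤ qA I s w := by
  unfold pA qA t1
  have h1 := Word.lo_le_hi (I.dep s) w
  have h2 := Word.hi_lt hw
  have h3 := pow_lt_MM (I := I) s
  split <;> omega

theorem qA_le {s : ℕ} {w : Word} (hw : w.length ≤ I.dep s) : qA I s w + 2 ≤ s * MM I + MM I := by
  unfold qA t1
  have h2 := Word.hi_lt hw
  have h3 := pow_lt_MM (I := I) s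
  split <;> omega

theorem le_pA (s : ℕ) (w : Word) : s * MM I ≤ pA I s w := by
  unfold pA
  omega


/-! ### Loads -/

/-- Load of the rails of the unit `s`. -/
noncomputable def RL (I : Inst) (o : ℕ → Bool) (x : ℕ → ℕ) (s z : ℕ) : ℕ :=
  ∑ b : Bool, if rs I o x s b ≤ z ∧ z ≤ re I o x s b then I.wt (rail s b) else 0

/-- Load of one anchor of the unit `s`. -/
noncomputable def NLb (I : Inst) (o : ℕ → Bool) (s : ℕ) (b : Bool) (z : ℕ) : ℕ :=
  ∑ w ∈ Wd (I.dep 0), if w.length ≤ I.dep s ∧ ns I o s b w ≤ z ∧ z ≤ ne I o s b w then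
    (if w.length = I.dep s then I.lam s else I.κ) else 0

/-- Load of the anchors of the unit `s`. -/
noncomputable def NL (I : Inst) (o : ℕ → Bool) (s z : ℕ) : ℕ := ∑ b : Bool, NLb I o s b z

/-- Load of the central anchor. -/
noncomputable def CL (I : Inst) (z : ℕ) : ℕ :=
  ∑ w ∈ Wd (I.dep 0), if w.length ≤ I.dep I.T ∧ pA I I.T w ≤ z ∧
    z ≤ (if w = [] then (I.T + 1) * MM I + I.T else I.T * MM I + w.hi (I.dep I.T)) then
    (if w.length = I.dep I.T then I.lam I.T else I.κ) else 0

theorem sum_bag (o : ℕ → Bool) (x : ℕ → ℕ) (z : ℕ) :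
    ∑ v ∈ bag I o x z, I.wt v =
      ∑ s ∈ Finset.range I.T, (RL I o x s z + NL I o s z) + CL I z := by
  classical
  unfold bag
  rw [Finset.sum_filter, Finset.sum_product, Finset.sum_product, Finset.sum_range_succ]
  congr 1
  · refine Finset.sum_congr rfl fun s hs => ?_
    have hs' : s < I.T := Finset.mem_range.1 hs
    unfold RL NL
    rw [← Finset.sum_add_distrib]
    refine Finset.sum_congr rfl fun b _ => ?_
    rw [Finset.sum_insertNone]
    congr 1
    · refine if_congr ?_ rfl rfl
      constructor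
      · exact fun h => h.2
      · exact fun h => ⟨hs', h⟩
    · unfold NLb
      refine Finset.sum_congr rfl fun w _ => ?_
      refine if_congr ?_ rfl rfl
      have hv : I.Valid ((s, b), some w) ↔
        (s < I.T ∨ (s = I.T ∧ b = false)) ∧ w.length ≤ I.dep s := Iff.rfl
      have hne : ¬ s = I.T := by omega
      rw [hv]
      simp only [st, en, hne, if_false, hs', true_or, true_and]
  · rw [Fintype.sum_bool, Finset.sum_insertNone, Finset.sum_insertNone]
    have h0 : ∀ b : Bool, ¬ (I.Valid ((I.T, b), none)) := fun b h => lt_irrefl _ (h : I.T < I.T)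
    have h1 : ∀ w : Word, ¬ (I.Valid ((I.T, true), some w)) := by
      intro w h
      have h' : (I.T < I.T ∨ (I.T = I.T ∧ true = false)) ∧ w.length ≤ I.dep I.T := h
      simp at h'
    have e1 : (∑ w ∈ Wd (I.dep 0), if I.Valid ((I.T, true), some w) ∧
        st I o x ((I.T, true), some w) ≤ z ∧ z ≤ en I o x ((I.T, true), some w) then
        I.wt ((I.T, true), some w) else 0) = 0 := by
      refine Finset.sum_eq_zero fun w _ => ?_
      rw [if_neg]
      exact fun h => h1 w h.1
    rw [e1, if_neg (fun h => h0 _ h.1), if_neg (fun h => h0 _ h.1)]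
    simp only [zero_add, add_zero]
    unfold CL
    refine Finset.sum_congr rfl fun w _ => ?_
    refine if_congr ?_ rfl rfl
    have hv : I.Valid ((I.T, false), some w) ↔
      (I.T < I.T ∨ (I.T = I.T ∧ false = false)) ∧ w.length ≤ I.dep I.T := Iff.rfl
    rw [hv]
    simp only [st, en, if_true, lt_self_iff_false, false_or, true_and]

theorem sum_words_le {D m u κ lam : ℕ} {C : Word → Prop} [DecidablePred C]
    (hC : ∀ w : Word, w.length ≤ m → C w → w.lo m ≤ u ∧ u ≤ w.hi m) :
    ∑ w ∈ Wd D, (if w.length ≤ m ∧ C w then (if w.length = m then lam else κ) else 0)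
      ≤ κ * m + lam := by
  rw [← Finset.sum_filter]
  apply Word.sum_alive_le (t := u)
  intro w hw
  rw [Finset.mem_filter] at hw
  exact ⟨hw.2.1, hC w hw.2.1 hw.2.2⟩

theorem sum_words_le_root {D m κ lam : ℕ} (hm : 1 ≤ m) {C : Word → Prop} [DecidablePred C]
    (hC : ∀ w : Word, w.length ≤ m → C w → w = []) :
    ∑ w ∈ Wd D, (if w.length ≤ m ∧ C w then (if w.length = m then lam else κ) else 0) ≤ κ := by
  calc ∑ w ∈ Wd D, (if w.length ≤ m ∧ C w then (if w.length = m then lam else κ) else 0)
      ≤ ∑ w ∈ Wd D, (if w = [] then κ else 0) := by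
        refine Finset.sum_le_sum fun w _ => ?_
        by_cases h : w.length ≤ m ∧ C w
        · have := hC w h.1 h.2
          subst this
          rw [if_pos h, if_neg, if_pos rfl]
          simp only [List.length_nil]
          omega
        · rw [if_neg h]
          exact Nat.zero_le _
    _ ≤ κ := by
        rw [Finset.sum_ite_eq']
        split <;> omega

theorem sum_unique_le {t c : ℕ} {P : ℕ → Prop} [DecidablePred P]
    (h : ∀ i < t, ∀ j < t, P i → P j → i = j) :
    ∑ i ∈ Finset.range t, (if P i then c else 0) ≤ c := by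
  by_cases hex : ∃ i < t, P i
  · obtain ⟨i, hi, hPi⟩ := hex
    rw [Finset.sum_eq_single i]
    · simp [hPi]
    · intro j hj hne
      rw [if_neg]
      intro hPj
      exact hne (h j (Finset.mem_range.1 hj) i hi hPj hPi)
    · intro h'
      exact absurd (Finset.mem_range.2 hi) h'
  · rw [Finset.sum_eq_zero]
    · omega
    · intro i hi
      rw [if_neg]
      intro h
      exact hex ⟨i, Finset.mem_range.1 hi, h⟩

theorem ht_eq (hI : I.Good) {s : ℕ} (hs : s ≤ I.T) : I.κ * I.dep s + I.lam s = I.ht s := by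
  have h1 := hI.kappa
  have h2 := hI.base
  have h3 : 1 ≤ I.ht s / I.κ := by
    rw [Nat.le_div_iff_mul_le (by omega)]
    unfold Inst.ht
    omega
  have h4 := Nat.div_add_mod (I.ht s) I.κ
  unfold Inst.dep Inst.lam
  obtain ⟨q, hq⟩ : ∃ q, I.ht s / I.κ = q + 1 := ⟨I.ht s / I.κ - 1, by omega⟩
  rw [hq] at h4 ⊢
  rw [Nat.add_sub_cancel]
  linarith [Nat.mul_add I.κ q 1]

theorem dep_pos (hI : I.Good) {s : ℕ} (hs : s ≤ I.T) : 1 ≤ I.dep s := by
  have h1 := hI.kappa
  have h2 := hI.base
  have h3 : 2 ≤ I.ht s / I.κ := by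
    rw [Nat.le_div_iff_mul_le (by omega)]
    unfold Inst.ht
    omega
  unfold Inst.dep
  omega

theorem RL_eq (o : ℕ → Bool) (x : ℕ → ℕ) (s z : ℕ) :
    RL I o x s z = (if x s ≤ z ∧ z ≤ LL I - t1 I s then
        (if I.hv s = true ∧ o s = false then 4 else 3) else 0) +
      (if t1 I s ≤ z ∧ z ≤ x s then (if I.hv s = true ∧ o s = true then 4 else 3) else 0) := by
  unfold RL
  rw [Fintype.sum_bool]
  have e1 : ∀ b, I.wt (rail s b) = if I.hv s = true ∧ b = false then 4 else 3 := fun _ => rfl
  rw [e1, e1]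
  unfold rs re
  cases h : o s
  · simp
    rw [add_comm]
  · simp

theorem NL_eq (o : ℕ → Bool) (s z : ℕ) :
    NL I o s z = NLb I o s (o s) z + NLb I o s (!o s) z := by
  unfold NL
  rw [Fintype.sum_bool]
  cases h : o s
  · rw [add_comm]; rfl
  · rfl

theorem NLb_zero {o : ℕ → Bool} {s z : ℕ} {b : Bool}
    (h : ∀ w : Word, w.length ≤ I.dep s → ns I o s b w ≤ z → z ≤ ne I o s b w → False) :
    NLb I o s b z = 0 := by
  refine Finset.sum_eq_zero fun w _ => ?_
  rw [if_neg]
  exact fun hw => h w hw.1 hw.2.1 hw.2.2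

/-- Nodes on the right are not alive in the left zone. -/
theorem NLb_right {o : ℕ → Bool} {s z : ℕ} (hs : s < I.T) (hz : z ≤ (I.T + 4) * MM I) :
    NLb I o s (o s) z = 0 := by
  apply NLb_zero
  intro w hw h1 _
  unfold ns at h1
  rw [if_pos rfl] at h1
  have h2 := qA_le hw
  have h3 := mul_step (I := I) hs
  have h4 := LL_eq (I := I)
  have h5 := add_mul I.T 4 (MM I)
  omega

/-- Nodes on the left are alive in their block only. -/
theorem NLb_left {o : ℕ → Bool} {s z t u : ℕ} (hst : s ≠ t) (hu : u < MM I)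
    (hz : z = t * MM I + u) : NLb I o s (!o s) z = 0 := by
  apply NLb_zero
  intro w hw h1 h2
  unfold ns at h1
  unfold ne at h2
  have hb : ¬ ((!o s) = o s) := by cases o s <;> simp
  rw [if_neg hb] at h1 h2
  have h3 := qA_le hw
  have h4 := le_pA (I := I) s w
  rcases lt_or_gt_of_ne hst with h | h
  · have h5 := mul_step (I := I) h
    omega
  · have h5 := mul_step (I := I) h
    omega

/-- Load of the left anchor in its block. -/
theorem NLb_self (hI : I.Good) {o : ℕ → Bool} {t u : ℕ} (ht : t ≤ I.T) :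
    NLb I o t (!o t) (t * MM I + u) ≤
      if u < 3 ^ I.dep t then I.ht t else if u + 2 ≤ MM I then I.κ else 0 := by
  have hb : ¬ ((!o t) = o t) := by cases o t <;> simp
  have key : ∀ w : Word, ns I o t (!o t) w ≤ t * MM I + u ∧ t * MM I + u ≤ ne I o t (!o t) w →
      w.lo (I.dep t) ≤ u ∧ t * MM I + u ≤ qA I t w := by
    intro w hw
    unfold ns ne at hw
    rw [if_neg hb, if_neg hb] at hw
    unfold pA at hw
    exact ⟨by omega, hw.2⟩
  split
  · rename_i hu
    rw [← ht_eq hI ht]
    apply sum_words_le (u := u)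
    intro w hw h
    obtain ⟨h1, h2⟩ := key w h
    refine ⟨h1, ?_⟩
    by_cases hw0 : w = []
    · subst hw0
      simp only [Word.hi, Word.num, List.length_nil, Nat.sub_zero, Nat.zero_mul, Nat.zero_add]
      omega
    · unfold qA at h2
      rw [if_neg hw0] at h2
      omega
  · rename_i hu
    have key2 : ∀ w : Word, w.length ≤ I.dep t →
        ns I o t (!o t) w ≤ t * MM I + u ∧ t * MM I + u ≤ ne I o t (!o t) w → w = [] := by
      intro w hw h
      obtain ⟨h1, h2⟩ := key w h
      by_contra hw0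
      unfold qA at h2
      rw [if_neg hw0] at h2
      have := Word.hi_lt hw
      omega
    split
    · exact sum_words_le_root (dep_pos hI ht) key2
    · rename_i hu2
      rw [NLb_zero]
      intro w hw h1 h2
      have h3 := key2 w hw ⟨h1, h2⟩
      subst h3
      have h4 := (key [] ⟨h1, h2⟩).2
      unfold qA t1 at h4
      rw [if_pos rfl] at h4
      have := MM_ge (I := I)
      omega

theorem LL_sub_t1 {s : ℕ} (hs : s < I.T) : (I.T + 4) * MM I < LL I - t1 I s := by
  have h3 := mul_step (I := I) hs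
  have h4 := LL_eq (I := I)
  have h5 := add_mul I.T 4 (MM I)
  have h6 := MM_ge (I := I)
  unfold t1
  omega

theorem RL_gt {o : ℕ → Bool} {x : ℕ → ℕ} {s z t u : ℕ} (hst : t < s) (hu : u < MM I)
    (hz : z = t * MM I + u) (hx : z < x s) : RL I o x s z = 0 := by
  rw [RL_eq, if_neg, if_neg]
  · intro h
    have h1 := mul_step (I := I) hst
    have h6 := MM_ge (I := I)
    unfold t1 at h
    omega
  · intro h
    omega

theorem RL_self {o : ℕ → Bool} {x : ℕ → ℕ} {t u : ℕ} (hx : t * MM I + u < x t) :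
    RL I o x t (t * MM I + u) ≤ if u + 2 < MM I then 0 else 4 := by
  rw [RL_eq, if_neg (by omega)]
  have h6 := MM_ge (I := I)
  unfold t1
  split_ifs <;> omega

theorem RL_lt {o : ℕ → Bool} {x : ℕ → ℕ} {s t u : ℕ} (hs : s < I.T) (ht : t < I.T)
    (hu : u < MM I) (hst : s < t)
    (hx : (I.hv s = true ∧ o s = true ∧ x s = t2 I (I.nx s)) ∨
      (¬ (I.hv s = true ∧ o s = true) ∧ I.T * MM I ≤ x s)) :
    RL I o x s (t * MM I + u) ≤ 3 + (if I.hv s = true ∧ t ≤ I.nx s ∧ o s = true then 1 else 0) +
      (if I.nx s = t ∧ u = MM I - 1 then 4 else 0) := by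
  have h1 := mul_step (I := I) hst
  have h2 := mul_step (I := I) ht
  have h3 := mul_step (I := I) hs
  have h6 := pow_lt_MM (I := I) t
  rw [RL_eq]
  rcases hx with ⟨hv, ho, hx⟩ | ⟨hn, hx⟩
  · rw [hx, hv, ho]
    have e1 : ¬ ((true : Bool) = true ∧ (true : Bool) = false) := by simp
    have e2 : ((true : Bool) = true ∧ (true : Bool) = true) := by simp
    rw [if_neg e1, if_pos e2]
    unfold t1 t2
    rcases lt_trichotomy t (I.nx s) with h | h | h
    · have h7 := mul_step (I := I) h
      rw [if_neg (by omega), if_pos (⟨by rfl, by omega, by rfl⟩ : true = true ∧ t ≤ I.nx s ∧ true = true)]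
      split_ifs <;> omega
    · rw [← h]
      rw [if_pos (⟨by rfl, by omega, by rfl⟩ : true = true ∧ t ≤ t ∧ true = true)]
      split_ifs <;> omega
    · have h7 := mul_step (I := I) h
      rw [if_neg (show ¬ (true = true ∧ t ≤ I.nx s ∧ true = true) by omega)]
      rw [if_neg (show ¬ (s * MM I + MM I - 2 ≤ t * MM I + u ∧
        t * MM I + u ≤ I.nx s * MM I + MM I - 1) by omega)]
      split_ifs <;> omega
  · rw [if_neg (show ¬ (x s ≤ t * MM I + u ∧ t * MM I + u ≤ LL I - t1 I s) by omega), if_neg hn]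
    split_ifs <;> omega

theorem sum_rails (hI : I.Good) {r : ℕ} {o : ℕ → Bool} {t u : ℕ} (ht : t < I.T)
    (hb : ((Finset.range t).filter fun s => I.hv s = true ∧ t ≤ I.nx s ∧ o s = true).card ≤ r) :
    ∑ s ∈ Finset.range t, (3 + (if I.hv s = true ∧ t ≤ I.nx s ∧ o s = true then 1 else 0) +
      (if I.nx s = t ∧ u = MM I - 1 then 4 else 0)) ≤
      3 * t + r + if u = MM I - 1 then 4 else 0 := by
  rw [Finset.sum_add_distrib, Finset.sum_add_distrib, Finset.sum_const, Finset.card_range]
  rw [Finset.card_filter] at hb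
  have h1 : ∑ s ∈ Finset.range t, (if I.nx s = t ∧ u = MM I - 1 then 4 else 0) ≤
      if u = MM I - 1 then 4 else 0 := by
    split
    · rename_i hu
      apply sum_unique_le
      intro i hi j hj hPi hPj
      exact hI.nx_inj i (by omega) j (by omega) (by omega) (by omega)
    · rename_i hu
      rw [Finset.sum_eq_zero]
      intro i _
      rw [if_neg]
      exact fun h => hu h.2
  rw [smul_eq_mul]
  omega

theorem left_bound (hI : I.Good) {r : ℕ} {o : ℕ → Bool} {x : ℕ → ℕ}
    (hx : ∀ s < I.T, (I.hv s = true ∧ o s = true ∧ x s = t2 I (I.nx s)) ∨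
      (¬ (I.hv s = true ∧ o s = true) ∧ I.T * MM I ≤ x s))
    (hb : ∀ t ≤ I.T,
      ((Finset.range t).filter fun s => I.hv s = true ∧ t ≤ I.nx s ∧ o s = true).card ≤ r)
    {z : ℕ} (hz : z < I.T * MM I) :
    ∑ s ∈ Finset.range I.T, (RL I o x s z + NL I o s z) ≤ I.B + r := by
  have hM : 0 < MM I := by
    have h6 := MM_ge (I := I)
    omega
  obtain ⟨t, u, hu, hzt⟩ : ∃ t u, u < MM I ∧ z = t * MM I + u :=
    ⟨z / MM I, z % MM I, Nat.mod_lt _ hM, by
      rw [Nat.mul_comm]; exact (Nat.div_add_mod z (MM I)).symm⟩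
  subst hzt
  have ht : t < I.T := by
    by_contra h
    have := Nat.mul_le_mul_right (MM I) (not_lt.1 h)
    omega
  obtain ⟨k, hk⟩ : ∃ k, I.T = t + 1 + k := ⟨I.T - (t + 1), by omega⟩
  have hz4 : t * MM I + u ≤ (I.T + 4) * MM I := by
    have h5 := add_mul I.T 4 (MM I)
    omega
  have hxz : ∀ s < I.T, t ≤ s → t * MM I + u < x s := by
    intro s hs hts
    rcases hx s hs with ⟨_, _, h⟩ | ⟨_, h⟩
    · rw [h]
      have h1 := hI.lt_nx s hs
      have h2 := mul_step (I := I) (lt_of_le_of_lt hts h1)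
      unfold t2
      omega
    · omega
  rw [hk, Finset.sum_range_add, Finset.sum_range_succ]
  have h1 : ∑ s ∈ Finset.range t, (RL I o x s (t * MM I + u) + NL I o s (t * MM I + u)) ≤
      3 * t + r + if u = MM I - 1 then 4 else 0 := by
    refine le_trans (Finset.sum_le_sum fun s hs => ?_) (sum_rails hI ht (hb t ht.le))
    have hst : s < t := Finset.mem_range.1 hs
    rw [NL_eq, NLb_right (by omega) hz4, NLb_left (t := t) (u := u) (by omega) hu rfl]
    exact RL_lt (by omega) ht hu hst (hx s (by omega))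
  have h2 : ∑ s ∈ Finset.range k, (RL I o x (t + 1 + s) (t * MM I + u) +
      NL I o (t + 1 + s) (t * MM I + u)) = 0 := by
    refine Finset.sum_eq_zero fun s hs => ?_
    have hsk : s < k := Finset.mem_range.1 hs
    rw [NL_eq, NLb_right (by omega) hz4, NLb_left (t := t) (u := u) (by omega) hu rfl,
      RL_gt (t := t) (u := u) (by omega) hu rfl (hxz _ (by omega) (by omega))]
    rfl
  have h3 : RL I o x t (t * MM I + u) ≤ if u + 2 < MM I then 0 else 4 :=
    RL_self (hxz t ht le_rfl)
  have h4 : NL I o t (t * MM I + u) ≤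
      if u < 3 ^ I.dep t then I.ht t else if u + 2 ≤ MM I then I.κ else 0 := by
    rw [NL_eq, NLb_right ht hz4, Nat.zero_add]
    exact NLb_self hI ht.le
  have h5 : I.ht t = I.B - 3 * t := rfl
  have h6 := hI.base
  have h7 := hI.kappa
  have h8 := pow_lt_MM (I := I) t
  split_ifs at h1 h3 h4 <;> omega

/-! ### Mirror image and centre -/

/-- The switch times. -/
def sw (I : Inst) (o : ℕ → Bool) (s : ℕ) : ℕ :=
  if I.hv s = true then (if o s = true then t2 I (I.nx s) else LL I - t2 I (I.nx s))
  else (I.T + 1) * MM I + s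

theorem RL_mirror {o : ℕ → Bool} {x : ℕ → ℕ} {s z : ℕ} (hs : s < I.T) (hz : z ≤ LL I)
    (hx : x s ≤ LL I) :
    RL I o x s z = RL I (fun i => !o i) (fun i => LL I - x i) s (LL I - z) := by
  rw [RL_eq, RL_eq, add_comm]
  have h1 : t1 I s ≤ LL I := by
    have h3 := mul_step (I := I) hs
    have h4 := LL_eq (I := I)
    unfold t1
    omega
  congr 1
  · refine if_congr ?_ (if_congr ?_ rfl rfl) rfl
    · show _ ↔ LL I - x s ≤ LL I - z ∧ _
      omega
    · simp
  · refine if_congr ?_ (if_congr ?_ rfl rfl) rfl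
    · show _ ↔ _ ∧ LL I - z ≤ LL I - x s
      omega
    · simp

theorem NL_mirror {o : ℕ → Bool} {s z : ℕ} (hs : s < I.T) (hz : z ≤ LL I) :
    NL I o s z = NL I (fun i => !o i) s (LL I - z) := by
  unfold NL
  refine Finset.sum_congr rfl fun b _ => ?_
  unfold NLb
  refine Finset.sum_congr rfl fun w _ => ?_
  refine if_congr ?_ rfl rfl
  refine and_congr_right fun hw => ?_
  have h1 := pA_le_qA hw
  have h2 := qA_le hw
  have h3 := mul_step (I := I) hs
  have h4 := LL_eq (I := I)
  unfold ns ne
  by_cases h : b = o s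
  · have h' : ¬ (b = !o s) := by
      rw [h]
      cases o s <;> simp
    show _ ↔ (if b = !o s then LL I - qA I s w else pA I s w) ≤ LL I - z ∧
      LL I - z ≤ (if b = !o s then LL I - pA I s w else qA I s w)
    rw [if_pos h, if_pos h, if_neg h', if_neg h']
    omega
  · have h' : b = !o s := by
      revert h
      cases b <;> cases o s <;> simp
    show _ ↔ (if b = !o s then LL I - qA I s w else pA I s w) ≤ LL I - z ∧
      LL I - z ≤ (if b = !o s then LL I - pA I s w else qA I s w)
    rw [if_neg h, if_neg h, if_pos h', if_pos h']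
    omega

theorem sw_bounds (hI : I.Good) (o : ℕ → Bool) {s : ℕ} (hs : s < I.T) :
    (I.nx s < I.T → t2 I (I.nx s) ≤ sw I o s ∧ sw I o s ≤ LL I - t2 I (I.nx s)) ∧
    t1 I s ≤ sw I o s ∧ sw I o s ≤ LL I - t1 I s := by
  have h1 := hI.lt_nx s hs
  have h2 := hI.nx_le s hs
  have h3 := mul_step (I := I) hs
  have h4 := LL_eq (I := I)
  have h5 := MM_ge (I := I)
  have h6 := mul_step (I := I) h1
  have h7 := hI.hv_nx s hs
  have h8 := add_mul I.T 1 (MM I)
  have h9 : I.nx s * MM I ≤ I.T * MM I := Nat.mul_le_mul_right _ h2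
  by_cases hn : I.nx s < I.T
  · have h10 := mul_step (I := I) hn
    unfold sw t1 t2
    refine ⟨fun _ => ?_, ?_⟩ <;> split_ifs <;> omega
  · have hv : ¬ I.hv s = true := fun h => hn (h7 h)
    unfold sw t1
    rw [if_neg hv]
    refine ⟨fun h => absurd h hn, ?_⟩
    omega

theorem sw_left (hI : I.Good) (o : ℕ → Bool) {s : ℕ} (hs : s < I.T) :
    (I.hv s = true ∧ o s = true ∧ sw I o s = t2 I (I.nx s)) ∨
      (¬ (I.hv s = true ∧ o s = true) ∧ I.T * MM I ≤ sw I o s) := by
  have h4 := LL_eq (I := I)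
  have h5 := MM_ge (I := I)
  have h8 := add_mul I.T 1 (MM I)
  by_cases hv : I.hv s = true
  · have h7 := hI.hv_nx s hs hv
    have h10 := mul_step (I := I) h7
    unfold sw
    rw [if_pos hv]
    by_cases ho : o s = true
    · left
      rw [if_pos ho]
      exact ⟨hv, ho, rfl⟩
    · right
      rw [if_neg ho]
      refine ⟨fun h => ho h.2, ?_⟩
      unfold t2
      omega
  · right
    unfold sw
    rw [if_neg hv]
    exact ⟨fun h => hv h.1, by omega⟩

theorem sw_right (hI : I.Good) (o : ℕ → Bool) {s : ℕ} (hs : s < I.T) :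
    (I.hv s = true ∧ (!o s) = true ∧ LL I - sw I o s = t2 I (I.nx s)) ∨
      (¬ (I.hv s = true ∧ (!o s) = true) ∧ I.T * MM I ≤ LL I - sw I o s) := by
  have h4 := LL_eq (I := I)
  have h5 := MM_ge (I := I)
  have h8 := add_mul I.T 1 (MM I)
  by_cases hv : I.hv s = true
  · have h7 := hI.hv_nx s hs hv
    have h10 := mul_step (I := I) h7
    unfold sw
    rw [if_pos hv]
    by_cases ho : o s = true
    · right
      rw [if_pos ho]
      refine ⟨fun h => by simp [ho] at h, ?_⟩
      unfold t2
      omega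
    · left
      rw [if_neg ho]
      refine ⟨hv, by simpa using ho, ?_⟩
      unfold t2
      omega
  · right
    unfold sw
    rw [if_neg hv]
    exact ⟨fun h => hv h.1, by omega⟩

theorem RL_center (hI : I.Good) {o : ℕ → Bool} {s z : ℕ} (hs : s < I.T)
    (h1 : I.T * MM I ≤ z) (h2 : z ≤ (I.T + 4) * MM I) :
    RL I o (sw I o) s z ≤ 3 + if z = (I.T + 1) * MM I + s then 3 else 0 := by
  have h4 := LL_eq (I := I)
  have h5 := MM_ge (I := I)
  have h8 := add_mul I.T 1 (MM I)
  have h9 := add_mul I.T 4 (MM I)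
  have h11 := mul_step (I := I) hs
  rw [RL_eq]
  by_cases hv : I.hv s = true
  · have h7 := hI.hv_nx s hs hv
    have h10 := mul_step (I := I) h7
    unfold sw
    rw [if_pos hv]
    by_cases ho : o s = true
    · rw [if_pos ho, if_neg (show ¬ (t1 I s ≤ z ∧ z ≤ t2 I (I.nx s)) by unfold t2; omega),
        if_neg (show ¬ (I.hv s = true ∧ o s = false) by simp [ho])]
      split_ifs <;> omega
    · rw [if_neg ho, if_neg (show ¬ (LL I - t2 I (I.nx s) ≤ z ∧ z ≤ LL I - t1 I s) by
        unfold t2; omega), if_neg (show ¬ (I.hv s = true ∧ o s = true) from fun h => ho h.2)]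
      split_ifs <;> omega
  · have hsw : sw I o s = (I.T + 1) * MM I + s := by
      unfold sw
      rw [if_neg hv]
    rw [hsw, if_neg (show ¬ (I.hv s = true ∧ o s = false) from fun h => hv h.1),
      if_neg (show ¬ (I.hv s = true ∧ o s = true) from fun h => hv h.1)]
    split_ifs <;> omega

theorem NL_center {o : ℕ → Bool} {s z : ℕ} (hs : s < I.T)
    (h1 : I.T * MM I ≤ z) (h2 : z ≤ (I.T + 4) * MM I) : NL I o s z = 0 := by
  rw [NL_eq, NLb_right hs h2, Nat.zero_add]
  apply NLb_zero
  intro w hw h3 h4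
  have hb : ¬ ((!o s) = o s) := by cases o s <;> simp
  unfold ne at h4
  rw [if_neg hb] at h4
  have h5 := qA_le hw
  have h6 := mul_step (I := I) hs
  omega

theorem CL_out {z : ℕ} (h : z < I.T * MM I ∨ (I.T + 4) * MM I < z) : CL I z = 0 := by
  unfold CL
  refine Finset.sum_eq_zero fun w _ => ?_
  rw [if_neg]
  rintro ⟨hw, h1, h2⟩
  have h3 := le_pA (I := I) I.T w
  have h4 := Word.hi_lt hw
  have h5 := pow_lt_MM (I := I) I.T
  have h8 := add_mul I.T 1 (MM I)
  have h9 := add_mul I.T 4 (MM I)
  split at h2 <;> omega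

theorem CL_le (hI : I.Good) (u : ℕ) :
    CL I (I.T * MM I + u) ≤ if u < 3 ^ I.dep I.T then I.ht I.T else I.κ := by
  unfold CL
  split
  · rename_i hu
    rw [← ht_eq hI le_rfl]
    apply sum_words_le (u := u)
    intro w hw h
    obtain ⟨h1, h2⟩ := h
    unfold pA at h1
    refine ⟨by omega, ?_⟩
    by_cases hw0 : w = []
    · subst hw0
      simp only [Word.hi, Word.num, List.length_nil, Nat.sub_zero, Nat.zero_mul, Nat.zero_add]
      omega
    · rw [if_neg hw0] at h2
      omega
  · rename_i hu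
    apply sum_words_le_root (dep_pos hI le_rfl)
    intro w hw h
    obtain ⟨h1, h2⟩ := h
    by_contra hw0
    rw [if_neg hw0] at h2
    have := Word.hi_lt hw
    omega

theorem en_le (hI : I.Good) (o : ℕ → Bool) {v : Vx} (hv : I.Valid v) :
    en I o (sw I o) v ≤ LL I := by
  have h4 := LL_eq (I := I)
  have h5 := MM_ge (I := I)
  have h8 := add_mul I.T 1 (MM I)
  obtain ⟨⟨s, b⟩, w⟩ := v
  cases w with
  | none =>
    have hs : s < I.T := hv
    have h1 := sw_bounds hI o hs
    show re I o (sw I o) s b ≤ LL I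
    unfold re
    split <;> omega
  | some w =>
    have hs : (s < I.T ∨ (s = I.T ∧ b = false)) ∧ w.length ≤ I.dep s := hv
    show (if s = I.T then
      (if w = [] then (I.T + 1) * MM I + I.T else I.T * MM I + w.hi (I.dep I.T))
      else ne I o s b w) ≤ LL I
    split
    · rename_i hsT
      subst hsT
      have h6 := Word.hi_lt hs.2
      have h7 := pow_lt_MM (I := I) I.T
      split <;> omega
    · rename_i hsT
      have hs' : s < I.T := by omega
      have h1 := qA_le hs.2
      have h2 := mul_step (I := I) hs'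
      unfold ne
      split <;> omega

theorem load_le (hI : I.Good) {r : ℕ} {o : ℕ → Bool} (ho : I.Balanced r o) (z : ℕ) :
    ∑ v ∈ bag I o (sw I o) z, I.wt v ≤ I.B + r := by
  have h4 := LL_eq (I := I)
  have h5 := MM_ge (I := I)
  have h8 := add_mul I.T 1 (MM I)
  have h9 := add_mul I.T 4 (MM I)
  by_cases hzL : LL I < z
  · have : bag I o (sw I o) z = ∅ := by
      rw [Finset.eq_empty_iff_forall_notMem]
      intro v hv
      rw [mem_bag] at hv
      have := en_le hI o hv.1
      omega
    rw [this, Finset.sum_empty]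
    exact Nat.zero_le _
  rw [sum_bag]
  by_cases h1 : z < I.T * MM I
  · rw [CL_out (Or.inl h1), Nat.add_zero]
    exact left_bound hI (fun s hs => sw_left hI o hs) (fun t ht => ho.2 t ht true |>.trans' (by
      apply Finset.card_le_card
      intro s hs
      simpa using hs)) h1
  by_cases h2 : (I.T + 4) * MM I < z
  · rw [CL_out (Or.inr h2), Nat.add_zero]
    have e : ∑ s ∈ Finset.range I.T, (RL I o (sw I o) s z + NL I o s z) =
        ∑ s ∈ Finset.range I.T, (RL I (fun i => !o i) (fun i => LL I - sw I o i) s (LL I - z) +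
          NL I (fun i => !o i) s (LL I - z)) := by
      refine Finset.sum_congr rfl fun s hs => ?_
      have hs' := Finset.mem_range.1 hs
      have hb := sw_bounds hI o hs'
      rw [← RL_mirror hs' (by omega) (by omega), ← NL_mirror hs' (by omega)]
    rw [e]
    refine left_bound hI (fun s hs => sw_right hI o hs) (fun t ht => ho.2 t ht false |>.trans' (by
      apply Finset.card_le_card
      intro s hs
      simpa using hs)) (by omega)
  · obtain ⟨u, rfl⟩ : ∃ u, z = I.T * MM I + u := ⟨z - I.T * MM I, by omega⟩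
    have e1 : ∑ s ∈ Finset.range I.T, (RL I o (sw I o) s (I.T * MM I + u) +
        NL I o s (I.T * MM I + u)) ≤
        ∑ s ∈ Finset.range I.T, (3 + if u = MM I + s then 3 else 0) := by
      refine Finset.sum_le_sum fun s hs => ?_
      have hs' := Finset.mem_range.1 hs
      rw [NL_center hs' (by omega) (by omega), Nat.add_zero]
      refine (RL_center hI hs' (by omega) (by omega)).trans ?_
      split_ifs <;> omega
    have e0 : ∑ s ∈ Finset.range I.T, (3 + if u = MM I + s then 3 else 0) =
        I.T * 3 + ∑ s ∈ Finset.range I.T, (if u = MM I + s then 3 else 0) := by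
      rw [Finset.sum_add_distrib, Finset.sum_const, Finset.card_range, smul_eq_mul]
    rw [e0] at e1
    have e2 := CL_le hI u
    have e3 : ∑ s ∈ Finset.range I.T, (if u = MM I + s then 3 else 0) ≤
        if u < 3 ^ I.dep I.T then 0 else 3 := by
      split
      · rw [Finset.sum_eq_zero]
        intro s _
        have := pow_lt_MM (I := I) I.T
        rw [if_neg]
        omega
      · apply sum_unique_le
        intro i _ j _ hi hj
        omega
    have h6 := hI.base
    have h7 := hI.kappa
    have h10 : I.ht I.T = I.B - 3 * I.T := rfl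
    split_ifs at e2 e3 <;> omega

/-! ### Edges -/

theorem valid_rail {s : ℕ} {b : Bool} (h : I.Valid (rail s b)) : s < I.T := h

theorem valid_node {s : ℕ} {b : Bool} {w : Word} (h : I.Valid (node s b w)) :
    (s < I.T ∨ (s = I.T ∧ b = false)) ∧ w.length ≤ I.dep s := h

theorem st_rail (o : ℕ → Bool) (x : ℕ → ℕ) (s : ℕ) (b : Bool) :
    st I o x (rail s b) = rs I o x s b := rfl

theorem en_rail (o : ℕ → Bool) (x : ℕ → ℕ) (s : ℕ) (b : Bool) :
    en I o x (rail s b) = re I o x s b := rfl

theorem st_node (o : ℕ → Bool) (x : ℕ → ℕ) {s : ℕ} (b : Bool) (w : Word) (hs : s < I.T) :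
    st I o x (node s b w) = ns I o s b w := by
  show (if s = I.T then pA I I.T w else ns I o s b w) = _
  rw [if_neg (by omega)]

theorem en_node (o : ℕ → Bool) (x : ℕ → ℕ) {s : ℕ} (b : Bool) (w : Word) (hs : s < I.T) :
    en I o x (node s b w) = ne I o s b w := by
  show (if s = I.T then
      (if w = [] then (I.T + 1) * MM I + I.T else I.T * MM I + w.hi (I.dep I.T))
      else ne I o s b w) = _
  rw [if_neg (by omega)]

theorem st_center (o : ℕ → Bool) (x : ℕ → ℕ) (b : Bool) (w : Word) :
    st I o x (node I.T b w) = pA I I.T w := by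
  show (if I.T = I.T then pA I I.T w else ns I o I.T b w) = _
  rw [if_pos rfl]

theorem en_center (o : ℕ → Bool) (x : ℕ → ℕ) (b : Bool) (w : Word) :
    en I o x (node I.T b w) =
      if w = [] then (I.T + 1) * MM I + I.T else I.T * MM I + w.hi (I.dep I.T) := by
  show (if I.T = I.T then
      (if w = [] then (I.T + 1) * MM I + I.T else I.T * MM I + w.hi (I.dep I.T))
      else ne I o I.T b w) = _
  rw [if_pos rfl]

theorem st_le_en (hI : I.Good) (o : ℕ → Bool) {v : Vx} (hv : I.Valid v) :
    st I o (sw I o) v ≤ en I o (sw I o) v := by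
  have h4 := LL_eq (I := I)
  have h5 := MM_ge (I := I)
  have h8 := add_mul I.T 1 (MM I)
  obtain ⟨⟨s, b⟩, w⟩ := v
  cases w with
  | none =>
    have hs := valid_rail hv
    have h1 := (sw_bounds hI o hs).2
    rw [st_rail, en_rail]
    unfold rs re
    split <;> omega
  | some w =>
    have hs := valid_node hv
    have h6 := Word.lo_le_hi (I.dep s) w
    have h7 := Word.hi_lt hs.2
    have h9 := pow_lt_MM (I := I) s
    rcases hs.1 with h | ⟨h, _⟩
    · rw [st_node _ _ _ _ h, en_node _ _ _ _ h]
      have h1 := pA_le_qA hs.2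
      unfold ns ne
      split <;> omega
    · subst h
      rw [st_center, en_center]
      unfold pA
      split <;> omega

theorem edge (hI : I.Good) {r : ℕ} {o : ℕ → Bool} (ho : I.Balanced r o) {u v : Vx}
    (hu : I.Valid u) (hv : I.Valid v) (huv : I.E u v) :
    ∃ t, u ∈ bag I o (sw I o) t ∧ v ∈ bag I o (sw I o) t := by
  have h4 := LL_eq (I := I)
  have h5 := MM_ge (I := I)
  have h8 := add_mul I.T 1 (MM I)
  suffices h : ∃ t, (st I o (sw I o) u ≤ t ∧ t ≤ en I o (sw I o) u) ∧
      (st I o (sw I o) v ≤ t ∧ t ≤ en I o (sw I o) v) by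
    obtain ⟨t, h1, h2⟩ := h
    exact ⟨t, mem_bag.2 ⟨hu, h1⟩, mem_bag.2 ⟨hv, h2⟩⟩
  cases huv with
  | sides τ =>
    have hs := valid_rail hu
    have h1 := (sw_bounds hI o hs).2
    refine ⟨sw I o τ, ?_⟩
    rw [st_rail, en_rail, st_rail, en_rail]
    unfold rs re
    cases o τ <;> simp <;> omega
  | next τ s hn =>
    have hs := valid_rail hu
    have h1 := sw_bounds hI o hs
    have h2 := (sw_bounds hI o hn).2
    have h3 := ho.1 τ hs hn
    have h6 := mul_step (I := I) (hI.lt_nx τ hs)
    have h7 := mul_step (I := I) hn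
    have h9 := h1.1 hn
    rw [st_rail, en_rail, st_rail, en_rail]
    unfold rs re
    rw [h3]
    unfold t1 t2 at *
    by_cases hb : s = o τ
    · refine ⟨LL I - t1 I (I.nx τ), ?_⟩
      unfold t1
      rw [if_pos hb, if_pos hb, if_pos hb, if_pos hb]
      omega
    · refine ⟨t1 I (I.nx τ), ?_⟩
      unfold t1
      rw [if_neg hb, if_neg hb, if_neg hb, if_neg hb]
      omega
  | root τ s hτ =>
    have h1 := sw_bounds hI o hτ
    have h7 := mul_step (I := I) hτ
    have h10 : pA I τ [] = τ * MM I := by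
      unfold pA
      simp [Word.lo, Word.num]
    have h11 : qA I τ [] = t1 I τ := by
      unfold qA
      rw [if_pos rfl]
    rw [st_node _ _ _ _ hτ, en_node _ _ _ _ hτ, st_rail, en_rail]
    unfold ns ne rs re
    rw [h10, h11]
    by_cases hb : s = o τ
    · refine ⟨LL I - t1 I τ, ?_⟩
      rw [if_pos hb, if_pos hb, if_pos hb, if_pos hb]
      unfold t1 at *
      omega
    · refine ⟨t1 I τ, ?_⟩
      rw [if_neg hb, if_neg hb, if_neg hb, if_neg hb]
      unfold t1 at *
      omega
  | rootNext τ s hn =>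
    have hs := valid_rail hv
    have h1 := sw_bounds hI o hs
    have h3 := ho.1 τ hs hn
    have h6 := mul_step (I := I) (hI.lt_nx τ hs)
    have h7 := mul_step (I := I) hn
    have h9 := h1.1 hn
    have h10 : pA I (I.nx τ) [] = I.nx τ * MM I := by
      unfold pA
      simp [Word.lo, Word.num]
    have h11 : qA I (I.nx τ) [] = t1 I (I.nx τ) := by
      unfold qA
      rw [if_pos rfl]
    rw [st_node _ _ _ _ hn, en_node _ _ _ _ hn, st_rail, en_rail]
    unfold ns ne rs re
    rw [h10, h11, h3]
    by_cases hb : s = o τ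
    · refine ⟨LL I - t1 I (I.nx τ), ?_⟩
      rw [if_pos hb, if_pos hb, if_pos hb, if_pos hb]
      unfold t1 t2 at *
      omega
    · refine ⟨t1 I (I.nx τ), ?_⟩
      rw [if_neg hb, if_neg hb, if_neg hb, if_neg hb]
      unfold t1 t2 at *
      omega
  | center τ s hn =>
    have hs := valid_rail hv
    have h1 := (sw_bounds hI o hs).2
    have hnv : ¬ I.hv τ = true := fun h => by
      have := hI.hv_nx τ hs h
      omega
    have hsw : sw I o τ = (I.T + 1) * MM I + τ := by
      unfold sw
      rw [if_neg hnv]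
    have h10 : pA I I.T [] = I.T * MM I := by
      unfold pA
      simp [Word.lo, Word.num]
    refine ⟨sw I o τ, ?_⟩
    rw [st_center, en_center, st_rail, en_rail, h10, if_pos rfl]
    unfold rs re
    split <;> omega
  | child τ s w a =>
    have h1 := valid_node hu
    have h2 := valid_node hv
    have h6 := Word.child h1.2
    have h7 := Word.lo_le_hi (I.dep τ) (a :: w)
    have h9 := Word.hi_lt h1.2
    have h10 := pow_lt_MM (I := I) τ
    rcases h1.1 with h | ⟨h, _⟩
    · rw [st_node _ _ _ _ h, en_node _ _ _ _ h, st_node _ _ _ _ h, en_node _ _ _ _ h]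
      have h11 : pA I τ w ≤ pA I τ (a :: w) := by
        unfold pA
        omega
      have h12 : qA I τ (a :: w) ≤ qA I τ w := by
        unfold qA t1
        rw [if_neg (by simp)]
        split <;> omega
      have h13 := pA_le_qA h1.2
      have h14 := qA_le h2.2
      have h15 := mul_step (I := I) h
      unfold ns ne
      by_cases hb : s = o τ
      · refine ⟨LL I - pA I τ (a :: w), ?_⟩
        rw [if_pos hb, if_pos hb, if_pos hb, if_pos hb]
        omega
      · refine ⟨pA I τ (a :: w), ?_⟩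
        rw [if_neg hb, if_neg hb, if_neg hb, if_neg hb]
        omega
    · subst h
      refine ⟨pA I I.T (a :: w), ?_⟩
      rw [st_center, en_center, st_center, en_center, if_neg (by simp)]
      unfold pA
      split <;> omega

end Lay

open Lay in
/-- **Upper bound.** A balanced orientation with parameter `r` yields a weighted path decomposition
of width `B + r`. -/
theorem Good.upper {I : Inst} (hI : I.Good) {r : ℕ} {o : ℕ → Bool} (ho : I.Balanced r o) :
    ∃ bag, I.IsWPD (I.B + r) bag ∧ ∃ L, ∀ t, L ≤ t → bag t = ∅ := by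
  refine ⟨bag I o (sw I o), ⟨?_, ?_, ?_, ?_, load_le hI ho⟩, LL I + 1, ?_⟩
  · intro t v hv
    exact (mem_bag.1 hv).1
  · intro v hv
    exact ⟨st I o (sw I o) v, mem_bag.2 ⟨hv, le_rfl, st_le_en hI o hv⟩⟩
  · intro u v hu hv huv
    exact edge hI ho hu hv huv
  · intro v i j k hij hjk hi hk
    rw [mem_bag] at *
    exact ⟨hi.1, hi.2.1.trans hij, hjk.trans hk.2.2⟩
  · intro t ht
    rw [Finset.eq_empty_iff_forall_notMem]
    intro v hv
    rw [mem_bag] at hv
    have := en_le hI o hv.1
    omega

end Inst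

end Pool.Agent.Work.MP_8491f2_lc
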