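import Pool.Agent.Work.MP_8491f2_lc.Blow
import Pool.Agent.Work.MP_8491f2_lc.TreeW
import Pool.Agent.Work.MP_8491f2_lc.Lower
import Pool.Agent.Work.MP_8491f2_lc.Upper
import Pool.Agent.Work.MP_8491f2_lc.Units

/-!
Pathwidth and treewidth of the graph of an exactly-2-in-4 formula.
-/

set_option autoImplicit false

namespace Pool.Agent.Work.MP_8491f2_lc

theorem tw_le_of_isBlow {κ : ℕ} (hκ : 6 ≤ κ) {C : List Quad} (hC : ∀ q ∈ C, q.Dist) {n : ℕ}
    {G : SimpleGraph (Fin n)} {π : Fin n → Vx × ℕ} (h : (instOf κ C).IsBlow G π) :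
    tw G ≤ 3 * κ - 2 := by
  have h1 := (instOf_good hκ hC).wtd
  have h2 : 3 * (instOf κ C).κ - 1 = (3 * κ - 2) + 1 := by
    change 3 * κ - 1 = _
    omega
  rw [h2] at h1
  exact Nat.sInf_le (h.twLe h1)

theorem IsWPD.mono' {I : Inst} {W W' : ℕ} {bag : ℕ → Finset Vx} (h : I.IsWPD W bag)
    (hW : W ≤ W') : I.IsWPD W' bag :=
  ⟨h.valid, h.vert, h.edge, h.ivl, fun t => (h.wt_le t).trans hW⟩

/-- Upper bound for the pathwidth from a balanced orientation. -/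
theorem pwLe_of_balanced {κ : ℕ} (hκ : 6 ≤ κ) {C : List Quad} (hC : ∀ q ∈ C, q.Dist) {n : ℕ}
    {G : SimpleGraph (Fin n)} {π : Fin n → Vx × ℕ} (h : (instOf κ C).IsBlow G π) {r : ℕ}
    (ho : ∃ o, (instOf κ C).Balanced (r + 1) o) : PwLe G (27 * C.length + 2 * κ + 10 + r) := by
  obtain ⟨o, ho⟩ := ho
  obtain ⟨bag, hb, hL⟩ := (instOf_good hκ hC).upper ho
  exact h.pwLe (W := 27 * C.length + 2 * κ + 10 + r) hb hL

theorem pwLe_pw {κ : ℕ} (hκ : 6 ≤ κ) {C : List Quad} (hC : ∀ q ∈ C, q.Dist) {n : ℕ}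
    {G : SimpleGraph (Fin n)} {π : Fin n → Vx × ℕ} (h : (instOf κ C).IsBlow G π) :
    PwLe G (pw G) :=
  Nat.sInf_mem (s := {k | PwLe G k})
    ⟨_, pwLe_of_balanced (r := 3) hκ hC h (exists_balanced_four hC)⟩

/-- Lower bound for the pathwidth. -/
theorem le_pw {κ : ℕ} (hκ : 6 ≤ κ) {C : List Quad} (hC : ∀ q ∈ C, q.Dist)
    (hne : C ≠ []) {n : ℕ} {G : SimpleGraph (Fin n)} {π : Fin n → Vx × ℕ}
    (h : (instOf κ C).IsBlow G π) :
    27 * C.length + 2 * κ + 11 ≤ pw G ∧ (pw G = 27 * C.length + 2 * κ + 11 → Sat24 C) := by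
  obtain ⟨bag, hb⟩ := h.exists_wpd (pwLe_pw hκ hC h)
  have key : ∀ r ≤ 2, pw G + 1 ≤ 27 * C.length + 2 * κ + 10 + r → r = 2 ∧ Sat24 C := by
    intro r hr hpr
    have hb' : (instOf κ C).IsWPD ((instOf κ C).B + r) bag := IsWPD.mono' hb hpr
    obtain ⟨o, h1, h2⟩ := (instOf_good hκ hC).lower hr hb'
    exact sat24_of_orientation hC hne hr h1 h2
  refine ⟨?_, fun he => ?_⟩
  · by_contra hlt
    push Not at hlt
    have := (key 1 (by norm_num) (by omega)).1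
    omega
  · exact (key 2 le_rfl (by omega)).2

/-- If `3 ∣ κ`, the formula is satisfiable if and only if `3` divides the pathwidth plus one. -/
theorem pw_mod_three {κ : ℕ} (hκ : 6 ≤ κ) (hκ3 : 3 ∣ κ) {C : List Quad} (hC : ∀ q ∈ C, q.Dist)
    (hne : C ≠ []) {n : ℕ} {G : SimpleGraph (Fin n)} {π : Fin n → Vx × ℕ}
    (h : (instOf κ C).IsBlow G π) :
    (pw G + 1) % 3 = 0 ↔ Sat24 C := by
  obtain ⟨h1, h2⟩ := le_pw hκ hC hne h
  have h3 : pw G ≤ 27 * C.length + 2 * κ + 13 :=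
    Nat.sInf_le (pwLe_of_balanced (r := 3) hκ hC h (exists_balanced_four hC))
  obtain ⟨q, rfl⟩ := hκ3
  constructor
  · intro hm
    exact h2 (by omega)
  · intro hs
    have h4 : pw G ≤ 27 * C.length + 2 * (3 * q) + 11 :=
      Nat.sInf_le (pwLe_of_balanced (r := 1) hκ hC h (exists_balanced_of_sat24 hC hs))
    omega

theorem pw_le_of_isBlow {κ : ℕ} (hκ : 6 ≤ κ) {C : List Quad} (hC : ∀ q ∈ C, q.Dist)
    {n : ℕ} {G : SimpleGraph (Fin n)} {π : Fin n → Vx × ℕ}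
    (h : (instOf κ C).IsBlow G π) : pw G ≤ 27 * C.length + 2 * κ + 14 := by
  have h3 : pw G ≤ 27 * C.length + 2 * κ + 13 :=
    Nat.sInf_le (pwLe_of_balanced (r := 3) hκ hC h (exists_balanced_four hC))
  omega

end Pool.Agent.Work.MP_8491f2_lc
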