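import Pool.Agent.Work.MP_8491f2_lc.Elim

/-!
Path decompositions as sequences of bags.
-/

set_option autoImplicit false

namespace Pool.Agent.Work.MP_8491f2_lc

private theorem pathGraph_isTree (L : ℕ) : (SimpleGraph.pathGraph (L + 1)).IsTree := by
  classical
  let par : Fin (L + 1) → Fin (L + 1) := fun x => if h : x.1 < L then ⟨x.1 + 1, by omega⟩ else x
  have hlast : ∀ x : Fin (L + 1), x ≠ Fin.last L ↔ x.1 < L := by
    intro x
    rw [Ne, Fin.ext_iff, Fin.val_last]
    have := x.2
    omega
  have hpar : ∀ x : Fin (L + 1), x.1 < L → (par x).1 = x.1 + 1 := by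
    intro x hx
    show (if h : x.1 < L then (⟨x.1 + 1, by omega⟩ : Fin (L + 1)) else x).1 = _
    rw [dif_pos hx]
  have h := isTree_of_parent (Fin.last L) par (fun x => x.1) L (fun x => by have := x.2; omega)
    (fun x hx => by rw [hpar x ((hlast x).1 hx)]; omega)
  have he : SimpleGraph.pathGraph (L + 1) =
      SimpleGraph.fromRel (fun x y => x ≠ Fin.last L ∧ y = par x) := by
    ext u v
    rw [SimpleGraph.pathGraph_adj, SimpleGraph.fromRel_adj]
    constructor
    · rintro (h1 | h1)
      · have h2 : u.1 < L := by have := v.2; omega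
        refine ⟨fun he => by rw [he] at h1; omega, Or.inl ⟨(hlast u).2 h2, ?_⟩⟩
        apply Fin.ext
        rw [hpar u h2, h1]
      · have h2 : v.1 < L := by have := u.2; omega
        refine ⟨fun he => by rw [he] at h1; omega, Or.inr ⟨(hlast v).2 h2, ?_⟩⟩
        apply Fin.ext
        rw [hpar v h2, h1]
    · rintro ⟨_, ⟨h1, h2⟩ | ⟨h1, h2⟩⟩
      · left; rw [h2, hpar u ((hlast u).1 h1)]
      · right; rw [h2, hpar v ((hlast v).1 h1)]
  rw [he]; exact h

/-- Path decompositions (over a path graph, with connected node sets) are the same as sequences of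
bags, almost all empty, in which every vertex occupies an interval. -/
theorem pwLe_iff_seq {V : Type} (G : SimpleGraph V) (k : ℕ) : PwLe G k ↔
    ∃ (L : ℕ) (bag : ℕ → Finset V), (∀ t, L ≤ t → bag t = ∅) ∧ (∀ v, ∃ t, v ∈ bag t) ∧
      (∀ u v, G.Adj u v → ∃ t, u ∈ bag t ∧ v ∈ bag t) ∧
      (∀ v i j l, i ≤ j → j ≤ l → v ∈ bag i → v ∈ bag l → v ∈ bag j) ∧
      ∀ t, (bag t).card ≤ k + 1 := by
  classical
  constructor
  · rintro ⟨m, B, hB, hc⟩
    let bag : ℕ → Finset V := fun t => if h : t < m then B ⟨t, h⟩ else ∅
    have hpos : ∀ t, ∀ h : t < m, bag t = B ⟨t, h⟩ := fun t h => dif_pos h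
    have hneg : ∀ t, ¬ t < m → bag t = ∅ := fun t h => dif_neg h
    refine ⟨m, bag, fun t ht => hneg t (by omega), ?_, ?_, ?_, ?_⟩
    · intro v
      obtain ⟨⟨x, hx⟩⟩ := (hB.conn v).nonempty
      refine ⟨x.1, ?_⟩
      rw [hpos x.1 x.2]
      exact hx
    · intro u v huv
      obtain ⟨x, h1, h2⟩ := hB.edge u v huv
      refine ⟨x.1, ?_⟩
      rw [hpos x.1 x.2]
      exact ⟨h1, h2⟩
    · intro v i j l hij hjl hi hl
      by_contra hj
      have him : i < m := by
        by_contra h
        rw [hneg i h] at hi
        exact absurd hi (Finset.notMem_empty _)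
      have hlm : l < m := by
        by_contra h
        rw [hneg l h] at hl
        exact absurd hl (Finset.notMem_empty _)
      have hjm : j < m := by omega
      rw [hpos i him] at hi
      rw [hpos l hlm] at hl
      rw [hpos j hjm] at hj
      have hij' : i ≠ j := by rintro rfl; exact hj hi
      have hjl' : j ≠ l := by rintro rfl; exact hj hl
      have key : ∀ a b : {x : Fin m | v ∈ B x},
          ((SimpleGraph.pathGraph m).induce {x : Fin m | v ∈ B x}).Reachable a b →
          a.1.1 < j → b.1.1 < j := by
        rintro a b ⟨p⟩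
        induction p with
        | nil => exact id
        | @cons a c b hac p ih =>
          intro ha
          apply ih
          rw [SimpleGraph.comap_adj, SimpleGraph.pathGraph_adj] at hac
          have hcj : c.1.1 ≠ j := by
            intro he
            apply hj
            have h1 : c.1 = (⟨j, hjm⟩ : Fin m) := Fin.ext he
            rw [← h1]
            exact c.2
          have hac' : a.1.1 + 1 = c.1.1 ∨ c.1.1 + 1 = a.1.1 := hac
          omega
      have h1 := key ⟨⟨i, him⟩, hi⟩ ⟨⟨l, hlm⟩, hl⟩ ((hB.conn v).preconnected _ _)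
        (show i < j by omega)
      have h2 : l < j := h1
      omega
    · intro t
      by_cases h : t < m
      · rw [hpos t h]; exact hc _
      · rw [hneg t h]; simp
  · rintro ⟨L, bag, hL, hv, he, hi, hc⟩
    refine ⟨L + 1, fun i => bag i.1, ⟨pathGraph_isTree L, ?_, ?_⟩, fun x => hc _⟩
    · intro u v huv
      obtain ⟨t, h1, h2⟩ := he u v huv
      have ht : t < L := by
        by_contra h
        rw [hL t (by omega)] at h1
        exact absurd h1 (Finset.notMem_empty _)
      exact ⟨⟨t, by omega⟩, h1, h2⟩
    · intro v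
      have key : ∀ m : ℕ, ∀ a b : {x : Fin (L + 1) | v ∈ bag x.1}, a.1.1 + m = b.1.1 →
          ((SimpleGraph.pathGraph (L + 1)).induce {x : Fin (L + 1) | v ∈ bag x.1}).Reachable
            a b := by
        intro m
        induction m with
        | zero =>
          intro a b hab
          have : a = b := Subtype.ext (Fin.ext (by omega))
          rw [this]
        | succ m ih =>
          intro a b hab
          have hb := b.1.2
          have hmem : v ∈ bag (a.1.1 + 1) :=
            hi v a.1.1 (a.1.1 + 1) b.1.1 (by omega) (by omega) a.2 b.2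
          let c : {x : Fin (L + 1) | v ∈ bag x.1} := ⟨⟨a.1.1 + 1, by omega⟩, hmem⟩
          have h1 : ((SimpleGraph.pathGraph (L + 1)).induce
              {x : Fin (L + 1) | v ∈ bag x.1}).Adj a c := by
            rw [SimpleGraph.comap_adj, SimpleGraph.pathGraph_adj]
            left; rfl
          exact h1.reachable.trans (ih c b (by show a.1.1 + 1 + m = b.1.1; omega))
      obtain ⟨t, ht⟩ := hv v
      have htL : t < L := by
        by_contra h
        rw [hL t (by omega)] at ht
        exact absurd ht (Finset.notMem_empty _)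
      exact
        { preconnected := by
            intro a b
            rcases le_total a.1.1 b.1.1 with h | h
            · exact key (b.1.1 - a.1.1) a b (by omega)
            · exact (key (a.1.1 - b.1.1) b a (by omega)).symm
          nonempty := ⟨⟨⟨t, by omega⟩, ht⟩⟩ }

end Pool.Agent.Work.MP_8491f2_lc
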