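import Pool.Agent.Work.MP_8491f2_lc.Defs

/-!
Tree decompositions from elimination orderings.
-/

set_option autoImplicit false

namespace Pool.Agent.Work.MP_8491f2_lc

/-- `y` reaches `x` by going to parents. -/
private inductive Desc {X : Type} (root : X) (par : X → X) (x : X) : X → Prop
  | refl : Desc root par x x
  | step (y : X) : y ≠ root → Desc root par x (par y) → Desc root par x y

private theorem Desc.rk_le {X : Type} {root : X} {par : X → X} {rk : X → ℕ}
    (h : ∀ x, x ≠ root → rk x < rk (par x)) {x y : X} (hd : Desc root par x y) :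
    rk y ≤ rk x := by
  induction hd with
  | refl => exact le_rfl
  | step y hy _ ih => exact (h y hy).le.trans ih

/-- The graph of a parent function that increases a rank is a tree. -/
theorem isTree_of_parent {X : Type} (root : X) (par : X → X) (rk : X → ℕ) (R : ℕ)
    (hR : ∀ x, rk x ≤ R) (h : ∀ x, x ≠ root → rk x < rk (par x)) :
    (SimpleGraph.fromRel (fun x y => x ≠ root ∧ y = par x)).IsTree := by
  set T : SimpleGraph X := SimpleGraph.fromRel (fun x y => x ≠ root ∧ y = par x) with hT
  have hadj : ∀ x, x ≠ root → T.Adj x (par x) := by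
    intro x hx
    rw [hT, SimpleGraph.fromRel_adj]
    refine ⟨?_, Or.inl ⟨hx, rfl⟩⟩
    intro he
    have := h x hx
    rw [← he] at this
    exact lt_irrefl _ this
  have hreach : ∀ m : ℕ, ∀ x, R - rk x = m → T.Reachable x root := by
    intro m
    induction m using Nat.strong_induction_on with
    | _ m ih =>
      intro x hx
      by_cases hxr : x = root
      · rw [hxr]
      · have h1 := h x hxr
        have h2 := hR (par x)
        exact (hadj x hxr).reachable.trans (ih (R - rk (par x)) (by omega) (par x) rfl)
  refine ⟨{ preconnected := ?_, nonempty := ⟨root⟩ }, ?_⟩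
  · intro x y
    exact (hreach _ x rfl).trans (hreach _ y rfl).symm
  · rw [SimpleGraph.isAcyclic_iff_forall_adj_isBridge]
    have key : ∀ x, x ≠ root → ¬ (T.deleteEdges {s(x, par x)}).Reachable x (par x) := by
      intro x hx hr
      have hinv : ∀ a b, (T.deleteEdges {s(x, par x)}).Reachable a b →
          Desc root par x a → Desc root par x b := by
        intro a b ⟨p⟩
        induction p with
        | nil => exact id
        | @cons a c b hac p ih =>
          intro ha
          apply ih
          rw [SimpleGraph.deleteEdges_adj] at hac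
          obtain ⟨h1, h2⟩ := hac
          rw [hT, SimpleGraph.fromRel_adj] at h1
          obtain ⟨hne, h1⟩ := h1
          rcases h1 with ⟨h3, h4⟩ | ⟨h3, h4⟩
          · cases ha with
            | refl => exact absurd (by simp [h4]) h2
            | step _ _ h5 => rw [h4]; exact h5
          · refine Desc.step c h3 ?_
            rw [← h4]; exact ha
      have h1 := (hinv _ _ hr Desc.refl).rk_le h
      exact absurd (h x hx) (by omega)
    intro v w hvw
    rw [SimpleGraph.isBridge_iff]
    have h0 := hvw
    rw [hT, SimpleGraph.fromRel_adj] at h0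
    rcases h0.2 with ⟨h1, h2⟩ | ⟨h1, h2⟩
    · subst h2
      exact key v h1
    · subst h2
      intro hr
      apply key w h1
      rw [Sym2.eq_swap]
      exact hr.symm

/-- The tree decomposition given by an elimination ordering with parent function `par`: the bag of
`v` is `{v} ∪ N v`. -/
theorem exists_treeDec_of_elim {V : Type} [DecidableEq V] (S : Finset V) (root : V)
    (hroot : root ∈ S) (par : V → V) (N : V → Finset V) (rk : V → ℕ)
    (hpar : ∀ v ∈ S, v ≠ root → par v ∈ S ∧ rk v < rk (par v))
    (hN : ∀ v ∈ S, ∀ u ∈ N v, u ∈ S ∧ rk v < rk u)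
    (hNroot : N root = ∅)
    (hstep : ∀ v ∈ S, v ≠ root → ∀ u ∈ N v, u = par v ∨ u ∈ N (par v)) :
    ∃ (X : Type) (_ : Finite X) (T : SimpleGraph X) (B : X → Finset V), T.IsTree ∧
      (∀ v ∈ S, ∃ x, B x = insert v (N v)) ∧ (∀ x, ∃ v ∈ S, B x = insert v (N v)) ∧
      ∀ v ∈ S, (T.induce {x | v ∈ B x}).Connected := by
  classical
  let X : Type := {v : V // v ∈ S}
  let root' : X := ⟨root, hroot⟩
  let par' : X → X := fun x => if hx : x.1 = root then root' else ⟨par x.1, (hpar x.1 x.2 hx).1⟩
  have hpar' : ∀ x : X, x ≠ root' → (par' x).1 = par x.1 ∧ rk x.1 < rk (par' x).1 := by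
    intro x hx
    have hx1 : x.1 ≠ root := fun he => hx (Subtype.ext he)
    have h1 : par' x = ⟨par x.1, (hpar x.1 x.2 hx1).1⟩ := dif_neg hx1
    rw [h1]
    exact ⟨rfl, (hpar x.1 x.2 hx1).2⟩
  have hR : ∀ x : X, rk x.1 ≤ S.sup rk := fun x => Finset.le_sup x.2
  let T : SimpleGraph X := SimpleGraph.fromRel (fun x y => x ≠ root' ∧ y = par' x)
  have hT : T.IsTree :=
    isTree_of_parent root' par' (fun x => rk x.1) (S.sup rk) hR (fun x hx => (hpar' x hx).2)
  have hadj : ∀ x, x ≠ root' → T.Adj x (par' x) := by
    intro x hx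
    show (SimpleGraph.fromRel (fun x y => x ≠ root' ∧ y = par' x)).Adj x (par' x)
    rw [SimpleGraph.fromRel_adj]
    refine ⟨?_, Or.inl ⟨hx, rfl⟩⟩
    intro he
    have := (hpar' x hx).2
    rw [← he] at this
    exact lt_irrefl _ this
  let B : X → Finset V := fun x => insert x.1 (N x.1)
  refine ⟨X, inferInstance, T, B, hT, fun v hv => ⟨⟨v, hv⟩, rfl⟩, fun x => ⟨x.1, x.2, rfl⟩, ?_⟩
  intro v hv
  have hvm : (⟨v, hv⟩ : X) ∈ {x : X | v ∈ B x} := Finset.mem_insert_self _ _
  have hreach : ∀ m : ℕ, ∀ x : X, ∀ hx : x ∈ {x : X | v ∈ B x}, S.sup rk - rk x.1 = m →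
      (T.induce {x | v ∈ B x}).Reachable ⟨x, hx⟩ ⟨⟨v, hv⟩, hvm⟩ := by
    intro m
    induction m using Nat.strong_induction_on with
    | _ m ih =>
      intro x hx hm
      by_cases hxv : x.1 = v
      · have : x = ⟨v, hv⟩ := Subtype.ext hxv
        subst this
        exact SimpleGraph.Reachable.refl _
      · have h1 : v ∈ N x.1 := by
          rcases Finset.mem_insert.mp hx with h | h
          · exact absurd h.symm hxv
          · exact h
        have h2 : x.1 ≠ root := by
          intro he
          rw [he, hNroot] at h1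
          exact absurd h1 (Finset.notMem_empty _)
        have h3 : x ≠ root' := fun he => h2 (congrArg Subtype.val he)
        obtain ⟨h4, h5⟩ := hpar' x h3
        have h6 : par' x ∈ {x : X | v ∈ B x} := by
          show v ∈ insert (par' x).1 (N (par' x).1)
          rw [h4]
          rcases hstep x.1 x.2 h2 v h1 with h | h
          · rw [h]; exact Finset.mem_insert_self _ _
          · exact Finset.mem_insert_of_mem h
        have h7 := hR (par' x)
        have h8 : (T.induce {x | v ∈ B x}).Adj ⟨x, hx⟩ ⟨par' x, h6⟩ := by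
          rw [SimpleGraph.comap_adj]
          exact hadj x h3
        exact h8.reachable.trans (ih (S.sup rk - rk (par' x).1) (by omega) (par' x) h6 rfl)
  exact { preconnected := fun a b => (hreach _ a.1 a.2 rfl).trans (hreach _ b.1 b.2 rfl).symm
          nonempty := ⟨⟨⟨v, hv⟩, hvm⟩⟩ }

end Pool.Agent.Work.MP_8491f2_lc
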