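import Pool.Agent.Work.MP_8491f2_lc.Defs

/-!
The instance of an exactly-2-in-4 formula: every 4-clause gives nine consecutive units, four outer
units of its variables (with heavy rails), a wall, and four inner units of its variables.
-/

set_option autoImplicit false

namespace Pool.Agent.Work.MP_8491f2_lc

/-- The arm (variable) of the units; `none` for the walls. -/
def tokens (C : List Quad) : List (Option ℕ) := C.flatMap fun q =>
  [some q.1, some q.2.1, some q.2.2.1, some q.2.2.2, none,
   some q.1, some q.2.1, some q.2.2.1, some q.2.2.2]

/-- The arm of the unit `τ`. -/
def tok (C : List Quad) (τ : ℕ) : Option ℕ := (tokens C).getD τ none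

/-- The next unit of the same arm. -/
def nxOf (C : List Quad) (τ : ℕ) : ℕ :=
  ((List.range (9 * C.length)).filter fun τ' =>
    decide (τ < τ') && ((tok C τ').isSome && decide (tok C τ' = tok C τ))).head?.getD (9 * C.length)

/-- The heavy units: the four outer units of every 4-clause. -/
def hvOf (C : List Quad) (τ : ℕ) : Bool :=
  (C.flatMap fun _ => [true, true, true, true, false, false, false, false, false]).getD τ false

/-- The instance of an exactly-2-in-4 formula with thickness `κ`. -/
def instOf (κ : ℕ) (C : List Quad) : Inst where
  κ := κ
  B := 27 * C.length + 2 * κ + 10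
  T := 9 * C.length
  nx := nxOf C
  hv := hvOf C

end Pool.Agent.Work.MP_8491f2_lc
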