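import Mathlib

/-!
Pathwidth parameterized by treewidth: definitions.

* tree decompositions, treewidth, pathwidth;
* the weighted graph of an instance `I : Inst` (units with two rails and two anchors; the anchors
  are complete ternary trees), and its weighted path and tree decompositions;
* its blow-up, a simple graph;
* exactly-2-in-4 satisfiability and 3-SAT.
-/

set_option autoImplicit false

namespace Pool.Agent.Work.MP_8491f2_lc

/-! ### Treewidth and pathwidth -/

/-- `(T, B)` is a tree decomposition of the graph `G`: `T` is a tree, every edge of `G` lies in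
some bag, and for every vertex `v` of `G` the nodes whose bags contain `v` induce a connected
(in particular nonempty) subtree of `T`. -/
structure IsTreeDec {V X : Type} (G : SimpleGraph V) (T : SimpleGraph X) (B : X → Finset V) :
    Prop where
  isTree : T.IsTree
  edge : ∀ u v, G.Adj u v → ∃ x, u ∈ B x ∧ v ∈ B x
  conn : ∀ v, (T.induce {x | v ∈ B x}).Connected

/-- `G` has a tree decomposition of width at most `k`. -/
def TwLe {V : Type} (G : SimpleGraph V) (k : ℕ) : Prop :=
  ∃ (X : Type) (_ : Finite X) (T : SimpleGraph X) (B : X → Finset V),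
    IsTreeDec G T B ∧ ∀ x, (B x).card ≤ k + 1

/-- `G` has a path decomposition of width at most `k`. -/
def PwLe {V : Type} (G : SimpleGraph V) (k : ℕ) : Prop :=
  ∃ (m : ℕ) (B : Fin m → Finset V),
    IsTreeDec G (SimpleGraph.pathGraph m) B ∧ ∀ x, (B x).card ≤ k + 1

/-- The treewidth of `G`. -/
noncomputable def tw {V : Type} (G : SimpleGraph V) : ℕ := sInf {k | TwLe G k}

/-- The pathwidth of `G`. -/
noncomputable def pw {V : Type} (G : SimpleGraph V) : ℕ := sInf {k | PwLe G k}

/-! ### The weighted graph of an instance -/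

/-- Nodes of the complete ternary tree: the root is `[]`, the children of `w` are `a :: w`. -/
abbrev Word : Type := List (Fin 3)

/-- Vertices of the weighted graph: `((τ, s), none)` is the rail number `s` of the unit `τ`,
`((τ, s), some w)` is the node `w` of the anchor number `s` of the unit `τ`. -/
abbrev Vx : Type := (ℕ × Bool) × Option Word

/-- The rail `s` of the unit `τ`. -/
abbrev rail (τ : ℕ) (s : Bool) : Vx := ((τ, s), none)

/-- The node `w` of the anchor `s` of the unit `τ`. -/
abbrev node (τ : ℕ) (s : Bool) (w : Word) : Vx := ((τ, s), some w)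

/-- An instance: units `0, …, T - 1` (from the outermost to the innermost one), `nx σ` is the next
unit of the same arm (`nx σ = T` if there is none), `hv σ` means that rail `false` of the unit `σ`
is heavy; `κ` is the thickness of the anchors and `B` the base width. -/
structure Inst where
  κ : ℕ
  B : ℕ
  T : ℕ
  nx : ℕ → ℕ
  hv : ℕ → Bool

namespace Inst

variable (I : Inst)

/-- The conditions on an instance. -/
structure Good : Prop where
  kappa : 6 ≤ I.κ
  base : 3 * I.T + 2 * I.κ + 7 ≤ I.B
  lt_nx : ∀ σ < I.T, σ < I.nx σ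
  nx_le : ∀ σ < I.T, I.nx σ ≤ I.T
  nx_inj : ∀ σ < I.T, ∀ σ' < I.T, I.nx σ < I.T → I.nx σ = I.nx σ' → σ = σ'
  hv_nx : ∀ σ < I.T, I.hv σ = true → I.nx σ < I.T

/-- The height (weighted pathwidth) of the anchors of the unit `τ`; the central anchor is that of
`τ = T`. -/
def ht (τ : ℕ) : ℕ := I.B - 3 * τ

/-- The depth of the ternary trees of the unit `τ`. -/
def dep (τ : ℕ) : ℕ := I.ht τ / I.κ - 1

/-- The weight of the leaves of the ternary trees of the unit `τ`; so `ht τ = κ * dep τ + lam τ`
if `κ ≤ ht τ`. -/
def lam (τ : ℕ) : ℕ := I.κ + I.ht τ % I.κ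

/-- The vertices of the weighted graph: rails of the units `τ < T`; nodes of the two anchors of
each unit `τ < T` and of the central anchor `(T, false)`. -/
def Valid (v : Vx) : Prop :=
  match v.2 with
  | none => v.1.1 < I.T
  | some w => (v.1.1 < I.T ∨ (v.1.1 = I.T ∧ v.1.2 = false)) ∧ w.length ≤ I.dep v.1.1

/-- Weights: rails have weight 3, heavy rails 4, inner nodes of the anchors `κ`, leaves `lam τ`. -/
def wt (v : Vx) : ℕ :=
  match v.2 with
  | none => if I.hv v.1.1 = true ∧ v.1.2 = false then 4 else 3
  | some w => if w.length = I.dep v.1.1 then I.lam v.1.1 else I.κ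

/-- Edges of the weighted graph (each in one direction). -/
inductive E : Vx → Vx → Prop
  /-- the two rails of a unit -/
  | sides (τ : ℕ) : E (rail τ false) (rail τ true)
  /-- a rail and the rail with the same number of the next unit of the arm -/
  | next (τ : ℕ) (s : Bool) : I.nx τ < I.T → E (rail τ s) (rail (I.nx τ) s)
  /-- the root of an anchor and its rail -/
  | root (τ : ℕ) (s : Bool) : τ < I.T → E (node τ s []) (rail τ s)
  /-- the root of an anchor and the rail of the previous unit of the arm -/
  | rootNext (σ : ℕ) (s : Bool) : I.nx σ < I.T → E (node (I.nx σ) s []) (rail σ s)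
  /-- the root of the central anchor and the rails of the innermost units of the arms -/
  | center (σ : ℕ) (s : Bool) : I.nx σ = I.T → E (node I.T false []) (rail σ s)
  /-- tree edges of the anchors -/
  | child (τ : ℕ) (s : Bool) (w : Word) (a : Fin 3) : E (node τ s (a :: w)) (node τ s w)

/-- `bag` is a weighted path decomposition (indexed by all natural numbers) of the weighted graph
with bags of weight at most `W`. -/
structure IsWPD (W : ℕ) (bag : ℕ → Finset Vx) : Prop where
  valid : ∀ t, ∀ v ∈ bag t, I.Valid v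
  vert : ∀ v, I.Valid v → ∃ t, v ∈ bag t
  edge : ∀ u v, I.Valid u → I.Valid v → I.E u v → ∃ t, u ∈ bag t ∧ v ∈ bag t
  ivl : ∀ v i j k, i ≤ j → j ≤ k → v ∈ bag i → v ∈ bag k → v ∈ bag j
  wt_le : ∀ t, ∑ v ∈ bag t, I.wt v ≤ W

/-- The weighted graph has a weighted tree decomposition with bags of weight at most `W`. -/
def WTD (W : ℕ) : Prop :=
  ∃ (X : Type) (_ : Finite X) (T : SimpleGraph X) (B : X → Finset Vx), T.IsTree ∧
    (∀ u v, I.Valid u → I.Valid v → I.E u v → ∃ x, u ∈ B x ∧ v ∈ B x) ∧
    (∀ v, I.Valid v → (T.induce {x | v ∈ B x}).Connected) ∧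
    ∀ x, ∑ v ∈ B x, I.wt v ≤ W

/-- Vertices of the blow-up: the vertex `v` is replaced by a clique on the pairs `(v, j)` with
`j < wt v`. -/
def BValid (x : Vx × ℕ) : Prop := I.Valid x.1 ∧ x.2 < I.wt x.1

/-- Adjacency in the blow-up. -/
def BAdj (x y : Vx × ℕ) : Prop :=
  (x.1 = y.1 ∧ x.2 ≠ y.2) ∨ (x.1 ≠ y.1 ∧ (I.E x.1 y.1 ∨ I.E y.1 x.1))

/-- The graph `G` on `n` vertices is the blow-up of the weighted graph of `I`, with vertex `i`
being the vertex `π i` of the blow-up. -/
structure IsBlow {n : ℕ} (G : SimpleGraph (Fin n)) (π : Fin n → Vx × ℕ) : Prop where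
  inj : Function.Injective π
  valid : ∀ i, I.BValid (π i)
  surj : ∀ x, I.BValid x → ∃ i, π i = x
  adj : ∀ i j, G.Adj i j ↔ I.BAdj (π i) (π j)

/-- The conditions on an orientation `o` of the units with parameter `r`: it is constant on arms and
at each level at most `r` heavy rails are on each side. -/
def Balanced (r : ℕ) (o : ℕ → Bool) : Prop :=
  (∀ σ < I.T, I.nx σ < I.T → o (I.nx σ) = o σ) ∧
  ∀ τ ≤ I.T, ∀ b : Bool,
    ((Finset.range τ).filter fun σ => I.hv σ = true ∧ τ ≤ I.nx σ ∧ o σ = b).card ≤ r

end Inst

/-! ### Satisfiability problems -/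

/-- Literals: `(x, true)` is the variable `x`, `(x, false)` its negation. -/
abbrev Lit : Type := ℕ × Bool

/-- Clauses with three literals. -/
abbrev Clause3 : Type := Lit × Lit × Lit

/-- The value of a literal. -/
def Lit.val (v : ℕ → Bool) (l : Lit) : Bool := v l.1 == l.2

/-- The 3-CNF formula `φ` is satisfiable. -/
def Sat3 (φ : List Clause3) : Prop :=
  ∃ v : ℕ → Bool, ∀ c ∈ φ, c.1.val v = true ∨ c.2.1.val v = true ∨ c.2.2.val v = true

/-- A 4-clause: four variables. -/
abbrev Quad : Type := ℕ × ℕ × ℕ × ℕ

/-- The number of true variables in a 4-clause. -/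
def Quad.count (z : ℕ → Bool) (q : Quad) : ℕ :=
  (z q.1).toNat + (z q.2.1).toNat + (z q.2.2.1).toNat + (z q.2.2.2).toNat

/-- The four variables are distinct. -/
def Quad.Dist (q : Quad) : Prop := [q.1, q.2.1, q.2.2.1, q.2.2.2].Nodup

/-- Exactly-2-in-4 satisfiability. -/
def Sat24 (C : List Quad) : Prop := ∃ z : ℕ → Bool, ∀ q ∈ C, q.count z = 2

end Pool.Agent.Work.MP_8491f2_lc
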