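import Pool.Agent.Work.MP_8491f2_lc.GraphMachine

/-!
Machines for functions of `(x, 3 ^ e)`.
-/

set_option autoImplicit false

namespace Pool.Agent.Work.MP_8491f2_lc

open Pool.Agent.Work.PolyTime

/-- As `exists_graph_machine`. -/
theorem exists_exp_machine {α : Type} [Code α] (F : α × ℕ → List Bool) (hF : PTime F) :
    ∃ (M : Turing.TM2ComputableAux Bool Bool) (p : Polynomial ℕ),
      ∀ (x : α) (e : ℕ), OutIn M (code (x, e)).ser (F (x, 3 ^ e)) (p.eval (sz x + 3 ^ e)) := by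
  have h1 : PSB (fun j : α × ℕ => (code (j.1, j.2)).ser)
      (fun j => (code (j.1, 3 ^ j.2)).ser) (fun j => sz j.1 + 3 ^ j.2) :=
    psb_pow3.reindex (fun j : α × ℕ => (code j.1, j.2))
  have h2 : PS (fun y : α × ℕ => (code y).ser) (fun y => F y) := PS.unraw hF
  have h3 := h2.reindex (fun j : α × ℕ => (j.1, 3 ^ j.2))
  have h4 : PSB (fun j : α × ℕ => (code (j.1, 3 ^ j.2)).ser)
      (fun j => F (j.1, 3 ^ j.2)) (fun j => 2 * (sz j.1 + 3 ^ j.2) + 2) := by
    refine PSB.of_PS h3 fun j => ?_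
    change sz (j.1, 3 ^ j.2) ≤ _
    rw [sz_pair, sz_nat]
    omega
  have h5 : PSB (fun j : α × ℕ => (code (j.1, j.2)).ser)
      (fun j => F (j.1, 3 ^ j.2)) (fun j => 2 * (sz j.1 + 3 ^ j.2) + 2) := by
    refine PSB.trans (h1.poly Polynomial.X fun j => ?_) h4 fun j => ?_
    · simp only [Polynomial.eval_X]
      omega
    · change sz (j.1, 3 ^ j.2) ≤ _
      rw [sz_pair, sz_nat]
      omega
  obtain ⟨M, p, hM⟩ := h5.machine
  refine ⟨M, p.comp (2 * Polynomial.X + 2), fun x e => ?_⟩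
  have := hM (x, e)
  simpa [Polynomial.eval_comp] using this

end Pool.Agent.Work.MP_8491f2_lc
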