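import Pool.Agent.Work.MP_8491f2_lc.OutIn
import Pool.Agent.Work.PolyTime.Sim

/-!
Every machine is simulated by a typed polynomial-time function of the input and the time bound.
-/

set_option autoImplicit false

namespace Pool.Agent.Work.MP_8491f2_lc

open Pool.Agent.Work.PolyTime Turing

open Pool.Agent.Work.MP_0532f7_lc in
open Classical in
/-- The table machine of a machine. -/
theorem table_outIn (M : Turing.TM2ComputableAux Bool Bool) :
    ∃ (T : List (List ℕ)) (q0 K k0 k1 i0 i1 o1 c : ℕ),
      ∀ x y s t, OutIn M x y s → c * s ≤ t →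
        (((sstep T)^[t] (tinit q0 K k0 i0 i1 x)).2.getD k1 []).map (fun a => decide (a = o1)) =
          y := by
  set tm := M.tm with htm
  set ia := M.inputAlphabet with hia
  set oa := M.outputAlphabet with hoa
  refine ⟨table tm ia oa, sid tm (tm.m tm.main, tm.initialState), Fintype.card tm.K,
    kid tm tm.k₀, kid tm tm.k₁, ac tm ia oa ⟨tm.k₀, ia.symm false⟩,
    ac tm ia oa ⟨tm.k₀, ia.symm true⟩, ac tm ia oa ⟨tm.k₁, oa.symm true⟩,
    mxs tm, fun x y s t hout ht => ?_⟩
  obtain ⟨h⟩ := hout
  have hs : (flip bind tm.step)^[h.steps] (some (initList tm (x.map ia.symm))) =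
      some (haltList tm (y.map oa.symm)) := h.evals_in_steps
  have hle := h.steps_le_m
  obtain ⟨⟨m, hm, h1⟩, h2, h3⟩ := macro_run tm ia oa _ tm.main tm.initialState
    (initList tm (x.map ia.symm)).stk (good_init tm ia oa x) (haltList tm (y.map oa.symm)) rfl hs
  have hzero : ((table tm ia oa).getD (sid tm ((.halt : MS tm), tm.initialState)) []).getD 0 0 =
      0 := by
    rw [table_sid tm ia oa (mem_sts tm h2 _)]; rfl
  have hhalt : (sid tm (.halt, (haltList tm (y.map oa.symm)).var),
      es tm ia oa (haltList tm (y.map oa.symm)).stk) =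
      (sid tm ((.halt : MS tm), tm.initialState),
        es tm ia oa (haltList tm (y.map oa.symm)).stk) := rfl
  have hmt : m ≤ t := by
    refine hm.trans (le_trans ?_ ht)
    rw [mul_comm]
    exact Nat.mul_le_mul_left _ hle
  have hfin : (sstep (table tm ia oa))^[t] (sid tm (tm.m tm.main, tm.initialState),
      es tm ia oa (initList tm (x.map ia.symm)).stk) =
      (sid tm ((.halt : MS tm), tm.initialState),
        es tm ia oa (haltList tm (y.map oa.symm)).stk) := by
    obtain ⟨d, hd⟩ : ∃ d, t = d + m := ⟨t - m, by omega⟩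
    rw [hd, Function.iterate_add_apply, h1, hhalt, sstep_halt_iter hzero]
  have hinit : tinit (sid tm (tm.m tm.main, tm.initialState)) (Fintype.card tm.K)
      (kid tm tm.k₀) (ac tm ia oa ⟨tm.k₀, ia.symm false⟩)
      (ac tm ia oa ⟨tm.k₀, ia.symm true⟩) x = (sid tm (tm.m tm.main, tm.initialState),
      es tm ia oa (initList tm (x.map ia.symm)).stk) := by
    unfold tinit
    rw [es_init']
  rw [hinit, hfin]
  show ((es tm ia oa (haltList tm (y.map oa.symm)).stk).getD (kid tm tm.k₁) []).map _ = y
  rw [es_getD]
  have e2 : (haltList tm (y.map oa.symm)).stk tm.k₁ = y.map oa.symm := by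
    simp [haltList]
  rw [e2, List.map_map, List.map_map]
  have hmem : ∀ b, (⟨tm.k₁, oa.symm b⟩ : Σ k, tm.Γ k) ∈ syms tm ia oa := by
    intro b
    unfold syms
    exact Finset.mem_union_right _ (Finset.mem_image.mpr ⟨b, Finset.mem_univ _, rfl⟩)
  conv_rhs => rw [← List.map_id y]
  apply List.map_congr_left
  intro b _
  simp only [Function.comp_apply, id_eq]
  cases b with
  | true => simp
  | false =>
    rw [decide_eq_false_iff_not]
    intro he
    have h5 := ac_inj tm ia oa (hmem false) (hmem true) he
    simp only [Sigma.mk.injEq, heq_eq_eq, true_and] at h5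
    exact absurd (oa.symm.injective h5) (by simp)

/-- See `MP_0532f7_lc.table_spec` (Work/MP_0532f7_lc/TabSpec.lean) for the table machine of `M`
(repeat its proof with a fixed run instead of a polynomial time bound) and
`PTime.of_polyTimeComputable` (Work/PolyTime/Sim.lean). -/
theorem exists_sim (M : Turing.TM2ComputableAux Bool Bool) :
    ∃ (F : List Bool × ℕ → List Bool) (c : ℕ), PTime F ∧
      ∀ x y s t, OutIn M x y s → c * s ≤ t → F (x, t) = y := by
  obtain ⟨T, q0, K, k0, k1, i0, i1, o1, c, hT⟩ := table_outIn M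
  refine ⟨fun z => ((((MP_0532f7_lc.sstep T)^[z.2]
      (MP_0532f7_lc.tinit q0 K k0 i0 i1 z.1)).2.getD k1 []).map (fun a => decide (a = o1))), c,
    ?_, fun x y s t h ht => hT x y s t h ht⟩
  have h1 : PTime (fun z : List Bool × ℕ => MP_0532f7_lc.tinit q0 K k0 i0 i1 z.1) := by
    unfold MP_0532f7_lc.tinit
    refine PTime.prodMk (PTime.const _) (PTime.set (PTime.const _) (PTime.const _) ?_)
    have : PTime (fun z : List Bool × ℕ => z.1.map fun b => bif b then i1 else i0) :=
      PTime.map (f := fun _ b => bif b then i1 else i0) PTime.fst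
        (PTime.cond PTime.snd (PTime.const _) (PTime.const _))
    exact this.code_congr (fun x => List.map_congr_left fun b _ => by cases b <;> rfl)
  have h3 := PTime.sstepIter T h1 (PTime.snd (α := List Bool) (β := ℕ))
  exact PTime.map (f := fun _ a => decide (a = o1)) (PTime.nth (PTime.snd.comp h3)
    (PTime.const _) (PTime.const _)) (PTime.eq PTime.snd (PTime.const _))

end Pool.Agent.Work.MP_8491f2_lc
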