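import Pool.Agent.Work.MP_8491f2_lc.SpGrd

/-!
Sparsification: satisfiability.
-/

set_option autoImplicit false

namespace Pool.Agent.Work.MP_8491f2_lc

open Pool.Agent.Work.PolyTime

/-- Adding unit clauses. The removed clauses contain a literal of a unit clause. -/
theorem satBy_addU {n : ℕ} {s : SSt} {N : List Lit} (hU : ∀ a ∈ s.1, a.1 < n)
    (hN : ∀ a ∈ N, a.1 < n) (v : ℕ → Bool) :
    SatBy v (addU n s N) ↔ SatBy v s ∧ ∀ a ∈ N, TrueL v a := by
  constructor
  · rintro ⟨h1, h2, h3⟩
    have h1' : ∀ a ∈ newU n s N, TrueL v a := h1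
    refine ⟨⟨fun a ha => h1' a (mem_newU.mpr ⟨hU a ha, Or.inl ha⟩), ?_, ?_⟩,
      fun a ha => h1' a (mem_newU.mpr ⟨hN a ha, Or.inr ha⟩)⟩
    · intro d hd
      by_cases hd1 : d.1 ∈ newU n s N
      · exact Or.inl (h1' _ hd1)
      by_cases hd2 : d.2 ∈ newU n s N
      · exact Or.inr (h1' _ hd2)
      exact h2 d (mem_addU_D.mpr ⟨hd, hd1, hd2⟩)
    · intro c hc
      by_cases hc1 : c.1 ∈ newU n s N
      · exact Or.inl (h1' _ hc1)
      by_cases hc2 : c.2.1 ∈ newU n s N
      · exact Or.inr (Or.inl (h1' _ hc2))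
      by_cases hc3 : c.2.2 ∈ newU n s N
      · exact Or.inr (Or.inr (h1' _ hc3))
      exact h3 c (mem_addU_T.mpr ⟨hc, hc1, hc2, hc3⟩)
  · rintro ⟨⟨h1, h2, h3⟩, h4⟩
    refine ⟨?_, ?_, ?_⟩
    · intro a ha
      rcases (mem_newU.mp ha).2 with h | h
      · exact h1 a h
      · exact h4 a h
    · intro d hd
      exact h2 d (mem_addU_D.mp hd).1
    · intro c hc
      exact h3 c (mem_addU_T.mp hc).1

/-- Adding 2-clauses. The removed 3-clauses contain a 2-clause. -/
theorem satBy_addP {n : ℕ} {s : SSt} {N : List (Lit × Lit)}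
    (hD : ∀ d ∈ s.2.1, d.1.1 < n ∧ d.2.1 < n) (hN : ∀ d ∈ N, d.1.1 < n ∧ d.2.1 < n)
    (v : ℕ → Bool) :
    SatBy v (addP n s N) ↔ SatBy v s ∧ ∀ d ∈ N, TrueL v d.1 ∨ TrueL v d.2 := by
  constructor
  · rintro ⟨h1, h2, h3⟩
    have h2' : ∀ d ∈ newD n s N, TrueL v d.1 ∨ TrueL v d.2 := h2
    refine ⟨⟨h1, fun d hd => h2' d (mem_newD.mpr ⟨hD d hd, Or.inl hd⟩), ?_⟩,
      fun d hd => h2' d (mem_newD.mpr ⟨hN d hd, Or.inr hd⟩)⟩
    intro c hc
    by_cases hcon : ∃ d ∈ newD n s N,
        (d.1 = c.1 ∨ d.1 = c.2.1 ∨ d.1 = c.2.2) ∧ (d.2 = c.1 ∨ d.2 = c.2.1 ∨ d.2 = c.2.2)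
    · obtain ⟨d, hd, hd1, hd2⟩ := hcon
      rcases h2' d hd with h | h
      · rcases hd1 with h5 | h5 | h5
        · exact Or.inl (h5 ▸ h)
        · exact Or.inr (Or.inl (h5 ▸ h))
        · exact Or.inr (Or.inr (h5 ▸ h))
      · rcases hd2 with h5 | h5 | h5
        · exact Or.inl (h5 ▸ h)
        · exact Or.inr (Or.inl (h5 ▸ h))
        · exact Or.inr (Or.inr (h5 ▸ h))
    · exact h3 c (mem_addP_T.mpr ⟨hc, hcon⟩)
  · rintro ⟨⟨h1, h2, h3⟩, h4⟩
    refine ⟨h1, ?_, ?_⟩
    · intro d hd
      rcases (mem_newD.mp hd).2 with h | h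
      · exact h2 d h
      · exact h4 d h
    · intro c hc
      exact h3 c (mem_addP_T.mp hc).1

/-- A step preserves satisfiability: with a heart `a`, either `a` is true or all petals are. -/
theorem sat_step {n p : ℕ} (q : ℕ) {s : SSt} (h : SInv n p s) :
    (∃ v, SatBy v s) ↔ ∃ s' ∈ stepS n p q s, ∃ v, SatBy v s' := by
  have hU : ∀ a ∈ s.1, a.1 < n := fun a ha => mem_lits.mp (h.subU.subset ha)
  have hD : ∀ d ∈ s.2.1, d.1.1 < n ∧ d.2.1 < n := fun d hd => mem_pairsL.mp (h.subD.subset hd)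
  have hT : ∀ c ∈ s.2.2, c.1.1 < n ∧ c.2.1.1 < n ∧ c.2.2.1 < n := fun c hc =>
    mem_tripsL.mp (h.subT.subset hc)
  rcases step_forms n p q s with ⟨a, ha, hs⟩ | ⟨_, d, hd, hs⟩ | ⟨_, _, a, ha, hs⟩ | ⟨_, hs⟩
  · have ha1 := (ruleA_some ha).1
    have hN1 : ∀ b ∈ [a], b.1 < n := by
      intro b hb
      rw [List.mem_singleton] at hb
      rw [hb]
      exact ha1
    have hN2 : ∀ b ∈ petD s a, b.1 < n := fun b hb => (hD _ (mem_petD.mp hb)).2
    rw [hs]
    constructor
    · rintro ⟨v, hv⟩
      by_cases hva : TrueL v a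
      · refine ⟨_, List.mem_cons_self, v, (satBy_addU hU hN1 v).mpr ⟨hv, ?_⟩⟩
        intro b hb
        rw [List.mem_singleton] at hb
        rw [hb]
        exact hva
      · refine ⟨_, List.mem_cons_of_mem _ List.mem_cons_self, v,
          (satBy_addU hU hN2 v).mpr ⟨hv, ?_⟩⟩
        intro b hb
        exact (hv.2.1 _ (mem_petD.mp hb)).resolve_left hva
    · rintro ⟨s', hs', v, hv⟩
      rw [List.mem_cons, List.mem_singleton] at hs'
      rcases hs' with rfl | rfl
      · exact ⟨v, ((satBy_addU hU hN1 v).mp hv).1⟩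
      · exact ⟨v, ((satBy_addU hU hN2 v).mp hv).1⟩
  · have hd1 := (ruleB_some hd).1
    have hN1 : ∀ e ∈ [d, (d.2, d.1)], e.1.1 < n ∧ e.2.1 < n := by
      intro e he
      rw [List.mem_cons, List.mem_singleton] at he
      rcases he with rfl | rfl
      · exact hd1
      · exact ⟨hd1.2, hd1.1⟩
    have hN2 : ∀ b ∈ petTT s d, b.1 < n := fun b hb => (hT _ (mem_petTT.mp hb)).2.2
    rw [hs]
    constructor
    · rintro ⟨v, hv⟩
      by_cases hva : TrueL v d.1 ∨ TrueL v d.2
      · refine ⟨_, List.mem_cons_self, v, (satBy_addP hD hN1 v).mpr ⟨hv, ?_⟩⟩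
        intro e he
        rw [List.mem_cons, List.mem_singleton] at he
        rcases he with rfl | rfl
        · exact hva
        · exact hva.symm
      · refine ⟨_, List.mem_cons_of_mem _ List.mem_cons_self, v,
          (satBy_addU hU hN2 v).mpr ⟨hv, ?_⟩⟩
        intro b hb
        rcases hv.2.2 _ (mem_petTT.mp hb) with h5 | h5 | h5
        · exact absurd (Or.inl h5) hva
        · exact absurd (Or.inr h5) hva
        · exact h5
    · rintro ⟨s', hs', v, hv⟩
      rw [List.mem_cons, List.mem_singleton] at hs'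
      rcases hs' with rfl | rfl
      · exact ⟨v, ((satBy_addP hD hN1 v).mp hv).1⟩
      · exact ⟨v, ((satBy_addU hU hN2 v).mp hv).1⟩
  · have ha1 := (ruleC_some ha).1
    have hN1 : ∀ b ∈ [a], b.1 < n := by
      intro b hb
      rw [List.mem_singleton] at hb
      rw [hb]
      exact ha1
    have hN2 : ∀ e ∈ petT s a, e.1.1 < n ∧ e.2.1 < n := fun e he => (hT _ (mem_petT.mp he)).2
    rw [hs]
    constructor
    · rintro ⟨v, hv⟩
      by_cases hva : TrueL v a
      · refine ⟨_, List.mem_cons_self, v, (satBy_addU hU hN1 v).mpr ⟨hv, ?_⟩⟩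
        intro b hb
        rw [List.mem_singleton] at hb
        rw [hb]
        exact hva
      · refine ⟨_, List.mem_cons_of_mem _ List.mem_cons_self, v,
          (satBy_addP hD hN2 v).mpr ⟨hv, ?_⟩⟩
        intro e he
        exact (hv.2.2 _ (mem_petT.mp he)).resolve_left hva
    · rintro ⟨s', hs', v, hv⟩
      rw [List.mem_cons, List.mem_singleton] at hs'
      rcases hs' with rfl | rfl
      · exact ⟨v, ((satBy_addU hU hN1 v).mp hv).1⟩
      · exact ⟨v, ((satBy_addP hD hN2 v).mp hv).1⟩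
  · rw [hs]
    simp

theorem sat_init {n : ℕ} {φ : List Clause3} (hφ : VarsLt n φ) :
    (∃ v, SatBy v (initS n φ)) ↔ Sat3 φ := by
  have hmem : ∀ c : Clause3, c ∈ (initS n φ).2.2 ↔
      c ∈ tripsL n ∧ ((c.1, c.2.1, c.2.2) ∈ φ ∨ (c.1, c.2.2, c.2.1) ∈ φ ∨
        (c.2.1, c.1, c.2.2) ∈ φ ∨ (c.2.1, c.2.2, c.1) ∈ φ ∨
        (c.2.2, c.1, c.2.1) ∈ φ ∨ (c.2.2, c.2.1, c.1) ∈ φ) := by
    intro c
    simp only [initS, List.mem_filter, Bool.or_eq_true, memB_iff]
  constructor
  · rintro ⟨v, -, -, h3⟩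
    refine ⟨v, fun c hc => ?_⟩
    exact h3 c ((hmem c).mpr ⟨mem_tripsL.mpr (hφ c hc), Or.inl hc⟩)
  · rintro ⟨v, hv⟩
    refine ⟨v, ?_, ?_, ?_⟩
    · intro a ha
      simp [initS] at ha
    · intro a ha
      simp [initS] at ha
    · intro c hc
      unfold TrueL
      rcases ((hmem c).mp hc).2 with h | h | h | h | h | h
      · have := hv _ h
        tauto
      · have := hv _ h
        tauto
      · have := hv _ h
        tauto
      · have := hv _ h
        tauto
      · have := hv _ h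
        tauto
      · have := hv _ h
        tauto

theorem sat_toCl (s : SSt) : Sat3 (toCl s) ↔ ∃ v, SatBy v s := by
  constructor
  · rintro ⟨v, hv⟩
    refine ⟨v, ?_, ?_, ?_⟩
    · intro a ha
      have h1 := hv (a, a, a) (by
        simp only [toCl, List.mem_append, List.mem_map]
        exact Or.inl ⟨a, ha, rfl⟩)
      unfold TrueL
      tauto
    · intro d hd
      have h1 := hv (d.1, d.1, d.2) (by
        simp only [toCl, List.mem_append, List.mem_map]
        exact Or.inr (Or.inl ⟨d, hd, rfl⟩))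
      unfold TrueL
      tauto
    · intro c hc
      have h1 := hv c (by
        simp only [toCl, List.mem_append, List.mem_map]
        exact Or.inr (Or.inr hc))
      unfold TrueL
      tauto
  · rintro ⟨v, h1, h2, h3⟩
    refine ⟨v, ?_⟩
    intro c hc
    simp only [toCl, List.mem_append, List.mem_map] at hc
    rcases hc with ⟨a, ha, rfl⟩ | ⟨d, hd, rfl⟩ | hc
    · exact Or.inl (h1 a ha)
    · have := h2 d hd
      unfold TrueL at this
      tauto
    · exact h3 c hc

theorem varsLt_toCl {n p : ℕ} {s : SSt} (h : SInv n p s) : VarsLt n (toCl s) := by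
  intro c hc
  simp only [toCl, List.mem_append, List.mem_map] at hc
  rcases hc with ⟨a, ha, rfl⟩ | ⟨d, hd, rfl⟩ | hc
  · have := mem_lits.mp (h.subU.subset ha)
    exact ⟨this, this, this⟩
  · have := mem_pairsL.mp (h.subD.subset hd)
    exact ⟨this.1, this.1, this.2⟩
  · exact mem_tripsL.mp (h.subT.subset hc)

/-- Counting along the fibres of a map. -/
theorem SpSat.fiber_le {α β : Type} [DecidableEq β] (f : α → β) (m : ℕ) (A : List β) :
    ∀ l : List α, (∀ x ∈ l, f x ∈ A) →
      (∀ a ∈ A, (l.filter fun x => decide (f x = a)).length ≤ m) → l.length ≤ A.length * m := by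
  induction A with
  | nil =>
    intro l h _
    cases l with
    | nil => simp
    | cons x l => exact absurd (h x List.mem_cons_self) List.not_mem_nil
  | cons a A ih =>
    intro l h hm
    have h1 := ih (l.filter fun x => !(decide (f x = a))) (by
      intro x hx
      rw [List.mem_filter] at hx
      have h2 := h x hx.1
      rw [List.mem_cons] at h2
      rcases h2 with h2 | h2
      · simp [h2] at hx
      · exact h2) (by
      intro b hb
      refine le_trans ?_ (hm b (List.mem_cons_of_mem _ hb))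
      rw [List.filter_filter]
      apply List.Sublist.length_le
      apply List.monotone_filter_right
      intro x hx
      simp only [Bool.and_eq_true] at hx
      exact hx.1)
    have h2 := hm a List.mem_cons_self
    have h3 : l.length = (l.filter fun x => decide (f x = a)).length +
        (l.filter fun x => !(decide (f x = a))).length :=
      List.length_eq_length_filter_add _
    rw [List.length_cons, add_mul, one_mul]
    omega

/-- Count `|U| ≤ 2n`, `|D| = ∑ |petD a| ≤ 2n p`, `|T| = ∑ |petT a| ≤ 2n q`. -/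
theorem length_toCl {n p q : ℕ} {s : SSt} (h : SInv n p s) (hl : IsLeaf n p q s) :
    (toCl s).length ≤ 2 * n * (1 + p + q) := by
  have h1 : s.1.length ≤ 2 * n := by
    rw [← length_lits n]
    exact h.subU.length_le
  have h2 : s.2.1.length ≤ 2 * n * p := by
    rw [← length_lits n]
    refine SpSat.fiber_le (fun d : Lit × Lit => d.1) p (lits n) s.2.1 ?_ ?_
    · intro d hd
      exact mem_lits.mpr (mem_pairsL.mp (h.subD.subset hd)).1
    · intro a ha
      have := ruleA_none hl.1 a (mem_lits.mp ha)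
      rw [petD, List.length_map] at this
      exact this.le
  have h3 : s.2.2.length ≤ 2 * n * q := by
    rw [← length_lits n]
    refine SpSat.fiber_le (fun c : Clause3 => c.1) q (lits n) s.2.2 ?_ ?_
    · intro d hd
      exact mem_lits.mpr (mem_tripsL.mp (h.subT.subset hd)).1
    · intro a ha
      have := ruleC_none hl.2.2 a (mem_lits.mp ha)
      rw [petT, List.length_map] at this
      exact this.le
  have h4 : (toCl s).length = s.1.length + (s.2.1.length + s.2.2.length) := by
    simp [toCl]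
  rw [h4]
  calc s.1.length + (s.2.1.length + s.2.2.length) ≤ 2 * n + (2 * n * p + 2 * n * q) := by omega
    _ = 2 * n * (1 + p + q) := by ring

end Pool.Agent.Work.MP_8491f2_lc
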