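import Pool.Agent.Work.MP_8491f2_lc.SpPot
import Pool.Agent.Work.MP_8491f2_lc.SpSat

/-!
Sparsification: all rounds together.
-/

set_option autoImplicit false

namespace Pool.Agent.Work.MP_8491f2_lc

namespace SpLev

theorem lvl_succ (n p q P : ℕ) (φ : List Clause3) (K : ℕ) :
    lvlS n p q P φ (K + 1) = ((lvlS n p q P φ K).flatMap (stepS n p q)).take P := by
  unfold lvlS
  rw [List.range_succ, List.foldl_append]
  rfl

theorem sum_flatMap_le {α : Type} (f : α → List α) (g : α → ℝ) (l : List α)
    (h : ∀ s ∈ l, ((f s).map g).sum ≤ g s) : ((l.flatMap f).map g).sum ≤ (l.map g).sum := by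
  induction l with
  | nil => simp
  | cons a l ih =>
    rw [List.flatMap_cons, List.map_append, List.sum_append, List.map_cons, List.sum_cons]
    have h1 := h a List.mem_cons_self
    have h2 := ih (fun s hs => h s (List.mem_cons_of_mem _ hs))
    linarith

theorem length_le_sum {α : Type} (g : α → ℝ) (h : ∀ s, 1 ≤ g s) (l : List α) :
    (l.length : ℝ) ≤ (l.map g).sum := by
  induction l with
  | nil => simp
  | cons a l ih =>
    rw [List.map_cons, List.sum_cons, List.length_cons]
    have h1 := h a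
    push_cast
    linarith

theorem pow_le {z : ℝ} (hz : 1 ≤ z) {a b m : ℕ} (h : a + m ≤ b) :
    z ^ a ≤ z ^ b * (z ^ m)⁻¹ := by
  have hz0 : 0 < z := by linarith
  rw [← div_eq_mul_inv, le_div_iff₀ (by positivity), ← pow_add]
  exact pow_le_pow_right₀ hz h

theorem main {n p q P : ℕ} {z : ℝ} (hp : 1 ≤ p) (hq : 1 ≤ q) (hz : 1 ≤ z)
    (hB : z⁻¹ + (z ^ (12 * p * p))⁻¹ ≤ 1) (hC : (z ^ (12 * p))⁻¹ + (z ^ q)⁻¹ ≤ 1)
    (hP : z ^ (36 * p * n) ≤ P) {φ : List Clause3} (hφ : VarsLt n φ) (K : ℕ) :
    (∀ s ∈ lvlS n p q P φ K, SInv n p s) ∧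
    ((lvlS n p q P φ K).map fun s => z ^ psi n p s).sum ≤ z ^ (36 * p * n) ∧
    (Sat3 φ ↔ ∃ s ∈ lvlS n p q P φ K, ∃ v, SatBy v s) ∧
    ∀ s ∈ lvlS n p q P φ K, IsLeaf n p q s ∨ psi n p s + K ≤ 36 * p * n := by
  have hz0 : 0 < z := by linarith
  induction K with
  | zero =>
    have h0 : lvlS n p q P φ 0 = [initS n φ] := rfl
    rw [h0]
    refine ⟨?_, ?_, ?_, ?_⟩
    · intro s hs
      rw [List.mem_singleton] at hs
      rw [hs]
      exact inv_init n p φ
    · simp [psi_init]
    · rw [← sat_init hφ]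
      simp
    · intro s hs
      rw [List.mem_singleton] at hs
      rw [hs, psi_init]
      right
      omega
  | succ K ih =>
    obtain ⟨h1, h2, h3, h4⟩ := ih
    have hsum : ∀ s ∈ lvlS n p q P φ K, ((stepS n p q s).map fun s => z ^ psi n p s).sum ≤
        z ^ psi n p s := by
      intro s hs
      rcases step_pot hp hq (h1 s hs) with ⟨_, hst⟩ | ⟨s1, s2, hst, hpot⟩
      · rw [hst]
        simp
      · rw [hst]
        simp only [List.map_cons, List.map_nil, List.sum_cons, List.sum_nil, add_zero]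
        have hzs : 0 ≤ z ^ psi n p s := by positivity
        rcases hpot with ⟨ha, hb⟩ | ⟨ha, hb⟩
        · have e1 := pow_le hz ha
          have e2 := pow_le hz hb
          rw [pow_one] at e1
          have e3 := mul_le_mul_of_nonneg_left hB hzs
          rw [mul_add, mul_one] at e3
          linarith
        · have e1 := pow_le hz ha
          have e2 := pow_le hz hb
          have e3 := mul_le_mul_of_nonneg_left hC hzs
          rw [mul_add, mul_one] at e3
          linarith
    have hle := sum_flatMap_le (stepS n p q) (fun s => z ^ psi n p s) (lvlS n p q P φ K) hsum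
    have hlen : ((lvlS n p q P φ K).flatMap (stepS n p q)).length ≤ P := by
      have e1 := length_le_sum (fun s => z ^ psi n p s) (fun s => one_le_pow₀ hz)
        ((lvlS n p q P φ K).flatMap (stepS n p q))
      have e2 : (((lvlS n p q P φ K).flatMap (stepS n p q)).length : ℝ) ≤ P := by linarith
      exact_mod_cast e2
    have hl : lvlS n p q P φ (K + 1) = (lvlS n p q P φ K).flatMap (stepS n p q) := by
      rw [lvl_succ, List.take_of_length_le hlen]
    rw [hl]
    refine ⟨?_, hle.trans h2, ?_, ?_⟩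
    · intro s' hs'
      obtain ⟨s, hs, hss⟩ := List.mem_flatMap.mp hs'
      exact inv_step q hp (h1 s hs) s' hss
    · rw [h3]
      constructor
      · rintro ⟨s, hs, hv⟩
        obtain ⟨s', hs', hv'⟩ := (sat_step q (h1 s hs)).mp hv
        exact ⟨s', List.mem_flatMap.mpr ⟨s, hs, hs'⟩, hv'⟩
      · rintro ⟨s', hs', hv'⟩
        obtain ⟨s, hs, hss⟩ := List.mem_flatMap.mp hs'
        exact ⟨s, hs, (sat_step q (h1 s hs)).mpr ⟨s', hss, hv'⟩⟩
    · intro s' hs'
      obtain ⟨s, hs, hss⟩ := List.mem_flatMap.mp hs'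
      rcases step_pot hp hq (h1 s hs) with ⟨hleaf, hst⟩ | ⟨s1, s2, hst, hpot⟩
      · rw [hst, List.mem_singleton] at hss
        rw [hss]
        exact Or.inl hleaf
      · have hnl : ¬ IsLeaf n p q s := by
          intro hleaf
          have : stepS n p q s = [s] := by
            rcases step_forms n p q s with ⟨a, ha, _⟩ | ⟨_, d, hd, _⟩ | ⟨_, _, a, ha, _⟩ | ⟨_, hs⟩
            · rw [hleaf.1] at ha
              exact absurd ha (by simp)
            · rw [hleaf.2.1] at hd
              exact absurd hd (by simp)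
            · rw [hleaf.2.2] at ha
              exact absurd ha (by simp)
            · exact hs
          rw [hst] at this
          have h5 := congrArg List.length this
          simp at h5
        have h6 := (h4 s hs).resolve_left hnl
        have h7 : 1 ≤ 12 * p * p := by nlinarith
        have h8 : 1 ≤ 12 * p := by omega
        rw [hst, List.mem_cons, List.mem_singleton] at hss
        right
        rcases hss with rfl | rfl
        · rcases hpot with ⟨ha, hb⟩ | ⟨ha, hb⟩ <;> omega
        · rcases hpot with ⟨ha, hb⟩ | ⟨ha, hb⟩ <;> omega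

end SpLev

/-- The sparsification lemma. Proof: by induction on the number of rounds, the sum of `z ^ psi`
over the states is at most `z ^ (36 p n) ≤ P`, so nothing is cut off; every state is a leaf or its
potential is at most `36 p n` minus the number of rounds. -/
theorem sparsification {n p q P : ℕ} {z : ℝ} (hp : 1 ≤ p) (hq : 1 ≤ q) (hz : 1 ≤ z)
    (hB : z⁻¹ + (z ^ (12 * p * p))⁻¹ ≤ 1) (hC : (z ^ (12 * p))⁻¹ + (z ^ q)⁻¹ ≤ 1)
    (hP : z ^ (36 * p * n) ≤ P) {φ : List Clause3} (hφ : VarsLt n φ) :
    (Sat3 φ ↔ ∃ s ∈ lvlS n p q P φ (36 * p * n + 1), Sat3 (toCl s)) ∧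
    ∀ s ∈ lvlS n p q P φ (36 * p * n + 1), VarsLt n (toCl s) ∧
      (toCl s).length ≤ 2 * n * (1 + p + q) := by
  obtain ⟨h1, _, h3, h4⟩ := SpLev.main hp hq hz hB hC hP hφ (36 * p * n + 1)
  refine ⟨?_, ?_⟩
  · rw [h3]
    simp only [sat_toCl]
  · intro s hs
    refine ⟨varsLt_toCl (h1 s hs), length_toCl (h1 s hs) ?_⟩
    rcases h4 s hs with h | h
    · exact h
    · omega

end Pool.Agent.Work.MP_8491f2_lc
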