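import Mathlib

/-!
Sparsification: the choice of the parameters.
-/

set_option autoImplicit false

namespace Pool.Agent.Work.MP_8491f2_lc

/-- Take `z = 2 ^ (η / (36 p))`. Then `1 - z⁻¹` is of order `1 / p`, while
`(z ^ (12 p ^ 2))⁻¹ = 2 ^ (- η p / 3)`; so `p` large works, and then `q` large. -/
theorem exists_params (η : ℝ) (hη : 0 < η) : ∃ (p q : ℕ) (z : ℝ), 1 ≤ p ∧ 1 ≤ q ∧ 1 ≤ z ∧
    z⁻¹ + (z ^ (12 * p * p))⁻¹ ≤ 1 ∧ (z ^ (12 * p))⁻¹ + (z ^ q)⁻¹ ≤ 1 ∧
    ∀ n : ℕ, z ^ (36 * p * n) ≤ 2 ^ (η * n) := by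
  obtain ⟨c, hc⟩ : ∃ c, c = η * Real.log 2 / 36 := ⟨_, rfl⟩
  have hc0 : 0 < c := by
    rw [hc]
    have := Real.log_pos (by norm_num : (1 : ℝ) < 2)
    positivity
  obtain ⟨p, hp⟩ := exists_nat_gt (max 1 (max c (1 / (36 * c ^ 3))))
  have hp1 : (1 : ℝ) < p := lt_of_le_of_lt (le_max_left _ _) hp
  have hp2 : c < p := lt_of_le_of_lt (le_trans (le_max_left _ _) (le_max_right _ _)) hp
  have hp3 : 1 / (36 * c ^ 3) < p :=
    lt_of_le_of_lt (le_trans (le_max_right _ _) (le_max_right _ _)) hp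
  have hp0 : (0 : ℝ) < p := by linarith
  have hx0 : 0 < c / p := by positivity
  have hx1 : c / p < 1 := by
    rw [div_lt_one hp0]
    exact hp2
  have hpow : ∀ m : ℕ, (Real.exp (c / p)) ^ m = Real.exp (m * (c / p)) := fun m =>
    (Real.exp_nat_mul _ _).symm
  have hz1 : 1 < Real.exp (c / p) := by
    rw [Real.one_lt_exp_iff]
    exact hx0
  have hp' : 1 ≤ p := by
    have : (1 : ℝ) ≤ p := hp1.le
    exact_mod_cast this
  -- the second inequality
  have ht : ((Real.exp (c / p)) ^ (12 * p))⁻¹ < 1 := by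
    rw [inv_lt_one₀ (by positivity)]
    exact one_lt_pow₀ hz1 (by omega)
  have hzi : (Real.exp (c / p))⁻¹ < 1 := by
    rw [inv_lt_one₀ (by positivity)]
    exact hz1
  obtain ⟨q, hq⟩ := exists_pow_lt_of_lt_one (sub_pos.mpr ht) hzi
  refine ⟨p, q + 1, Real.exp (c / p), hp', by omega, hz1.le, ?_, ?_, ?_⟩
  · have h1 : (Real.exp (c / p))⁻¹ ≤ 1 - (c / p) / 2 := by
      rw [inv_le_comm₀ (by positivity) (by linarith)]
      have h2 := Real.add_one_le_exp (c / p)
      refine le_trans ?_ h2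
      rw [inv_le_iff_one_le_mul₀ (by linarith)]
      nlinarith
    have h3 : ((Real.exp (c / p)) ^ (12 * p * p))⁻¹ ≤ (c / p) / 2 := by
      rw [hpow]
      have e1 : ((12 * p * p : ℕ) : ℝ) * (c / p) = 12 * c * p := by
        push_cast
        field_simp
      rw [e1]
      rw [inv_le_comm₀ (by positivity) (by positivity)]
      have h4 := Real.quadratic_le_exp_of_nonneg (by positivity : (0 : ℝ) ≤ 12 * c * p)
      have h5 : (c / p / 2)⁻¹ = 2 * p / c := by
        field_simp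
      rw [h5, div_le_iff₀ hc0]
      rw [div_lt_iff₀ (by positivity)] at hp3
      have h6 : (1 + 12 * c * p + (12 * c * p) ^ 2 / 2) * c ≤ Real.exp (12 * c * p) * c :=
        mul_le_mul_of_nonneg_right h4 hc0.le
      have h7 : 2 * (p : ℝ) ≤ (1 + 12 * c * p + (12 * c * p) ^ 2 / 2) * c := by
        have h8 : 2 * (p : ℝ) * 1 ≤ 2 * p * (p * (36 * c ^ 3)) :=
          mul_le_mul_of_nonneg_left hp3.le (by positivity)
        have h9 : (0 : ℝ) ≤ (1 + 12 * c * p) * c := by positivity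
        nlinarith
      linarith
    linarith
  · have h1 : ((Real.exp (c / p)) ^ (q + 1))⁻¹ ≤ ((Real.exp (c / p))⁻¹) ^ q := by
      rw [inv_pow]
      apply inv_anti₀ (by positivity)
      exact pow_le_pow_right₀ hz1.le (by omega)
    linarith
  · intro n
    rw [hpow, Real.rpow_def_of_pos (by norm_num)]
    apply le_of_eq
    congr 1
    rw [hc]
    push_cast
    field_simp

end Pool.Agent.Work.MP_8491f2_lc
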