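import Pool.Agent.Work.MP_8491f2_lc.SatRed
import Pool.Agent.Work.MP_8491f2_lc.BuildTime
import Pool.Agent.Work.PolyTime.NPClose

/-!
From the word of a 3-CNF formula to the data of the graph.
-/

set_option autoImplicit false

namespace Pool.Agent.Work.MP_8491f2_lc

open Pool.Agent.Work.PolyTime

/-- A number is written in unary, `n` as `1010...100`. -/
def encNum : ℕ → List Bool
  | 0 => [false]
  | n + 1 => true :: false :: encNum n

/-- A literal: a one, the number of its variable, its sign (`0` or `100`). -/
def encLit (l : Lit) : List Bool :=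
  true :: (encNum l.1 ++ (if l.2 then [true, false, false] else [false]))

/-- A clause. -/
def encClause (c : Clause3) : List Bool :=
  true :: (encLit c.1 ++ true :: (encLit c.2.1 ++ encLit c.2.2))

/-- A list of clauses: a one before every clause and a zero at the end. -/
def encClauses : List Clause3 → List Bool
  | [] => [false]
  | c :: l => true :: (encClause c ++ encClauses l)

/-- The word of a 3-CNF formula with variables `0, ..., n - 1`. -/
def enc3 (n : ℕ) (φ : List Clause3) : List Bool := true :: (encNum n ++ encClauses φ)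

theorem encNum_eq (n : ℕ) : encNum n = (code n).ser := by
  induction n with
  | zero => rfl
  | succ n ih => rw [encNum, ih]; rfl

theorem encLit_eq (l : Lit) : encLit l = (code l).ser := by
  obtain ⟨x, b⟩ := l
  have h : (code (x, b)).ser = true :: ((code x).ser ++ (code b).ser) := rfl
  rw [h, encLit, encNum_eq]
  cases b <;> rfl

theorem encClause_eq (c : Clause3) : encClause c = (code c).ser := by
  obtain ⟨a, b, c⟩ := c
  have h : (code (a, b, c)).ser =
      true :: ((code a).ser ++ true :: ((code b).ser ++ (code c).ser)) := rfl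
  rw [h, encClause, encLit_eq, encLit_eq, encLit_eq]

theorem encClauses_eq (φ : List Clause3) : encClauses φ = (code φ).ser := by
  induction φ with
  | nil => rfl
  | cons c l ih =>
    have h : (code (c :: l)).ser = true :: ((code c).ser ++ (code l).ser) := rfl
    rw [h, encClauses, ih, encClause_eq]

theorem enc3_eq (n : ℕ) (φ : List Clause3) : enc3 n φ = (code (n, φ)).ser := by
  have h : (code (n, φ)).ser = true :: ((code n).ser ++ (code φ).ser) := rfl
  rw [h, enc3, encNum_eq, encClauses_eq]

theorem length_encNum (n : ℕ) : (encNum n).length = 2 * n + 1 := by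
  induction n with
  | zero => rfl
  | succ n ih => simp only [encNum, List.length_cons, ih]; omega

theorem length_encLit (l : Lit) (n : ℕ) (h : l.1 < n) : (encLit l).length ≤ 2 * n + 3 := by
  obtain ⟨x, b⟩ := l
  cases b <;> simp [encLit, length_encNum] at h ⊢ <;> omega

theorem length_enc3_le (n : ℕ) (φ : List Clause3)
    (h : ∀ c ∈ φ, c.1.1 < n ∧ c.2.1.1 < n ∧ c.2.2.1 < n) :
    (enc3 n φ).length ≤ 20 * (n + 1) * (φ.length + 1) := by
  have key : ∀ φ : List Clause3, (∀ c ∈ φ, c.1.1 < n ∧ c.2.1.1 < n ∧ c.2.2.1 < n) →
      (encClauses φ).length ≤ 1 + φ.length * (6 * n + 12) := by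
    intro φ
    induction φ with
    | nil => intro _; simp [encClauses]
    | cons c l ih =>
      intro h
      have h1 := ih (fun c hc => h c (by simp [hc]))
      obtain ⟨h2, h3, h4⟩ := h c (by simp)
      have h2' := length_encLit _ n h2
      have h3' := length_encLit _ n h3
      have h4' := length_encLit _ n h4
      simp only [encClauses, encClause, List.length_cons, List.length_append, add_mul, one_mul]
      omega
  have h1 := key φ h
  simp only [enc3, List.length_cons, List.length_append, length_encNum]
  have h2 : 20 * (n + 1) * (φ.length + 1) =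
    20 * n + 20 + φ.length * (6 * n + 12) + φ.length * (14 * n + 8) := by ring
  omega

/-- The exponent: `3 ^ expo κ C` bounds the number of nodes of the anchors. -/
def expo (κ : ℕ) (C : List Quad) : ℕ := (27 * C.length + 2 * κ + 10) / κ

theorem divC_eq' (a b : ℕ) (hb : 0 < b) : divC a b = a / b := by
  have key : ∀ k, ((List.range k).filter fun q => decide ((q + 1) * b ≤ a)).length =
      min k (a / b) := by
    intro k
    induction k with
    | zero => simp
    | succ k ih =>
      rw [List.range_succ, List.filter_append, List.length_append, ih]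
      by_cases h : (k + 1) * b ≤ a
      · have h2 : k + 1 ≤ a / b := (Nat.le_div_iff_mul_le hb).2 h
        simp [h]
        omega
      · have h2 : ¬ (k + 1 ≤ a / b) := fun h3 => h ((Nat.le_div_iff_mul_le hb).1 h3)
        simp [h]
        omega
  unfold divC
  rw [key]
  exact min_eq_right (Nat.div_le_self a b)

section

variable {α : Type} [Code α]

@[fun_prop]
theorem ptime_litVar {l : α → Lit} (hl : PTime l) : PTime (fun a => litVar (l a)) := by
  unfold litVar
  fun_prop

@[fun_prop]
theorem ptime_negVar {l : α → Lit} (hl : PTime l) : PTime (fun a => negVar (l a)) := by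
  unfold negVar
  fun_prop

@[fun_prop]
theorem ptime_clauseQuads {n k : α → ℕ} {c : α → Clause3} (hn : PTime n) (hk : PTime k)
    (hc : PTime c) : PTime (fun a => clauseQuads (n a) (k a) (c a)) := by
  unfold clauseQuads
  fun_prop

@[fun_prop]
theorem ptime_toQuads {n : α → ℕ} {φ : α → List Clause3} (hn : PTime n) (hφ : PTime φ) :
    PTime (fun a => toQuads (n a) (φ a)) := by
  unfold toQuads
  refine PTime.append (PTime.append (PTime.const _) (PTime.map (by fun_prop) (by fun_prop)))
    (PTime.flatMap (PTime.zipIdx hφ) (by fun_prop))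

end

/-- For fixed `κ`, a polynomial-time computable function that maps the word of a formula to the
data of its graph. -/
theorem exists_input (κ : ℕ) (hκ : 0 < κ) : ∃ f : List Bool → List Bool,
    PolyTimeComputable f ∧ ∀ (n : ℕ) (φ : List Clause3),
      f (enc3 n φ) = (code ((κ, toQuads n φ), expo κ (toQuads n φ))).ser := by
  let g : List Bool → (ℕ × List Quad) × ℕ := fun w =>
    ((PolyTime.parseW (ℕ × List Clause3) w).bind fun y =>
      some ((κ, toQuads y.1 y.2), divC (27 * (toQuads y.1 y.2).length + 2 * κ + 10) κ)).getD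
      ((0, []), 0)
  have hg : PTime g := by
    refine PTime.getD (PTime.bind (PTime.parseW PTime.id) (PTime.mkSome ?_)) (PTime.const _)
    refine PTime.prodMk (PTime.prodMk (PTime.const _) (by fun_prop)) ?_
    exact ptime_divC (PTime.natAdd (PTime.natAdd (PTime.natMul (PTime.const _) (by fun_prop))
      (PTime.const _)) (PTime.const _)) (PTime.const _)
  refine ⟨fun w => (code (g w)).ser, polyTimeComputable_of_PTime hg, fun n φ => ?_⟩
  have h1 : g (enc3 n φ) = ((κ, toQuads n φ), expo κ (toQuads n φ)) := by
    simp only [g]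
    rw [enc3_eq, parseW_ser, Option.bind_some, Option.getD_some, divC_eq' _ _ hκ]
    rfl
  simp only [h1]

/-- The final test: is the length plus one divisible by three? -/
theorem exists_check : ∃ f : List Bool → List Bool, PolyTimeComputable f ∧
    ∀ m : ℕ, f (List.replicate m true) = [decide ((m + 1) % 3 = 0)] := by
  refine ⟨fun w => [(List.range (w.length + 1)).any fun q =>
    decide (3 * (q + 1) = w.length + 1)], polyTimeComputable_of_PTime_word ?_, fun m => ?_⟩
  · refine PTime.cons (PTime.any (by fun_prop) (PTime.eq (by fun_prop) (by fun_prop)))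
      (PTime.const _)
  · simp only [List.length_replicate, List.cons.injEq, and_true]
    rw [Bool.eq_iff_iff]
    simp only [List.any_eq_true, List.mem_range, decide_eq_true_eq]
    constructor
    · rintro ⟨q, _, h⟩
      omega
    · intro h
      exact ⟨(m + 1) / 3 - 1, by omega, by omega⟩

theorem toQuads_le (n : ℕ) (φ : List Clause3)
    (h : ∀ c ∈ φ, c.1.1 < n ∧ c.2.1.1 < n ∧ c.2.2.1 < n) (q : Quad) (hq : q ∈ toQuads n φ) :
    q.1 ≤ 5 + 2 * n + 4 * φ.length ∧ q.2.1 ≤ 5 + 2 * n + 4 * φ.length ∧
      q.2.2.1 ≤ 5 + 2 * n + 4 * φ.length ∧ q.2.2.2 ≤ 5 + 2 * n + 4 * φ.length := by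
  unfold toQuads at hq
  rw [List.mem_append, List.mem_append] at hq
  rcases hq with (hq | hq) | hq
  · simp only [List.mem_cons, List.not_mem_nil, or_false] at hq
    rcases hq with rfl | rfl | rfl <;> simp <;> omega
  · rw [List.mem_map] at hq
    obtain ⟨x, hx, rfl⟩ := hq
    rw [List.mem_range] at hx
    simp only
    omega
  · rw [List.mem_flatMap] at hq
    obtain ⟨⟨c, k⟩, hc, hq⟩ := hq
    have hk : k < φ.length := by
      have := List.snd_lt_of_mem_zipIdx hc
      simpa using this
    have hc2 : c ∈ φ := by
      have := List.fst_mem_of_mem_zipIdx hc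
      exact this
    obtain ⟨h1, h2, h3⟩ := h c hc2
    have e1 : litVar c.2.1 ≤ 7 + 2 * c.2.1.1 := by unfold litVar; cases c.2.1.2 <;> simp
    have e2 : negVar c.1 ≤ 7 + 2 * c.1.1 := by unfold negVar; cases c.1.2 <;> simp
    have e3 : negVar c.2.2 ≤ 7 + 2 * c.2.2.1 := by unfold negVar; cases c.2.2.2 <;> simp
    simp only [clauseQuads, List.mem_cons, List.not_mem_nil, or_false] at hq
    rcases hq with rfl | rfl | rfl <;> simp only <;> omega

/-- Upper bound for the size of the data. -/
theorem sz_data_le (κ n : ℕ) (φ : List Clause3) (hκ : 0 < κ)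
    (h : ∀ c ∈ φ, c.1.1 < n ∧ c.2.1.1 < n ∧ c.2.2.1 < n) :
    sz (κ, toQuads n φ) ≤ 1000 * (n + φ.length + κ + 1) ^ 2 := by
  have h1 : sz (toQuads n φ) ≤ 1 + (toQuads n φ).length * (1 + (47 + 16 * n + 32 * φ.length)) := by
    refine sz_list_le _ _ (fun q hq => ?_)
    obtain ⟨a1, a2, a3, a4⟩ := toQuads_le n φ h q hq
    obtain ⟨x, y, z, w⟩ := q
    simp only [sz_pair, sz_nat] at *
    omega
  rw [length_toQuads] at h1
  rw [sz_pair, sz_nat]
  obtain ⟨N, hN⟩ : ∃ N, N = n + φ.length + κ + 1 := ⟨_, rfl⟩
  rw [← hN]
  have h2 : (3 + n + 3 * φ.length) * (1 + (47 + 16 * n + 32 * φ.length)) ≤ (3 * N) * (48 * N) :=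
    Nat.mul_le_mul (by omega) (by omega)
  have h3 : (3 * N) * (48 * N) = 144 * N ^ 2 := by ring
  have h4 : N ≤ N ^ 2 := by nlinarith
  omega

end Pool.Agent.Work.MP_8491f2_lc
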