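import Pool.Agent.Work.MP_8491f2_lc.SpTime
import Pool.Agent.Work.MP_8491f2_lc.Input

/-!
The function computed by the final machine.
-/

set_option autoImplicit false

namespace Pool.Agent.Work.MP_8491f2_lc

open Pool.Agent.Work.PolyTime

/-- The data: number of variables and formula, parameters `p` and `q` of the sparsification,
thickness `κ`. -/
abbrev SData : Type := (ℕ × List Clause3) × (ℕ × ℕ) × ℕ

/-- The number `m + 1` is divisible by three. -/
def mod3 (m : ℕ) : Bool := (List.range (m + 1)).any fun r => decide (3 * (r + 1) = m + 1)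

theorem mod3_eq (m : ℕ) : mod3 m = decide ((m + 1) % 3 = 0) := by
  unfold mod3
  rw [Bool.eq_iff_iff]
  simp only [List.any_eq_true, List.mem_range, decide_eq_true_eq]
  constructor
  · rintro ⟨r, _, h⟩
    omega
  · intro h
    exact ⟨(m + 1) / 3 - 1, by omega, by omega⟩

/-- The function computed by the final machine: sparsify, write down the graphs, simulate the
pathwidth machine, check the answers. -/
def univF (F : List Bool × ℕ → List Bool) (y : SData × ℕ) : List Bool :=
  [(lvlS y.1.1.1 y.1.2.1.1 y.1.2.1.2 y.2 y.1.1.2 (36 * y.1.2.1.1 * y.1.1.1 + 1)).any fun s =>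
    mod3 (F (wordC (y.1.2.2, toQuads y.1.1.1 (toCl s)) y.2, y.2)).length]

theorem ptime_univF {F : List Bool × ℕ → List Bool} (hF : PTime F) : PTime (univF F) := by
  unfold univF
  refine PTime.cons (PTime.any (ptime_lvlS (by fun_prop) (by fun_prop) (by fun_prop)
    (by fun_prop) (by fun_prop) (by fun_prop)) ?_) (PTime.const _)
  unfold mod3
  have h1 : PTime (fun y : (SData × ℕ) × SSt =>
      wordC (y.1.1.2.2, toQuads y.1.1.1.1 (toCl y.2)) y.1.2) :=
    ptime_wordC_aux (PTime.prodMk (by fun_prop) (ptime_toQuads (by fun_prop)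
      (ptime_toCl PTime.snd))) (by fun_prop)
  have h2 : PTime (fun y : (SData × ℕ) × SSt =>
      (F (wordC (y.1.1.2.2, toQuads y.1.1.1.1 (toCl y.2)) y.1.2, y.1.2)).length) :=
    PTime.length (hF.comp (PTime.prodMk h1 (by fun_prop)))
  refine PTime.any (PTime.range (PTime.natAdd h2 (PTime.const _))) (PTime.eq (by fun_prop) ?_)
  exact PTime.natAdd (h2.comp PTime.fst) (PTime.const _)

/-- For fixed parameters, a polynomial-time computable function that maps the word of a formula
to the input of the final machine. -/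
theorem exists_input2 (p q κ a b : ℕ) (hb : 0 < b) : ∃ f : List Bool → List Bool,
    PolyTimeComputable f ∧ ∀ (n : ℕ) (φ : List Clause3),
      f (enc3 n φ) = (code ((((n, φ), (p, q), κ) : SData), a + n / b)).ser := by
  let g : List Bool → SData × ℕ := fun w =>
    ((PolyTime.parseW (ℕ × List Clause3) w).bind fun y =>
      some ((y, (p, q), κ), a + divC y.1 b)).getD (((0, []), (0, 0), 0), 0)
  have hg : PTime g := by
    refine PTime.getD (PTime.bind (PTime.parseW PTime.id) (PTime.mkSome ?_)) (PTime.const _)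
    refine PTime.prodMk (PTime.prodMk (by fun_prop) (PTime.const _)) ?_
    exact PTime.natAdd (PTime.const _) (ptime_divC (by fun_prop) (PTime.const _))
  refine ⟨fun w => (code (g w)).ser, polyTimeComputable_of_PTime hg, fun n φ => ?_⟩
  have h1 : g (enc3 n φ) = (((n, φ), (p, q), κ), a + n / b) := by
    simp only [g]
    rw [enc3_eq, parseW_ser, Option.bind_some, Option.getD_some, divC_eq' _ _ hb]
  simp only [h1]

theorem sz_sdata (n p q κ : ℕ) (φ : List Clause3)
    (h : ∀ c ∈ φ, c.1.1 < n ∧ c.2.1.1 < n ∧ c.2.2.1 < n) :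
    sz (((n, φ), (p, q), κ) : SData) ≤ (20 + 2 * (p + q + κ) + 6) * ((n + 1) * (φ.length + 1)) := by
  have h1 : sz ((n, φ) : ℕ × List Clause3) = (enc3 n φ).length := by
    rw [enc3_eq]
    rfl
  have h2 := length_enc3_le n φ h
  have h3 : sz (((n, φ), (p, q), κ) : SData) = 1 + sz ((n, φ) : ℕ × List Clause3) +
      sz ((p, q), κ) := sz_pair _ _
  rw [h3, h1, sz_pair, sz_pair, sz_nat, sz_nat, sz_nat]
  have h4 : 1 ≤ (n + 1) * (φ.length + 1) := Nat.one_le_iff_ne_zero.2 (by positivity)
  have h5 : 20 * (n + 1) * (φ.length + 1) = 20 * ((n + 1) * (φ.length + 1)) := by ring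
  rw [h5] at h2
  generalize (n + 1) * (φ.length + 1) = Y at *
  have h6 : (2 * (p + q + κ) + 6) * 1 ≤ (2 * (p + q + κ) + 6) * Y := Nat.mul_le_mul_left _ h4
  have h7 : (20 + 2 * (p + q + κ) + 6) * Y = 20 * Y + (2 * (p + q + κ) + 6) * Y := by ring
  omega

end Pool.Agent.Work.MP_8491f2_lc
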