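import Pool.Agent.Work.MP_8491f2_lc.Final
import Pool.Agent.Work.MP_8491f2_lc.Univ
import Pool.Agent.Work.MP_8491f2_lc.SpLev
import Pool.Agent.Work.MP_8491f2_lc.SpNum
import Pool.Agent.Work.MP_8491f2_lc.SimM
import Pool.Agent.Work.MP_8491f2_lc.ExpMach

/-!
The assembly with the sparsification lemma.
-/

set_option autoImplicit false

namespace Pool.Agent.Work.MP_8491f2_lc

open Filter Topology

/-- The answer for a single formula. -/
theorem mod3_single {f g : ℕ → ℕ} {M : Turing.TM2ComputableAux Bool Bool}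
    (hM : ∀ (n : ℕ) (G : SimpleGraph (Fin n)),
      OutIn M (encGraph G) (List.replicate (pw G) true) (f (tw G) * (n + 1) ^ g (tw G)))
    {F : List Bool × ℕ → List Bool} {cF : ℕ}
    (hF : ∀ x y s t, OutIn M x y s → cF * s ≤ t → F (x, t) = y) {κ Fm Gm : ℕ}
    (hκ : 6 ≤ κ) (hκ3 : 3 ∣ κ) (hf : ∀ k ≤ 3 * κ, f k ≤ Fm) (hg : ∀ k ≤ 3 * κ, g k ≤ Gm)
    {n P : ℕ} {φ : List Clause3} (hφ : VarsLt n φ)
    (hP1 : 3 ^ expo κ (toQuads n φ) ≤ P)
    (hP2 : cF * (Fm * ((18 * (toQuads n φ).length + 2) * (6 * κ) *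
      3 ^ expo κ (toQuads n φ)) ^ Gm) ≤ P) :
    mod3 (F (wordC (κ, toQuads n φ) P, P)).length = true ↔ Sat3 φ := by
  have hκ0 : 0 < κ := by omega
  set C := toQuads n φ with hC
  have hdist : ∀ q ∈ C, q.Dist := dist_toQuads n φ hφ
  have hlen : C.length = 3 + n + 3 * φ.length := length_toQuads n φ
  have hne : C ≠ [] := by
    intro h0
    rw [h0] at hlen
    simp at hlen
    omega
  have hblow := isBlow_graphC hκ0 hP1
  set G := graphC (κ, C) P with hG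
  have htw : tw G ≤ 3 * κ - 2 := tw_le_of_isBlow hκ hdist hblow
  have hr := hM _ G
  rw [encGraph_graphC] at hr
  have ht : cF * (f (tw G) * ((bvxC (κ, C) P).length + 1) ^ g (tw G)) ≤ P := by
    refine le_trans ?_ hP2
    have h1 : f (tw G) ≤ Fm := hf _ (by omega)
    have h2 : ((bvxC (κ, C) P).length + 1) ^ g (tw G) ≤ ((bvxC (κ, C) P).length + 1) ^ Gm :=
      Nat.pow_le_pow_right (Nat.succ_pos _) (hg _ (by omega))
    refine Nat.mul_le_mul_left _ (Nat.mul_le_mul h1 (h2.trans ?_))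
    exact Nat.pow_le_pow_left (length_bvxC_le hκ C P) _
  rw [hF _ _ _ _ hr ht, List.length_replicate, mod3_eq, decide_eq_true_iff,
    pw_mod_three hκ hκ3 hdist hne hblow]
  exact sat24_toQuads n φ hφ

/-- Size bound for the 4-clauses of a sparse formula. -/
theorem length_quads_le {n R m : ℕ} {φ : List Clause3} (hm : φ.length ≤ 2 * n * m)
    (hR : R = 1 + 6 * m) : (toQuads n φ).length ≤ 3 + R * n := by
  rw [length_toQuads, hR]
  nlinarith

/-- The exponential part of the time. -/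
theorem three_pow_div_le (dg b n : ℕ) (hb : 0 < b) (ε : ℝ) (hbε : 4 * (dg : ℝ) ≤ ε * b) :
    ((3 : ℝ) ^ (n / b)) ^ dg ≤ 2 ^ (ε / 2 * n) := by
  have hb' : (0 : ℝ) < b := by exact_mod_cast hb
  have h1 : ((3 : ℝ) ^ (n / b)) ^ dg ≤ ((4 : ℝ) ^ (n / b)) ^ dg := by gcongr; norm_num
  have h2 : ((4 : ℝ) ^ (n / b)) ^ dg = 2 ^ (((2 * (n / b) * dg : ℕ)) : ℝ) := by
    rw [Real.rpow_natCast, show (4 : ℝ) = 2 ^ 2 by norm_num, ← pow_mul, ← pow_mul, mul_assoc]
  rw [h2] at h1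
  refine h1.trans (Real.rpow_le_rpow_of_exponent_le (by norm_num) ?_)
  have h3 : ((n / b : ℕ) : ℝ) ≤ n / b := Nat.cast_div_le
  push_cast
  calc 2 * ((n / b : ℕ) : ℝ) * dg ≤ 2 * ((n : ℝ) / b) * dg := by gcongr
    _ = (4 * dg) * (n / (2 * b)) := by ring
    _ ≤ (ε * b) * (n / (2 * b)) := by gcongr
    _ = ε / 2 * n := by field_simp

theorem time3 (Ag Kc dg a b n m v D : ℕ) (k3 ε : ℝ) (hb : 0 < b) (hk3 : 0 ≤ k3)
    (hbε : 4 * (dg : ℝ) ≤ ε * b) (hD : dg ≤ D)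
    (hb3 : (((Kc : ℝ) + 1) * (n + 1)) ^ dg ≤ k3 * 2 ^ (ε / 2 * n))
    (hv : v ≤ Ag * (((Kc + 1) * ((n + 1) * (m + 1))) * (3 * 3 ^ (a + 1 + n / b))) ^ dg) :
    (v : ℝ) ≤ Ag * (k3 * (3 ^ (a + 2)) ^ dg) * (2 ^ (ε * n) * ((m : ℝ) + 1) ^ D) := by
  have h1 : (v : ℝ) ≤
      Ag * ((((Kc : ℝ) + 1) * ((n + 1) * (m + 1))) * (3 * 3 ^ (a + 1 + n / b))) ^ dg := by
    exact_mod_cast hv
  refine h1.trans ?_
  have h2 : ((((Kc : ℝ) + 1) * ((n + 1) * (m + 1))) * (3 * 3 ^ (a + 1 + n / b))) ^ dg =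
      (((Kc : ℝ) + 1) * (n + 1)) ^ dg * ((m : ℝ) + 1) ^ dg * ((3 ^ (a + 2)) ^ dg *
        (3 ^ (n / b)) ^ dg) := by
    rw [← mul_pow, ← mul_pow, ← mul_pow]
    congr 1
    rw [show a + 1 + n / b = (a + 1) + n / b by ring, pow_add, pow_succ, pow_succ, pow_succ]
    ring
  rw [h2]
  have h3 := three_pow_div_le dg b n hb ε hbε
  have hm : (1 : ℝ) ≤ (m : ℝ) + 1 := by
    have : (0 : ℝ) ≤ m := Nat.cast_nonneg _
    linarith
  have h4 : ((m : ℝ) + 1) ^ dg ≤ ((m : ℝ) + 1) ^ D := pow_le_pow_right₀ hm hD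
  have hXX : (2 : ℝ) ^ (ε / 2 * n) * 2 ^ (ε / 2 * n) = 2 ^ (ε * n) := by
    rw [← Real.rpow_add (by norm_num)]
    congr 1
    ring
  calc (Ag : ℝ) * ((((Kc : ℝ) + 1) * (n + 1)) ^ dg * ((m : ℝ) + 1) ^ dg * ((3 ^ (a + 2)) ^ dg *
        (3 ^ (n / b)) ^ dg))
      ≤ Ag * ((k3 * 2 ^ (ε / 2 * n)) * ((m : ℝ) + 1) ^ D * ((3 ^ (a + 2)) ^ dg *
        2 ^ (ε / 2 * n))) := by gcongr
    _ = Ag * (k3 * (3 ^ (a + 2)) ^ dg) * ((2 ^ (ε / 2 * n) * 2 ^ (ε / 2 * n)) *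
        ((m : ℝ) + 1) ^ D) := by ring
    _ = _ := by rw [hXX]

open Classical in
theorem main2 (f g : ℕ → ℕ) (hg : Tendsto (fun k : ℕ => (g k : ℝ) / k) atTop (𝓝 0))
    (M : Turing.TM2ComputableAux Bool Bool)
    (hM : ∀ (n : ℕ) (G : SimpleGraph (Fin n)),
      OutIn M (encGraph G) (List.replicate (pw G) true) (f (tw G) * (n + 1) ^ g (tw G)))
    (ε : ℝ) (hε : 0 < ε) :
    ∃ (M' : Turing.TM2ComputableAux Bool Bool) (c : ℝ) (d : ℕ), ∀ (n : ℕ) (φ : List Clause3),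
      VarsLt n φ →
      OutIn M' (enc3 n φ) [decide (Sat3 φ)] ⌊c * 2 ^ (ε * n) * (φ.length + 1) ^ d⌋₊ := by
  -- the machines that depend only on `M`
  obtain ⟨F, cF, hF, hsim⟩ := exists_sim M
  obtain ⟨Mg, pg, hMg⟩ := exists_exp_machine (univF F) (ptime_univF hF)
  obtain ⟨Ag, dg, hpg⟩ := poly_bound pg
  -- the denominator `b`
  obtain ⟨b, hb⟩ := exists_nat_gt (4 * (dg : ℝ) / ε)
  have hb0 : 0 < b := by
    have h1 : (0 : ℝ) ≤ 4 * (dg : ℝ) / ε := by positivity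
    have h2 : (0 : ℝ) < b := lt_of_le_of_lt h1 hb
    exact_mod_cast h2
  have hb0' : (0 : ℝ) < b := by exact_mod_cast hb0
  have hbε : 4 * (dg : ℝ) ≤ ε * b := by
    rw [div_lt_iff₀ hε] at hb
    linarith
  -- the parameters of the sparsification
  set η : ℝ := 1 / b with hη
  have hη0 : 0 < η := by positivity
  obtain ⟨p, q, z, hp, hq, hz, hzB, hzC, hzn⟩ := exists_params η hη0
  set R : ℕ := 1 + 6 * (1 + p + q) with hR
  have hR0 : (0 : ℝ) < R := by
    have : 0 < R := by omega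
    exact_mod_cast this
  -- the thickness
  set δ : ℝ := η / (2 * R) with hδ
  have hδ0 : 0 < δ := by positivity
  obtain ⟨κ, hκ6, hκ3, hκd, hκg⟩ := exists_kappa g hg 1 δ hδ0
  have hκ0 : 0 < κ := by omega
  obtain ⟨Fm, hFm⟩ : ∃ Fm : ℕ, ∀ k ≤ 3 * κ, f k ≤ Fm :=
    ⟨(Finset.range (3 * κ + 1)).sup f, fun k hk =>
      Finset.le_sup (f := f) (Finset.mem_range.2 (by omega))⟩
  obtain ⟨Gm, hGm, hGm'⟩ : ∃ Gm : ℕ, (∀ k ≤ 3 * κ, g k ≤ Gm) ∧ 162 * (Gm : ℝ) ≤ δ * κ := by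
    obtain ⟨k, hk, hk'⟩ := Finset.exists_mem_eq_sup (Finset.range (3 * κ + 1)) ⟨0, by simp⟩ g
    refine ⟨(Finset.range (3 * κ + 1)).sup g, fun j hj =>
      Finset.le_sup (f := g) (Finset.mem_range.2 (by omega)), ?_⟩
    rw [hk']
    exact hκg k (by have := Finset.mem_range.1 hk; omega)
  -- constants for the exponent
  obtain ⟨k4, hk4, hb4⟩ := three_pow_le 1 κ hκ0 δ (by simpa using hκd)
  obtain ⟨k5, hk5, hb5⟩ := pow_le_exp Gm (336 * κ) δ (by positivity) hδ0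
  obtain ⟨k6, hk6, hb6⟩ := three_pow_le Gm κ hκ0 δ hGm'
  set X0 : ℝ := k4 + cF * Fm * (k5 * k6) + 1 with hX0
  have hX0pos : 0 < X0 := by positivity
  obtain ⟨a, ha⟩ : ∃ a : ℕ, X0 ≤ 3 ^ a := by
    obtain ⟨a, ha⟩ := pow_unbounded_of_one_lt X0 (by norm_num : (1 : ℝ) < 3)
    exact ⟨a, ha.le⟩
  -- the key property of the exponent
  have key : ∀ (n : ℕ) (y : ℝ), y ≤ X0 * 2 ^ (η * n) → y ≤ ((3 ^ (a + 1 + n / b) : ℕ) : ℝ) := by
    intro n y hy
    refine hy.trans ?_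
    have h1 : (2 : ℝ) ^ (η * n) ≤ 3 ^ (1 + n / b) := by
      have h2 : η * n ≤ ((1 + n / b : ℕ) : ℝ) := by
        rw [hη, one_div, inv_mul_le_iff₀ hb0']
        have h3 : n ≤ b * (1 + n / b) := by
          have := Nat.div_add_mod n b
          have := Nat.mod_lt n hb0
          nlinarith
        exact_mod_cast h3
      calc (2 : ℝ) ^ (η * n) ≤ 2 ^ ((1 + n / b : ℕ) : ℝ) :=
            Real.rpow_le_rpow_of_exponent_le (by norm_num) h2
        _ = 2 ^ (1 + n / b) := Real.rpow_natCast _ _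
        _ ≤ 3 ^ (1 + n / b) := by gcongr; norm_num
    push_cast
    calc X0 * 2 ^ (η * n) ≤ 3 ^ a * 3 ^ (1 + n / b) := by gcongr
      _ = 3 ^ (a + 1 + n / b) := by rw [← pow_add]; congr 1; ring
  -- the first machine
  obtain ⟨fi, hfi, hfi'⟩ := exists_input2 p q κ (a + 1) b hb0
  obtain ⟨Mi, pi, hMi⟩ := exists_outIn hfi
  obtain ⟨Ai, di, hpi⟩ := poly_bound pi
  obtain ⟨M1, c1, hM1⟩ := exists_comp Mi Mg
  -- constants for the time
  obtain ⟨k1, hk1, hb1⟩ := pow_le_exp 1 20 ε (by norm_num) hε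
  obtain ⟨k2, hk2, hb2⟩ := pow_le_exp di 21 ε (by norm_num) hε
  set Kc : ℕ := 20 + 2 * (p + q + κ) + 6 with hKc
  obtain ⟨k3, hk3, hb3⟩ := pow_le_exp dg (Kc + 1) (ε / 2) (by positivity) (by positivity)
  set D : ℕ := 1 + di + dg with hD
  refine ⟨M1, c1 * (k1 + Ai * k2 + Ag * (k3 * (3 ^ (a + 2)) ^ dg) + 1), D, fun n φ hφ => ?_⟩
  -- the value
  have hval : univF F ((((n, φ), (p, q), κ) : SData), 3 ^ (a + 1 + n / b)) =
      [decide (Sat3 φ)] := by
    have hP0 : z ^ (36 * p * n) ≤ ((3 ^ (a + 1 + n / b) : ℕ) : ℝ) := by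
      refine key n _ ((hzn n).trans ?_)
      have h1 : (1 : ℝ) ≤ X0 := by
        have : (0 : ℝ) ≤ k4 + cF * Fm * (k5 * k6) := by positivity
        linarith
      have h2 : (0 : ℝ) < 2 ^ (η * n) := by positivity
      nlinarith
    obtain ⟨hs1, hs2⟩ := sparsification hp hq hz hzB hzC hP0 hφ
    have hany : ((lvlS n p q (3 ^ (a + 1 + n / b)) φ (36 * p * n + 1)).any fun s =>
        mod3 (F (wordC (κ, toQuads n (toCl s)) (3 ^ (a + 1 + n / b)),
          3 ^ (a + 1 + n / b))).length) = decide (Sat3 φ) := by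
      rw [Bool.eq_iff_iff, decide_eq_true_iff, hs1, List.any_eq_true]
      refine exists_congr fun s => and_congr_right fun hs => ?_
      obtain ⟨hv, hl⟩ := hs2 s hs
      have hlen : (toQuads n (toCl s)).length ≤ 3 + R * n := length_quads_le hl hR
      have heκ : expo κ (toQuads n (toCl s)) * κ ≤ 81 * (R * n) + 91 + 2 * κ := by
        have h1 : expo κ (toQuads n (toCl s)) * κ ≤
          27 * (toQuads n (toCl s)).length + 2 * κ + 10 := Nat.div_mul_le_self _ _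
        omega
      have hδn : δ * ((R * n : ℕ) : ℝ) = η / 2 * n := by
        rw [hδ]
        push_cast
        field_simp
      have hηη : (2 : ℝ) ^ (η / 2 * n) * 2 ^ (η / 2 * n) = 2 ^ (η * n) := by
        rw [← Real.rpow_add (by norm_num)]
        congr 1
        ring
      have hη1 : (1 : ℝ) ≤ 2 ^ (η / 2 * n) := Real.one_le_rpow (by norm_num) (by positivity)
      refine mod3_single hM hsim hκ6 hκ3 hFm hGm hv ?_ ?_
      · have h1 := hb4 (R * n) _ heκ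
        rw [pow_one, hδn] at h1
        have h2 := key n ((3 : ℝ) ^ expo κ (toQuads n (toCl s))) (by
          refine h1.trans ?_
          rw [← hηη]
          have h3 : k4 ≤ X0 := by
            have : (0 : ℝ) ≤ cF * Fm * (k5 * k6) := by positivity
            linarith
          have h4 : (0 : ℝ) < 2 ^ (η / 2 * n) := by positivity
          calc k4 * 2 ^ (η / 2 * n) ≤ X0 * 2 ^ (η / 2 * n) := by gcongr
            _ = X0 * (2 ^ (η / 2 * n) * 1) := by ring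
            _ ≤ X0 * (2 ^ (η / 2 * n) * 2 ^ (η / 2 * n)) := by gcongr)
        exact_mod_cast h2
      · have h1 := hb5 (R * n)
        have h2 := hb6 (R * n) _ heκ
        rw [hδn] at h1 h2
        have hN : (((18 * (toQuads n (toCl s)).length + 2) * (6 * κ) *
            3 ^ expo κ (toQuads n (toCl s)) : ℕ) : ℝ) ≤
            336 * κ * (((R * n : ℕ) : ℝ) + 1) * 3 ^ expo κ (toQuads n (toCl s)) := by
          have h3 := ar4 (toQuads n (toCl s)).length (R * n) κ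
            (3 ^ expo κ (toQuads n (toCl s))) (by omega)
          exact_mod_cast h3
        have h4 := key n ((cF * (Fm * ((18 * (toQuads n (toCl s)).length + 2) * (6 * κ) *
            3 ^ expo κ (toQuads n (toCl s))) ^ Gm) : ℕ) : ℝ) (by
          push_cast
          push_cast at hN h1
          calc (cF : ℝ) * (Fm * ((18 * ((toQuads n (toCl s)).length : ℝ) + 2) * (6 * κ) *
                3 ^ expo κ (toQuads n (toCl s))) ^ Gm)
              ≤ cF * (Fm * (336 * κ * ((R : ℝ) * n + 1) *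
                  3 ^ expo κ (toQuads n (toCl s))) ^ Gm) := by gcongr
            _ = cF * Fm * ((336 * κ * ((R : ℝ) * n + 1)) ^ Gm *
                  (3 ^ expo κ (toQuads n (toCl s))) ^ Gm) := by rw [mul_pow]; ring
            _ ≤ cF * Fm * ((k5 * 2 ^ (η / 2 * n)) * (k6 * 2 ^ (η / 2 * n))) := by gcongr
            _ = cF * Fm * (k5 * k6) * (2 ^ (η / 2 * n) * 2 ^ (η / 2 * n)) := by ring
            _ ≤ X0 * 2 ^ (η * n) := by
                rw [hηη]
                have : cF * Fm * (k5 * k6) ≤ X0 := by linarith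
                gcongr)
        exact_mod_cast h4
    unfold univF
    simp only [hany]
  -- run the machines
  have r1 : OutIn Mi (enc3 n φ) (PolyTime.code ((((n, φ), (p, q), κ) : SData),
      a + 1 + n / b)).ser (pi.eval (enc3 n φ).length) := by
    have := hMi (enc3 n φ)
    rwa [hfi' n φ] at this
  have r2 := hMg (((n, φ), (p, q), κ) : SData) (a + 1 + n / b)
  rw [hval] at r2
  have r := hM1 _ _ _ _ _ r1 r2
  refine r.mono (Nat.le_floor ?_)
  -- the time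
  set X : ℝ := 2 ^ (ε * n) with hX
  have hX1 : 1 ≤ X := Real.one_le_rpow (by norm_num) (by positivity)
  set m1 : ℝ := (φ.length : ℝ) + 1 with hm1
  have hm1' : 1 ≤ m1 := by
    have : (0 : ℝ) ≤ φ.length := Nat.cast_nonneg _
    linarith
  have hXX : (2 : ℝ) ^ (ε / 2 * n) * 2 ^ (ε / 2 * n) = X := by
    rw [← Real.rpow_add (by norm_num)]
    congr 1
    ring
  set L := (enc3 n φ).length with hL
  have hL1 : L ≤ 20 * (n + 1) * (φ.length + 1) := length_enc3_le n φ hφ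
  have hL2 : (L : ℝ) ≤ 20 * (n + 1) * m1 := by
    have : (L : ℝ) ≤ ((20 * (n + 1) * (φ.length + 1) : ℕ) : ℝ) := by exact_mod_cast hL1
    refine this.trans (le_of_eq ?_)
    push_cast
    rfl
  have hmD : ∀ j ≤ D, m1 ^ j ≤ m1 ^ D := fun j hj => pow_le_pow_right₀ hm1' hj
  have hmD1 : m1 ≤ m1 ^ D := by
    have := hmD 1 (by omega)
    simpa using this
  have hone : (1 : ℝ) ≤ X * m1 ^ D := by
    have : (1 : ℝ) ≤ m1 ^ D := one_le_pow₀ hm1'
    nlinarith
  have t1 : (L : ℝ) ≤ k1 * (X * m1 ^ D) := by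
    have h1 := hb1 n
    rw [pow_one] at h1
    calc (L : ℝ) ≤ 20 * (n + 1) * m1 := hL2
      _ ≤ (k1 * X) * m1 ^ D := by gcongr
      _ = _ := by ring
  have t2 : ((pi.eval L : ℕ) : ℝ) ≤ Ai * k2 * (X * m1 ^ D) := by
    have h1 : ((pi.eval L : ℕ) : ℝ) ≤ Ai * ((L : ℝ) + 1) ^ di := by exact_mod_cast hpi L
    have h2 : (L : ℝ) + 1 ≤ 21 * (n + 1) * m1 := by
      have h3 : (1 : ℝ) ≤ (n + 1) * m1 := by
        have : (0 : ℝ) ≤ n := Nat.cast_nonneg _
        nlinarith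
      linarith
    calc ((pi.eval L : ℕ) : ℝ) ≤ Ai * ((L : ℝ) + 1) ^ di := h1
      _ ≤ Ai * (21 * (n + 1) * m1) ^ di := by gcongr
      _ = Ai * ((21 * (n + 1)) ^ di * m1 ^ di) := by rw [mul_pow]
      _ ≤ Ai * ((k2 * X) * m1 ^ D) := by
          have h4 := hb2 n
          have h5 := hmD di (by omega)
          gcongr
      _ = _ := by ring
  have t3 : ((pg.eval (PolyTime.sz (((n, φ), (p, q), κ) : SData) + 3 ^ (a + 1 + n / b)) : ℕ) : ℝ) ≤
      Ag * (k3 * (3 ^ (a + 2)) ^ dg) * (X * m1 ^ D) := by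
    have hsz := sz_sdata n p q κ φ hφ
    rw [← hKc] at hsz
    have h3e : 1 ≤ 3 ^ (a + 1 + n / b) := Nat.one_le_pow _ _ (by norm_num)
    have h1 : PolyTime.sz (((n, φ), (p, q), κ) : SData) + 3 ^ (a + 1 + n / b) + 1 ≤
        ((Kc + 1) * ((n + 1) * (φ.length + 1))) * (3 * 3 ^ (a + 1 + n / b)) := by
      have h2 : 1 ≤ (n + 1) * (φ.length + 1) := Nat.one_le_iff_ne_zero.2 (by positivity)
      generalize (n + 1) * (φ.length + 1) = Y at *
      generalize 3 ^ (a + 1 + n / b) = W at *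
      have h4 : Kc * Y ≤ Kc * Y * W := Nat.le_mul_of_pos_right _ h3e
      have h5 : W ≤ Y * W := Nat.le_mul_of_pos_left _ h2
      nlinarith
    exact time3 Ag Kc dg a b n φ.length _ D k3 ε hb0 hk3.le hbε (by omega) (hb3 n)
      ((hpg _).trans (Nat.mul_le_mul_left Ag (Nat.pow_le_pow_left h1 dg)))
  push_cast
  have hc1 : (0 : ℝ) ≤ c1 := Nat.cast_nonneg _
  calc (c1 : ℝ) * (L + (pi.eval L : ℕ) +
        (pg.eval (PolyTime.sz (((n, φ), (p, q), κ) : SData) + 3 ^ (a + 1 + n / b)) : ℕ) + 1)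
      ≤ c1 * (k1 * (X * m1 ^ D) + Ai * k2 * (X * m1 ^ D) +
        Ag * (k3 * (3 ^ (a + 2)) ^ dg) * (X * m1 ^ D) + X * m1 ^ D) := by gcongr
    _ = _ := by ring

end Pool.Agent.Work.MP_8491f2_lc
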