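import Pool.Agent.Work.MP_8491f2_lc.Pow3
import Pool.Agent.Work.MP_8491f2_lc.BuildTime

/-!
The machine that writes down the graph of a formula.
-/

set_option autoImplicit false

namespace Pool.Agent.Work.MP_8491f2_lc

open Pool.Agent.Work.PolyTime

theorem PSB.reindex {ι ι' : Type} {u v : ι → List Bool} {b : ι → ℕ} (h : PSB u v b)
    (r : ι' → ι) : PSB (fun j => u (r j)) (fun j => v (r j)) (fun j => b (r j)) := by
  obtain ⟨K, h1, h2, c, i, o, p, h⟩ := h
  exact ⟨K, h1, h2, c, i, o, p, fun j => h (r j)⟩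

theorem exists_graph_machine :
    ∃ (M : Turing.TM2ComputableAux Bool Bool) (p : Polynomial ℕ),
      ∀ (x : ℕ × List Quad) (e : ℕ),
        OutIn M (code (x, e)).ser (wordC x (3 ^ e)) (p.eval (sz x + 3 ^ e)) := by
  have h1 : PSB (fun j : (ℕ × List Quad) × ℕ => (code (j.1, j.2)).ser)
      (fun j => (code (j.1, 3 ^ j.2)).ser) (fun j => sz j.1 + 3 ^ j.2) :=
    psb_pow3.reindex (fun j : (ℕ × List Quad) × ℕ => (code j.1, j.2))
  have h2 : PS (fun y : (ℕ × List Quad) × ℕ => (code y).ser) (fun y => wordC y.1 y.2) :=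
    PS.unraw ptime_wordC
  have h3 := h2.reindex (fun j : (ℕ × List Quad) × ℕ => (j.1, 3 ^ j.2))
  have h4 : PSB (fun j : (ℕ × List Quad) × ℕ => (code (j.1, 3 ^ j.2)).ser)
      (fun j => wordC j.1 (3 ^ j.2)) (fun j => 2 * (sz j.1 + 3 ^ j.2) + 2) := by
    refine PSB.of_PS h3 fun j => ?_
    change sz (j.1, 3 ^ j.2) ≤ _
    rw [sz_pair, sz_nat]
    omega
  have h5 : PSB (fun j : (ℕ × List Quad) × ℕ => (code (j.1, j.2)).ser)
      (fun j => wordC j.1 (3 ^ j.2)) (fun j => 2 * (sz j.1 + 3 ^ j.2) + 2) := by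
    refine PSB.trans (h1.poly Polynomial.X fun j => ?_) h4 fun j => ?_
    · simp only [Polynomial.eval_X]
      omega
    · change sz (j.1, 3 ^ j.2) ≤ _
      rw [sz_pair, sz_nat]
      omega
  obtain ⟨M, p, hM⟩ := h5.machine
  refine ⟨M, p.comp (2 * Polynomial.X + 2), fun x e => ?_⟩
  have := hM (x, e)
  simpa [Polynomial.eval_comp] using this

end Pool.Agent.Work.MP_8491f2_lc
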