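import Pool.Agent.Work.MP_8491f2_lc.Decide
import Pool.Agent.Work.MP_8491f2_lc.BuildB
import Pool.Agent.Work.MP_8491f2_lc.GraphMachine
import Pool.Agent.Work.MP_8491f2_lc.Input

/-!
The assembly.
-/

set_option autoImplicit false

namespace Pool.Agent.Work.MP_8491f2_lc

open Filter Topology

/-- A polynomial with natural coefficients is bounded by a monomial. -/
theorem poly_bound (p : Polynomial ℕ) : ∃ A d : ℕ, ∀ x : ℕ, p.eval x ≤ A * (x + 1) ^ d := by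
  refine ⟨p.eval 1, p.natDegree, fun x => ?_⟩
  rw [Polynomial.eval_eq_sum_range, Polynomial.eval_eq_sum_range, Finset.sum_mul]
  refine Finset.sum_le_sum fun i hi => ?_
  simp only [one_pow, mul_one]
  have hi' : i ≤ p.natDegree := Nat.lt_succ_iff.1 (Finset.mem_range.1 hi)
  refine Nat.mul_le_mul_left _ ?_
  calc x ^ i ≤ (x + 1) ^ i := Nat.pow_le_pow_left (Nat.le_succ x) i
    _ ≤ (x + 1) ^ p.natDegree := Nat.pow_le_pow_right (Nat.succ_pos x) hi'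

/-- Polynomials grow slower than exponentials. -/
theorem pow_le_exp (a : ℕ) (K δ : ℝ) (hK : 0 ≤ K) (hδ : 0 < δ) : ∃ c : ℝ, 0 < c ∧
    ∀ S : ℕ, (K * (S + 1)) ^ a ≤ c * 2 ^ (δ * S) := by
  have hb : (1 : ℝ) < 2 ^ δ := Real.one_lt_rpow (by norm_num) hδ
  have h1 : Tendsto (fun S : ℕ => (S : ℝ) ^ a / (2 ^ δ) ^ S) atTop (𝓝 0) :=
    tendsto_pow_const_div_const_pow_of_one_lt a hb
  have h2 : Tendsto (fun S : ℕ => ((S : ℝ) + 1) ^ a / (2 ^ δ) ^ (S + 1)) atTop (𝓝 0) := by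
    have := h1.comp (tendsto_add_atTop_nat 1)
    simpa [Function.comp_def] using this
  obtain ⟨C, hC⟩ := h2.bddAbove_range
  have hC' : ∀ S : ℕ, ((S : ℝ) + 1) ^ a / (2 ^ δ) ^ (S + 1) ≤ C := fun S => hC ⟨S, rfl⟩
  have hCpos : 0 ≤ C := le_trans (by positivity) (hC' 0)
  refine ⟨K ^ a * C * 2 ^ δ + 1, by positivity, fun S => ?_⟩
  have h3 := hC' S
  rw [div_le_iff₀ (by positivity)] at h3
  have h4 : ((2 : ℝ) ^ δ) ^ (S + 1) = 2 ^ δ * 2 ^ (δ * S) := by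
    rw [pow_succ, ← Real.rpow_natCast, ← Real.rpow_mul (by norm_num)]
    ring
  rw [h4] at h3
  rw [mul_pow]
  calc K ^ a * ((S : ℝ) + 1) ^ a ≤ K ^ a * (C * (2 ^ δ * 2 ^ (δ * S))) := by gcongr
    _ = (K ^ a * C * 2 ^ δ) * 2 ^ (δ * S) := by ring
    _ ≤ (K ^ a * C * 2 ^ δ + 1) * 2 ^ (δ * S) := by gcongr; linarith

/-- Powers of three with exponents linear in `S` with a small coefficient. -/
theorem three_pow_le (b κ : ℕ) (hκ : 0 < κ) (δ : ℝ) (hb : 162 * (b : ℝ) ≤ δ * κ) :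
    ∃ c : ℝ, 0 < c ∧ ∀ S e : ℕ, e * κ ≤ 81 * S + 91 + 2 * κ →
      ((3 : ℝ) ^ e) ^ b ≤ c * 2 ^ (δ * S) := by
  refine ⟨2 ^ (2 * (b : ℝ) * ((91 + 2 * κ) / κ)), by positivity, fun S e he => ?_⟩
  have hκ' : (0 : ℝ) < κ := by exact_mod_cast hκ
  have he' : (e : ℝ) ≤ (81 * S + 91 + 2 * κ) / κ := by
    rw [le_div_iff₀ hκ']
    exact_mod_cast he
  have h1 : ((3 : ℝ) ^ e) ^ b ≤ ((4 : ℝ) ^ e) ^ b := by gcongr; norm_num
  have h2 : ((4 : ℝ) ^ e) ^ b = 2 ^ (2 * (b : ℝ) * e) := by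
    rw [show (4 : ℝ) = 2 ^ (2 : ℕ) by norm_num, ← pow_mul, ← pow_mul, ← Real.rpow_natCast]
    congr 1
    push_cast
    ring
  rw [h2] at h1
  refine h1.trans ?_
  rw [← Real.rpow_add (by norm_num)]
  refine Real.rpow_le_rpow_of_exponent_le (by norm_num) ?_
  have hb0 : (0 : ℝ) ≤ b := Nat.cast_nonneg b
  calc 2 * (b : ℝ) * e ≤ 2 * b * ((81 * S + 91 + 2 * κ) / κ) := by gcongr
    _ = 2 * b * ((91 + 2 * κ) / κ) + (162 * b) / κ * S := by field_simp; ring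
    _ ≤ 2 * b * ((91 + 2 * κ) / κ) + δ * S := by
        gcongr
        rw [div_le_iff₀ hκ']
        exact hb

/-- The choice of the thickness. -/
theorem exists_kappa (g : ℕ → ℕ) (hg : Tendsto (fun k : ℕ => (g k : ℝ) / k) atTop (𝓝 0)) (d : ℕ)
    (δ : ℝ) (hδ : 0 < δ) : ∃ κ : ℕ, 6 ≤ κ ∧ 3 ∣ κ ∧ 162 * (d : ℝ) ≤ δ * κ ∧
      ∀ k, k ≤ 3 * κ → 162 * (g k : ℝ) ≤ δ * κ := by
  have h1 : ∀ᶠ k : ℕ in atTop, (g k : ℝ) / k < δ / 486 :=
    hg.eventually_lt_const (by positivity)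
  obtain ⟨K0, hK0⟩ := eventually_atTop.1 (h1.and (eventually_ge_atTop 1))
  obtain ⟨G0, hG0⟩ : ∃ G0 : ℕ, ∀ k < K0, g k ≤ G0 :=
    ⟨(Finset.range K0).sup g, fun k hk => Finset.le_sup (Finset.mem_range.2 hk)⟩
  obtain ⟨q, hq⟩ := exists_nat_gt (162 * ((d : ℝ) + G0) / δ)
  refine ⟨3 * (q + 2), by omega, dvd_mul_right 3 _, ?_, fun k hk => ?_⟩
  · rw [div_lt_iff₀ hδ] at hq
    push_cast
    have : (0 : ℝ) ≤ G0 := Nat.cast_nonneg _
    have : (0 : ℝ) ≤ q := Nat.cast_nonneg _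
    nlinarith
  · rcases lt_or_ge k K0 with hk0 | hk0
    · have h2 : (g k : ℝ) ≤ G0 := by exact_mod_cast hG0 k hk0
      rw [div_lt_iff₀ hδ] at hq
      push_cast
      have : (0 : ℝ) ≤ d := Nat.cast_nonneg _
      have : (0 : ℝ) ≤ q := Nat.cast_nonneg _
      nlinarith
    · obtain ⟨h2, hkp⟩ := hK0 k hk0
      have hkp' : (0 : ℝ) < k := by exact_mod_cast hkp
      rw [div_lt_iff₀ hkp'] at h2
      have h4 : (k : ℝ) ≤ 3 * (3 * (q + 2)) := by exact_mod_cast hk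
      push_cast
      nlinarith

theorem ar1 (L S : ℕ) (h : L ≤ 20 * (S + 1) ^ 2) : (L : ℝ) ≤ (20 * ((S : ℝ) + 1)) ^ 2 := by
  have h1 : (L : ℝ) ≤ 20 * (S + 1) ^ 2 := by exact_mod_cast h
  have h3 : (0 : ℝ) ≤ ((S : ℝ) + 1) ^ 2 := by positivity
  rw [mul_pow]
  linarith

theorem ar2 (L S : ℕ) (h : L ≤ 20 * (S + 1) ^ 2) : L + 1 ≤ (21 * (S + 1)) ^ 2 := by
  have h1 : 1 ≤ (S + 1) ^ 2 := Nat.one_le_pow _ _ (Nat.succ_pos S)
  rw [mul_pow]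
  omega

theorem ar3 (z S κ W : ℕ) (hz : z ≤ 1000 * (S + κ + 1) ^ 2) (hW : 1 ≤ W) :
    z + W + 1 ≤ (1002 * (κ + 1) * (S + 1)) ^ 2 * W := by
  have h0 : S + κ + 1 ≤ (κ + 1) * (S + 1) := by nlinarith
  have h4 : (S + κ + 1) ^ 2 ≤ ((κ + 1) * (S + 1)) ^ 2 := Nat.pow_le_pow_left h0 2
  have h5 : 1 ≤ ((κ + 1) * (S + 1)) ^ 2 := Nat.one_le_pow _ _ (by positivity)
  have h6 : (1002 * (κ + 1) * (S + 1)) ^ 2 = 1002 ^ 2 * ((κ + 1) * (S + 1)) ^ 2 := by ring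
  rw [h6]
  generalize ((κ + 1) * (S + 1)) ^ 2 = Y at *
  generalize (S + κ + 1) ^ 2 = Z at *
  obtain ⟨V, rfl⟩ : ∃ V, W = V + 1 := ⟨W - 1, by omega⟩
  have h7 : V ≤ Y * V := Nat.le_mul_of_pos_left V (by omega)
  nlinarith

theorem ar4 (l S κ W : ℕ) (hl : l ≤ 3 * (S + 1)) :
    (18 * l + 2) * (6 * κ) * W ≤ 336 * κ * (S + 1) * W := by
  have h1 : 18 * l + 2 ≤ 56 * (S + 1) := by omega
  calc (18 * l + 2) * (6 * κ) * W ≤ 56 * (S + 1) * (6 * κ) * W := by gcongr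
    _ = 336 * κ * (S + 1) * W := by ring

theorem ar5 (l S κ w : ℕ) (hl : l ≤ 3 * (S + 1)) (hw : w ≤ 27 * l + 2 * κ + 14) :
    w + 1 ≤ (2 * κ + 96) * (S + 1) := by
  have h1 : w + 1 ≤ 81 * (S + 1) + 2 * κ + 15 := by omega
  nlinarith [Nat.zero_le (κ * S)]

open Classical in
theorem main (f g : ℕ → ℕ) (hg : Tendsto (fun k : ℕ => (g k : ℝ) / k) atTop (𝓝 0))
    (M : Turing.TM2ComputableAux Bool Bool)
    (hM : ∀ (n : ℕ) (G : SimpleGraph (Fin n)),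
      OutIn M (encGraph G) (List.replicate (pw G) true) (f (tw G) * (n + 1) ^ g (tw G)))
    (ε : ℝ) (hε : 0 < ε) :
    ∃ (M' : Turing.TM2ComputableAux Bool Bool) (c : ℝ), ∀ (n : ℕ) (φ : List Clause3),
      (∀ c ∈ φ, c.1.1 < n ∧ c.2.1.1 < n ∧ c.2.2.1 < n) →
      OutIn M' (enc3 n φ) [decide (Sat3 φ)] ⌊c * 2 ^ (ε * (n + φ.length))⌋₊ := by
  obtain ⟨Mg, pg, hMg⟩ := exists_graph_machine
  obtain ⟨Ag, dg, hpg⟩ := poly_bound pg
  obtain ⟨κ, hκ6, hκ3, hκd, hκg⟩ := exists_kappa g hg dg (ε / 2) (by positivity)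
  have hκ0 : 0 < κ := by omega
  obtain ⟨F, hF⟩ : ∃ F : ℕ, ∀ k ≤ 3 * κ, f k ≤ F :=
    ⟨(Finset.range (3 * κ + 1)).sup f, fun k hk =>
      Finset.le_sup (f := f) (Finset.mem_range.2 (by omega))⟩
  obtain ⟨Gm, hGm, hGm'⟩ : ∃ Gm : ℕ, (∀ k ≤ 3 * κ, g k ≤ Gm) ∧ 162 * (Gm : ℝ) ≤ ε / 2 * κ := by
    obtain ⟨k, hk, hk'⟩ := Finset.exists_mem_eq_sup (Finset.range (3 * κ + 1)) ⟨0, by simp⟩ g
    refine ⟨(Finset.range (3 * κ + 1)).sup g, fun j hj =>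
      Finset.le_sup (f := g) (Finset.mem_range.2 (by omega)), ?_⟩
    rw [hk']
    exact hκg k (by have := Finset.mem_range.1 hk; omega)
  obtain ⟨fi, hfi, hfi'⟩ := exists_input κ hκ0
  obtain ⟨Mi, pi, hMi⟩ := exists_outIn hfi
  obtain ⟨fc, hfc, hfc'⟩ := exists_check
  obtain ⟨Mc, pc, hMc⟩ := exists_outIn hfc
  obtain ⟨M1, c1, hM1⟩ := exists_comp Mi Mg
  obtain ⟨M2, c2, hM2⟩ := exists_comp M1 M
  obtain ⟨M3, c3, hM3⟩ := exists_comp M2 Mc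
  obtain ⟨Ai, di, hpi⟩ := poly_bound pi
  obtain ⟨Ac, dc, hpc⟩ := poly_bound pc
  -- constants
  obtain ⟨k1, hk1, hb1⟩ := pow_le_exp 2 20 ε (by norm_num) hε
  obtain ⟨k2, hk2, hb2⟩ := pow_le_exp (2 * di) 21 ε (by norm_num) hε
  obtain ⟨k3, hk3, hb3⟩ := pow_le_exp (2 * dg) (1002 * (κ + 1)) (ε / 2) (by positivity)
    (by positivity)
  obtain ⟨k4, hk4, hb4⟩ := three_pow_le dg κ hκ0 (ε / 2) hκd
  obtain ⟨k5, hk5, hb5⟩ := pow_le_exp Gm (336 * κ) (ε / 2) (by positivity) (by positivity)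
  obtain ⟨k6, hk6, hb6⟩ := three_pow_le Gm κ hκ0 (ε / 2) hGm'
  obtain ⟨k7, hk7, hb7⟩ := pow_le_exp dc (2 * κ + 96) ε (by positivity) hε
  refine ⟨M3, c3 * (k1 + c2 * (k1 + c1 * (k1 + Ai * k2 + Ag * (k3 * k4) + 1) + F * (k5 * k6) + 1) +
    Ac * k7 + 1), fun n φ hφ => ?_⟩
  set S : ℕ := n + φ.length with hS
  set C := toQuads n φ with hC
  have hdist : ∀ q ∈ C, q.Dist := dist_toQuads n φ hφ
  have hlen : C.length = 3 + n + 3 * φ.length := length_toQuads n φ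
  have hlen3 : C.length ≤ 3 * (S + 1) := by omega
  have hne : C ≠ [] := by
    intro h0
    rw [h0] at hlen
    simp at hlen
    omega
  set e := expo κ C with he
  have heκ : e * κ ≤ 81 * S + 91 + 2 * κ := by
    have h1 : e * κ ≤ 27 * C.length + 2 * κ + 10 := Nat.div_mul_le_self _ _
    omega
  have hP : 3 ^ ((27 * C.length + 2 * κ + 10) / κ) ≤ 3 ^ e := le_rfl
  have hblow := isBlow_graphC hκ0 hP
  set G := graphC (κ, C) (3 ^ e) with hG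
  -- the exponential
  set X : ℝ := 2 ^ (ε * S) with hX
  have hX1 : 1 ≤ X := Real.one_le_rpow (by norm_num) (by positivity)
  have hXX : (2 : ℝ) ^ (ε / 2 * S) * 2 ^ (ε / 2 * S) = X := by
    rw [← Real.rpow_add (by norm_num)]
    congr 1
    ring
  -- the word
  set L := (enc3 n φ).length with hL
  have hL1 : L ≤ 20 * (S + 1) ^ 2 := by
    refine (length_enc3_le n φ hφ).trans ?_
    have h1 : n + 1 ≤ S + 1 := by omega
    have h2 : φ.length + 1 ≤ S + 1 := by omega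
    calc 20 * (n + 1) * (φ.length + 1) ≤ 20 * (S + 1) * (S + 1) := by gcongr
      _ = 20 * (S + 1) ^ 2 := by ring
  have hLX : (L : ℝ) ≤ k1 * X := by
    exact (ar1 L S hL1).trans (hb1 S)
  -- time of the first machine
  have hti : ((pi.eval L : ℕ) : ℝ) ≤ Ai * k2 * X := by
    have h1 : (pi.eval L : ℕ) ≤ Ai * ((21 * (S + 1)) ^ (2 * di)) := by
      refine (hpi L).trans (Nat.mul_le_mul_left _ ?_)
      rw [pow_mul]
      exact Nat.pow_le_pow_left (ar2 L S hL1) _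
    have h2 : ((pi.eval L : ℕ) : ℝ) ≤ Ai * ((21 * ((S : ℝ) + 1)) ^ (2 * di)) := by
      exact_mod_cast h1
    refine h2.trans ?_
    rw [mul_assoc]
    gcongr
    exact hb2 S
  -- time of the graph machine
  have htg : ((pg.eval (PolyTime.sz ((κ, C) : ℕ × List Quad) + 3 ^ e) : ℕ) : ℝ) ≤
      Ag * (k3 * k4) * X := by
    have hsz : PolyTime.sz ((κ, C) : ℕ × List Quad) ≤ 1000 * (S + κ + 1) ^ 2 :=
      sz_data_le κ n φ hκ0 hφ
    have h3e : 1 ≤ 3 ^ e := Nat.one_le_pow _ _ (by norm_num)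
    have h1 : PolyTime.sz ((κ, C) : ℕ × List Quad) + 3 ^ e + 1 ≤
        (1002 * (κ + 1) * (S + 1)) ^ 2 * 3 ^ e := ar3 _ S κ _ hsz h3e
    have h2 : (pg.eval (PolyTime.sz ((κ, C) : ℕ × List Quad) + 3 ^ e) : ℕ) ≤
        Ag * ((1002 * (κ + 1) * (S + 1)) ^ (2 * dg) * (3 ^ e) ^ dg) := by
      refine (hpg _).trans (Nat.mul_le_mul_left _ ?_)
      rw [pow_mul, ← mul_pow]
      exact Nat.pow_le_pow_left h1 _
    have h3 : ((pg.eval (PolyTime.sz ((κ, C) : ℕ × List Quad) + 3 ^ e) : ℕ) : ℝ) ≤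
        Ag * ((1002 * ((κ : ℝ) + 1) * ((S : ℝ) + 1)) ^ (2 * dg) * (3 ^ e) ^ dg) := by
      exact_mod_cast h2
    refine h3.trans ?_
    have h4 := hb3 S
    have h5 := hb4 S e heκ
    calc (Ag : ℝ) * ((1002 * ((κ : ℝ) + 1) * ((S : ℝ) + 1)) ^ (2 * dg) * (3 ^ e) ^ dg)
        ≤ Ag * ((k3 * 2 ^ (ε / 2 * S)) * (k4 * 2 ^ (ε / 2 * S))) := by gcongr
      _ = Ag * (k3 * k4) * (2 ^ (ε / 2 * S) * 2 ^ (ε / 2 * S)) := by ring
      _ = _ := by rw [hXX]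
  -- time of the pathwidth machine
  have htw : tw G ≤ 3 * κ - 2 := tw_le_of_isBlow hκ6 hdist hblow
  have htM : ((f (tw G) * ((bvxC (κ, C) (3 ^ e)).length + 1) ^ g (tw G) : ℕ) : ℝ) ≤ F * (k5 * k6) * X := by
    have hN1 : (bvxC (κ, C) (3 ^ e)).length + 1 ≤ 336 * κ * (S + 1) * 3 ^ e := by
      exact (length_bvxC_le hκ6 C (3 ^ e)).trans (ar4 _ S κ _ hlen3)
    have h1 : f (tw G) * ((bvxC (κ, C) (3 ^ e)).length + 1) ^ g (tw G) ≤
        F * ((336 * κ * (S + 1)) ^ Gm * (3 ^ e) ^ Gm) := by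
      have h2 : f (tw G) ≤ F := hF _ (by omega)
      have h3 : ((bvxC (κ, C) (3 ^ e)).length + 1) ^ g (tw G) ≤ ((bvxC (κ, C) (3 ^ e)).length + 1) ^ Gm :=
        Nat.pow_le_pow_right (Nat.succ_pos _) (hGm _ (by omega))
      refine Nat.mul_le_mul h2 (h3.trans ?_)
      rw [← mul_pow]
      exact Nat.pow_le_pow_left hN1 _
    have h3 : ((f (tw G) * ((bvxC (κ, C) (3 ^ e)).length + 1) ^ g (tw G) : ℕ) : ℝ) ≤
        F * ((336 * (κ : ℝ) * ((S : ℝ) + 1)) ^ Gm * (3 ^ e) ^ Gm) := by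
      exact_mod_cast h1
    refine h3.trans ?_
    have h4 := hb5 S
    have h5 := hb6 S e heκ
    calc (F : ℝ) * ((336 * (κ : ℝ) * ((S : ℝ) + 1)) ^ Gm * (3 ^ e) ^ Gm)
        ≤ F * ((k5 * 2 ^ (ε / 2 * S)) * (k6 * 2 ^ (ε / 2 * S))) := by gcongr
      _ = F * (k5 * k6) * (2 ^ (ε / 2 * S) * 2 ^ (ε / 2 * S)) := by ring
      _ = _ := by rw [hXX]
  -- time of the check
  have htc : ((pc.eval (pw G) : ℕ) : ℝ) ≤ Ac * k7 * X := by
    have hpw : pw G ≤ 27 * C.length + 2 * κ + 14 := pw_le_of_isBlow hκ6 hdist hblow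
    have h1 : (pc.eval (pw G) : ℕ) ≤ Ac * ((2 * κ + 96) * (S + 1)) ^ dc := by
      refine (hpc _).trans (Nat.mul_le_mul_left _ ?_)
      exact Nat.pow_le_pow_left (ar5 _ S κ _ hlen3 hpw) _
    have h2 : ((pc.eval (pw G) : ℕ) : ℝ) ≤ Ac * ((2 * (κ : ℝ) + 96) * ((S : ℝ) + 1)) ^ dc := by
      exact_mod_cast h1
    refine h2.trans ?_
    rw [mul_assoc]
    gcongr
    exact hb7 S
  -- run the machines
  have r1 : OutIn Mi (enc3 n φ) (PolyTime.code ((κ, C), e)).ser (pi.eval L) := by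
    have := hMi (enc3 n φ)
    rwa [hfi' n φ] at this
  have r2 := hMg (κ, C) e
  rw [← encGraph_graphC] at r2
  have r3 := hM _ G
  have r4 := hMc (List.replicate (pw G) true)
  rw [hfc', List.length_replicate] at r4
  have hdec : decide ((pw G + 1) % 3 = 0) = decide (Sat3 φ) := by
    rw [decide_eq_decide, pw_mod_three hκ6 hκ3 hdist hne hblow]
    exact sat24_toQuads n φ hφ
  rw [hdec] at r4
  have r := hM3 _ _ _ _ _ (hM2 _ _ _ _ _ (hM1 _ _ _ _ _ r1 r2) r3) r4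
  refine r.mono (Nat.le_floor ?_)
  have hXe : (2 : ℝ) ^ (ε * ((n : ℝ) + (φ.length : ℝ))) = X := by
    rw [hX, hS]
    push_cast
    rfl
  rw [hXe]
  push_cast
  have hc1 : (0 : ℝ) ≤ c1 := Nat.cast_nonneg _
  have hc2 : (0 : ℝ) ≤ c2 := Nat.cast_nonneg _
  have hc3 : (0 : ℝ) ≤ c3 := Nat.cast_nonneg _
  push_cast at htM
  calc (c3 : ℝ) * (L + c2 * (L + c1 * (L + (pi.eval L : ℕ) +
        (pg.eval (PolyTime.sz ((κ, C) : ℕ × List Quad) + 3 ^ e) : ℕ) + 1) +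
          (f (tw G) * (((bvxC (κ, C) (3 ^ e)).length : ℝ) + 1) ^ g (tw G)) + 1) + (pc.eval (pw G) : ℕ) + 1)
      ≤ c3 * (k1 * X + c2 * (k1 * X + c1 * (k1 * X + Ai * k2 * X + Ag * (k3 * k4) * X + X) +
          F * (k5 * k6) * X + X) + Ac * k7 * X + X) := by gcongr
    _ = _ := by ring

end Pool.Agent.Work.MP_8491f2_lc
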