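import Pool.Agent.Work.MP_8491f2_lc.Link

/-!
Every anchor has a heavy bag.
-/

set_option autoImplicit false

namespace Pool.Agent.Work.MP_8491f2_lc

namespace Inst

variable {I : Inst}

theorem lam_ge (τ : ℕ) : I.κ ≤ I.lam τ := Nat.le_add_right _ _

theorem wt_node_ge (τ : ℕ) (s : Bool) (w : Word) : I.κ ≤ I.wt (node τ s w) := by
  change I.κ ≤ if w.length = I.dep τ then I.lam τ else I.κ
  split_ifs
  · exact lam_ge τ
  · exact le_rfl

theorem Good.kappa_le_ht (hI : I.Good) {τ : ℕ} (hτ : τ ≤ I.T) : I.κ ≤ I.ht τ := by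
  have h1 := hI.base
  unfold ht
  omega

theorem Good.ht_eq (hI : I.Good) {τ : ℕ} (hτ : τ ≤ I.T) : I.κ * I.dep τ + I.lam τ = I.ht τ := by
  have h1 := hI.kappa_le_ht hτ
  have hk := hI.kappa
  have h2 : 1 ≤ I.ht τ / I.κ := (Nat.one_le_div_iff (by omega)).2 h1
  have h3 := Nat.div_add_mod (I.ht τ) I.κ
  unfold dep lam
  obtain ⟨q, hq⟩ : ∃ q, I.ht τ / I.κ = q + 1 := ⟨I.ht τ / I.κ - 1, by omega⟩
  rw [hq, Nat.add_sub_cancel]
  rw [hq, Nat.mul_succ] at h3
  omega

/-- The nodes of the subtree of the node `w`. -/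
def sub (I : Inst) (τ : ℕ) (s : Bool) (w : Word) : Set Vx :=
  {v | I.Valid v ∧ ∃ u, v = node τ s u ∧ w <:+ u}

theorem median (t : Fin 3 → ℕ) : ∃ a b c : Fin 3, a ≠ b ∧ c ≠ b ∧ t a ≤ t b ∧ t b ≤ t c := by
  rcases le_total (t 0) (t 1) with h01 | h01 <;> rcases le_total (t 1) (t 2) with h12 | h12 <;>
    rcases le_total (t 0) (t 2) with h02 | h02
  · exact ⟨0, 1, 2, by decide, by decide, h01, h12⟩
  · exact ⟨0, 1, 2, by decide, by decide, h01, h12⟩
  · exact ⟨0, 2, 1, by decide, by decide, h02, h12⟩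
  · exact ⟨2, 0, 1, by decide, by decide, h02, h01⟩
  · exact ⟨1, 0, 2, by decide, by decide, h01, h02⟩
  · exact ⟨1, 2, 0, by decide, by decide, h12, h02⟩
  · exact ⟨2, 1, 0, by decide, by decide, h12, h01⟩
  · exact ⟨2, 1, 0, by decide, by decide, h12, h01⟩

open Classical in
theorem exists_heavy_sub {W : ℕ} {bag : ℕ → Finset Vx} (h : I.IsWPD W bag)
    (hk : 0 < I.κ) {τ : ℕ} {s : Bool} (hτ : τ < I.T ∨ (τ = I.T ∧ s = false)) :
    ∀ (n : ℕ) (w : Word), w.length + n = I.dep τ →
      ∃ t, I.κ * n + I.lam τ ≤ ∑ v ∈ (bag t).filter (fun v => v ∈ I.sub τ s w), I.wt v := by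
  intro n
  induction n with
  | zero =>
    intro w hw
    have hv : I.Valid (node τ s w) := ⟨hτ, le_of_eq hw⟩
    obtain ⟨t, ht⟩ := h.vert _ hv
    refine ⟨t, ?_⟩
    have hmem : node τ s w ∈ (bag t).filter (fun v => v ∈ I.sub τ s w) :=
      Finset.mem_filter.2 ⟨ht, hv, w, rfl, List.suffix_refl w⟩
    have h1 := Finset.single_le_sum (f := I.wt) (fun _ _ => Nat.zero_le _) hmem
    refine le_trans ?_ h1
    change _ ≤ if w.length = I.dep τ then I.lam τ else I.κ
    rw [if_pos (by simpa using hw)]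
    simp
  | succ n ih =>
    intro w hw
    have hch : ∀ a : Fin 3, ∃ t, I.κ * n + I.lam τ ≤
        ∑ v ∈ (bag t).filter (fun v => v ∈ I.sub τ s (a :: w)), I.wt v := by
      intro a
      apply ih
      simp only [List.length_cons]
      omega
    choose t ht using hch
    obtain ⟨a, b, c, hab, hcb, h1, h2⟩ := median t
    have hne : ∀ a : Fin 3, ∃ u ∈ bag (t a), u ∈ I.sub τ s (a :: w) := by
      intro a
      by_contra hcon
      push Not at hcon
      have h3 := ht a
      rw [Finset.filter_false_of_mem (fun v hv => hcon v hv), Finset.sum_empty] at h3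
      have h4 : I.κ ≤ I.lam τ := lam_ge τ
      omega
    obtain ⟨u, hu1, hu2⟩ := hne a
    obtain ⟨v, hv1, hv2⟩ := hne c
    obtain ⟨x, hx1, hx2⟩ := h.cross (linked_cherry τ s w a c) h1 h2
      (u := u) (v := v)
      (by obtain ⟨h5, u', h6, h7⟩ := hu2; exact ⟨h5, u', h6, Or.inr (Or.inl h7)⟩) hu1
      (by obtain ⟨h5, u', h6, h7⟩ := hv2; exact ⟨h5, u', h6, Or.inr (Or.inr h7)⟩) hv1
    refine ⟨t b, ?_⟩
    obtain ⟨hxv, u', rfl, hu'⟩ := hx1
    have hsuf : ∀ d : Fin 3, d ≠ b → (d :: w) <:+ u' → ¬ (b :: w) <:+ u' := by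
      intro d hd h3 h4
      have h5 := List.suffix_of_suffix_length_le h3 h4 (by simp)
      have h6 := h5.eq_of_length (by simp)
      simp only [List.cons.injEq, and_true] at h6
      exact hd h6
    have hxsub : node τ s u' ∈ I.sub τ s w := by
      refine ⟨hxv, u', rfl, ?_⟩
      rcases hu' with rfl | h3 | h3
      · exact List.suffix_refl _
      · exact (List.suffix_cons a w).trans h3
      · exact (List.suffix_cons c w).trans h3
    have hxnot : node τ s u' ∉ I.sub τ s (b :: w) := by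
      rintro ⟨_, u'', h3, h4⟩
      have h5 : u' = u'' := by simpa using h3
      subst h5
      rcases hu' with rfl | h6 | h6
      · have := h4.length_le
        simp at this
      · exact hsuf a hab h6 h4
      · exact hsuf c hcb h6 h4
    have hsubset : insert (node τ s u') ((bag (t b)).filter (fun v => v ∈ I.sub τ s (b :: w))) ⊆
        (bag (t b)).filter (fun v => v ∈ I.sub τ s w) := by
      intro v hv
      rw [Finset.mem_insert] at hv
      rw [Finset.mem_filter]
      rcases hv with rfl | hv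
      · exact ⟨hx2, hxsub⟩
      · rw [Finset.mem_filter] at hv
        obtain ⟨h3, h4, u'', h5, h6⟩ := hv
        exact ⟨h3, h4, u'', h5, (List.suffix_cons b w).trans h6⟩
    have h3 := Finset.sum_le_sum_of_subset (f := I.wt) hsubset
    rw [Finset.sum_insert (by
      rw [Finset.mem_filter]
      exact fun h4 => hxnot h4.2)] at h3
    have h4 := ht b
    have h5 := wt_node_ge (I := I) τ s u'
    have h6 : I.κ * (n + 1) = I.κ * n + I.κ := Nat.mul_succ _ _
    omega

open Classical in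
/-- In every weighted path decomposition there is a bag in which the anchor has weight at least
`ht τ`. -/
theorem Good.exists_heavy (hI : I.Good) {W : ℕ} {bag : ℕ → Finset Vx} (h : I.IsWPD W bag) {τ : ℕ}
    {s : Bool} (hτ : τ < I.T ∨ (τ = I.T ∧ s = false)) :
    ∃ t, I.ht τ ≤ ∑ v ∈ (bag t).filter (fun v => v ∈ I.anchor τ s), I.wt v := by
  have hk := hI.kappa
  obtain ⟨t, ht⟩ := exists_heavy_sub h (by omega) hτ (I.dep τ) [] (by simp)
  refine ⟨t, ?_⟩
  rw [hI.ht_eq (by rcases hτ with h1 | h1 <;> omega)] at ht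
  refine ht.trans (Finset.sum_le_sum_of_subset ?_)
  intro v hv
  rw [Finset.mem_filter] at hv ⊢
  obtain ⟨h1, h2, u, h3, _⟩ := hv
  exact ⟨h1, h2, u, h3⟩

end Inst

end Pool.Agent.Work.MP_8491f2_lc
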