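import Pool.Agent.Work.MP_8491f2_lc.Defs

/-!
Linked (connected) vertex sets of the weighted graph and the crossing lemma.
-/

set_option autoImplicit false

namespace Pool.Agent.Work.MP_8491f2_lc

namespace Inst

variable {I : Inst}

/-- The set `S` of valid vertices is connected in the weighted graph. -/
def Linked (I : Inst) (S : Set Vx) : Prop :=
  (∀ v ∈ S, I.Valid v) ∧
  ∀ f : Vx → Prop, (∀ u ∈ S, ∀ v ∈ S, I.E u v → (f u ↔ f v)) → ∀ u ∈ S, ∀ v ∈ S, f u → f v

/-- A connected set that meets the bags `i` and `l` meets every bag between them. -/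
theorem IsWPD.cross {W : ℕ} {bag : ℕ → Finset Vx} (h : I.IsWPD W bag) {S : Set Vx}
    (hS : I.Linked S) {i j l : ℕ} (hij : i ≤ j) (hjl : j ≤ l) {u v : Vx} (hu : u ∈ S)
    (hui : u ∈ bag i) (hv : v ∈ S) (hvl : v ∈ bag l) : ∃ x ∈ S, x ∈ bag j := by
  by_contra hcon
  push Not at hcon
  -- no vertex has bags on both sides
  have key : ∀ x ∈ S, ∀ t t', t ≤ j → j ≤ t' → x ∈ bag t → x ∈ bag t' → False := by
    intro x hx t t' ht ht' h1 h2
    exact hcon x hx (h.ivl x t j t' ht ht' h1 h2)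
  have himp : (∃ t, j ≤ t ∧ u ∈ bag t) := by
    refine (hS.2 (fun x => ∃ t, j ≤ t ∧ x ∈ bag t) ?_ v hv u hu) ⟨l, hjl, hvl⟩
    intro x hx y hy hxy
    obtain ⟨t, h1, h2⟩ := h.edge x y (hS.1 x hx) (hS.1 y hy) hxy
    rcases le_total t j with ht | ht
    · constructor
      · rintro ⟨t', ht', h3⟩
        exact (key x hx t t' ht ht' h1 h3).elim
      · rintro ⟨t', ht', h3⟩
        exact (key y hy t t' ht ht' h2 h3).elim
    · exact ⟨fun _ => ⟨t, ht, h2⟩, fun _ => ⟨t, ht, h1⟩⟩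
  obtain ⟨t, ht, h1⟩ := himp
  exact key u hu i t hij ht hui h1

/-- The nodes of an anchor. -/
def anchor (I : Inst) (τ : ℕ) (s : Bool) : Set Vx := {v | I.Valid v ∧ ∃ w, v = node τ s w}

/-- The vertices of a unit (for `τ = T`: the central anchor). -/
def unit (I : Inst) (τ : ℕ) : Set Vx := {v | I.Valid v ∧ v.1.1 = τ}

theorem linked_of {S : Set Vx} (hS : ∀ v ∈ S, I.Valid v) (c : Vx)
    (h : ∀ f : Vx → Prop, (∀ u ∈ S, ∀ v ∈ S, I.E u v → (f u ↔ f v)) → ∀ v ∈ S, (f v ↔ f c)) :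
    I.Linked S :=
  ⟨hS, fun f hf u hu v hv hfu => (h f hf v hv).2 ((h f hf u hu).1 hfu)⟩

theorem valid_tail {τ : ℕ} {s : Bool} {a : Fin 3} {w : Word} (h : I.Valid (node τ s (a :: w))) :
    I.Valid (node τ s w) := by
  obtain ⟨h1, h2⟩ := h
  refine ⟨h1, ?_⟩
  simp only [List.length_cons] at h2
  exact (Nat.le_succ _).trans h2

theorem node_iff {S : Set Vx} {f : Vx → Prop}
    (hf : ∀ u ∈ S, ∀ v ∈ S, I.E u v → (f u ↔ f v)) {τ : ℕ} {s : Bool}
    (hS : ∀ w, I.Valid (node τ s w) → node τ s w ∈ S) :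
    ∀ w, I.Valid (node τ s w) → (f (node τ s w) ↔ f (node τ s [])) := by
  intro w
  induction w with
  | nil => intro _; exact Iff.rfl
  | cons a w ih =>
    intro hw
    exact (hf _ (hS _ hw) _ (hS _ (valid_tail hw)) (E.child τ s w a)).trans (ih (valid_tail hw))

theorem valid_nil {τ : ℕ} {s : Bool} {w : Word} (h : I.Valid (node τ s w)) :
    I.Valid (node τ s []) := ⟨h.1, Nat.zero_le _⟩

theorem linked_anchor (τ : ℕ) (s : Bool) : I.Linked (I.anchor τ s) := by
  refine linked_of (fun v hv => hv.1) (node τ s []) ?_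
  rintro f hf v ⟨hv, w, rfl⟩
  exact node_iff hf (fun w hw => ⟨hw, w, rfl⟩) w hv

/-- For a node `w`, the subtrees of two of its children together with `w` are connected. -/
theorem linked_cherry (τ : ℕ) (s : Bool) (w : Word) (a b : Fin 3) :
    I.Linked {v | I.Valid v ∧ ∃ u, v = node τ s u ∧ (u = w ∨ (a :: w) <:+ u ∨ (b :: w) <:+ u)} := by
  refine linked_of (fun v hv => hv.1) (node τ s w) ?_
  intro f hf
  have main : ∀ c : Fin 3, (c = a ∨ c = b) → ∀ t : Word, I.Valid (node τ s (t ++ c :: w)) →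
      (f (node τ s (t ++ c :: w)) ↔ f (node τ s w)) := by
    intro c hc t
    have hmem : ∀ t : Word, ((t ++ c :: w) = w ∨ (a :: w) <:+ (t ++ c :: w) ∨
        (b :: w) <:+ (t ++ c :: w)) := by
      intro t
      rcases hc with rfl | rfl
      · exact Or.inr (Or.inl ⟨t, rfl⟩)
      · exact Or.inr (Or.inr ⟨t, rfl⟩)
    induction t with
    | nil =>
      intro hv
      exact hf _ ⟨hv, _, rfl, hmem []⟩ _ ⟨valid_tail hv, _, rfl, Or.inl rfl⟩ (E.child τ s w c)
    | cons d t ih =>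
      intro hv
      exact (hf _ ⟨hv, _, rfl, hmem (d :: t)⟩ _ ⟨valid_tail hv, _, rfl, hmem t⟩
        (E.child τ s (t ++ c :: w) d)).trans (ih (valid_tail hv))
  rintro v ⟨hv, u, rfl, rfl | ⟨t, rfl⟩ | ⟨t, rfl⟩⟩
  · exact Iff.rfl
  · exact main a (Or.inl rfl) t hv
  · exact main b (Or.inr rfl) t hv

/-- A unit is connected. -/
theorem linked_unit {τ : ℕ} (hτ : τ ≤ I.T) : I.Linked (I.unit τ) := by
  rcases hτ.lt_or_eq with hlt | rfl
  · refine linked_of (fun v hv => hv.1) (rail τ false) ?_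
    intro f hf
    have hrail : ∀ s, rail τ s ∈ I.unit τ := fun s => ⟨hlt, rfl⟩
    have hr : ∀ s, (f (rail τ s) ↔ f (rail τ false)) := by
      intro s
      cases s with
      | false => exact Iff.rfl
      | true => exact (hf _ (hrail false) _ (hrail true) (E.sides τ)).symm
    rintro ⟨⟨τ', s⟩, o⟩ ⟨hv, rfl⟩
    cases o with
    | none => exact hr s
    | some w =>
      refine (node_iff hf (fun w hw => ⟨hw, rfl⟩) w hv).trans ?_
      exact (hf _ ⟨valid_nil hv, rfl⟩ _ (hrail s) (E.root _ s hlt)).trans (hr s)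
  · refine linked_of (fun v hv => hv.1) (node I.T false []) ?_
    intro f hf
    rintro ⟨⟨τ', s⟩, o⟩ ⟨hv, h2⟩
    simp only at h2
    subst h2
    cases o with
    | none => exact absurd hv (lt_irrefl _)
    | some w =>
      have hs : s = false := by
        rcases hv.1 with h3 | h3
        · exact absurd h3 (lt_irrefl _)
        · exact h3.2
      subst hs
      exact node_iff hf (fun w hw => ⟨hw, rfl⟩) w hv

/-- All units from the number `τ` on, without one anchor of the unit `τ`, are connected. -/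
theorem Good.linked_inner (hI : I.Good) {τ : ℕ} (hτ : τ < I.T) (s : Bool) :
    I.Linked {v | I.Valid v ∧ τ ≤ v.1.1 ∧ v ∉ I.anchor τ s} := by
  refine linked_of (fun v hv => hv.1) (node I.T false []) ?_
  intro f hf
  have hrail : ∀ ρ, τ ≤ ρ → ρ < I.T → ∀ s' : Bool,
      rail ρ s' ∈ {v | I.Valid v ∧ τ ≤ v.1.1 ∧ v ∉ I.anchor τ s} := by
    intro ρ h1 h2 s'
    refine ⟨h2, h1, ?_⟩
    rintro ⟨_, w, hw⟩
    simp at hw
  have hc : node I.T false [] ∈ {v | I.Valid v ∧ τ ≤ v.1.1 ∧ v ∉ I.anchor τ s} := by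
    refine ⟨⟨Or.inr ⟨rfl, rfl⟩, Nat.zero_le _⟩, hτ.le, ?_⟩
    rintro ⟨_, w, hw⟩
    simp only [Prod.mk.injEq] at hw
    exact hτ.ne' hw.1.1
  have hr : ∀ n ρ, I.T - ρ ≤ n → τ ≤ ρ → ρ < I.T → ∀ s' : Bool,
      (f (rail ρ s') ↔ f (node I.T false [])) := by
    intro n
    induction n with
    | zero => intro ρ h1 _ h2; omega
    | succ n ih =>
      intro ρ h1 h2 h3 s'
      have h4 := hI.lt_nx ρ h3
      rcases (hI.nx_le ρ h3).lt_or_eq with h5 | h5
      · refine (hf _ (hrail ρ h2 h3 s') _ (hrail _ (h2.trans h4.le) h5 s') (E.next ρ s' h5)).trans ?_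
        exact ih _ (by omega) (h2.trans h4.le) h5 s'
      · exact (hf _ hc _ (hrail ρ h2 h3 s') (E.center ρ s' h5)).symm
  rintro ⟨⟨ρ, s'⟩, o⟩ ⟨hv, h2, h3⟩
  simp only at h2
  cases o with
  | none => exact hr _ ρ le_rfl h2 hv s'
  | some w =>
    have hne : ¬ (ρ = τ ∧ s' = s) := by
      rintro ⟨rfl, rfl⟩
      exact h3 ⟨hv, w, rfl⟩
    have hS : ∀ w, I.Valid (node ρ s' w) →
        node ρ s' w ∈ {v | I.Valid v ∧ τ ≤ v.1.1 ∧ v ∉ I.anchor τ s} := by
      intro w hw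
      refine ⟨hw, h2, ?_⟩
      rintro ⟨_, w', hw'⟩
      simp only [Prod.mk.injEq] at hw'
      exact hne hw'.1
    refine (node_iff hf hS w hv).trans ?_
    rcases hv.1 with h4 | h4
    · simp only at h4
      exact (hf _ (hS _ (valid_nil hv)) _ (hrail ρ h2 h4 s') (E.root ρ s' h4)).trans
        (hr _ ρ le_rfl h2 h4 s')
    · simp only at h4
      obtain ⟨rfl, rfl⟩ := h4
      exact Iff.rfl

/-- The anchor `s` of the unit `σ`, the rail `s` of `σ` and the anchor `s` of the next unit. -/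
theorem Good.linked_side (hI : I.Good) {σ : ℕ} (hσ : σ < I.T) (hn : I.nx σ < I.T) (s : Bool) :
    I.Linked (I.anchor σ s ∪ {rail σ s} ∪ I.anchor (I.nx σ) s) := by
  have hmem : rail σ s ∈ I.anchor σ s ∪ {rail σ s} ∪ I.anchor (I.nx σ) s :=
    Or.inl (Or.inr rfl)
  refine linked_of ?_ (rail σ s) ?_
  · rintro v ((hv | rfl) | hv)
    · exact hv.1
    · exact hσ
    · exact hv.1
  · intro f hf
    rintro v ((⟨hv, w, rfl⟩ | rfl) | ⟨hv, w, rfl⟩)
    · refine (node_iff hf (fun w hw => Or.inl (Or.inl ⟨hw, w, rfl⟩)) w hv).trans ?_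
      exact hf _ (Or.inl (Or.inl ⟨valid_nil hv, [], rfl⟩)) _ hmem (E.root σ s hσ)
    · exact Iff.rfl
    · refine (node_iff hf (fun w hw => Or.inr ⟨hw, w, rfl⟩) w hv).trans ?_
      exact hf _ (Or.inr ⟨valid_nil hv, [], rfl⟩) _ hmem (E.rootNext σ s hn)

end Inst

end Pool.Agent.Work.MP_8491f2_lc
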