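import Pool.Agent.Work.PolyTime.Raw

/-!
Machines with individual time bounds and their composition.
-/

set_option autoImplicit false

namespace Pool.Agent.Work.MP_8491f2_lc

open Function Turing Pool.Agent.Work.PolyTime.Comp

/-- The machine `M` (with input and output alphabet identified with `Bool`) started with the word
`x` halts with output `y` after at most `t` steps. -/
def OutIn (M : Turing.TM2ComputableAux Bool Bool) (x y : List Bool) (t : ℕ) : Prop :=
  Nonempty (Turing.TM2OutputsInTime M.tm (List.map M.inputAlphabet.invFun x)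
    (some (List.map M.outputAlphabet.invFun y)) t)

theorem OutIn.mono {M : Turing.TM2ComputableAux Bool Bool} {x y : List Bool} {t t' : ℕ}
    (h : OutIn M x y t) (ht : t ≤ t') : OutIn M x y t' := by
  obtain ⟨⟨h1, h2⟩⟩ := h
  exact ⟨⟨h1, h2.trans ht⟩⟩

/-- Composition of machines. -/
theorem exists_comp (M₁ M₂ : Turing.TM2ComputableAux Bool Bool) :
    ∃ (M : Turing.TM2ComputableAux Bool Bool) (c : ℕ), ∀ x y z t₁ t₂,
      OutIn M₁ x y t₁ → OutIn M₂ y z t₂ → OutIn M x z (c * (x.length + t₁ + t₂ + 1)) := by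
  obtain ⟨C, hC⟩ := exists_pushes_bound M₁.tm
  let e₁ : M₁.tm.Γ M₁.tm.k₁ ≃ Bool := M₁.outputAlphabet
  let e₂ : M₂.tm.Γ M₂.tm.k₀ ≃ Bool := M₂.inputAlphabet
  let M : FinTM2 := cmach e₁ e₂
  refine ⟨⟨M, M₁.inputAlphabet, M₂.outputAlphabet⟩, 2 * C + 3, fun x₀ y₀ z₀ t₁ t₂ H₁ H₂ => ?_⟩
  obtain ⟨n₁, hn₁, hr₁⟩ := (outputs_iff _ _ _ _).1 H₁
  obtain ⟨n₂, hn₂, hr₂⟩ := (outputs_iff _ _ _ _).1 H₂
  set x := List.map M₁.inputAlphabet.invFun x₀ with hx
  set y := List.map M₁.outputAlphabet.invFun y₀ with hy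
  set x' := List.map M₂.inputAlphabet.invFun y₀ with hx'
  set z := List.map M₂.outputAlphabet.invFun z₀ with hz
  have hlen : y₀.length ≤ x₀.length + n₁ * C := by
    have h := length_steps M₁.tm.m C hC n₁ _ _ hr₁ M₁.tm.k₁
    rw [haltList_eq, initList_eq] at h
    simp only [haltStk, initStk, update_self, hy, List.length_map] at h
    refine h.trans ?_
    gcongr
    by_cases hk : M₁.tm.k₁ = M₁.tm.k₀
    · have : ∀ (k : M₁.tm.K) (_ : k = M₁.tm.k₀),
          (update (fun _ => []) M₁.tm.k₀ x k : List (M₁.tm.Γ k)).length ≤ x₀.length := by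
        intro k hk
        subst hk
        simp [hx]
      exact this _ hk
    · rw [update_of_ne hk]
      simp
  refine (outputs_iff M x z _).2 ?_
  rw [initList_eq, haltList_eq] at hr₁ hr₂
  -- first machine
  have s₁ := sim₁ e₁ e₂ (M₂.tm.initialState, none) (fun _ => []) [] n₁ _ _ hr₁
  simp only [Option.elim_some, Option.elim_none] at s₁
  have s₂ := mv₁ e₁ e₂ M₁.tm.initialState M₂.tm.initialState (fun _ => []) y none
    (haltStk M₁.tm y) [] (by simp [haltStk])
  have hye : y.map e₁ = y₀ := by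
    simp only [hy, List.map_map]
    conv_rhs => rw [← List.map_id y₀]
    congr 1
    funext b
    exact M₁.outputAlphabet.apply_symm_apply b
  rw [hye, List.append_nil] at s₂
  have hup : update (haltStk M₁.tm y) M₁.tm.k₁ [] = fun _ => [] := by
    funext k
    by_cases hk : k = M₁.tm.k₁
    · subst hk; simp
    · simp [haltStk, hk]
  rw [hup] at s₂
  have s₃ := mv₂ e₁ e₂ M₁.tm.initialState M₂.tm.initialState (fun _ => [])
    y₀.reverse none (fun _ => [])
  have hx'e : (List.map e₂.symm y₀.reverse).reverse ++ [] = x' := by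
    simp only [List.map_reverse, List.reverse_reverse, List.append_nil, hx']
    rfl
  rw [hx'e] at s₃
  have s₄ := sim₂ e₁ e₂ M₁.tm.initialState none (fun _ => []) [] n₂ _ _ hr₂
  simp only [Option.map_some, Option.map_none] at s₄
  have hlast : initStk M₂.tm x' = update (fun _ => []) M₂.tm.k₀ x' := rfl
  rw [hlast] at s₄
  have hfin : (flip bind (TM2.step (ctable e₁ e₂)))^[n₂ + (y₀.reverse.length + 1 +
      (y.length + 1 + n₁))] (some ⟨some (Sum.inl M₁.tm.main),
        (M₁.tm.initialState, M₂.tm.initialState, none),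
        comb (initStk M₁.tm x) (fun _ => []) []⟩) =
      some ⟨none, (M₁.tm.initialState, M₂.tm.initialState, none),
        comb (fun _ => []) (haltStk M₂.tm z) []⟩ := by
    rw [iterate_add_apply _ n₂, iterate_add_apply _ (y₀.reverse.length + 1),
      iterate_add_apply _ (y.length + 1), s₁, s₂, s₃, s₄]
  refine ⟨n₂ + (y₀.reverse.length + 1 + (y.length + 1 + n₁)), ?_, ?_⟩
  · simp only [List.length_reverse, hy, List.length_map]
    have h3 : n₁ * C ≤ t₁ * C := Nat.mul_le_mul_right C hn₁
    nlinarith [Nat.zero_le (C * x₀.length), Nat.zero_le (C * t₂), Nat.zero_le C]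
  · have i1 : (initList M x) = ⟨some (Sum.inl M₁.tm.main),
        (M₁.tm.initialState, M₂.tm.initialState, none),
        comb (initStk M₁.tm x) (fun _ => []) []⟩ := by
      refine (initList_eq M x).trans ?_
      have h := update_comb₁ (M₁ := M₁.tm) (M₂ := M₂.tm) (fun _ => []) (fun _ => []) []
        M₁.tm.k₀ x
      have h0 : (comb (M₁ := M₁.tm) (M₂ := M₂.tm) (fun _ => []) (fun _ => []) []) =
          fun _ => [] := by
        funext k; rcases k with k | k | k <;> rfl
      rw [h0] at h
      exact congrArg (fun st => (⟨some (Sum.inl M₁.tm.main),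
        (M₁.tm.initialState, M₂.tm.initialState, none), st⟩ :
        TM2.Cfg (CΓ M₁.tm M₂.tm) (CΛ M₁.tm M₂.tm) (Cσ M₁.tm M₂.tm))) h
    have i2 : (haltList M z) = ⟨none, (M₁.tm.initialState, M₂.tm.initialState, none),
        comb (fun _ => []) (haltStk M₂.tm z) []⟩ := by
      refine (haltList_eq M z).trans ?_
      have h := update_comb₂ (M₁ := M₁.tm) (M₂ := M₂.tm) (fun _ => []) (fun _ => []) []
        M₂.tm.k₁ z
      have h0 : (comb (M₁ := M₁.tm) (M₂ := M₂.tm) (fun _ => []) (fun _ => []) []) =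
          fun _ => [] := by
        funext k; rcases k with k | k | k <;> rfl
      rw [h0] at h
      exact congrArg (fun st => (⟨none,
        (M₁.tm.initialState, M₂.tm.initialState, none), st⟩ :
        TM2.Cfg (CΓ M₁.tm M₂.tm) (CΛ M₁.tm M₂.tm) (Cσ M₁.tm M₂.tm))) h
    exact (congrArg ((flip bind (TM2.step (ctable e₁ e₂)))^[n₂ + (y₀.reverse.length + 1 +
      (y.length + 1 + n₁))]) (congrArg some i1)).trans (hfin.trans (congrArg some i2.symm))

/-- A polynomial-time computable function has a machine. -/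
theorem exists_outIn {f : List Bool → List Bool}
    (hf : Pool.Agent.Work.PolyTime.PolyTimeComputable f) :
    ∃ (M : Turing.TM2ComputableAux Bool Bool) (p : Polynomial ℕ),
      ∀ x, OutIn M x (f x) (p.eval x.length) := by
  obtain ⟨h⟩ := hf
  exact ⟨h.toTM2ComputableAux, h.time, fun x => ⟨h.outputsFun x⟩⟩

end Pool.Agent.Work.MP_8491f2_lc
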