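import Pool.Agent.Work.MP_8491f2_lc.OutIn

/-!
Programs whose running time is polynomial in a given bound.
-/

set_option autoImplicit false
set_option linter.unusedSimpArgs false

namespace Pool.Agent.Work.MP_8491f2_lc

open Pool.Agent.Work.PolyTime Function

/-- Programs whose running time is polynomial in a given bound `b`. -/
def PSB {ι : Type} (u v : ι → List Bool) (b : ι → ℕ) : Prop :=
  ∃ (K : Type) (_ : DecidableEq K) (_ : Fintype K) (c : Cmd K) (i o : K) (p : Polynomial ℕ),
    ∀ j, Exec c (single i (u j)) (single o (v j)) (p.eval (b j))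

theorem PSB.of_PS {ι : Type} {u v : ι → List Bool} {b : ι → ℕ} (h : PS u v)
    (hb : ∀ j, (u j).length ≤ b j) : PSB u v b := by
  obtain ⟨K, h1, h2, c, i, o, p, h⟩ := h
  exact ⟨K, h1, h2, c, i, o, p, fun j => (h j).mono (Comp.poly_mono p (hb j))⟩

theorem PSB.trans {ι : Type} {u v w : ι → List Bool} {b : ι → ℕ} (h₁ : PSB u v b)
    (h₂ : PSB v w b) (hv : ∀ j, (v j).length ≤ b j) : PSB u w b := by
  obtain ⟨K₁, _, _, c₁, i₁, o₁, p₁, h₁⟩ := h₁
  obtain ⟨K₂, _, _, c₂, i₂, o₂, p₂, h₂⟩ := h₂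
  refine ⟨K₁ ⊕ (K₂ ⊕ Unit), inferInstance, inferInstance,
    Cmd.seq (c₁.map Sum.inl) (Cmd.seq (moveRev (Sum.inl o₁) (Sum.inr (Sum.inr ())))
      (Cmd.seq (moveRev (Sum.inr (Sum.inr ())) (Sum.inr (Sum.inl i₂)))
        ((c₂.map Sum.inl).map Sum.inr))), Sum.inl i₁, Sum.inr (Sum.inl o₂),
    p₁ + (3 * Polynomial.X + 1) + (3 * Polynomial.X + 1) + p₂, fun j => ?_⟩
  rw [single_inl, single_inr, single_inl]
  have e1 := (h₁ j).map_inl (K' := K₂ ⊕ Unit) (join (fun _ => []) (fun _ => []))
  have e2 := exec_moveRev (K := K₁ ⊕ (K₂ ⊕ Unit)) (a := Sum.inl o₁) (b := Sum.inr (Sum.inr ()))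
    (by simp) (v j) (join (single o₁ (v j)) (join (fun _ => []) (fun _ => []))) (by simp)
  simp only [update_join_inl, update_join_inr, join_inl, join_inr, update_single, single_nil,
    update_const_nil, List.append_nil] at e2
  have e3 := exec_moveRev (K := K₁ ⊕ (K₂ ⊕ Unit)) (a := Sum.inr (Sum.inr ()))
    (b := Sum.inr (Sum.inl i₂))
    (by simp) (v j).reverse (join (fun _ => []) (join (fun _ => [])
      (single () (v j).reverse))) (by simp)
  simp only [update_join_inl, update_join_inr, join_inl, join_inr, update_single, single_nil,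
    update_const_nil, List.append_nil, List.reverse_reverse] at e3
  have e4 := ((h₂ j).map_inl (K' := Unit) (fun _ => [])).map_inr (K' := K₁) (fun _ => [])
  refine ((Exec.seq e1 (Exec.seq e2 (Exec.seq e3 e4))).mono ?_).congrL ?_
  · have h4 := hv j
    simp only [Polynomial.eval_add, Polynomial.eval_one, Polynomial.eval_X,
        List.length_reverse, Polynomial.eval_mul, Polynomial.eval_ofNat]
    omega
  · funext k; rcases k with k | k | k <;> rfl

/-- Replacing the bound by a polynomial of it. -/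
theorem PSB.poly {ι : Type} {u v : ι → List Bool} {b b' : ι → ℕ} (h : PSB u v b)
    (q : Polynomial ℕ) (hq : ∀ j, b j ≤ q.eval (b' j)) : PSB u v b' := by
  obtain ⟨K, h1, h2, c, i, o, p, h⟩ := h
  refine ⟨K, h1, h2, c, i, o, p.comp q, fun j => (h j).mono ?_⟩
  rw [Polynomial.eval_comp]
  exact Comp.poly_mono p (hq j)

theorem PSB.machine {ι : Type} {u v : ι → List Bool} {b : ι → ℕ} (h : PSB u v b) :
    ∃ (M : Turing.TM2ComputableAux Bool Bool) (p : Polynomial ℕ),
      ∀ j, OutIn M (u j) (v j) (p.eval (b j)) := by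
  obtain ⟨K, _, _, c, i, o, p, h⟩ := h
  refine ⟨⟨c.toTM i o, Equiv.refl Bool, Equiv.refl Bool⟩, p + 1, fun j => ?_⟩
  have h1 := exec_outputs (h j)
  unfold OutIn
  have e1 : List.map (Equiv.refl Bool).invFun (u j) = u j := by simp
  have e2 : List.map (Equiv.refl Bool).invFun (v j) = v j := by simp
  refine cast ?_ h1
  congr 2
  · exact e1.symm
  · exact congrArg some e2.symm
  · simp

end Pool.Agent.Work.MP_8491f2_lc
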