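import Pool.Agent.Work.MP_8491f2_lc.PSB

/-!
A program that computes `3 ^ n` in unary from `n` in unary, keeping some data.
-/

set_option autoImplicit false
set_option linter.unusedSimpArgs false

namespace Pool.Agent.Work.MP_8491f2_lc

open Pool.Agent.Work.PolyTime Function

/-- Folds with a given bound for the intermediate results. -/
theorem PSB.foldl {ι σ α : Type} {cs : σ → T} {ca : α → T} {f : σ → α → σ}
    (hf : PS (fun x : σ × α => (T.cons (cs x.1) (ca x.2)).ser)
      (fun x => (cs (f x.1 x.2)).ser)) {l : ι → List α} {s : ι → σ} (b : ι → ℕ)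
    (hb : ∀ j, ∀ l', l' <+: l j → (cs (l'.foldl f (s j))).ser.length ≤ b j)
    (hl : ∀ j, (listCode ca (l j)).ser.length ≤ b j) :
    PSB (fun j => (T.cons (cs (s j)) (listCode ca (l j))).ser)
      (fun j => (cs ((l j).foldl f (s j))).ser) b := by
  obtain ⟨K, _, _, c, i, o, p, hf⟩ := hf
  have key : ∀ (l : List α) (x : α), x ∈ l → (ca x).ser.length ≤ (listCode ca l).ser.length := by
    intro l
    induction l with
    | nil => intro x hx; simp at hx
    | cons y l ih =>
      intro x hx
      simp only [listCode, T.ser, List.length_cons, List.length_append]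
      rcases List.mem_cons.1 hx with rfl | hx
      · omega
      · have := ih x hx; omega
  refine ⟨K ⊕ Aux, inferInstance, inferInstance, foldProg c i o, Sum.inr Aux.a, Sum.inr Aux.d,
    1 + ((6 * Polynomial.X + 2) + ((3 * Polynomial.X + 1) + (Polynomial.X *
      (9 * Polynomial.X + 12 * Polynomial.X + p.comp (1 + Polynomial.X + Polynomial.X) + 12) +
      4))), fun j => ?_⟩
  rw [single_inr, single_inr]
  have e1 := exec_parse (K := K ⊕ Aux) (a := Sum.inr Aux.a) (b := Sum.inr Aux.b)
    (c := Sum.inr Aux.c) (by simp) (by simp) (by simp) (cs (s j))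
    (join (fun _ : K => []) (single Aux.a ((cs (s j)).ser ++ (listCode ca (l j)).ser)))
    (listCode ca (l j)).ser (by simp) (by simp [single_of_ne])
  simp only [update_join_inr, join_inr, update_single, single_of_ne, ne_eq, reduceCtorEq,
    not_false_eq_true, List.append_nil] at e1
  have e2 := exec_moveRev (K := K ⊕ Aux) (a := Sum.inr Aux.b) (b := Sum.inr Aux.d) (by simp)
    (cs (s j)).ser.reverse (join (fun _ : K => []) (update (single Aux.a (listCode ca (l j)).ser)
      Aux.b (cs (s j)).ser.reverse)) (by simp)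
  have n2 : update (update (join (fun _ : K => []) (update (single Aux.a (listCode ca (l j)).ser)
      Aux.b (cs (s j)).ser.reverse)) (Sum.inr Aux.b) []) (Sum.inr Aux.d)
      ((cs (s j)).ser.reverse.reverse ++ (join (fun _ : K => [])
        (update (single Aux.a (listCode ca (l j)).ser)
      Aux.b (cs (s j)).ser.reverse) : K ⊕ Aux → List Bool) (Sum.inr Aux.d)) =
      join (fun _ : K => []) (foldSt (listCode ca (l j)).ser (cs (s j)).ser) := by
    simp only [update_join_inr, join_inr, update_join_inl, join_inl, List.reverse_reverse]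
    congr 1
    funext k; cases k <;> simp [single, foldSt]
  rw [n2, List.length_reverse] at e2
  have e3 := exec_foldLoop c i o cs ca f p (fun s x => hf (s, x)) (b j) (b j) (l j) (s j) (hb j)
    (fun x hx => (key _ x hx).trans (hl j))
  have n3 : join (fun _ : K => []) (foldSt [] (cs ((l j).foldl f (s j))).ser) =
      (join (fun _ : K => []) (single Aux.d (cs ((l j).foldl f (s j))).ser) :
        K ⊕ Aux → List Bool) := by
    congr 1
    funext k; cases k <;> simp [single, foldSt]
  rw [n3] at e3
  refine (Exec.popT ((cs (s j)).ser ++ (listCode ca (l j)).ser)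
    (by simp [T.ser]) ((Exec.seq e1 (Exec.seq e2 e3)).congrL ?_)).mono ?_
  · simp
  · have h1 : (cs (s j)).ser.length ≤ b j := by simpa using hb j [] (by simp)
    have h2 : (l j).length ≤ b j := by
      have h3 := hl j
      have h4 := length_listCode ca (l j)
      omega
    simp only [Polynomial.eval_add, Polynomial.eval_mul, Polynomial.eval_ofNat,
      Polynomial.eval_one, Polynomial.eval_comp, Polynomial.eval_X]
    have h5 := Nat.mul_le_mul_right (9 * b j + 12 * b j + p.eval (1 + b j + b j) + 12) h2
    omega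

theorem psb_pow3 : PSB (fun j : T × ℕ => (code (j.1, j.2)).ser)
    (fun j => (code (j.1, 3 ^ j.2)).ser) (fun j => sz j.1 + 3 ^ j.2) := by
  have hf : PTime (fun x : (T × ℕ) × Unit => ((x.1.1, x.1.2 + (x.1.2 + x.1.2)) : T × ℕ)) := by
    refine PTime.prodMk (by fun_prop) ?_
    exact PTime.natAdd (by fun_prop) (PTime.natAdd (by fun_prop) (by fun_prop))
  have hfold : ∀ (t : T) (a n : ℕ), (List.replicate n ()).foldl
      (fun (s : T × ℕ) (_ : Unit) => (s.1, s.2 + (s.2 + s.2))) (t, a) = (t, 3 ^ n * a) := by
    intro t a n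
    induction n generalizing a with
    | zero => simp
    | succ n ih =>
      rw [List.replicate_succ, List.foldl_cons, ih]
      congr 1
      ring
  have hpow : ∀ n : ℕ, n + 1 ≤ 3 ^ n := fun n => Nat.succ_le_of_lt (Nat.lt_pow_self (by norm_num))
  have hsz : ∀ j : T × ℕ, sz j.1 + 2 * j.2 + 2 ≤ 2 * (sz j.1 + 3 ^ j.2) := fun j => by
    have h4 := hpow j.2
    omega
  -- first program: from `(t, n)` to `((t, 1), n)`
  have h1 : PSB (fun j : T × ℕ => (code (j.1, j.2)).ser)
      (fun j => (code ((j.1, 1), j.2)).ser) (fun j => 2 * (sz j.1 + 3 ^ j.2) + 8) := by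
    refine PSB.of_PS (show PTime (fun j : T × ℕ => (((j.1, 1), j.2) : (T × ℕ) × ℕ)) by fun_prop)
      fun j => ?_
    change sz (j.1, j.2) ≤ _
    rw [sz_pair, sz_nat]
    have := hsz j
    omega
  have h2 : PSB (fun j : T × ℕ => (T.cons (code (j.1, 1)) (listCode code
      (List.replicate j.2 ()))).ser)
      (fun j => (code ((List.replicate j.2 ()).foldl
        (fun (s : T × ℕ) (_ : Unit) => (s.1, s.2 + (s.2 + s.2))) (j.1, 1))).ser)
      (fun j => 2 * (sz j.1 + 3 ^ j.2) + 8) := by
    refine PSB.foldl (cs := fun s : T × ℕ => code s) (ca := fun x : Unit => code x)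
      (f := fun (s : T × ℕ) (_ : Unit) => (s.1, s.2 + (s.2 + s.2))) hf _
      (fun j l' hl' => ?_) (fun j => ?_)
    · obtain ⟨hm, hm'⟩ := (List.prefix_replicate_iff).1 hl'
      rw [hm', hfold]
      change sz (j.1, 3 ^ l'.length * 1) ≤ _
      rw [sz_pair, sz_nat]
      have h3 : 3 ^ l'.length ≤ 3 ^ j.2 := Nat.pow_le_pow_right (by norm_num) hm
      omega
    · change sz (List.replicate j.2 ()) ≤ _
      have h3 : sz (List.replicate j.2 ()) = sz j.2 := by
        unfold sz
        rw [code_replicate]
      rw [h3, sz_nat]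
      have := hsz j
      omega
  have h3 : PSB (fun j : T × ℕ => (code (j.1, j.2)).ser)
      (fun j => (code (j.1, 3 ^ j.2)).ser) (fun j => 2 * (sz j.1 + 3 ^ j.2) + 8) := by
    have e1 : ∀ j : T × ℕ, (T.cons (code (j.1, 1)) (listCode code
      (List.replicate j.2 ()))).ser = (code ((j.1, 1), j.2)).ser := by
      intro j
      have : listCode code (List.replicate j.2 ()) = code j.2 := code_replicate j.2
      rw [this]
      rfl
    have e2 : ∀ j : T × ℕ, (code ((List.replicate j.2 ()).foldl
        (fun (s : T × ℕ) (_ : Unit) => (s.1, s.2 + (s.2 + s.2))) (j.1, 1))).ser =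
        (code (j.1, 3 ^ j.2)).ser := by
      intro j
      rw [hfold, mul_one]
    simp only [e1, e2] at h2
    refine h1.trans h2 fun j => ?_
    change sz ((j.1, 1), j.2) ≤ _
    rw [sz_pair, sz_pair, sz_nat, sz_nat]
    have := hsz j
    omega
  refine h3.poly (2 * Polynomial.X + 8) fun j => ?_
  simp

end Pool.Agent.Work.MP_8491f2_lc
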