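import Pool.Agent.Work.MP_8491f2_lc.Defs

/-!
Reduction from 3-SAT to exactly-2-in-4 SAT.

Variables of the new instance: `0 = T`, `1 = F`, `2, 3, 4, 5` auxiliary, `6 + 2 x` and `7 + 2 x` for
the variable `x < n` and its negation, and four variables for every clause.
-/

set_option autoImplicit false

namespace Pool.Agent.Work.MP_8491f2_lc

/-- The variable of a literal. -/
def litVar (l : Lit) : ℕ := bif l.2 then 6 + 2 * l.1 else 7 + 2 * l.1

/-- The variable of the negated literal. -/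
def negVar (l : Lit) : ℕ := bif l.2 then 7 + 2 * l.1 else 6 + 2 * l.1

/-- The three 4-clauses of the clause `c` with number `k`; `a, b, c, d` are the variables
`6 + 2 n + 4 k + i` for `i = 0, 1, 2, 3`. -/
def clauseQuads (n k : ℕ) (c : Clause3) : List Quad :=
  [(negVar c.1, 6 + 2 * n + 4 * k, 7 + 2 * n + 4 * k, 0),
   (7 + 2 * n + 4 * k, litVar c.2.1, 8 + 2 * n + 4 * k, 0),
   (8 + 2 * n + 4 * k, 9 + 2 * n + 4 * k, negVar c.2.2, 0)]

/-- The exactly-2-in-4 instance of a 3-CNF formula with variables `< n`. -/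
def toQuads (n : ℕ) (φ : List Clause3) : List Quad :=
  [(0, 1, 2, 3), (0, 1, 4, 5), (2, 3, 4, 5)] ++
    (List.range n).map (fun x => (6 + 2 * x, 7 + 2 * x, 0, 1)) ++
    φ.zipIdx.flatMap (fun c => clauseQuads n c.2 c.1)

/-- Membership in the list of 4-clauses. -/
private theorem mem_toQuads {n : ℕ} {φ : List Clause3} {q : Quad} : q ∈ toQuads n φ ↔
    (q = (0, 1, 2, 3) ∨ q = (0, 1, 4, 5) ∨ q = (2, 3, 4, 5)) ∨
    (∃ x < n, q = (6 + 2 * x, 7 + 2 * x, 0, 1)) ∨
    ∃ k c, φ[k]? = some c ∧ q ∈ clauseQuads n k c := by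
  unfold toQuads
  rw [List.mem_append, List.mem_append, List.mem_map, List.mem_flatMap]
  constructor
  · rintro ((h | h) | h)
    · left; simpa using h
    · right; left
      obtain ⟨x, hx, rfl⟩ := h
      exact ⟨x, List.mem_range.mp hx, rfl⟩
    · right; right
      obtain ⟨⟨c, k⟩, hc, hq⟩ := h
      exact ⟨k, c, List.mk_mem_zipIdx_iff_getElem?.mp hc, hq⟩
  · rintro (h | h | h)
    · left; left; simpa using h
    · left; right
      obtain ⟨x, hx, rfl⟩ := h
      exact ⟨x, List.mem_range.mpr hx, rfl⟩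
    · right
      obtain ⟨k, c, hc, hq⟩ := h
      exact ⟨(c, k), List.mk_mem_zipIdx_iff_getElem?.mpr hc, hq⟩

theorem length_toQuads (n : ℕ) (φ : List Clause3) :
    (toQuads n φ).length = 3 + n + 3 * φ.length := by
  unfold toQuads
  rw [List.length_append, List.length_append, List.length_map, List.length_range]
  have h : (φ.zipIdx.flatMap (fun c => clauseQuads n c.2 c.1)).length = 3 * φ.length := by
    rw [List.length_flatMap]
    have h1 : (φ.zipIdx.map fun c => (clauseQuads n c.2 c.1).length) =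
        φ.zipIdx.map fun _ => 3 := by
      apply List.map_congr_left
      intro c _
      rfl
    rw [h1, List.map_const', List.sum_replicate, List.length_zipIdx, smul_eq_mul, Nat.mul_comm]
  rw [h]
  rfl

private theorem litVar_bd {n : ℕ} {l : Lit} (h : l.1 < n) :
    6 ≤ litVar l ∧ litVar l < 6 + 2 * n ∧ 6 ≤ negVar l ∧ negVar l < 6 + 2 * n := by
  obtain ⟨x, b⟩ := l
  change x < n at h
  cases b <;> simp [litVar, negVar] <;> omega

theorem dist_toQuads (n : ℕ) (φ : List Clause3)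
    (h : ∀ c ∈ φ, c.1.1 < n ∧ c.2.1.1 < n ∧ c.2.2.1 < n) : ∀ q ∈ toQuads n φ, q.Dist := by
  intro q hq
  rw [mem_toQuads] at hq
  rcases hq with (rfl | rfl | rfl) | ⟨x, hx, rfl⟩ | ⟨k, c, hc, hq⟩
  · unfold Quad.Dist; decide
  · unfold Quad.Dist; decide
  · unfold Quad.Dist; decide
  · unfold Quad.Dist
    simp
    omega
  · have hcφ : c ∈ φ := List.mem_of_getElem? hc
    obtain ⟨h1, h2, h3⟩ := h c hcφ
    have b1 := litVar_bd h1
    have b2 := litVar_bd h2
    have b3 := litVar_bd h3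
    simp only [clauseQuads, List.mem_cons, List.not_mem_nil, or_false] at hq
    rcases hq with rfl | rfl | rfl <;> unfold Quad.Dist <;> simp <;> omega

/-- The values of the auxiliary variables of a clause. -/
private def auxVal (v : ℕ → Bool) (c : Clause3) (i : ℕ) : Bool :=
  match i with
  | 0 => c.2.1.val v && c.1.val v
  | 1 => !(c.2.1.val v) && c.1.val v
  | 2 => !(c.2.1.val v) && !(c.1.val v)
  | _ => (c.1.val v || c.2.1.val v) && c.2.2.val v

/-- The solution of the new instance. -/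
private def solOf (n : ℕ) (φ : List Clause3) (v : ℕ → Bool) (y : ℕ) : Bool :=
  if y < 6 then decide (y % 2 = 0)
  else if y < 6 + 2 * n then (v ((y - 6) / 2) == decide (y % 2 = 0))
  else auxVal v (φ.getD ((y - (6 + 2 * n)) / 4) ((0, true), (0, true), (0, true)))
    ((y - (6 + 2 * n)) % 4)

private theorem solOf_lit {n : ℕ} {φ : List Clause3} {v : ℕ → Bool} {l : Lit} (h : l.1 < n) :
    solOf n φ v (litVar l) = l.val v ∧ solOf n φ v (negVar l) = !(l.val v) := by
  obtain ⟨x, b⟩ := l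
  change x < n at h
  have e1 : solOf n φ v (6 + 2 * x) = (v x == true) := by
    unfold solOf
    rw [if_neg (by omega), if_pos (by omega), show (6 + 2 * x - 6) / 2 = x by omega,
      show (6 + 2 * x) % 2 = 0 by omega]
    rfl
  have e2 : solOf n φ v (7 + 2 * x) = (v x == false) := by
    unfold solOf
    rw [if_neg (by omega), if_pos (by omega), show (7 + 2 * x - 6) / 2 = x by omega,
      show (7 + 2 * x) % 2 = 1 by omega]
    rfl
  cases b
  · show solOf n φ v (7 + 2 * x) = (v x == false) ∧ solOf n φ v (6 + 2 * x) = !(v x == false)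
    rw [e1, e2]
    cases v x <;> exact ⟨rfl, rfl⟩
  · show solOf n φ v (6 + 2 * x) = (v x == true) ∧ solOf n φ v (7 + 2 * x) = !(v x == true)
    rw [e1, e2]
    cases v x <;> exact ⟨rfl, rfl⟩

private theorem solOf_aux {n : ℕ} {φ : List Clause3} {v : ℕ → Bool} {k i : ℕ} {c : Clause3}
    (hc : φ[k]? = some c) (hi : i < 4) :
    solOf n φ v (6 + i + 2 * n + 4 * k) = auxVal v c i := by
  unfold solOf
  rw [if_neg (by omega), if_neg (by omega),
    show (6 + i + 2 * n + 4 * k - (6 + 2 * n)) / 4 = k by omega,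
    show (6 + i + 2 * n + 4 * k - (6 + 2 * n)) % 4 = i by omega]
  rw [List.getD_eq_getElem?_getD, hc]
  rfl

private theorem sat_mpr (n : ℕ) (φ : List Clause3)
    (h : ∀ c ∈ φ, c.1.1 < n ∧ c.2.1.1 < n ∧ c.2.2.1 < n) (hs : Sat3 φ) :
    Sat24 (toQuads n φ) := by
  obtain ⟨v, hv⟩ := hs
  refine ⟨solOf n φ v, fun q hq => ?_⟩
  rw [mem_toQuads] at hq
  have e0 : solOf n φ v 0 = true := by simp [solOf]
  have e1 : solOf n φ v 1 = false := by simp [solOf]
  have e2 : solOf n φ v 2 = true := by simp [solOf]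
  have e3 : solOf n φ v 3 = false := by simp [solOf]
  have e4 : solOf n φ v 4 = true := by simp [solOf]
  have e5 : solOf n φ v 5 = false := by simp [solOf]
  rcases hq with (rfl | rfl | rfl) | ⟨x, hx, rfl⟩ | ⟨k, c, hc, hq⟩
  · simp [Quad.count, e0, e1, e2, e3]
  · simp [Quad.count, e0, e1, e4, e5]
  · simp [Quad.count, e2, e3, e4, e5]
  · have hl := solOf_lit (n := n) (φ := φ) (v := v) (l := (x, true)) hx
    change solOf n φ v (6 + 2 * x) = _ ∧ solOf n φ v (7 + 2 * x) = _ at hl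
    simp only [Quad.count, hl.1, hl.2, e0, e1]
    cases Lit.val v (x, true) <;> rfl
  · have hcφ : c ∈ φ := List.mem_of_getElem? hc
    obtain ⟨h1, h2, h3⟩ := h c hcφ
    have s1 := solOf_lit (φ := φ) (v := v) h1
    have s2 := solOf_lit (φ := φ) (v := v) h2
    have s3 := solOf_lit (φ := φ) (v := v) h3
    have a0 := solOf_aux (n := n) (v := v) hc (show 0 < 4 by omega)
    have a1 := solOf_aux (n := n) (v := v) hc (show 1 < 4 by omega)
    have a2 := solOf_aux (n := n) (v := v) hc (show 2 < 4 by omega)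
    have a3 := solOf_aux (n := n) (v := v) hc (show 3 < 4 by omega)
    have hsat := hv c hcφ
    rw [show 6 + 0 + 2 * n + 4 * k = 6 + 2 * n + 4 * k by omega] at a0
    rw [show 6 + 1 + 2 * n + 4 * k = 7 + 2 * n + 4 * k by omega] at a1
    rw [show 6 + 2 + 2 * n + 4 * k = 8 + 2 * n + 4 * k by omega] at a2
    rw [show 6 + 3 + 2 * n + 4 * k = 9 + 2 * n + 4 * k by omega] at a3
    simp only [auxVal] at a0 a1 a2 a3
    simp only [clauseQuads, List.mem_cons, List.not_mem_nil, or_false] at hq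
    revert hsat
    rcases hq with rfl | rfl | rfl
    · simp only [Quad.count, s1.2, a0, a1, e0]
      cases c.1.val v <;> cases c.2.1.val v <;> cases c.2.2.val v <;> simp
    · simp only [Quad.count, s2.1, a1, a2, e0]
      cases c.1.val v <;> cases c.2.1.val v <;> cases c.2.2.val v <;> simp
    · simp only [Quad.count, s3.2, a2, a3, e0]
      cases c.1.val v <;> cases c.2.1.val v <;> cases c.2.2.val v <;> simp

private theorem sat_mp_aux (n : ℕ) (φ : List Clause3)
    (h : ∀ c ∈ φ, c.1.1 < n ∧ c.2.1.1 < n ∧ c.2.2.1 < n) (z : ℕ → Bool)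
    (hz : ∀ q ∈ toQuads n φ, q.count z = 2) (h0 : z 0 = true) : Sat3 φ := by
  have q1 := hz (0, 1, 2, 3) (mem_toQuads.mpr (by simp))
  have q2 := hz (0, 1, 4, 5) (mem_toQuads.mpr (by simp))
  have q3 := hz (2, 3, 4, 5) (mem_toQuads.mpr (by simp))
  have h1 : z 1 = false := by
    simp only [Quad.count, h0] at q1 q2 q3
    cases hz1 : z 1
    · rfl
    · rw [hz1] at q1 q2
      cases hz2 : z 2 <;> cases hz3 : z 3 <;> cases hz4 : z 4 <;> cases hz5 : z 5 <;>
        simp [hz2, hz3, hz4, hz5] at q1 q2 q3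
  have hx : ∀ x < n, z (7 + 2 * x) = !(z (6 + 2 * x)) := by
    intro x hx
    have q := hz (6 + 2 * x, 7 + 2 * x, 0, 1)
      (mem_toQuads.mpr (Or.inr (Or.inl ⟨x, hx, rfl⟩)))
    simp only [Quad.count, h0, h1] at q
    cases hz1 : z (6 + 2 * x) <;> cases hz2 : z (7 + 2 * x) <;> simp [hz1, hz2] at q ⊢
  let v : ℕ → Bool := fun x => z (6 + 2 * x)
  have hlit : ∀ l : Lit, l.1 < n → z (litVar l) = l.val v ∧ z (negVar l) = !(l.val v) := by
    rintro ⟨x, b⟩ hl
    change x < n at hl
    have e := hx x hl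
    cases b
    · show z (7 + 2 * x) = (z (6 + 2 * x) == false) ∧
        z (6 + 2 * x) = !(z (6 + 2 * x) == false)
      rw [e]
      cases z (6 + 2 * x) <;> exact ⟨rfl, rfl⟩
    · show z (6 + 2 * x) = (z (6 + 2 * x) == true) ∧
        z (7 + 2 * x) = !(z (6 + 2 * x) == true)
      rw [e]
      cases z (6 + 2 * x) <;> exact ⟨rfl, rfl⟩
  refine ⟨v, fun c hc => ?_⟩
  obtain ⟨b1, b2, b3⟩ := h c hc
  obtain ⟨k, hk, hkc⟩ := List.getElem_of_mem hc
  have hk' : φ[k]? = some c := by rw [List.getElem?_eq_getElem hk, hkc]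
  have hmem : ∀ q ∈ clauseQuads n k c, q.count z = 2 := fun q hq =>
    hz q (mem_toQuads.mpr (Or.inr (Or.inr ⟨k, c, hk', hq⟩)))
  have r1 := hmem (negVar c.1, 6 + 2 * n + 4 * k, 7 + 2 * n + 4 * k, 0) (by simp [clauseQuads])
  have r2 := hmem (7 + 2 * n + 4 * k, litVar c.2.1, 8 + 2 * n + 4 * k, 0)
    (by simp [clauseQuads])
  have r3 := hmem (8 + 2 * n + 4 * k, 9 + 2 * n + 4 * k, negVar c.2.2, 0)
    (by simp [clauseQuads])
  simp only [Quad.count, h0, (hlit _ b1).2, (hlit _ b2).1, (hlit _ b3).2] at r1 r2 r3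
  revert r1 r2 r3
  generalize z (6 + 2 * n + 4 * k) = a
  generalize z (7 + 2 * n + 4 * k) = b
  generalize z (8 + 2 * n + 4 * k) = c'
  generalize z (9 + 2 * n + 4 * k) = d
  generalize Lit.val v c.1 = l1
  generalize Lit.val v c.2.1 = l2
  generalize Lit.val v c.2.2 = l3
  intro r1 r2 r3
  cases l1 <;> cases l2 <;> cases l3 <;> simp at r1 r2 r3 ⊢
  cases a <;> cases b <;> cases c' <;> cases d <;> simp at r1 r2 r3

theorem sat24_toQuads (n : ℕ) (φ : List Clause3)
    (h : ∀ c ∈ φ, c.1.1 < n ∧ c.2.1.1 < n ∧ c.2.2.1 < n) :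
    Sat24 (toQuads n φ) ↔ Sat3 φ := by
  constructor
  · rintro ⟨z, hz⟩
    cases h0 : z 0
    · refine sat_mp_aux n φ h (fun y => !(z y)) (fun q hq => ?_) (by simp [h0])
      have := hz q hq
      unfold Quad.count at this ⊢
      cases h1 : z q.1 <;> cases h2 : z q.2.1 <;> cases h3 : z q.2.2.1 <;>
        cases h4 : z q.2.2.2 <;> simp [h1, h2, h3, h4] at this ⊢
    · exact sat_mp_aux n φ h z hz h0
  · exact sat_mpr n φ h

end Pool.Agent.Work.MP_8491f2_lc
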