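import Pool.Agent.Work.MP_8491f2_lc.Defs
import Pool.Agent.Work.PolyTime.Pairs

/-!
The sparsification algorithm of Impagliazzo, Paturi and Zane for 3-CNF formulas: definitions.

A state consists of unit clauses, 2-clauses and 3-clauses; 2-clauses are ordered pairs (with both
orders present) and 3-clauses are ordered triples (with all orders present).
-/

set_option autoImplicit false

namespace Pool.Agent.Work.MP_8491f2_lc

open Pool.Agent.Work.PolyTime

/-- The literals over the variables `0, ..., n - 1`. -/
def lits (n : ℕ) : List Lit := (List.range n).flatMap fun x => [(x, true), (x, false)]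

/-- The ordered pairs of literals. -/
def pairsL (n : ℕ) : List (Lit × Lit) := (lits n).flatMap fun a => (lits n).map fun b => (a, b)

/-- The ordered triples of literals. -/
def tripsL (n : ℕ) : List Clause3 := (lits n).flatMap fun a => (pairsL n).map fun b => (a, b)

/-- States: unit clauses, 2-clauses, 3-clauses. -/
abbrev SSt : Type := List Lit × List (Lit × Lit) × List Clause3

/-- The unit clauses after adding `N`. -/
def newU (n : ℕ) (s : SSt) (N : List Lit) : List Lit :=
  (lits n).filter fun a => memB a s.1 || memB a N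

/-- Adding unit clauses; satisfied clauses are removed. -/
def addU (n : ℕ) (s : SSt) (N : List Lit) : SSt :=
  (newU n s N,
    s.2.1.filter fun d => !(memB d.1 (newU n s N)) && !(memB d.2 (newU n s N)),
    s.2.2.filter fun c => !(memB c.1 (newU n s N)) &&
      (!(memB c.2.1 (newU n s N)) && !(memB c.2.2 (newU n s N))))

/-- The literal `a` occurs in the clause `c`. -/
def inCl (a : Lit) (c : Clause3) : Bool :=
  decide (a = c.1) || (decide (a = c.2.1) || decide (a = c.2.2))

/-- The 3-clause `c` is implied by one of the 2-clauses in `D`. -/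
def hitBy (D : List (Lit × Lit)) (c : Clause3) : Bool :=
  D.any fun d => inCl d.1 c && inCl d.2 c

/-- The 2-clauses after adding `N`. -/
def newD (n : ℕ) (s : SSt) (N : List (Lit × Lit)) : List (Lit × Lit) :=
  (pairsL n).filter fun d => memB d s.2.1 || memB d N

/-- Adding 2-clauses; implied 3-clauses are removed. -/
def addP (n : ℕ) (s : SSt) (N : List (Lit × Lit)) : SSt :=
  (s.1, newD n s N, s.2.2.filter fun c => !(hitBy (newD n s N) c))

/-- The petals of the heart `a` in the 2-clauses. -/
def petD (s : SSt) (a : Lit) : List Lit := (s.2.1.filter fun d => decide (d.1 = a)).map fun d => d.2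

/-- The petals of the heart `d` in the 3-clauses. -/
def petTT (s : SSt) (d : Lit × Lit) : List Lit :=
  (s.2.2.filter fun c => decide (c.1 = d.1) && decide (c.2.1 = d.2)).map fun c => c.2.2

/-- The petals of the heart `a` in the 3-clauses. -/
def petT (s : SSt) (a : Lit) : List (Lit × Lit) :=
  (s.2.2.filter fun c => decide (c.1 = a)).map fun c => c.2

/-- The first literal that is the heart of at least `p` petals in the 2-clauses. -/
def ruleA (n p : ℕ) (s : SSt) : Option Lit :=
  ((lits n).filter fun a => decide (p ≤ (petD s a).length)).head?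

/-- The first pair that is the heart of at least `p` petals in the 3-clauses. -/
def ruleB (n p : ℕ) (s : SSt) : Option (Lit × Lit) :=
  ((pairsL n).filter fun d => decide (p ≤ (petTT s d).length)).head?

/-- The first literal that is the heart of at least `q` petals in the 3-clauses. -/
def ruleC (n q : ℕ) (s : SSt) : Option Lit :=
  ((lits n).filter fun a => decide (q ≤ (petT s a).length)).head?

/-- One step: branch on the heart or the petals of a large sunflower; a state without large
sunflowers is left alone. -/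
def stepS (n p q : ℕ) (s : SSt) : List SSt :=
  (ruleA n p s).elim
    ((ruleB n p s).elim
      ((ruleC n q s).elim [s] fun a => [addU n s [a], addP n s (petT s a)])
      fun d => [addP n s [d, (d.2, d.1)], addU n s (petTT s d)])
    fun a => [addU n s [a], addU n s (petD s a)]

/-- The initial state. -/
def initS (n : ℕ) (φ : List Clause3) : SSt :=
  ([], [], (tripsL n).filter fun c => memB (c.1, c.2.1, c.2.2) φ || (memB (c.1, c.2.2, c.2.1) φ ||
    (memB (c.2.1, c.1, c.2.2) φ || (memB (c.2.1, c.2.2, c.1) φ ||
    (memB (c.2.2, c.1, c.2.1) φ || memB (c.2.2, c.2.1, c.1) φ)))))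

/-- The states after `K` rounds (at most `P` of them in every round). -/
def lvlS (n p q P : ℕ) (φ : List Clause3) (K : ℕ) : List SSt :=
  (List.range K).foldl (fun l _ => (l.flatMap (stepS n p q)).take P) [initS n φ]

/-- A state as a 3-CNF formula. -/
def toCl (s : SSt) : List Clause3 :=
  s.1.map (fun a => (a, a, a)) ++ (s.2.1.map (fun d => (d.1, d.1, d.2)) ++ s.2.2)

/-- The literal `l` is true under `v`. -/
def TrueL (v : ℕ → Bool) (l : Lit) : Prop := l.val v = true

/-- The state is satisfied by `v`. -/
def SatBy (v : ℕ → Bool) (s : SSt) : Prop :=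
  (∀ a ∈ s.1, TrueL v a) ∧ (∀ d ∈ s.2.1, TrueL v d.1 ∨ TrueL v d.2) ∧
    ∀ c ∈ s.2.2, TrueL v c.1 ∨ TrueL v c.2.1 ∨ TrueL v c.2.2

/-- The invariants of the states. -/
structure SInv (n p : ℕ) (s : SSt) : Prop where
  subU : s.1.Sublist (lits n)
  subD : s.2.1.Sublist (pairsL n)
  subT : s.2.2.Sublist (tripsL n)
  symD : ∀ a b, (a, b) ∈ s.2.1 → (b, a) ∈ s.2.1
  symT : ∀ a b c, (a, b, c) ∈ s.2.2 → (b, a, c) ∈ s.2.2 ∧ (a, c, b) ∈ s.2.2
  clDU : ∀ a b, (a, b) ∈ s.2.1 → a ∉ s.1
  clTU : ∀ a b c, (a, b, c) ∈ s.2.2 → a ∉ s.1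
  clTD : ∀ a b c, (a, b, c) ∈ s.2.2 → (a, b) ∉ s.2.1
  deg : ∀ a, (petD s a).length ≤ 2 * p

/-- The potential. -/
def psi (n p : ℕ) (s : SSt) : ℕ := 16 * p * (2 * n - s.1.length) + (4 * n * p - s.2.1.length)

/-- No large sunflower. -/
def IsLeaf (n p q : ℕ) (s : SSt) : Prop :=
  ruleA n p s = none ∧ ruleB n p s = none ∧ ruleC n q s = none

/-- The variables of `φ` are among `0, ..., n - 1`. -/
def VarsLt (n : ℕ) (φ : List Clause3) : Prop :=
  ∀ c ∈ φ, c.1.1 < n ∧ c.2.1.1 < n ∧ c.2.2.1 < n

end Pool.Agent.Work.MP_8491f2_lc
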