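import Pool.Agent.Work.MP_8491f2_lc.SpDefs

/-!
Sparsification: elementary facts about the lists.
-/

set_option autoImplicit false

namespace Pool.Agent.Work.MP_8491f2_lc

open Pool.Agent.Work.PolyTime

theorem mem_lits {n : ℕ} {a : Lit} : a ∈ lits n ↔ a.1 < n := by
  obtain ⟨x, b⟩ := a
  unfold lits
  simp only [List.mem_flatMap, List.mem_range, List.mem_cons, Prod.mk.injEq, List.not_mem_nil,
    or_false]
  constructor
  · rintro ⟨y, hy, h | h⟩ <;> omega
  · intro h
    exact ⟨x, h, by cases b <;> simp⟩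

theorem mem_pairsL {n : ℕ} {d : Lit × Lit} : d ∈ pairsL n ↔ d.1.1 < n ∧ d.2.1 < n := by
  obtain ⟨a, b⟩ := d
  unfold pairsL
  simp only [List.mem_flatMap, List.mem_map, mem_lits]
  constructor
  · rintro ⟨a', ha', b', hb', h⟩
    simp only [Prod.mk.injEq] at h
    rw [← h.1, ← h.2]
    exact ⟨ha', hb'⟩
  · rintro ⟨ha, hb⟩
    exact ⟨a, ha, b, hb, rfl⟩

theorem mem_tripsL {n : ℕ} {c : Clause3} :
    c ∈ tripsL n ↔ c.1.1 < n ∧ c.2.1.1 < n ∧ c.2.2.1 < n := by
  obtain ⟨a, d⟩ := c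
  unfold tripsL
  simp only [List.mem_flatMap, List.mem_map, mem_lits, mem_pairsL]
  constructor
  · rintro ⟨a', ha', b', hb', h⟩
    simp only [Prod.mk.injEq] at h
    rw [← h.1, ← h.2]
    exact ⟨ha', hb'⟩
  · rintro ⟨ha, hb⟩
    exact ⟨a, ha, d, hb, rfl⟩

theorem nodup_flatMap_map {β γ : Type} {l : List β} {m : List γ} (hl : l.Nodup) (hm : m.Nodup) :
    (l.flatMap fun a => m.map fun b => (a, b)).Nodup := by
  induction l with
  | nil => exact List.nodup_nil
  | cons a l ih =>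
    rw [List.flatMap_cons, List.nodup_append]
    rw [List.nodup_cons] at hl
    refine ⟨hm.map (fun x y h => (Prod.ext_iff.1 h).2), ih hl.2, ?_⟩
    intro x hx y hy hxy
    rw [List.mem_map] at hx
    obtain ⟨b, _, rfl⟩ := hx
    rw [List.mem_flatMap] at hy
    obtain ⟨a', ha', hy⟩ := hy
    rw [List.mem_map] at hy
    obtain ⟨b', _, rfl⟩ := hy
    rw [Prod.mk.injEq] at hxy
    exact hl.1 (hxy.1 ▸ ha')

theorem nodup_lits (n : ℕ) : (lits n).Nodup := by
  have h : lits n = (List.range n).flatMap fun x => [true, false].map fun b => (x, b) := rfl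
  rw [h]
  exact nodup_flatMap_map List.nodup_range (by decide)

theorem nodup_pairsL (n : ℕ) : (pairsL n).Nodup :=
  nodup_flatMap_map (nodup_lits n) (nodup_lits n)

theorem nodup_tripsL (n : ℕ) : (tripsL n).Nodup :=
  nodup_flatMap_map (nodup_lits n) (nodup_pairsL n)

theorem length_lits (n : ℕ) : (lits n).length = 2 * n := by
  induction n with
  | zero => rfl
  | succ n ih =>
    unfold lits at *
    rw [List.range_succ, List.flatMap_append, List.length_append, ih]
    simp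
    omega

theorem mem_newU {n : ℕ} {s : SSt} {N : List Lit} {a : Lit} :
    a ∈ newU n s N ↔ a.1 < n ∧ (a ∈ s.1 ∨ a ∈ N) := by
  unfold newU
  rw [List.mem_filter, mem_lits, Bool.or_eq_true, memB_iff, memB_iff]

theorem mem_addU_D {n : ℕ} {s : SSt} {N : List Lit} {d : Lit × Lit} :
    d ∈ (addU n s N).2.1 ↔ d ∈ s.2.1 ∧ d.1 ∉ newU n s N ∧ d.2 ∉ newU n s N := by
  unfold addU
  simp only [List.mem_filter, Bool.and_eq_true, Bool.not_eq_true', ← Bool.not_eq_true, memB_iff]

theorem mem_addU_T {n : ℕ} {s : SSt} {N : List Lit} {c : Clause3} :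
    c ∈ (addU n s N).2.2 ↔ c ∈ s.2.2 ∧ c.1 ∉ newU n s N ∧ c.2.1 ∉ newU n s N ∧
      c.2.2 ∉ newU n s N := by
  unfold addU
  simp only [List.mem_filter, Bool.and_eq_true, Bool.not_eq_true', ← Bool.not_eq_true, memB_iff]

theorem inCl_iff {a : Lit} {c : Clause3} : inCl a c = true ↔ a = c.1 ∨ a = c.2.1 ∨ a = c.2.2 := by
  unfold inCl
  simp only [Bool.or_eq_true, decide_eq_true_eq]

theorem hitBy_iff {D : List (Lit × Lit)} {c : Clause3} :
    hitBy D c = true ↔ ∃ d ∈ D, (d.1 = c.1 ∨ d.1 = c.2.1 ∨ d.1 = c.2.2) ∧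
      (d.2 = c.1 ∨ d.2 = c.2.1 ∨ d.2 = c.2.2) := by
  unfold hitBy
  simp only [List.any_eq_true, Bool.and_eq_true, inCl_iff]

theorem mem_newD {n : ℕ} {s : SSt} {N : List (Lit × Lit)} {d : Lit × Lit} :
    d ∈ newD n s N ↔ (d.1.1 < n ∧ d.2.1 < n) ∧ (d ∈ s.2.1 ∨ d ∈ N) := by
  unfold newD
  rw [List.mem_filter, mem_pairsL, Bool.or_eq_true, memB_iff, memB_iff]

theorem mem_addP_T {n : ℕ} {s : SSt} {N : List (Lit × Lit)} {c : Clause3} :
    c ∈ (addP n s N).2.2 ↔ c ∈ s.2.2 ∧ ¬ ∃ d ∈ newD n s N,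
      (d.1 = c.1 ∨ d.1 = c.2.1 ∨ d.1 = c.2.2) ∧ (d.2 = c.1 ∨ d.2 = c.2.1 ∨ d.2 = c.2.2) := by
  rw [← hitBy_iff]
  unfold addP
  simp only [List.mem_filter, Bool.not_eq_true', ← Bool.not_eq_true]

theorem mem_petD {s : SSt} {a b : Lit} : b ∈ petD s a ↔ (a, b) ∈ s.2.1 := by
  unfold petD
  simp only [List.mem_map, List.mem_filter, decide_eq_true_eq]
  constructor
  · rintro ⟨d, ⟨hd, rfl⟩, rfl⟩
    exact hd
  · intro h
    exact ⟨(a, b), ⟨h, rfl⟩, rfl⟩

theorem mem_petTT {s : SSt} {d : Lit × Lit} {c : Lit} :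
    c ∈ petTT s d ↔ (d.1, d.2, c) ∈ s.2.2 := by
  unfold petTT
  simp only [List.mem_map, List.mem_filter, Bool.and_eq_true, decide_eq_true_eq]
  constructor
  · rintro ⟨e, ⟨he, h1, h2⟩, rfl⟩
    rw [← h1, ← h2]
    exact he
  · intro h
    exact ⟨(d.1, d.2, c), ⟨h, rfl, rfl⟩, rfl⟩

theorem mem_petT {s : SSt} {a : Lit} {d : Lit × Lit} : d ∈ petT s a ↔ (a, d) ∈ s.2.2 := by
  unfold petT
  simp only [List.mem_map, List.mem_filter, decide_eq_true_eq]
  constructor
  · rintro ⟨e, ⟨he, rfl⟩, rfl⟩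
    exact he
  · intro h
    exact ⟨(a, d), ⟨h, rfl⟩, rfl⟩

theorem nodup_map_filter {β γ : Type} {l : List β} (hl : l.Nodup) (p : β → Bool) (f : β → γ)
    (h : ∀ x ∈ l, ∀ y ∈ l, p x = true → p y = true → f x = f y → x = y) :
    ((l.filter p).map f).Nodup := by
  refine List.Nodup.map_on ?_ (hl.filter p)
  intro x hx y hy hxy
  rw [List.mem_filter] at hx hy
  exact h x hx.1 y hy.1 hx.2 hy.2 hxy

theorem nodup_petD {s : SSt} (h : s.2.1.Nodup) (a : Lit) : (petD s a).Nodup := by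
  unfold petD
  refine nodup_map_filter h _ _ ?_
  intro x _ y _ hx hy hxy
  rw [decide_eq_true_eq] at hx hy
  exact Prod.ext (hx.trans hy.symm) hxy

theorem nodup_petTT {s : SSt} (h : s.2.2.Nodup) (d : Lit × Lit) : (petTT s d).Nodup := by
  unfold petTT
  refine nodup_map_filter h _ _ ?_
  intro x _ y _ hx hy hxy
  rw [Bool.and_eq_true, decide_eq_true_eq, decide_eq_true_eq] at hx hy
  exact Prod.ext (hx.1.trans hy.1.symm) (Prod.ext (hx.2.trans hy.2.symm) hxy)

theorem nodup_petT {s : SSt} (h : s.2.2.Nodup) (a : Lit) : (petT s a).Nodup := by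
  unfold petT
  refine nodup_map_filter h _ _ ?_
  intro x _ y _ hx hy hxy
  rw [decide_eq_true_eq] at hx hy
  exact Prod.ext (hx.trans hy.symm) hxy

theorem head_filter_some {β : Type} {l : List β} {p : β → Bool} {a : β}
    (h : (l.filter p).head? = some a) : a ∈ l ∧ p a = true := by
  have h1 : a ∈ l.filter p := List.mem_of_mem_head? (by rw [h]; exact rfl)
  rwa [List.mem_filter] at h1

theorem head_filter_none {β : Type} {l : List β} {p : β → Bool}
    (h : (l.filter p).head? = none) (a : β) (ha : a ∈ l) : ¬ p a = true := by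
  rw [List.head?_eq_none_iff, List.filter_eq_nil_iff] at h
  exact h a ha

theorem ruleA_some {n p : ℕ} {s : SSt} {a : Lit} (h : ruleA n p s = some a) :
    a.1 < n ∧ p ≤ (petD s a).length := by
  have h1 := head_filter_some h
  rwa [mem_lits, decide_eq_true_eq] at h1

theorem ruleA_none {n p : ℕ} {s : SSt} (h : ruleA n p s = none) (a : Lit) (ha : a.1 < n) :
    (petD s a).length < p := by
  have h1 := head_filter_none h a (mem_lits.2 ha)
  rwa [decide_eq_true_eq, not_le] at h1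

theorem ruleB_some {n p : ℕ} {s : SSt} {d : Lit × Lit} (h : ruleB n p s = some d) :
    (d.1.1 < n ∧ d.2.1 < n) ∧ p ≤ (petTT s d).length := by
  have h1 := head_filter_some h
  rwa [mem_pairsL, decide_eq_true_eq] at h1

theorem ruleB_none {n p : ℕ} {s : SSt} (h : ruleB n p s = none) (d : Lit × Lit)
    (hd : d.1.1 < n ∧ d.2.1 < n) : (petTT s d).length < p := by
  have h1 := head_filter_none h d (mem_pairsL.2 hd)
  rwa [decide_eq_true_eq, not_le] at h1

theorem ruleC_some {n q : ℕ} {s : SSt} {a : Lit} (h : ruleC n q s = some a) :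
    a.1 < n ∧ q ≤ (petT s a).length := by
  have h1 := head_filter_some h
  rwa [mem_lits, decide_eq_true_eq] at h1

theorem ruleC_none {n q : ℕ} {s : SSt} (h : ruleC n q s = none) (a : Lit) (ha : a.1 < n) :
    (petT s a).length < q := by
  have h1 := head_filter_none h a (mem_lits.2 ha)
  rwa [decide_eq_true_eq, not_le] at h1

/-- The four forms of a step. -/
theorem step_forms (n p q : ℕ) (s : SSt) :
    (∃ a, ruleA n p s = some a ∧ stepS n p q s = [addU n s [a], addU n s (petD s a)]) ∨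
    (ruleA n p s = none ∧ ∃ d, ruleB n p s = some d ∧
      stepS n p q s = [addP n s [d, (d.2, d.1)], addU n s (petTT s d)]) ∨
    (ruleA n p s = none ∧ ruleB n p s = none ∧ ∃ a, ruleC n q s = some a ∧
      stepS n p q s = [addU n s [a], addP n s (petT s a)]) ∨
    (IsLeaf n p q s ∧ stepS n p q s = [s]) := by
  unfold stepS IsLeaf
  cases h1 : ruleA n p s with
  | some a => left; exact ⟨a, rfl, rfl⟩
  | none =>
    right
    cases h2 : ruleB n p s with
    | some d => left; exact ⟨rfl, d, rfl, rfl⟩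
    | none =>
      right
      cases h3 : ruleC n q s with
      | some a => left; exact ⟨rfl, rfl, a, rfl, rfl⟩
      | none => right; exact ⟨⟨rfl, rfl, rfl⟩, rfl⟩

end Pool.Agent.Work.MP_8491f2_lc
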