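import Pool.Agent.Work.MP_8491f2_lc.SpGrd

/-!
Sparsification: the invariants are preserved.
-/

set_option autoImplicit false

namespace Pool.Agent.Work.MP_8491f2_lc

open Pool.Agent.Work.PolyTime

theorem inv_init (n p : ℕ) (φ : List Clause3) : SInv n p (initS n φ) where
  subU := List.nil_sublist _
  subD := List.nil_sublist _
  subT := List.filter_sublist
  symD := fun a b h => by
    exact absurd h List.not_mem_nil
  symT := fun a b c h => by
    unfold initS at h ⊢
    simp only [List.mem_filter, mem_tripsL, Bool.or_eq_true, memB_iff] at h ⊢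
    tauto
  clDU := fun a b h => by
    exact absurd h List.not_mem_nil
  clTU := fun a b c _ => List.not_mem_nil
  clTD := fun a b c _ => List.not_mem_nil
  deg := fun a => Nat.zero_le _

theorem inv_addU {n p : ℕ} {s : SSt} (h : SInv n p s) (N : List Lit) :
    SInv n p (addU n s N) where
  subU := List.filter_sublist
  subD := List.filter_sublist.trans h.subD
  subT := List.filter_sublist.trans h.subT
  symD := fun a b hab => by
    rw [mem_addU_D] at hab ⊢
    exact ⟨h.symD a b hab.1, hab.2.2, hab.2.1⟩
  symT := fun a b c habc => by
    rw [mem_addU_T] at habc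
    rw [mem_addU_T, mem_addU_T]
    obtain ⟨h1, h2, h3, h4⟩ := habc
    obtain ⟨h5, h6⟩ := h.symT a b c h1
    exact ⟨⟨h5, h3, h2, h4⟩, ⟨h6, h2, h4, h3⟩⟩
  clDU := fun a b hab => by
    rw [mem_addU_D] at hab
    exact hab.2.1
  clTU := fun a b c habc => by
    rw [mem_addU_T] at habc
    exact habc.2.1
  clTD := fun a b c habc hab => by
    rw [mem_addU_T] at habc
    rw [mem_addU_D] at hab
    exact h.clTD a b c habc.1 hab.1
  deg := fun a => by
    refine le_trans ?_ (h.deg a)
    unfold petD
    rw [List.length_map, List.length_map]
    exact (List.filter_sublist.filter _).length_le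

/-- Adding 2-clauses that contain no unit clause, provided that the degrees stay small. -/
theorem inv_addP {n p : ℕ} {s : SSt} (h : SInv n p s) (N : List (Lit × Lit))
    (hsym : ∀ a b, (a, b) ∈ N → (b, a) ∈ N) (hU : ∀ a b, (a, b) ∈ N → a ∉ s.1)
    (hdeg : ∀ a, (petD s a).length + ((N.dedup.filter fun d => decide (d.1 = a)).length) ≤ 2 * p) :
    SInv n p (addP n s N) where
  subU := h.subU
  subD := List.filter_sublist
  subT := List.filter_sublist.trans h.subT
  symD := fun a b hab => by
    change (a, b) ∈ newD n s N at hab
    change (b, a) ∈ newD n s N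
    rw [mem_newD] at hab ⊢
    obtain ⟨⟨h1, h2⟩, h3⟩ := hab
    exact ⟨⟨h2, h1⟩, h3.imp (h.symD a b) (hsym a b)⟩
  symT := fun a b c habc => by
    rw [mem_addP_T] at habc
    rw [mem_addP_T, mem_addP_T]
    obtain ⟨h1, h2⟩ := habc
    obtain ⟨h5, h6⟩ := h.symT a b c h1
    refine ⟨⟨h5, fun h7 => h2 ?_⟩, ⟨h6, fun h7 => h2 ?_⟩⟩
    · obtain ⟨d, hd, hd1, hd2⟩ := h7
      refine ⟨d, hd, ?_, ?_⟩
      · simp only at hd1 ⊢; tauto
      · simp only at hd2 ⊢; tauto
    · obtain ⟨d, hd, hd1, hd2⟩ := h7
      refine ⟨d, hd, ?_, ?_⟩
      · simp only at hd1 ⊢; tauto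
      · simp only at hd2 ⊢; tauto
  clDU := fun a b hab => by
    change (a, b) ∈ newD n s N at hab
    rw [mem_newD] at hab
    rcases hab.2 with h1 | h1
    · exact h.clDU a b h1
    · exact hU a b h1
  clTU := fun a b c habc => by
    rw [mem_addP_T] at habc
    exact h.clTU a b c habc.1
  clTD := fun a b c habc hab => by
    rw [mem_addP_T] at habc
    exact habc.2 ⟨(a, b), hab, Or.inl rfl, Or.inr (Or.inl rfl)⟩
  deg := fun a => by
    refine le_trans ?_ (hdeg a)
    unfold petD
    rw [List.length_map, List.length_map, ← List.length_append]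
    refine List.Subperm.length_le (List.Nodup.subperm ?_ ?_)
    · exact ((nodup_pairsL n).filter _).filter _
    · intro d hd
      change d ∈ (newD n s N).filter _ at hd
      rw [List.mem_filter, mem_newD] at hd
      rw [List.mem_append, List.mem_filter, List.mem_filter, List.mem_dedup]
      rcases hd.1.2 with h1 | h1
      · exact Or.inl ⟨h1, hd.2⟩
      · exact Or.inr ⟨h1, hd.2⟩

theorem petD_lt {n p : ℕ} (hp : 1 ≤ p) {s : SSt} (h : SInv n p s) (hA : ruleA n p s = none)
    (a : Lit) : (petD s a).length < p := by
  by_cases ha : a.1 < n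
  · exact ruleA_none hA a ha
  · have h1 : petD s a = [] := by
      rw [List.eq_nil_iff_forall_not_mem]
      intro b hb
      rw [mem_petD] at hb
      exact ha (mem_pairsL.1 (h.subD.subset hb)).1
    rw [h1]
    exact hp

theorem petTT_lt {n p : ℕ} (hp : 1 ≤ p) {s : SSt} (h : SInv n p s) (hB : ruleB n p s = none)
    (d : Lit × Lit) : (petTT s d).length < p := by
  by_cases ha : d.1.1 < n ∧ d.2.1 < n
  · exact ruleB_none hB d ha
  · have h1 : petTT s d = [] := by
      rw [List.eq_nil_iff_forall_not_mem]
      intro b hb
      rw [mem_petTT] at hb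
      have h2 := mem_tripsL.1 (h.subT.subset hb)
      exact ha ⟨h2.1, h2.2.1⟩
    rw [h1]
    exact hp

/-- Rule B: before the step all degrees are `< p`, and one petal is added to at most two hearts
(`N = [d, (d.2, d.1)]`; if `d.1 = d.2` then `N.dedup = [d]`). Rule C: before the step all degrees
are `< p` and the heart `x` gets the petals `petTT s (a, x)`, less than `p` of them. -/
theorem inv_step {n p : ℕ} (q : ℕ) (hp : 1 ≤ p) {s : SSt} (h : SInv n p s) :
    ∀ s' ∈ stepS n p q s, SInv n p s' := by
  intro s' hs'
  rcases step_forms n p q s with ⟨a, ha, hst⟩ | ⟨hA, d, hd, hst⟩ | ⟨hA, hB, a, ha, hst⟩ |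
    ⟨hl, hst⟩
  · rw [hst] at hs'
    simp only [List.mem_cons, List.not_mem_nil, or_false] at hs'
    rcases hs' with rfl | rfl
    · exact inv_addU h _
    · exact inv_addU h _
  · rw [hst] at hs'
    simp only [List.mem_cons, List.not_mem_nil, or_false] at hs'
    rcases hs' with rfl | rfl
    · obtain ⟨hdn, hdp⟩ := ruleB_some hd
      obtain ⟨c, hc⟩ : ∃ c, c ∈ petTT s d := List.exists_mem_of_length_pos (by omega)
      rw [mem_petTT] at hc
      refine inv_addP h _ ?_ ?_ ?_
      · intro a b hab
        simp only [List.mem_cons, List.not_mem_nil, or_false] at hab ⊢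
        rcases hab with rfl | hab
        · exact Or.inr rfl
        · rw [Prod.mk.injEq] at hab
          left
          rw [hab.1, hab.2]
      · intro a b hab
        simp only [List.mem_cons, List.not_mem_nil, or_false] at hab
        rcases hab with rfl | hab
        · exact h.clTU _ _ _ hc
        · rw [Prod.mk.injEq] at hab
          rw [hab.1]
          exact h.clTU _ _ _ (h.symT _ _ _ hc).1
      · intro a
        have h1 := petD_lt hp h hA a
        have h2 : (([d, (d.2, d.1)].dedup).filter fun d => decide (d.1 = a)).length ≤ 1 := by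
          have h3 : ∃ x0 : Lit × Lit, ∀ x ∈ (([d, (d.2, d.1)].dedup).filter fun d =>
              decide (d.1 = a)), x ∈ [x0] := by
            by_cases hda : d.1 = a
            · refine ⟨d, fun x hx => ?_⟩
              rw [List.mem_filter, List.mem_dedup, decide_eq_true_eq] at hx
              simp only [List.mem_cons, List.not_mem_nil, or_false] at hx ⊢
              obtain ⟨rfl | rfl, hx2⟩ := hx
              · rfl
              · simp only at hx2
                exact Prod.ext (hx2.trans hda.symm) (hda.trans hx2.symm)
            · refine ⟨(d.2, d.1), fun x hx => ?_⟩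
              rw [List.mem_filter, List.mem_dedup, decide_eq_true_eq] at hx
              simp only [List.mem_cons, List.not_mem_nil, or_false] at hx ⊢
              obtain ⟨rfl | rfl, hx2⟩ := hx
              · exact absurd hx2 hda
              · rfl
          obtain ⟨x0, hx0⟩ := h3
          exact (List.Nodup.subperm ((List.nodup_dedup _).filter _) hx0).length_le
        omega
    · exact inv_addU h _
  · rw [hst] at hs'
    simp only [List.mem_cons, List.not_mem_nil, or_false] at hs'
    rcases hs' with rfl | rfl
    · exact inv_addU h _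
    · refine inv_addP h _ ?_ ?_ ?_
      · intro x y hxy
        rw [mem_petT] at hxy ⊢
        exact (h.symT _ _ _ hxy).2
      · intro x y hxy
        rw [mem_petT] at hxy
        exact h.clTU _ _ _ (h.symT _ _ _ hxy).1
      · intro x
        have h1 := petD_lt hp h hA x
        have h2 := petTT_lt hp h hB (a, x)
        have h3 : ((petT s a).dedup.filter fun d => decide (d.1 = x)).length ≤
            (petTT s (a, x)).length := by
          rw [← List.length_map (f := fun d : Lit × Lit => d.2)]
          refine List.Subperm.length_le (List.Nodup.subperm ?_ ?_)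
          · refine nodup_map_filter (List.nodup_dedup _) _ _ ?_
            intro y _ z _ hy hz hyz
            rw [decide_eq_true_eq] at hy hz
            exact Prod.ext (hy.trans hz.symm) hyz
          · intro y hy
            rw [List.mem_map] at hy
            obtain ⟨d, hd, rfl⟩ := hy
            rw [List.mem_filter, List.mem_dedup, decide_eq_true_eq, mem_petT] at hd
            rw [mem_petTT]
            obtain ⟨d1, d2⟩ := d
            simp only at hd ⊢
            rw [← hd.2]
            exact hd.1
        omega
  · rw [hst, List.mem_singleton] at hs'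
    rw [hs']
    exact h

end Pool.Agent.Work.MP_8491f2_lc
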