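import Pool.Agent.Work.MP_8491f2_lc.SpInv

/-!
Sparsification: the potential.
-/

set_option autoImplicit false

namespace Pool.Agent.Work.MP_8491f2_lc

private theorem pot_len_le {α β : Type} [DecidableEq α] (f : β → α) :
    ∀ (L : List α) (D : List β), (∀ d ∈ D, f d ∈ L) →
      D.length ≤ (L.map fun a => (D.filter fun d => decide (f d = a)).length).sum := by
  intro L
  induction L with
  | nil =>
    intro D hD
    cases D with
    | nil => simp
    | cons d D => exact absurd (hD d (by simp)) (by simp)
  | cons a L ih =>
    intro D hD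
    have h1 : D.length = (D.filter fun d => decide (f d = a)).length +
        (D.filter fun d => !(decide (f d = a))).length := by
      clear ih hD
      induction D with
      | nil => rfl
      | cons d D ihD =>
        by_cases h : f d = a
        · rw [List.filter_cons_of_pos (by simpa using h), List.filter_cons_of_neg (by simpa using h)]
          simp only [List.length_cons]
          omega
        · rw [List.filter_cons_of_neg (by simpa using h), List.filter_cons_of_pos (by simpa using h)]
          simp only [List.length_cons]
          omega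
    have h2 := ih (D.filter fun d => !(decide (f d = a))) (by
      intro d hd
      rw [List.mem_filter] at hd
      have h3 := hD d hd.1
      rw [List.mem_cons] at h3
      rcases h3 with h3 | h3
      · simp [h3] at hd
      · exact h3)
    rw [List.map_cons, List.sum_cons, h1]
    refine Nat.add_le_add_left (h2.trans ?_) _
    apply List.sum_le_sum
    intro b _
    have h4 : (D.filter fun d => !(decide (f d = a))).Sublist D := List.filter_sublist
    exact (h4.filter _).length_le

private theorem pot_count {n p : ℕ} {s : SSt} (h : SInv n p s) (L : List Lit)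
    (D : List (Lit × Lit)) (hD : D.Sublist s.2.1) (hL : ∀ d ∈ D, d.1 ∈ L) :
    D.length ≤ 2 * p * L.length := by
  refine (pot_len_le (fun d : Lit × Lit => d.1) L D hL).trans ?_
  have h1 : ∀ x ∈ (L.map fun a => (D.filter fun d => decide (d.1 = a)).length), x ≤ 2 * p := by
    intro x hx
    rw [List.mem_map] at hx
    obtain ⟨a, _, rfl⟩ := hx
    have h2 := h.deg a
    unfold petD at h2
    rw [List.length_map] at h2
    exact ((hD.filter _).length_le).trans h2
  have h3 := List.sum_le_card_nsmul _ _ h1
  rw [List.length_map, smul_eq_mul] at h3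
  rw [Nat.mul_comm]
  exact h3

/-- The number of 2-clauses is the sum of the degrees. -/
theorem length_D_le {n p : ℕ} {s : SSt} (h : SInv n p s) : s.2.1.length ≤ 4 * n * p := by
  have h1 := pot_count h (lits n) s.2.1 (List.Sublist.refl _) (by
    intro d hd
    have := mem_pairsL.1 (h.subD.subset hd)
    exact mem_lits.2 this.1)
  rw [length_lits] at h1
  calc s.2.1.length ≤ 2 * p * (2 * n) := h1
    _ = 4 * n * p := by ring

private theorem pot_union {α : Type} [DecidableEq α] {U N V : List α} (hU : U.Nodup)
    (hN : N.Nodup) (hd : ∀ a ∈ N, a ∉ U) (hUV : ∀ a ∈ U, a ∈ V) (hNV : ∀ a ∈ N, a ∈ V) :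
    U.length + N.length ≤ V.length := by
  have h1 : (U ++ N).Nodup := by
    rw [List.nodup_append]
    refine ⟨hU, hN, fun a ha b hb hab => ?_⟩
    subst hab
    exact hd a hb ha
  have h2 : (U ++ N).Subperm V := List.subperm_of_subset h1 (by
    intro a ha
    rw [List.mem_append] at ha
    exact ha.elim (hUV a) (hNV a))
  have := h2.length_le
  rwa [List.length_append] at this

private theorem pot_union' {α : Type} [DecidableEq α] {U N V : List α} (hV : V.Nodup)
    (hVs : ∀ a ∈ V, a ∈ U ∨ a ∈ N) : V.length ≤ U.length + N.length := by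
  have h2 : V.Subperm (U ++ N) := List.subperm_of_subset hV (by
    intro a ha
    rw [List.mem_append]
    exact hVs a ha)
  have := h2.length_le
  rwa [List.length_append] at this

/-- Adding `k` new unit clauses: `|U|` grows by exactly `k`, and at most `4 p k` 2-clauses are
removed (those with a new literal in the first or second place; `h.clDU` and `h.symD` show that
no other 2-clause is removed). -/
theorem psi_addU {n p : ℕ} {s : SSt} (h : SInv n p s) (N : List Lit) (hN : N.Nodup)
    (hN' : ∀ a ∈ N, a.1 < n ∧ a ∉ s.1) :
    psi n p (addU n s N) + 12 * p * N.length ≤ psi n p s := by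
  have hUn : s.1.Nodup := (nodup_lits n).sublist h.subU
  have hDn : s.2.1.Nodup := (nodup_pairsL n).sublist h.subD
  -- the unit clauses
  have hU' : s.1.length + N.length ≤ (newU n s N).length := by
    refine pot_union hUn hN (fun a ha => (hN' a ha).2) ?_ ?_
    · intro a ha
      exact mem_newU.2 ⟨mem_lits.1 (h.subU.subset ha), Or.inl ha⟩
    · intro a ha
      exact mem_newU.2 ⟨(hN' a ha).1, Or.inr ha⟩
  have hU2 : (newU n s N).length ≤ 2 * n := by
    rw [← length_lits n]
    unfold newU
    exact List.length_filter_le _ _
  -- the 2-clauses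
  have hD1 := length_D_le h
  have hkey : s.2.1.length ≤ (addU n s N).2.1.length + 4 * p * N.length := by
    set A := s.2.1.filter (fun d => decide (d.1 ∈ N)) with hA
    set B := s.2.1.filter (fun d => decide (d.2 ∈ N)) with hB
    have hAl : A.length ≤ 2 * p * N.length := by
      refine pot_count h N A List.filter_sublist ?_
      intro d hd
      rw [hA, List.mem_filter, decide_eq_true_eq] at hd
      exact hd.2
    have hBl : B.length ≤ 2 * p * N.length := by
      have h1 : B.length ≤ A.length := by
        have hBn : (B.map Prod.swap).Nodup :=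
          (hDn.filter _).map Prod.swap_injective
        have h2 : (B.map Prod.swap).Subperm A := by
          refine List.subperm_of_subset hBn ?_
          intro d hd
          rw [List.mem_map] at hd
          obtain ⟨e, he, rfl⟩ := hd
          rw [hB, List.mem_filter, decide_eq_true_eq] at he
          rw [hA, List.mem_filter, decide_eq_true_eq]
          exact ⟨h.symD e.1 e.2 he.1, he.2⟩
        have := h2.length_le
        rwa [List.length_map] at this
      exact h1.trans hAl
    have h3 : s.2.1.length ≤ (addU n s N).2.1.length + (A ++ B).length := by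
      refine pot_union' hDn ?_
      intro d hd
      by_cases h1 : d.1 ∈ newU n s N
      · right
        rw [List.mem_append]
        left
        rw [hA, List.mem_filter, decide_eq_true_eq]
        refine ⟨hd, ?_⟩
        have h2 := (mem_newU.1 h1).2
        exact h2.resolve_left (h.clDU d.1 d.2 hd)
      · by_cases h2 : d.2 ∈ newU n s N
        · right
          rw [List.mem_append]
          right
          rw [hB, List.mem_filter, decide_eq_true_eq]
          refine ⟨hd, ?_⟩
          have h4 := (mem_newU.1 h2).2
          exact h4.resolve_left (h.clDU d.2 d.1 (h.symD d.1 d.2 hd))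
        · left
          exact mem_addU_D.2 ⟨hd, h1, h2⟩
    rw [List.length_append] at h3
    have e : 4 * p * N.length = 2 * p * N.length + 2 * p * N.length := by ring
    omega
  have hD2 : (addU n s N).2.1.length ≤ s.2.1.length := by
    unfold addU
    exact List.length_filter_le _ _
  unfold psi
  have e1 : (addU n s N).1.length = (newU n s N).length := rfl
  rw [e1]
  set u := s.1.length
  set u' := (newU n s N).length
  set k := N.length
  obtain ⟨r, hr⟩ : ∃ r, 2 * n - u = (2 * n - u') + k + r := ⟨2 * n - u - ((2 * n - u') + k), by omega⟩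
  rw [hr]
  have e2 : 16 * p * (2 * n - u' + k + r) = 16 * p * (2 * n - u') + 12 * p * k + 4 * p * k +
      16 * p * r := by ring
  rw [e2]
  omega

/-- Adding 2-clauses, among them the new ones in `M`. -/
theorem psi_addP {n p : ℕ} {s : SSt} {N : List (Lit × Lit)} (h : SInv n p s)
    (h' : SInv n p (addP n s N)) (M : List (Lit × Lit)) (hM : M.Nodup) (hMN : ∀ d ∈ M, d ∈ N)
    (hM' : ∀ d ∈ M, d.1.1 < n ∧ d.2.1 < n ∧ d ∉ s.2.1) :
    psi n p (addP n s N) + M.length ≤ psi n p s := by
  have hDn : s.2.1.Nodup := (nodup_pairsL n).sublist h.subD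
  have h1 : s.2.1.length + M.length ≤ (addP n s N).2.1.length := by
    refine pot_union hDn hM (fun a ha => (hM' a ha).2.2) ?_ ?_
    · intro d hd
      exact mem_newD.2 ⟨mem_pairsL.1 (h.subD.subset hd), Or.inl hd⟩
    · intro d hd
      exact mem_newD.2 ⟨⟨(hM' d hd).1, (hM' d hd).2.1⟩, Or.inr (hMN d hd)⟩
  have h2 := length_D_le h'
  unfold psi
  have e1 : (addP n s N).1 = s.1 := rfl
  rw [e1]
  omega

theorem psi_init (n p : ℕ) (φ : List Clause3) : psi n p (initS n φ) = 36 * p * n := by
  unfold psi initS
  simp only [List.length_nil, Nat.sub_zero]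
  ring

/-- Rules A and B are of the first type (`12 p ≥ 1`), rule C is of the second type. -/
theorem step_pot {n p q : ℕ} (hp : 1 ≤ p) (hq : 1 ≤ q) {s : SSt} (h : SInv n p s) :
    (IsLeaf n p q s ∧ stepS n p q s = [s]) ∨ ∃ s1 s2, stepS n p q s = [s1, s2] ∧
      ((psi n p s1 + 1 ≤ psi n p s ∧ psi n p s2 + 12 * p * p ≤ psi n p s) ∨
        (psi n p s1 + 12 * p ≤ psi n p s ∧ psi n p s2 + q ≤ psi n p s)) := by
  have hDn : s.2.1.Nodup := (nodup_pairsL n).sublist h.subD
  have hTn : s.2.2.Nodup := (nodup_tripsL n).sublist h.subT
  have hinv := inv_step q hp h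
  rcases step_forms n p q s with ⟨a, ha, hst⟩ | ⟨-, d, hd, hst⟩ | ⟨-, -, a, ha, hst⟩ | hleaf
  · right
    refine ⟨_, _, hst, Or.inl ⟨?_, ?_⟩⟩
    · obtain ⟨h1, h2⟩ := ruleA_some ha
      have hne : petD s a ≠ [] := by
        intro h0
        rw [h0] at h2
        simp at h2
        omega
      obtain ⟨b, hb⟩ := List.exists_mem_of_ne_nil _ hne
      have h3 := h.clDU a b (mem_petD.1 hb)
      have h4 := psi_addU h [a] (List.nodup_singleton a) (by
        intro x hx
        rw [List.mem_singleton] at hx
        subst hx
        exact ⟨h1, h3⟩)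
      rw [List.length_singleton] at h4
      omega
    · obtain ⟨h1, h2⟩ := ruleA_some ha
      have h4 := psi_addU h (petD s a) (nodup_petD hDn a) (by
        intro b hb
        have hb' := mem_petD.1 hb
        have hb2 := h.symD a b hb'
        exact ⟨(mem_pairsL.1 (h.subD.subset hb2)).1, h.clDU b a hb2⟩)
      have h5 : 12 * p * p ≤ 12 * p * (petD s a).length := Nat.mul_le_mul_left _ h2
      omega
  · right
    obtain ⟨⟨h1, h1'⟩, h2⟩ := ruleB_some hd
    refine ⟨_, _, hst, Or.inl ⟨?_, ?_⟩⟩
    · have hne : petTT s d ≠ [] := by
        intro h0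
        rw [h0] at h2
        simp at h2
        omega
      obtain ⟨c, hc⟩ := List.exists_mem_of_ne_nil _ hne
      have h3 := h.clTD d.1 d.2 c (mem_petTT.1 hc)
      have h4 := psi_addP (N := [d, (d.2, d.1)]) h (hinv _ (by rw [hst]; simp)) [d]
        (List.nodup_singleton d)
        (by
          intro x hx
          rw [List.mem_singleton] at hx
          subst hx
          exact List.mem_cons_self) (by
        intro x hx
        rw [List.mem_singleton] at hx
        subst hx
        exact ⟨h1, h1', h3⟩)
      rw [List.length_singleton] at h4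
      exact h4
    · have h4 := psi_addU h (petTT s d) (nodup_petTT hTn d) (by
        intro c hc
        have hc' := mem_petTT.1 hc
        -- `(d.1, d.2, c)`, `(d.1, c, d.2)`, `(c, d.1, d.2)`
        have hc2 := (h.symT _ _ _ hc').2
        have hc3 := (h.symT _ _ _ hc2).1
        exact ⟨(mem_tripsL.1 (h.subT.subset hc3)).1, h.clTU _ _ _ hc3⟩)
      have h5 : 12 * p * p ≤ 12 * p * (petTT s d).length := Nat.mul_le_mul_left _ h2
      omega
  · right
    obtain ⟨h1, h2⟩ := ruleC_some ha
    refine ⟨_, _, hst, Or.inr ⟨?_, ?_⟩⟩
    · have hne : petT s a ≠ [] := by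
        intro h0
        rw [h0] at h2
        simp at h2
        omega
      obtain ⟨d, hd⟩ := List.exists_mem_of_ne_nil _ hne
      have h3 := h.clTU a d.1 d.2 (mem_petT.1 hd)
      have h4 := psi_addU h [a] (List.nodup_singleton a) (by
        intro x hx
        rw [List.mem_singleton] at hx
        subst hx
        exact ⟨h1, h3⟩)
      rw [List.length_singleton] at h4
      omega
    · have h4 := psi_addP h (hinv _ (by rw [hst]; simp)) (petT s a) (nodup_petT hTn a)
        (fun d hd => hd) (by
        intro d hd
        have hd' : (a, d.1, d.2) ∈ s.2.2 := mem_petT.1 hd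
        -- `(d.1, a, d.2)`, `(d.1, d.2, a)`
        have h5 := (h.symT _ _ _ hd').1
        have h6 := (h.symT _ _ _ h5).2
        have h7 := mem_tripsL.1 (h.subT.subset h6)
        exact ⟨h7.1, h7.2.1, h.clTD _ _ _ h6⟩)
      omega
  · exact Or.inl hleaf

end Pool.Agent.Work.MP_8491f2_lc
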