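import Pool.Agent.Work.MP_8491f2_lc.SpDefs
import Pool.Agent.Work.MP_8491f2_lc.BuildTime
import Pool.Agent.Work.PolyTime.NPClose

/-!
Sparsification: polynomial time.
-/

set_option autoImplicit false

namespace Pool.Agent.Work.MP_8491f2_lc

open Pool.Agent.Work.PolyTime

/-- Sublists have smaller codes. -/
theorem sz_sublist {β : Type} [Code β] {l l' : List β} (h : l.Sublist l') : sz l ≤ sz l' := by
  induction h with
  | slnil => exact le_rfl
  | cons a h ih => simp only [sz_cons]; omega
  | cons_cons a h ih => simp only [sz_cons]; omega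

section

variable {α : Type} [Code α]

@[fun_prop]
theorem ptime_lits {n : α → ℕ} (hn : PTime n) : PTime (fun a => lits (n a)) := by
  unfold lits
  exact PTime.flatMap (by fun_prop) (by fun_prop)

@[fun_prop]
theorem ptime_pairsL {n : α → ℕ} (hn : PTime n) : PTime (fun a => pairsL (n a)) := by
  unfold pairsL
  exact PTime.flatMap (by fun_prop) (PTime.map (by fun_prop) (by fun_prop))

@[fun_prop]
theorem ptime_tripsL {n : α → ℕ} (hn : PTime n) : PTime (fun a => tripsL (n a)) := by
  unfold tripsL
  exact PTime.flatMap (by fun_prop) (PTime.map (by fun_prop) (by fun_prop))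

@[fun_prop]
theorem ptime_newU {n : α → ℕ} {s : α → SSt} {N : α → List Lit} (hn : PTime n) (hs : PTime s)
    (hN : PTime N) : PTime (fun a => newU (n a) (s a) (N a)) := by
  unfold newU
  exact PTime.filter (by fun_prop) (by fun_prop)

@[fun_prop]
theorem ptime_addU {n : α → ℕ} {s : α → SSt} {N : α → List Lit} (hn : PTime n) (hs : PTime s)
    (hN : PTime N) : PTime (fun a => addU (n a) (s a) (N a)) := by
  unfold addU
  refine PTime.prodMk (by fun_prop) (PTime.prodMk (PTime.filter (by fun_prop) ?_)
    (PTime.filter (by fun_prop) ?_))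
  · fun_prop
  · fun_prop

@[fun_prop]
theorem ptime_inCl {l : α → Lit} {c : α → Clause3} (hl : PTime l) (hc : PTime c) :
    PTime (fun a => inCl (l a) (c a)) := by
  unfold inCl
  refine PTime.or (PTime.eq (by fun_prop) (by fun_prop)) (PTime.or
    (PTime.eq (by fun_prop) (by fun_prop)) (PTime.eq (by fun_prop) (by fun_prop)))

@[fun_prop]
theorem ptime_hitBy {D : α → List (Lit × Lit)} {c : α → Clause3} (hD : PTime D) (hc : PTime c) :
    PTime (fun a => hitBy (D a) (c a)) := by
  unfold hitBy
  exact PTime.any hD (by fun_prop)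

@[fun_prop]
theorem ptime_newD {n : α → ℕ} {s : α → SSt} {N : α → List (Lit × Lit)} (hn : PTime n)
    (hs : PTime s) (hN : PTime N) : PTime (fun a => newD (n a) (s a) (N a)) := by
  unfold newD
  exact PTime.filter (by fun_prop) (by fun_prop)

@[fun_prop]
theorem ptime_addP {n : α → ℕ} {s : α → SSt} {N : α → List (Lit × Lit)} (hn : PTime n)
    (hs : PTime s) (hN : PTime N) : PTime (fun a => addP (n a) (s a) (N a)) := by
  unfold addP
  refine PTime.prodMk (by fun_prop) (PTime.prodMk (by fun_prop)
    (PTime.filter (by fun_prop) ?_))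
  fun_prop

@[fun_prop]
theorem ptime_petD {s : α → SSt} {l : α → Lit} (hs : PTime s) (hl : PTime l) :
    PTime (fun a => petD (s a) (l a)) := by
  unfold petD
  refine PTime.map (PTime.filter (by fun_prop) (PTime.eq (by fun_prop) (by fun_prop))) ?_
  fun_prop

@[fun_prop]
theorem ptime_petTT {s : α → SSt} {d : α → Lit × Lit} (hs : PTime s) (hd : PTime d) :
    PTime (fun a => petTT (s a) (d a)) := by
  unfold petTT
  refine PTime.map (PTime.filter (by fun_prop) (PTime.and
    (PTime.eq (by fun_prop) (by fun_prop)) (PTime.eq (by fun_prop) (by fun_prop)))) ?_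
  fun_prop

@[fun_prop]
theorem ptime_petT {s : α → SSt} {l : α → Lit} (hs : PTime s) (hl : PTime l) :
    PTime (fun a => petT (s a) (l a)) := by
  unfold petT
  refine PTime.map (PTime.filter (by fun_prop) (PTime.eq (by fun_prop) (by fun_prop))) ?_
  fun_prop

@[fun_prop]
theorem ptime_ruleA {n p : α → ℕ} {s : α → SSt} (hn : PTime n) (hp : PTime p) (hs : PTime s) :
    PTime (fun a => ruleA (n a) (p a) (s a)) := by
  unfold ruleA
  refine PTime.headOpt (PTime.filter (by fun_prop) (PTime.natLe (by fun_prop)
    (PTime.length (by fun_prop))))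

@[fun_prop]
theorem ptime_ruleB {n p : α → ℕ} {s : α → SSt} (hn : PTime n) (hp : PTime p) (hs : PTime s) :
    PTime (fun a => ruleB (n a) (p a) (s a)) := by
  unfold ruleB
  refine PTime.headOpt (PTime.filter (by fun_prop) (PTime.natLe (by fun_prop)
    (PTime.length (by fun_prop))))

@[fun_prop]
theorem ptime_ruleC {n q : α → ℕ} {s : α → SSt} (hn : PTime n) (hq : PTime q) (hs : PTime s) :
    PTime (fun a => ruleC (n a) (q a) (s a)) := by
  unfold ruleC
  refine PTime.headOpt (PTime.filter (by fun_prop) (PTime.natLe (by fun_prop)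
    (PTime.length (by fun_prop))))

@[fun_prop]
theorem ptime_stepS {n p q : α → ℕ} {s : α → SSt} (hn : PTime n) (hp : PTime p) (hq : PTime q)
    (hs : PTime s) : PTime (fun a => stepS (n a) (p a) (q a) (s a)) := by
  unfold stepS
  refine ptime_elim (by fun_prop) (ptime_elim (by fun_prop) (ptime_elim (by fun_prop) ?_ ?_) ?_) ?_
  · fun_prop
  · fun_prop
  · fun_prop
  · fun_prop

@[fun_prop]
theorem ptime_initS {n : α → ℕ} {φ : α → List Clause3} (hn : PTime n) (hφ : PTime φ) :
    PTime (fun a => initS (n a) (φ a)) := by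
  unfold initS
  refine PTime.prodMk (PTime.const _) (PTime.prodMk (PTime.const _)
    (PTime.filter (by fun_prop) ?_))
  fun_prop

/-- The states consist of sublists of the lists of all literals, pairs, triples. -/
def SubS (n : ℕ) (s : SSt) : Prop :=
  s.1.Sublist (lits n) ∧ s.2.1.Sublist (pairsL n) ∧ s.2.2.Sublist (tripsL n)

theorem subS_addU {n : ℕ} {s : SSt} (h : SubS n s) (N : List Lit) : SubS n (addU n s N) :=
  ⟨List.filter_sublist, List.filter_sublist.trans h.2.1, List.filter_sublist.trans h.2.2⟩

theorem subS_addP {n : ℕ} {s : SSt} (h : SubS n s) (N : List (Lit × Lit)) :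
    SubS n (addP n s N) :=
  ⟨h.1, List.filter_sublist, List.filter_sublist.trans h.2.2⟩

theorem subS_init (n : ℕ) (φ : List Clause3) : SubS n (initS n φ) :=
  ⟨List.nil_sublist _, List.nil_sublist _, List.filter_sublist⟩

theorem subS_step {n p q : ℕ} {s : SSt} (h : SubS n s) : ∀ s' ∈ stepS n p q s, SubS n s' := by
  intro s' hs'
  unfold stepS at hs'
  cases h1 : ruleA n p s with
  | some a =>
    rw [h1] at hs'
    simp only [Option.elim_some, List.mem_cons, List.not_mem_nil, or_false] at hs'
    rcases hs' with rfl | rfl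
    · exact subS_addU h _
    · exact subS_addU h _
  | none =>
    rw [h1, Option.elim_none] at hs'
    cases h2 : ruleB n p s with
    | some d =>
      rw [h2] at hs'
      simp only [Option.elim_some, List.mem_cons, List.not_mem_nil, or_false] at hs'
      rcases hs' with rfl | rfl
      · exact subS_addP h _
      · exact subS_addU h _
    | none =>
      rw [h2, Option.elim_none] at hs'
      cases h3 : ruleC n q s with
      | some a =>
        rw [h3] at hs'
        simp only [Option.elim_some, List.mem_cons, List.not_mem_nil, or_false] at hs'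
        rcases hs' with rfl | rfl
        · exact subS_addU h _
        · exact subS_addP h _
      | none =>
        rw [h3, Option.elim_none, List.mem_singleton] at hs'
        rw [hs']
        exact h

theorem sz_subS {n : ℕ} {s : SSt} (h : SubS n s) :
    sz s ≤ 2 + sz (lits n) + sz (pairsL n) + sz (tripsL n) := by
  obtain ⟨U, D, T⟩ := s
  have h1 := sz_sublist h.1
  have h2 := sz_sublist h.2.1
  have h3 := sz_sublist h.2.2
  simp only [sz_pair] at *
  omega

theorem lvlS_aux (n p q P : ℕ) (φ : List Clause3) (l : List ℕ) :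
    sz (l.foldl (fun (l : List SSt) _ => (l.flatMap (stepS n p q)).take P) [initS n φ]) ≤
      1 + (P + 1) * (1 + (2 + sz (lits n) + sz (pairsL n) + sz (tripsL n))) := by
  have key : ∀ (l : List ℕ) (L : List SSt), L.length ≤ P + 1 → (∀ s ∈ L, SubS n s) →
      (l.foldl (fun (l : List SSt) _ => (l.flatMap (stepS n p q)).take P) L).length ≤ P + 1 ∧
      ∀ s ∈ l.foldl (fun (l : List SSt) _ => (l.flatMap (stepS n p q)).take P) L, SubS n s := by
    intro l
    induction l with
    | nil => intro L h1 h2; exact ⟨h1, h2⟩
    | cons b l ih =>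
      intro L h1 h2
      simp only [List.foldl_cons]
      refine ih _ ((List.length_take_le _ _).trans (by omega)) ?_
      intro s hs
      have hs2 := List.mem_of_mem_take hs
      rw [List.mem_flatMap] at hs2
      obtain ⟨s0, hs0, hs1⟩ := hs2
      exact subS_step (h2 s0 hs0) s hs1
  obtain ⟨h1, h2⟩ := key l [initS n φ] (by simp) (by
    intro s hs
    rw [List.mem_singleton] at hs
    rw [hs]
    exact subS_init n φ)
  refine (sz_list_le _ _ (fun s hs => sz_subS (h2 s hs))).trans ?_
  gcongr

/-- For the fold use `PTime.foldl` (see `ptime_lev` in `BuildTime`): all states are sublists of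
`lits n`, `pairsL n`, `tripsL n`. -/
theorem ptime_lvlS {n p q P K : α → ℕ} {φ : α → List Clause3} (hn : PTime n) (hp : PTime p)
    (hq : PTime q) (hP : PTime P) (hφ : PTime φ) (hK : PTime K) :
    PTime (fun a => lvlS (n a) (p a) (q a) (P a) (φ a) (K a)) := by
  have hB : PB (fun a => 1 + (P a + 1) * (1 + (2 + sz (lits (n a)) + sz (pairsL (n a)) +
      sz (tripsL (n a))))) := by
    have h1 : PB (fun a => sz (P a)) := hP.sz_le
    have h2 : PB (fun a => sz (lits (n a))) := (ptime_lits hn).sz_le
    have h3 : PB (fun a => sz (pairsL (n a))) := (ptime_pairsL hn).sz_le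
    have h4 : PB (fun a => sz (tripsL (n a))) := (ptime_tripsL hn).sz_le
    have h5 : PB (fun a => 1 + (sz (P a) + 1) * (1 + (2 + sz (lits (n a)) + sz (pairsL (n a)) +
        sz (tripsL (n a))))) :=
      (PB.const 1).add ((h1.add (PB.const 1)).mul ((PB.const 1).add
        ((((PB.const 2).add h2).add h3).add h4)))
    refine h5.mono (fun a => ?_)
    have e1 : P a ≤ sz (P a) := by rw [sz_nat]; omega
    gcongr
  have h := PTime.foldl (l := fun a => List.range (K a)) (s := fun a => [initS (n a) (φ a)])
    (f := fun y : α × List SSt × ℕ =>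
      (y.2.1.flatMap (stepS (n y.1) (p y.1) (q y.1))).take (P y.1))
    (by fun_prop) (by fun_prop) (PTime.take (PTime.flatMap (by fun_prop) (by fun_prop))
      (by fun_prop)) hB (fun x l' _ => lvlS_aux (n x) (p x) (q x) (P x) (φ x) l')
  exact h

theorem ptime_toCl {s : α → SSt} (hs : PTime s) : PTime (fun a => toCl (s a)) := by
  unfold toCl
  refine PTime.append (PTime.map (by fun_prop) (by fun_prop))
    (PTime.append (PTime.map (by fun_prop) ?_) (by fun_prop))
  fun_prop

end

end Pool.Agent.Work.MP_8491f2_lc
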