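import Pool.Agent.Work.MP_8491f2_lc.Defs

/-!
Depth-first layout of complete ternary trees.
-/

set_option autoImplicit false

namespace Pool.Agent.Work.MP_8491f2_lc

/-- The number with ternary digits `w` (least significant digit first). -/
def Word.num : Word → ℕ
  | [] => 0
  | a :: w => 3 * Word.num w + a.val

/-- First time at which the node `w` of the tree of depth `m` is alive. -/
def Word.lo (m : ℕ) (w : Word) : ℕ := w.num * 3 ^ (m - w.length)

/-- Last time at which the node `w` of the tree of depth `m` is alive. -/
def Word.hi (m : ℕ) (w : Word) : ℕ := w.num * 3 ^ (m - w.length) + (3 ^ (m - w.length) - 1)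

theorem Word.lo_le_hi (m : ℕ) (w : Word) : w.lo m ≤ w.hi m := by
  unfold Word.lo Word.hi
  exact Nat.le_add_right _ _

private theorem num_lt (w : Word) : w.num < 3 ^ w.length := by
  induction w with
  | nil => simp [Word.num]
  | cons a w ih =>
    have h1 := a.isLt
    simp only [Word.num, List.length_cons, pow_succ]
    omega

private theorem num_inj : ∀ (u w : Word), u.length = w.length → u.num = w.num → u = w := by
  intro u
  induction u with
  | nil =>
    intro w hl _
    exact (List.length_eq_zero_iff.mp hl.symm).symm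
  | cons a u ih =>
    intro w hl hn
    cases w with
    | nil => simp at hl
    | cons b w =>
      have h1 := a.isLt
      have h2 := b.isLt
      simp only [Word.num] at hn
      have h3 : a = b := Fin.ext (by omega)
      have h4 : u = w := ih w (by simpa using hl) (by omega)
      rw [h3, h4]

theorem Word.hi_lt {m : ℕ} {w : Word} (h : w.length ≤ m) : w.hi m < 3 ^ m := by
  have h1 := num_lt w
  have h2 : 3 ^ m = 3 ^ w.length * 3 ^ (m - w.length) := by
    rw [← pow_add]; congr 1; omega
  have h3 : 0 < 3 ^ (m - w.length) := pow_pos (by norm_num) _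
  have h4 : (w.num + 1) * 3 ^ (m - w.length) ≤ 3 ^ m := by
    rw [h2]
    exact Nat.mul_le_mul_right _ h1
  unfold Word.hi
  rw [Nat.add_mul, Nat.one_mul] at h4
  omega

/-- The interval of a child is contained in that of its parent. -/
theorem Word.child {m : ℕ} {w : Word} {a : Fin 3} (h : (a :: w).length ≤ m) :
    w.lo m ≤ Word.lo m (a :: w) ∧ Word.hi m (a :: w) ≤ w.hi m := by
  have ha := a.isLt
  rw [List.length_cons] at h
  have h2 : 3 ^ (m - w.length) = 3 * 3 ^ (m - (w.length + 1)) := by
    rw [← pow_succ']; congr 1; omega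
  have h3 : 0 < 3 ^ (m - (w.length + 1)) := pow_pos (by norm_num) _
  unfold Word.lo Word.hi
  rw [List.length_cons, Word.num, h2]
  generalize 3 ^ (m - (w.length + 1)) = q at h3 ⊢
  generalize Word.num w = n
  have e1 : n * (3 * q) = 3 * n * q := by ring
  have e2 : (3 * n + a.val) * q = 3 * n * q + a.val * q := by ring
  rw [e1, e2]
  have h4 : a.val * q ≤ 2 * q := Nat.mul_le_mul_right _ (by omega)
  constructor
  · omega
  · omega

/-- At each time at most one node of each depth is alive. -/
theorem Word.eq_of_alive {m t : ℕ} {u w : Word} (hu : u.length ≤ m) (hl : u.length = w.length)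
    (hu1 : u.lo m ≤ t) (hu2 : t ≤ u.hi m) (hw1 : w.lo m ≤ t) (hw2 : t ≤ w.hi m) : u = w := by
  apply num_inj u w hl
  unfold Word.lo at hu1 hw1
  unfold Word.hi at hu2 hw2
  rw [← hl] at hw1 hw2
  have h3 : 0 < 3 ^ (m - u.length) := pow_pos (by norm_num) _
  generalize 3 ^ (m - u.length) = q at *
  have e1 : t / q = u.num := by
    rw [Nat.div_eq_iff h3]
    constructor
    · exact hu1
    · omega
  have e2 : t / q = w.num := by
    rw [Nat.div_eq_iff h3]
    constructor
    · exact hw1
    · omega
  rw [← e1, ← e2]

/-- The weight of the nodes that are alive at the same time is at most `κ m + lam`. -/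
theorem Word.sum_alive_le {m t κ lam : ℕ} (A : Finset Word)
    (hA : ∀ w ∈ A, w.length ≤ m ∧ w.lo m ≤ t ∧ t ≤ w.hi m) :
    ∑ w ∈ A, (if w.length = m then lam else κ) ≤ κ * m + lam := by
  have hinj : Set.InjOn (fun w : Word => w.length) (A : Set Word) := by
    intro u hu w hw he
    exact Word.eq_of_alive (hA u hu).1 he (hA u hu).2.1 (hA u hu).2.2 (hA w hw).2.1 (hA w hw).2.2
  have h1 : ∑ w ∈ A, (if w.length = m then lam else κ) =
      ∑ l ∈ A.image (fun w : Word => w.length), (if l = m then lam else κ) := by
    rw [Finset.sum_image hinj]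
  have h2 : A.image (fun w : Word => w.length) ⊆ Finset.range (m + 1) := by
    intro l hl
    rw [Finset.mem_image] at hl
    obtain ⟨w, hw, rfl⟩ := hl
    rw [Finset.mem_range]
    exact Nat.lt_succ_of_le (hA w hw).1
  rw [h1]
  refine le_trans (Finset.sum_le_sum_of_subset h2) ?_
  rw [Finset.sum_range_succ, if_pos rfl]
  have h3 : ∑ x ∈ Finset.range m, (if x = m then lam else κ) = ∑ x ∈ Finset.range m, κ := by
    apply Finset.sum_congr rfl
    intro x hx
    rw [Finset.mem_range] at hx
    rw [if_neg (by omega)]
  rw [h3, Finset.sum_const, Finset.card_range, smul_eq_mul, Nat.mul_comm]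

end Pool.Agent.Work.MP_8491f2_lc
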